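import Pool.Agent.H91.FR.QEG

/-!
# Charts which are less precise than the natural ones

`hts0S`, `few_velS`, `few_velOkS`: the theorems `hts0G`, `few_velG`, `few_velOkG` for labels of a
precision between `sn - ρ'` and `sn`.
-/

set_option autoImplicit false

namespace Pool.LA91

open Finset Real MvPolynomial
open Pool.Agent.H49.Ent Pool.Agent.H32.Dense Pool.STK Pool.KA Pool.KSAT Pool.K2S Pool.PB Pool.GEN
open Pool.S6C Pool.RCD
open Pool.GRD (LbP)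

variable {m : ℕ} {U U' U₂ : Type} {α β γ : ∀ J : ℕ, Fam m J → Type}
  {f : ∀ (J : ℕ) (F : Fam m J), F.Ω → α J F} {g : ∀ (J : ℕ) (F : Fam m J), F.Ω → β J F}
  {y : ∀ (J : ℕ) (F : Fam m J), F.Ω → γ J F} {S : PCl m}

/-- A label of a larger precision. -/
theorem Att.le {S : PCl m} {I : Finset (Fin m)} {k : Fin m} {w p p' r : ℝ} (hw : w ≤ 1)
    (hp : p' ≤ p) (h : Att S I k w p r) : Att S I k w p' r := by
  intro e he
  obtain ⟨K, hK⟩ := h e he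
  refine ⟨K, Bas.mono 0 hK ?_⟩
  intro J _ F A hG
  have hJ : (0 : ℝ) ≤ J := Nat.cast_nonneg J
  exact hG.mono (Finset.Subset.refl _) le_rfl le_rfl le_rfl le_rfl (fl_le hw J) le_rfl
    (Nat.floor_le_floor (mul_le_mul_of_nonneg_right (by linarith) hJ))

/-- **The heights over less precise charts.** -/
theorem hts0S {C₀ : ℝ} (htm : TmC S C₀)
    (hpos : ∀ (τ : ℝ) (J : ℕ) (F : Fam m J) (A : F.Ω → Prop), S.St τ J F A → 0 < Pe F.p A)
    {c : ℕ → Fin m} {d : ℕ} {sn : ℕ → ℝ → ℝ} {G : Set ℝ} (hW : ChG S c d sn G)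
    (hf : ∀ (J : ℕ) (F : Fam m J), ∃ φ : α J F → PtT F, ∀ ω, ptr F J ω = φ (f J F ω))
    (hy : Kn ((range 0).image c) 1 1 y) {w o ow φ ρ₀ ρ' κ : ℝ} (hw : w ∈ G) (ho : o ∈ G)
    (hwo : w ≤ o) (how : o ≤ ow) (how1 : ow ≤ 1) (hφ : 0 ≤ φ) (hρ₀ : 0 ≤ ρ₀) (hρ' : 0 ≤ ρ')
    (hκ : 0 < κ) (hgap : ∀ x, w ≤ x → x ≤ o → ∃ v ∈ G, |v - x| ≤ ρ₀)
    (hfl : ∀ i < d, ∀ v ∈ G, w ≤ v → v ≤ o → |(sn i v - v) - (sn i o - o)| ≤ φ) {i : ℕ}
    (hi : i < d) {p : ℝ} (hp : sn i w - ρ' ≤ p) (hp' : p ≤ sn i w) {N : ℝ}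
    (hN : N ≤ sn i o - (i + 1) * (2 * φ + 2 * ρ₀ + κ + ρ')) :
    Few0 S f (vg ow) y (qJet m ((range i).image c) (c i) 0 w p N) := by
  obtain ⟨u₁, rd, hrd, hch⟩ := hW.ch w hw
  obtain ⟨u₂, rd₂, hrd₂, hch₂⟩ := hW.ch o ho
  have hw0 := hch.w0
  have hw1 := hch.u0
  have ho1 := hch₂.u0
  by_cases h1 : N ≤ p
  · refine few0_jet htm hw0 hw1 ?_ _ _ _
    push_cast
    linarith
  push Not at h1
  obtain ⟨κ', hκ'⟩ : ∃ κ' : ℝ, κ' = 2 * φ + 2 * ρ₀ + κ := ⟨_, rfl⟩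
  have hκ'0 : 0 < κ' := by rw [hκ']; positivity
  rw [← hκ'] at hN
  have hi0 : (0 : ℝ) ≤ i := Nat.cast_nonneg i
  have hiκ : 0 ≤ (i : ℝ) * κ' := by positivity
  have hiρ : 0 ≤ (i : ℝ) * ρ' := by positivity
  have f1 : ∀ l < d, |(sn l w - w) - (sn l o - o)| ≤ φ := fun l hl => hfl l hl w hw le_rfl hwo
  have fi := abs_le.1 (f1 i hi)
  have hbig : (i : ℝ) * κ' + κ' - φ < o - w := by linarith
  have hQ : ∀ l < d, ∀ N' : ℝ, N' ≤ sn l o - (l + 1) * κ' →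
      Few0 S f (vg ow) y (qJet m ((range l).image c) (c l) 0 w (sn l w) N') := by
    intro l hl N' hN'
    rw [hκ'] at hN'
    exact hts0G htm hpos hW hf hy hw ho hwo how how1 hφ hρ₀ hκ hgap hfl hl hN'
  obtain ⟨Nv, hNv⟩ : ∃ Nv : ℕ → ℝ, Nv = fun l => sn l o - (l + 1) * κ' := ⟨_, rfl⟩
  obtain ⟨lv, hlv⟩ : ∃ lv : ℕ → ℝ, lv = fun l => sn l o - (l + 1) * κ' - sn l w - κ / 2 :=
    ⟨_, rfl⟩
  have hQs : Few0 S f (vg ow) y (qJets m c 0 i 0 (fun _ _ => w)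
      (fun l _ => sn l w) (fun l _ => Nv l)) := by
    refine few_tQt hpos (few_qjets hpos fun l _ hl j' hj' => ?_)
    obtain rfl : j' = 0 := by omega
    refine Few0.few hpos (hQ l (by omega) _ ?_)
    rw [hNv]
  have hxs : Exs S (qJets m c 0 i 0 (fun _ _ => w) (fun l _ => sn l w)
      (fun l _ => Nv l)) := exs_qjets fun l _ hl j' _ =>
    exs_jet (hrd l (by omega)) (hch.att l (Nat.zero_le _) (by omega))
  have hx1 : Exs S (qJet m ((range i).image c) (c i) 0 w (sn i w) N) :=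
    exs_jet (hrd i hi) (hch.att i (Nat.zero_le _) hi)
  have hup : ∀ (J : ℕ) (F : Fam m J), ∃ φ : LnT F → LnT F, ∀ ω,
      vg w J F ω = φ (vg ow J F ω) :=
    fun J F => vg_mono (by linarith) how1 J F
  have hmin : min (1 : ℝ) (1 - w) = 1 - w := min_eq_right (by linarith)
  have hmin' : min (sn i w) p = p := min_eq_right hp'
  have hil : ∀ l l' : ℕ, l < l' → κ' ≤ ((l' : ℝ) - l) * κ' := by
    intro l l' hl
    have : (l : ℝ) + 1 ≤ l' := by exact_mod_cast hl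
    nlinarith
  have key := few_jetN (f := f) (y := y) htm (hch.take (Nat.zero_le i) hi.le) (k := c i)
    (j := 0) (wv := fun _ _ => w) (pv := fun l _ => sn l w) (Nv := fun l _ => Nv l)
    (lv := lv) (w₁ := w) (w₂ := w) (p₁ := sn i w) (p₂ := p)
    (N₁ := N) (N₂ := N) (p₀ := 1) (lam := 1) (σ₀ := κ / 2) (fun _ _ _ _ _ => le_rfl) le_rfl
    le_rfl hw1 le_rfl one_pos (by linarith) (by
      intro l _ hl
      have l1 := abs_le.1 (f1 l (by omega))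
      have l2 := hil l i hl
      rw [hlv]
      simp only
      linarith) (by
      intro l _ hl j' hj'
      obtain rfl : j' = 0 := by omega
      rw [hlv, hNv]
      simp only
      push_cast
      linarith) (by
      intro l _ hl j' hj'
      rw [hlv, hmin, min_self]
      simp only
      have l1 := abs_le.1 (f1 l (by omega))
      have l2 : 0 ≤ (l : ℝ) * κ' := by positivity
      linarith) (by
      intro l _ hl j' hj' l' _ hl'
      rw [hlv, min_self]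
      simp only
      have l1 := abs_le.1 (f1 l (by omega))
      have l2 := abs_le.1 (f1 l' (by omega))
      have l3 := hil l' l hl'
      linarith) le_rfl (by
      rw [hmin, hmin']
      push_cast
      linarith) (by
      intro l _ hl
      rw [hlv, hmin']
      simp only
      push_cast
      have l1 := abs_le.1 (f1 l (by omega))
      have l3 := hil l i hl
      linarith) hf hy
  have key2 := Few.up (f' := f) (y' := y) hpos (fun J F => ⟨fun x => x, fun _ => rfl⟩) hup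
    (fun J F => ⟨fun x => x, fun _ => rfl⟩) key
  refine Few0.trans hpos (Exs.prod hxs hx1) ?_ key2
  refine few_tQt hpos (Few.pair hpos (Few0.few hpos hQs) (Few0.few hpos (hQ i hi N ?_)))
  linarith

/-- **The velocity of a coordinate** over the charts of another window, less precise charts. -/
theorem few_velS {C₀ : ℝ} (htm : TmC S C₀)
    (hpos : ∀ (τ : ℝ) (J : ℕ) (F : Fam m J) (A : F.Ω → Prop), S.St τ J F A → 0 < Pe F.p A)
    {c : ℕ → Fin m} {d : ℕ} {sn s₁ : ℕ → ℝ → ℝ} {G : Set ℝ} (hW : ChG S c d sn G)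
    (hf : ∀ (J : ℕ) (F : Fam m J), ∃ φ : α J F → PtT F, ∀ ω, ptr F J ω = φ (f J F ω))
    (hy : Kn ((range 0).image c) 1 1 y) {w₁ w₂ W o ow : ℝ} {φ κ σ₀ ρ ρ₀ ρ' : ℝ} (a1 : w₁ ∈ G)
    (a2 : w₂ ∈ G) (aW : W ∈ G) (ao : o ∈ G) (b1 : w₁ ≤ W) (b2 : w₂ ≤ W) (hWo : W ≤ o)
    (how : o ≤ ow) (how1 : ow ≤ 1) (hφ : 0 ≤ φ) (hρ₀ : 0 ≤ ρ₀) (hρ' : 0 ≤ ρ')
    (hκ : 0 < κ) (hσ : 0 < σ₀) (r1 : W - ρ ≤ w₁) (r2 : W - ρ ≤ w₂)
    (hgap : ∀ x, w₁ ≤ x → x ≤ o → ∃ v ∈ G, |v - x| ≤ ρ₀)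
    (hfl : ∀ i < d, ∀ v ∈ G, W - ρ ≤ v → v ≤ o → |(sn i v - v) - (sn i o - o)| ≤ φ)
    (hs₁ : ∀ l < d, sn l w₁ - ρ' ≤ s₁ l w₁ ∧ s₁ l w₁ ≤ sn l w₁)
    {i : ℕ} (hi : i < d) {p₂ : ℝ} (hp : sn i w₂ - ρ' ≤ p₂) {N : ℕ → ℝ}
    {N₂ : ℝ} (hN : N₂ ≤ N i)
    (hts : ∀ l < i, N l + W ≤ sn l o - (l + 1) * (2 * φ + 2 * ρ₀ + κ + ρ'))
    (hex : p₂ - w₂ < N₂ →
      (∀ l < i, N₂ - (sn i W - W) + 2 * φ + ρ + ρ' + 2 * σ₀ ≤ N l - (sn l W - W)) ∧
      (∀ l' l, l' < l → l < i → N l - (sn l W - W) + 2 * φ + ρ + ρ' + σ₀ ≤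
        N l' - (sn l' W - W)) ∧
      (∀ l < i, N l - (sn l W - W) + 2 * φ + ρ + ρ' ≤ 1 - W) ∧
      (∀ l < i, σ₀ < N l - (sn l W - W)) ∧
      N₂ - (sn i W - W) + 2 * φ + ρ + ρ' + σ₀ ≤ 1 - W) :
    Few S f (vg ow) y (qG m c d s₁ w₁ (fun l => N l))
      (qJet m ((range i).image c) (c i) 1 w₂ p₂ N₂) := by
  obtain ⟨u₁, rd, hrd, hch⟩ := hW.ch W aW
  obtain ⟨u₂, rd₂, hrd₂, hch₂⟩ := hW.ch w₂ a2
  obtain ⟨u₃, rd₃, hrd₃, hch₃⟩ := hW.ch w₁ a1
  obtain ⟨u₄, rd₄, hrd₄, hch₄⟩ := hW.ch o ao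
  have hW0 := hch.w0
  have hW1 := hch.u0
  have ho1 := hch₄.u0
  by_cases h1 : p₂ - w₂ < N₂
  swap
  · refine Few0.few hpos (few0_jet htm hch₂.w0 hch₂.u0 ?_ _ _ _)
    push_cast
    linarith
  obtain ⟨h3, h4, h5, h6, h7⟩ := hex h1
  have hρ : 0 ≤ ρ := by linarith
  have f1 : ∀ l < d, sn l W - sn l w₁ ≤ ρ + 2 * φ ∧ sn l W - sn l w₂ ≤ ρ + 2 * φ ∧
      |(sn l w₁ - w₁) - (sn l o - o)| ≤ φ := by
    intro l hl
    have e1 := hfl l hl w₁ a1 r1 (b1.trans hWo)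
    have e2 := abs_le.1 (hfl l hl w₂ a2 r2 (b2.trans hWo))
    have e3 := abs_le.1 (hfl l hl W aW (by linarith) hWo)
    have e4 := abs_le.1 e1
    exact ⟨by linarith, by linarith, e1⟩
  -- the heights
  obtain ⟨Nv, hNv⟩ : ∃ Nv : ℕ → ℕ → ℝ, Nv = fun l j' => if j' = 0 then N l + W else N l :=
    ⟨_, rfl⟩
  obtain ⟨lv, hlv⟩ : ∃ lv : ℕ → ℝ, lv = fun l => N l - (sn l W - W) - σ₀ := ⟨_, rfl⟩
  have hQs : Few0 S f (vg ow) y (qJets m c 0 i 0 (fun _ _ => w₁)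
      (fun l _ => s₁ l w₁) Nv) := by
    refine few_tQt hpos (few_qjets hpos fun l _ hl j' hj' => ?_)
    obtain rfl : j' = 0 := by omega
    refine Few0.few hpos ?_
    refine hts0S htm hpos hW hf hy (w := w₁) (o := o) (φ := φ) (κ := κ) (ρ₀ := ρ₀) (ρ' := ρ')
      a1 ao (b1.trans hWo) how how1 hφ hρ₀ hρ' hκ hgap
      (fun i hi v hv e1 e2 => hfl i hi v hv (r1.trans e1) e2) (by omega)
      (hs₁ l (by omega)).1 (hs₁ l (by omega)).2 ?_
    rw [hNv]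
    simp only [if_pos]
    exact hts l hl
  have hxs : Exs S (qJets m c 0 i 0 (fun _ _ => w₁) (fun l _ => s₁ l w₁) Nv) :=
    exs_qjets fun l _ hl j' _ => exs_jet (hrd₃ l (by omega))
      ((hch₃.att l (Nat.zero_le _) (by omega)).le hch₃.u0.le (hs₁ l (by omega)).2)
  have hup : ∀ (J : ℕ) (F : Fam m J), ∃ φ : LnT F → LnT F, ∀ ω,
      vg W J F ω = φ (vg ow J F ω) :=
    fun J F => vg_mono (by linarith) how1 J F
  have hmin : min (1 : ℝ) (1 - W) = 1 - W := min_eq_right (by linarith)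
  have key := few_jetN (f := f) (y := y) htm (hch.take (Nat.zero_le i) hi.le) (k := c i)
    (j := 1) (wv := fun _ _ => w₁) (pv := fun l _ => s₁ l w₁) (Nv := Nv)
    (lv := lv) (w₁ := w₁) (w₂ := w₂) (p₁ := s₁ i w₁) (p₂ := p₂)
    (N₁ := N i) (N₂ := N₂) (p₀ := 1) (lam := 1) (σ₀ := σ₀) (fun _ _ _ _ _ => b1)
    b1 b2 hW1 le_rfl one_pos hσ (by
      intro l _ hl
      rw [hlv]
      simp only
      linarith [h6 l hl]) (by
      intro l _ hl j' hj'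
      rw [hlv, hNv]
      simp only
      rcases Nat.eq_zero_or_pos j' with rfl | hj
      · simp only [if_pos]
        push_cast
        linarith
      · obtain rfl : j' = 1 := by omega
        simp only [one_ne_zero, if_false]
        push_cast
        linarith) (by
      intro l _ hl j' hj'
      rw [hlv, hmin]
      simp only
      have l1 := (f1 l (by omega)).1
      have l0 := (hs₁ l (by omega)).1
      have l2 := h5 l hl
      rcases min_choice (s₁ l w₁) (sn l W) with h | h <;> rw [h] <;> linarith) (by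
      intro l _ hl j' hj' l' _ hl'
      rw [hlv]
      simp only
      have l1 := (f1 l (by omega)).1
      have l0 := (hs₁ l (by omega)).1
      have l2 := h4 l' l hl' hl
      rcases min_choice (s₁ l w₁) (sn l W) with h | h <;> rw [h] <;> linarith) hN (by
      rw [hmin]
      push_cast
      obtain ⟨l1, l2, -⟩ := f1 i hi
      have l0 := (hs₁ i hi).1
      rcases min_choice (s₁ i w₁) p₂ with h | h <;> rw [h] <;> linarith) (by
      intro l _ hl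
      rw [hlv]
      simp only
      push_cast
      obtain ⟨l1, l2, -⟩ := f1 i hi
      have l0 := (hs₁ i hi).1
      have l3 := h3 l hl
      rcases min_choice (s₁ i w₁) p₂ with h | h <;> rw [h] <;> linarith) hf hy
  have key2 := Few.up (f' := f) (y' := y) hpos (fun J F => ⟨fun x => x, fun _ => rfl⟩) hup
    (fun J F => ⟨fun x => x, fun _ => rfl⟩) key
  refine few0_cut hpos hxs hQs (Few.pre hpos (fun q => ((fun l j' => if hl : l < i ∧ j' ≤ 1 then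
    (if j' = 0 then q.2 l 0 else q.1 ⟨l, hl.1.trans hi⟩) else 0), q.1 ⟨i, hi⟩)) ?_ key2)
  rintro K e J F A u ⟨hu1, hu2⟩
  refine ⟨⟨fun l _ hl j' hj' => ?_, fun ω _ l j' hn => ?_⟩, hu1 ⟨i, hi⟩⟩
  · have hlj : l < i ∧ j' ≤ 1 := ⟨hl, hj'⟩
    simp only [dif_pos hlj]
    rcases Nat.eq_zero_or_pos j' with rfl | hj
    · simp only [if_pos]
      exact hu2.1 l (Nat.zero_le _) hl 0 le_rfl
    · obtain rfl : j' = 1 := by omega
      simp only [one_ne_zero, if_false]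
      rw [hNv]
      simp only [one_ne_zero, if_false]
      exact hu1 ⟨l, hl.trans hi⟩
  · exact dif_neg fun h => hn ⟨Nat.zero_le _, h.1, h.2⟩

/-- The velocity of a coordinate, digits in a staircase, less precise charts. -/
theorem few_velOkS {C₀ : ℝ} (htm : TmC S C₀)
    (hpos : ∀ (τ : ℝ) (J : ℕ) (F : Fam m J) (A : F.Ω → Prop), S.St τ J F A → 0 < Pe F.p A)
    {c : ℕ → Fin m} {d : ℕ} {sh : ℝ} {sn s₁ : ℕ → ℝ → ℝ} {G : Set ℝ} (hW : ChG S c d sn G)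
    {pG : ℝ → ℝ} (hp : NrG G pG)
    (hf : ∀ (J : ℕ) (F : Fam m J), ∃ φ : α J F → PtT F, ∀ ω, ptr F J ω = φ (f J F ω))
    (hy : Kn ((range 0).image c) 1 1 y) {M σ τ C₁ δ C0 : ℝ} (hM : 0 ≤ M) (hτ : 0 < τ)
    (hδ : 0 ≤ δ) (hσ : 14 * τ + 2 * δ ≤ σ) (hC0 : M + 20 * τ * (d + 1) + 4 * δ ≤ C0)
    (hC₁ : C0 ≤ C₁)
    {k : ℕ} {W q : ℚ} (hq : (q : ℝ) = C0 * (1 / 2) ^ k) {w₁ w₂ : ℝ} (a1 : w₁ ∈ G) (a2 : w₂ ∈ G)
    (r1 : |w₁ - (W + sh)| ≤ (δ + 2 * τ) * (1 / 2) ^ k)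
    (r2 : |w₂ - (W + sh)| ≤ (δ + 2 * τ) * (1 / 2) ^ k) (ho : ((W + q : ℚ) : ℝ) + sh ≤ 1)
    {N : Option (Fin d) → ℚ}
    (hok : Ok (rkG d) (nG d sh sn G pG) M σ τ C₁ k W N)
    (hs₁ : ∀ l < d, sn l w₁ - τ * (1 / 2) ^ k ≤ s₁ l w₁ ∧ s₁ l w₁ ≤ sn l w₁) (i : Fin d)
    {p₂ N₂ : ℝ} (hp₂ : sn i w₂ - τ * (1 / 2) ^ k ≤ p₂) (hN : N₂ ≤ N (some i)) :
    Few S f (vg (((W + q : ℚ) : ℝ) + sh)) y (qG m c d s₁ w₁ (fun l => (N (some l) : ℝ)))
      (qJet m ((range (i : ℕ)).image c) (c i) 1 w₂ p₂ N₂) := by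
  obtain ⟨r, hr⟩ : ∃ r : ℝ, r = (1 / 2) ^ k := ⟨_, rfl⟩
  have hr0 : 0 < r := by rw [hr]; positivity
  obtain ⟨k1, k2, k3⟩ := hok
  rw [← hr] at k1 k2 k3 hq r1 r2 hs₁ hp₂
  obtain ⟨x, hx⟩ : ∃ x : ℝ, x = W + sh := ⟨_, rfl⟩
  have how : ((W + q : ℚ) : ℝ) + sh = x + C0 * r := by
    push_cast
    rw [hq, hx]
    ring
  rw [how] at ho ⊢
  rw [← hx] at r1 r2
  have hd0 : (0 : ℝ) ≤ d := Nat.cast_nonneg d
  have hτr : 0 < τ * r := mul_pos hτ hr0
  have hδr : 0 ≤ δ * r := mul_nonneg hδ hr0.le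
  have hMr : 0 ≤ M * r := mul_nonneg hM hr0.le
  have hτdr : 0 ≤ τ * r * d := by positivity
  have hC0r : M * r + 20 * (τ * r) * (d + 1) + 4 * (δ * r) ≤ C0 * r := by
    have := mul_le_mul_of_nonneg_right hC0 hr0.le
    linarith
  have hCC : C0 * r ≤ C₁ * r := mul_le_mul_of_nonneg_right hC₁ hr0.le
  have hσr : 14 * (τ * r) + 2 * (δ * r) ≤ σ * r := by
    have := mul_le_mul_of_nonneg_right hσ hr0.le
    linarith
  rw [show (δ + 2 * τ) * r = δ * r + 2 * (τ * r) by ring, abs_le] at r1 r2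
  -- the gaps
  have hgap : ∀ v : ℝ, |v - x| ≤ C₁ * r → |v - pG v| ≤ 2 * (τ * r) := by
    refine gap_of hp (by linarith) (by linarith) fun v hv => ?_
    have h1 := k3 none (v - sh) (by
      rw [show v - sh - W = v - x by rw [hx]; ring]
      exact hv)
    unfold nG at h1
    simp only at h1
    rw [sub_add_cancel, ← hx] at h1
    exact h1
  -- flatness
  obtain ⟨nl, hnl⟩ : ∃ nl : Fin d → ℝ, nl = fun l => nG d sh sn G pG (some l) W := ⟨_, rfl⟩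
  have hflat : ∀ l : Fin d, ∀ v ∈ G, |v - x| ≤ C₁ * r → |(sn l v - v) - nl l| ≤ τ * r := by
    intro l v hv h1
    have h2 := k3 (some l) (v - sh) (by
      rw [show v - sh - W = v - x by rw [hx]; ring]
      exact h1)
    rw [hnl]
    simp only
    refine le_trans (le_of_eq ?_) h2
    congr 2
    unfold nG
    simp only
    rw [sub_add_cancel, hp.of_mem hv]
  have k1' : ∀ l : Fin d, (N (some l) : ℝ) ≤ nl l + M * r := fun l => by
    rw [hnl]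
    exact (k1 (some l)).2
  have k2' : ∀ l l' : Fin d, (l : ℕ) < l' →
      (N (some l') : ℝ) - nl l' + σ * r ≤ N (some l) - nl l := fun l l' h => by
    rw [hnl]
    exact k2 (some l) (some l') h
  -- the windows
  obtain ⟨w, hw⟩ : ∃ w : ℝ, w = max w₁ w₂ := ⟨_, rfl⟩
  have hwG : w ∈ G := by
    rw [hw]
    rcases max_choice w₁ w₂ with h | h <;> rw [h] <;> assumption
  have hw1 : w₁ ≤ w := by rw [hw]; exact le_max_left _ _
  have hw2 : w₂ ≤ w := by rw [hw]; exact le_max_right _ _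
  have hwx : w ≤ x + (δ * r + 2 * (τ * r)) := by
    rw [hw]
    exact max_le (by linarith [r1.2]) (by linarith [r2.2])
  obtain ⟨o, hoo⟩ : ∃ o : ℝ, o = pG (x + (C0 * r - 2 * (τ * r))) := ⟨_, rfl⟩
  have hoG : o ∈ G := by rw [hoo]; exact hp.mem _
  have ho2 : |x + (C0 * r - 2 * (τ * r)) - o| ≤ 2 * (τ * r) := by
    rw [hoo]
    refine hgap _ ?_
    rw [add_sub_cancel_left, abs_le]
    constructor <;> linarith
  rw [abs_le] at ho2
  obtain ⟨u₄, rd₄, hrd₄, hch₄⟩ := hW.ch o hoG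
  have ho1 := hch₄.u0
  have hin : ∀ v : ℝ, x - 3 * (δ * r + 2 * (τ * r)) ≤ v → v ≤ o → |v - x| ≤ C₁ * r := by
    intro v c1 c2
    rw [abs_le]
    constructor <;> linarith [ho2.1]
  have hfl : ∀ l < d, ∀ v ∈ G, w - 2 * (δ * r + 2 * (τ * r)) ≤ v → v ≤ o →
      |(sn l v - v) - (sn l o - o)| ≤ 2 * (τ * r) := by
    intro l hl v hv c1 c2
    have e1 := abs_le.1 (hflat ⟨l, hl⟩ v hv (hin v (by linarith [r1.1]) c2))
    have e2 := abs_le.1 (hflat ⟨l, hl⟩ o hoG (hin o (by linarith [r1.1, ho2.2]) le_rfl))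
    simp only at e1 e2
    rw [abs_le]
    constructor <;> linarith [e1.1, e1.2, e2.1, e2.2]
  obtain ⟨N', hN'⟩ : ∃ N' : ℕ → ℝ, ∀ l : Fin d, N' l = N (some l) :=
    ⟨fun l => if h : l < d then (N (some ⟨l, h⟩) : ℝ) else 0, fun l => dif_pos l.2⟩
  have e0 : (fun l : Fin d => (N (some l) : ℝ)) = fun l : Fin d => N' l :=
    funext fun l => (hN' l).symm
  rw [e0]
  have hwin : |w - x| ≤ C₁ * r := hin w (by linarith [r1.1]) (by linarith [ho2.2])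
  refine few_velS htm hpos hW hf hy (W := w) (o := o) (φ := 2 * (τ * r)) (κ := τ * r)
    (σ₀ := τ * r) (ρ := 2 * (δ * r + 2 * (τ * r))) (ρ₀ := 2 * (τ * r)) (ρ' := τ * r) a1 a2 hwG
    hoG hw1 hw2 (by linarith [ho2.2]) (by linarith [ho2.1]) ho (by positivity) (by positivity)
    hτr.le hτr hτr
    (by linarith [r1.1]) (by linarith [r2.1])
    (fun v c1 c2 => ⟨pG v, hp.mem v, by
      rw [abs_sub_comm]
      exact hgap v (hin v (by linarith [r1.1]) c2)⟩)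
    hfl hs₁ i.2 hp₂ (by rw [hN' i]; exact hN) (fun l hl => ?_) (fun hex => ⟨fun l hl => ?_,
      fun l' l hl' hl => ?_, fun l hl => ?_, fun l hl => ?_, ?_⟩)
  · have hld : l < d := hl.trans i.2
    have e1 := k1' ⟨l, hld⟩
    rw [← hN' ⟨l, hld⟩] at e1
    have e2 := abs_le.1 (hflat ⟨l, hld⟩ o hoG (hin o (by linarith [r1.1, ho2.2]) le_rfl))
    simp only at e1 e2
    have e3 : (l : ℝ) + 1 ≤ d := by exact_mod_cast hld
    have e4 : ((l : ℝ) + 1) * (2 * (2 * (τ * r)) + 2 * (2 * (τ * r)) + τ * r + τ * r) ≤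
        10 * (τ * r) * d := by
      have := mul_le_mul_of_nonneg_right e3 hτr.le
      linarith
    linarith [e2.1, ho2.2]
  · have hld : l < d := hl.trans i.2
    have e1 := k2' ⟨l, hld⟩ i hl
    rw [← hN' ⟨l, hld⟩] at e1
    have e2 := abs_le.1 (hflat ⟨l, hld⟩ w hwG hwin)
    have e3 := abs_le.1 (hflat i w hwG hwin)
    simp only at e1 e2
    linarith [e2.2, e3.1]
  · have hld : l < d := hl.trans i.2
    have e1 := k2' ⟨l', hl'.trans hld⟩ ⟨l, hld⟩ hl'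
    rw [← hN' ⟨l', hl'.trans hld⟩, ← hN' ⟨l, hld⟩] at e1
    have e2 := abs_le.1 (hflat ⟨l', hl'.trans hld⟩ w hwG hwin)
    have e3 := abs_le.1 (hflat ⟨l, hld⟩ w hwG hwin)
    simp only at e1 e2 e3
    linarith [e2.2, e3.1]
  · have hld : l < d := hl.trans i.2
    have e1 := k1' ⟨l, hld⟩
    rw [← hN' ⟨l, hld⟩] at e1
    have e2 := abs_le.1 (hflat ⟨l, hld⟩ w hwG hwin)
    simp only at e1 e2
    linarith [e2.1, ho2.2]
  · have hld : l < d := hl.trans i.2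
    have e1 := k2' ⟨l, hld⟩ i hl
    rw [← hN' ⟨l, hld⟩] at e1
    have e2 := abs_le.1 (hflat ⟨l, hld⟩ w hwG hwin)
    have e3 := abs_le.1 (hflat i w₂ a2 (hin w₂ (by linarith [r2.1]) (by linarith [ho2.2])))
    simp only at e1 e2
    linarith [e2.2, e3.1]
  · have e1 := k1' i
    have e2 := abs_le.1 (hflat i w hwG hwin)
    linarith [e2.1, ho2.2]

end Pool.LA91
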