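import Pool.Agent.H91.FR.DropG
import Pool.Agent.H91.FR.SlG

/-!
# The velocities over a chain of charts are free of the later records, ALL small scales

`drop_all`: at almost every critical point, for ALL small scales, the numbers of the velocities are
nearly constant in the window of the record. `FreeAt`: the velocities are free at the scale `k`; the
charts are precise to the natural digits minus `σ / 20 2 ^ (-k)`.
`free_all`: at almost every critical point of a closed set of good windows, `FreeAt` holds for all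
small scales.
-/

set_option autoImplicit false

namespace Pool.LA91

open Finset Real MvPolynomial
open Pool.Agent.H49.Ent Pool.Agent.H32.Dense Pool.STK Pool.KA Pool.KSAT Pool.K2S Pool.PB Pool.GEN
open Pool.S6C Pool.RCD

variable {m : ℕ} {U U' U₂ : Type} {α β γ : ∀ J : ℕ, Fam m J → Type}
  {f : ∀ (J : ℕ) (F : Fam m J), F.Ω → α J F} {g : ∀ (J : ℕ) (F : Fam m J), F.Ω → β J F}
  {y : ∀ (J : ℕ) (F : Fam m J), F.Ω → γ J F} {S : PCl m}

/-- **The numbers at all small scales.** -/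
theorem drop_all {C₀ : ℝ} (hS : S.Ne)
    (hpos : ∀ (τ : ℝ) (J : ℕ) (F : Fam m J) (A : F.Ω → Prop), S.St τ J F A → 0 < Pe F.p A)
    (htm : TmC S C₀) {c : ℕ → Fin m} {d : ℕ} {sh A B : ℝ} {sn : ℕ → ℝ → ℝ} {G : Set ℝ}
    (hG : IsClosed G) (hne : G.Nonempty) (hW : ChG S c d sn G) {pG : ℝ → ℝ} (hp : NrG G pG)
    (hf : ∀ (J : ℕ) (F : Fam m J), ∃ φ : α J F → PtT F, ∀ ω, ptr F J ω = φ (f J F ω))
    (hy : Kn ((range 0).image c) 1 1 y) {C : ℕ} {σ : ℚ} (hσ0 : 0 < σ) (hσ1 : σ ≤ 1) {k₁ : ℕ}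
    {η : ℚ → ℝ} (hη : ∀ w : ℚ, A ≤ w → (w : ℝ) + sh ≤ 1 → RNum S f (vg ((w : ℝ) + sh)) (η w))
    (hfr : FqG S f y c d sh sn G pG A B C σ k₁) {θ : ℕ → ℚ → (Option (Fin d) → ℚ) → ℝ}
    (hθ : NmG S f y c d sh sn G pG A B C σ k₁ θ)
    (hgood : ∀ᵐ g : ℝ, g ∈ Set.Ioo A B → (∀ i, HasDerivAt (nG d sh sn G pG i) 0 g) →
      ∀ κ : ℝ, 0 < κ → ∀ K : ℕ, ∃ k ≥ K, GdG S f y c d sh sn G pG C σ θ κ k g) :
    ∀ᵐ g : ℝ, g ∈ Set.Ioo A B → g + sh ∈ G → (∀ i, HasDerivAt (nG d sh sn G pG i) 0 g) →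
      ∀ κ : ℝ, 0 < κ → ∃ K : ℕ, ∀ k ≥ K, ∀ (P : Option (Fin d) → ℚ) (w w' : ℚ),
      AdG d (nG d sh sn G pG) C σ k g P → g - cN C d * (1 / 2) ^ k ≤ w → w ≤ w' →
      (w' : ℝ) ≤ g + cN C d * (1 / 2) ^ k → θ k w P - θ k w' P ≤ κ * (1 / 2) ^ k := by
  classical
  have s0 : (0 : ℝ) < σ := by exact_mod_cast hσ0
  have hcL : 0 < cL C d := by unfold cL; positivity
  have hcN : 0 < cN C d := by unfold cN; positivity
  obtain ⟨k₂, hk₂⟩ : ∃ k₂ : ℕ, (1 / 2 : ℝ) ^ k₂ * (4 * cL C d) ≤ 1 := by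
    obtain ⟨n, hn⟩ := exists_pow_lt_of_lt_one (show 0 < 1 / (4 * cL C d) by positivity)
      (show (1 / 2 : ℝ) < 1 by norm_num)
    refine ⟨n, ?_⟩
    rw [lt_div_iff₀ (by positivity)] at hn
    exact hn.le
  have key : ∀ n : ℕ, ∀ᵐ g : ℝ, g ∈ Set.Ioo A B →
      (∀ i, HasDerivAt (nG d sh sn G pG i) 0 g) → ∃ K : ℕ, ∀ k ≥ K,
      ∀ (P P' : Option (Fin d) → ℚ) (w w' : ℚ), AdmG d (nG d sh sn G pG) sh G C σ k g P P' w w' →
        (tG d θ k w P' - tG d θ k w P) - (tG d θ k w' P' - tG d θ k w' P) ≤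
          (1 / ((n : ℝ) + 1)) * (1 / 2) ^ k := by
    intro n
    refine crit_all (lam₁ := (C : ℚ) + 7 * d + 12) (lam₂ := (C : ℚ) + 7 * d + 12)
      (η := (σ : ℝ) / (100 * cL C d)) (C := cN C d) (C₃ := 4 * cL C d) (k₂ := k₂)
      (by positivity) (by positivity) (by positivity) hcN (by positivity) (by positivity)
      (fun k g P P' w w' h => ⟨h.2.2.2.1, h.2.2.2.2.1, h.2.2.2.2.2⟩) ?_
    filter_upwards [hgood] with g₀ hg hAB hd κ' hκ' K
    have hlam : (((C : ℚ) + 7 * d + 12 : ℚ) : ℝ) = cL C d := by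
      unfold cL
      push_cast
      rfl
    by_cases hg₀ : g₀ + sh ∈ G
    · have hmn : 0 < min ((g₀ - A) / (2 * cL C d + 2)) ((B - g₀) / (2 * cL C d + 2)) :=
        lt_min (div_pos (by linarith [hAB.1]) (by positivity))
          (div_pos (by linarith [hAB.2]) (by positivity))
      obtain ⟨K₂, hK₂⟩ := exists_pow_lt_of_lt_one hmn (show (1 / 2 : ℝ) < 1 by norm_num)
      obtain ⟨k, hk, hgd⟩ := hg hAB hd κ' hκ' (max K (max K₂ k₁))
      have hk2 : K₂ ≤ k := ((le_max_left _ _).trans (le_max_right _ _)).trans hk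
      have hrlt : ((1 : ℝ) / 2) ^ k <
          min ((g₀ - A) / (2 * cL C d + 2)) ((B - g₀) / (2 * cL C d + 2)) :=
        lt_of_le_of_lt (pow_le_pow_of_le_one (by norm_num) (by norm_num) hk2) hK₂
      have h3 := hrlt.trans_le (min_le_left _ _)
      have h4 := hrlt.trans_le (min_le_right _ _)
      rw [lt_div_iff₀ (by positivity)] at h3 h4
      exact ⟨k, (le_max_left _ _).trans hk, dom_G hS hpos htm hW hp hf hy hσ0 hσ1 hη hfr hθ hg₀
        (((le_max_right _ _).trans (le_max_right _ _)).trans hk) hk₂ (by linarith) (by linarith)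
        hgd⟩
    · have hdist : 0 < Metric.infDist (g₀ + sh) G :=
        (hG.notMem_iff_infDist_pos hne).1 hg₀
      obtain ⟨K₂, hK₂⟩ := exists_pow_lt_of_lt_one (show 0 < Metric.infDist (g₀ + sh) G /
        (cL C d + 1) by positivity) (show (1 / 2 : ℝ) < 1 by norm_num)
      have hrlt : ((1 : ℝ) / 2) ^ (max K K₂) < Metric.infDist (g₀ + sh) G / (cL C d + 1) :=
        lt_of_le_of_lt (pow_le_pow_of_le_one (by norm_num) (by norm_num) (le_max_right _ _)) hK₂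
      rw [lt_div_iff₀ (by positivity)] at hrlt
      refine ⟨max K K₂, le_max_left _ _, fun _ => 0, fun W W' _ _ _ => ⟨le_rfl, by
        rw [sub_zero]
        positivity⟩, fun g _ hgg k _ P P' w w' hadm => ?_⟩
      exfalso
      rw [hlam, abs_le] at hgg
      have h3 := Metric.infDist_le_dist_of_mem (x := g₀ + sh) hadm.1
      rw [Real.dist_eq] at h3
      have h4 : (0 : ℝ) < (1 / 2) ^ (max K K₂) := by positivity
      have h5 : |g₀ + sh - (g + sh)| ≤ (cL C d + 1) * (1 / 2) ^ (max K K₂) := by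
        have h6 : 0 ≤ cL C d * (1 / 2 : ℝ) ^ (max K K₂) := by positivity
        rw [abs_le]
        constructor <;> linarith
      linarith
  rw [← MeasureTheory.ae_all_iff] at key
  filter_upwards [key] with g hg hAB hgG hd κ hκ
  obtain ⟨n, hn⟩ := exists_nat_one_div_lt hκ
  obtain ⟨K, hK⟩ := hg n hAB hd
  refine ⟨K, fun k hk P w w' hP h1 h2 h3 => ?_⟩
  have h4 := hK k hk (fun _ => 0) P w w' ⟨hgG, rfl, hP, h1, h2, h3⟩
  have hr0 : (0 : ℝ) < (1 / 2) ^ k := by positivity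
  have t1 : ∀ v : ℚ, tG d θ k v (fun _ => 0) = 0 := fun v => by
    unfold tG
    exact if_pos rfl
  have hPn : P none ≠ 0 := by
    intro h0
    have h5 := hP.n1
    rw [h0] at h5
    push_cast at h5
    have : 0 < ((C : ℝ) + 2) * (1 / 2) ^ k := by positivity
    linarith
  have t2 : ∀ v : ℚ, tG d θ k v P = θ k v P := fun v => by
    unfold tG
    exact if_neg hPn
  rw [t1, t1, t2, t2, sub_zero, sub_zero] at h4
  exact h4.trans (mul_le_mul_of_nonneg_right hn.le hr0.le)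

/-- **The velocities over closed charts are free of the later records** at the scale `2 ^ (-k)`. The
charts are precise to `sn - σ / 20 2 ^ (-k)`. -/
def FreeAt (S : PCl m) (f : ∀ (J : ℕ) (F : Fam m J), F.Ω → α J F)
    (y : ∀ (J : ℕ) (F : Fam m J), F.Ω → γ J F) (c : ℕ → Fin m) (d : ℕ) (sn : ℕ → ℝ → ℝ)
    (G : Set ℝ) (g : ℝ) (C : ℕ) (σ : ℚ) (κ : ℝ) (k : ℕ) : Prop :=
  ∀ (P : Fin d → ℚ) (b w w' : ℝ), StG d sn g C σ k P → b ∈ G → g - C * (1 / 2) ^ k ≤ b →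
      b + lagG C d k ≤ w → w ≤ w' → w' ≤ g + lstG C d k →
      ∃ k₂ : ℝ, 0 < k₂ ∧ ∃ e₀ : ℝ, 0 < e₀ ∧ ∀ K : ℕ, Bas S (fun J F A =>
        ∀ (V : Type) (z : F.Ω → V) (V' : Type) (z' : F.Ω → V'),
        Mx f (vg w) k₂ F A z → Mx f (vg w') k₂ F A z' →
        ∀ u, (qG m c d (fun i x => sn i x - (σ : ℝ) / 20 * (1 / 2) ^ k) b
          (fun i => (P i : ℝ))).P K e₀ J F A u →
        CH (Pool.Agent.H49.Ent.cond F.p A True) u (fun ω => (z ω, y J F ω)) ≤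
          CH (Pool.Agent.H49.Ent.cond F.p A True) u (fun ω => (z' ω, y J F ω)) +
            κ * (1 / 2) ^ k * J)

/-- **The numbers give the records**, one scale. -/
theorem free_k {C₀ : ℝ}
    (hpos : ∀ (τ : ℝ) (J : ℕ) (F : Fam m J) (A : F.Ω → Prop), S.St τ J F A → 0 < Pe F.p A)
    (htm : TmC S C₀) {c : ℕ → Fin m} {d : ℕ} {sh A B : ℝ} {sn : ℕ → ℝ → ℝ} {G : Set ℝ}
    (hW : ChG S c d sn G) {pG : ℝ → ℝ} (hp : NrG G pG)
    (hf : ∀ (J : ℕ) (F : Fam m J), ∃ φ : α J F → PtT F, ∀ ω, ptr F J ω = φ (f J F ω))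
    (hy : Kn ((range 0).image c) 1 1 y) {C : ℕ} {σ : ℚ} (hσ0 : 0 < σ) (hσ1 : σ ≤ 1) {k₁ : ℕ}
    {η : ℚ → ℝ} (hη : ∀ w : ℚ, A ≤ w → (w : ℝ) + sh ≤ 1 → RNum S f (vg ((w : ℝ) + sh)) (η w))
    (hfr : FqG S f y c d sh sn G pG A B C σ k₁) {θ : ℕ → ℚ → (Option (Fin d) → ℚ) → ℝ}
    (hθ : NmG S f y c d sh sn G pG A B C σ k₁ θ) {g κ : ℝ} (hκ : 0 < κ) {k : ℕ} (hk : k₁ ≤ k)
    (hgG : g ∈ G) (hA : A + (cN C d + 1) * (1 / 2) ^ k ≤ g - sh)
    (hB : g - sh + (cN C d + 1) * (1 / 2) ^ k ≤ B)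
    (hfl : FlatAt (nG d sh sn G pG) ((σ : ℝ) / (100 * cL C d)) (4 * cL C d * (1 / 2) ^ k)
      (g - sh))
    (hdrop : ∀ (P : Option (Fin d) → ℚ) (w w' : ℚ),
      AdG d (nG d sh sn G pG) C σ k (g - sh) P → g - sh - cN C d * (1 / 2) ^ k ≤ w → w ≤ w' →
      (w' : ℝ) ≤ g - sh + cN C d * (1 / 2) ^ k → θ k w P - θ k w' P ≤ κ / 2 * (1 / 2) ^ k) :
    FreeAt S f y c d sn G g C σ κ k := by
  intro P b w w' hP hb a4 a5 a6 a7
  have s0 : (0 : ℝ) < σ := by exact_mod_cast hσ0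
  have s1 : (σ : ℝ) ≤ 1 := by exact_mod_cast hσ1
  have hd0 : (0 : ℝ) ≤ d := Nat.cast_nonneg d
  have hC0 : (0 : ℝ) ≤ C := Nat.cast_nonneg C
  have hcLd : cL C d = C + 7 * d + 12 := rfl
  have hcNd : cN C d = C + 3 * d + 4 := rfl
  have hcL : 0 < cL C d := by rw [hcLd]; positivity
  obtain ⟨a1, a2, a3⟩ := hP
  unfold lagG at a5
  unfold lstG at a7
  obtain ⟨r, hr⟩ : ∃ r : ℝ, r = (1 / 2) ^ k := ⟨_, rfl⟩
  have hr0 : 0 < r := by rw [hr]; positivity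
  have hqr : (qL C d k : ℝ) = C * r + 7 * (d * r) + 12 * r := by
    rw [qL_cast, hcLd, hr]
    ring
  have hfl' := hfl
  rw [← hr] at a2 a3 a4 a5 a7 hA hB hdrop hfl
  rw [← hr]
  have hng : ∀ i : Fin d, nG d sh sn G pG (some i) (g - sh) = sn i g - g := by
    intro i
    unfold nG
    simp only
    rw [sub_add_cancel, hp.of_mem hgG]
  have hn0 : nG d sh sn G pG none (g - sh) = 0 := by
    unfold nG
    simp only
    rw [sub_add_cancel, Metric.infDist_zero_of_mem hgG]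
  have hsr : 0 < (σ : ℝ) * r := mul_pos s0 hr0
  have hsr1 : (σ : ℝ) * r ≤ r := by nlinarith
  have hCr : (0 : ℝ) ≤ C * r := by positivity
  have hdr : (0 : ℝ) ≤ d * r := by positivity
  have hcLr : cL C d * r = C * r + 7 * (d * r) + 12 * r := by rw [hcLd]; ring
  have hcNr : cN C d * r = C * r + 3 * (d * r) + 4 * r := by rw [hcNd]; ring
  -- the rational windows
  obtain ⟨bq, bq1, bq2⟩ : ∃ x : ℚ, b - sh < x ∧ (x : ℝ) < b - sh + σ * r / 20 :=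
    exists_rat_btwn (by linarith)
  obtain ⟨wq, wq1, wq2⟩ : ∃ x : ℚ, w - sh - qL C d k - r / 2 < x ∧
      (x : ℝ) < w - sh - qL C d k := exists_rat_btwn (by linarith)
  obtain ⟨wq', wq1', wq2'⟩ : ∃ x : ℚ, w' - sh - qL C d k < x ∧
      (x : ℝ) < w' - sh - qL C d k + r := exists_rat_btwn (by linarith)
  rw [hqr] at wq1 wq2 wq1' wq2'
  have hbw' : (bq : ℝ) ≤ wq := by linarith
  have hbw : bq ≤ wq := by exact_mod_cast hbw'
  have hww' : (wq : ℝ) ≤ wq' := by linarith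
  have hww : wq ≤ wq' := by exact_mod_cast hww'
  -- the digits
  obtain ⟨pn, pn1, pn2⟩ : ∃ x : ℚ, C * r + 2 * r < (x : ℝ) ∧ (x : ℝ) < C * r + 3 * r :=
    exists_rat_btwn (by linarith)
  obtain ⟨P', hP'n, hP's⟩ : ∃ P' : Option (Fin d) → ℚ, P' none = pn ∧ ∀ i, P' (some i) = P i :=
    ⟨fun i => i.elim pn P, rfl, fun _ => rfl⟩
  have hPP : (fun i : Fin d => (P' (some i) : ℝ)) = fun i => (P i : ℝ) := by
    funext i
    rw [hP's]
  have hAd : AdG d (nG d sh sn G pG) C σ k (g - sh) P' := by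
    refine ⟨?_, ?_, fun i => ?_, fun i => ?_, fun l i hli => ?_⟩
    · rw [hP'n, ← hr]
      linarith
    · rw [hP'n, ← hr]
      linarith
    · rw [hng, hP's]
      exact a1 i
    · rw [hng, hP's, ← hr]
      exact a2 i
    · rw [hng, hng, hP's, hP's, ← hr]
      exact a3 l i hli
  have hPst : ∀ l i, rkG d l < rkG d i →
      (P' i : ℝ) - nG d sh sn G pG i (g - sh) + 2 * (σ : ℝ) * r ≤
        P' l - nG d sh sn G pG l (g - sh) := by
    intro l i hli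
    rcases i with _ | i
    · exact absurd hli (Nat.not_lt_zero _)
    · rcases l with _ | l
      · rw [hn0, hP'n, hng, hP's]
        linarith [a2 i]
      · rw [hng, hP's, hng, hP's]
        exact a3 l i hli
  have hNL : cN C d ≤ cL C d := by rw [hcLd, hcNd]; linarith
  have hN0 : 0 ≤ cN C d := by rw [hcNd]; positivity
  have hηL : (σ : ℝ) / (100 * cL C d) * cL C d = σ / 100 := by
    field_simp
  have hηf0 : 0 ≤ (σ : ℝ) / (100 * cL C d) := by positivity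
  have hokP : ∀ v : ℚ, |(v : ℝ) - (g - sh)| ≤ cN C d * r →
      Ok (rkG d) (nG d sh sn G pG) (cN C d + 3 + 3 * (σ : ℝ) * (d + 1)) (σ : ℝ)
        ((σ : ℝ) / 20) (cL C d) k v P' := by
    intro v hv
    refine ok_flat (C := cN C d) hηf0 hN0 hcL.le ?_ (by linarith) ?_ hfl (by
      rw [← hr]
      nlinarith) (by rw [← hr]; exact hv) (fun i => ?_) (fun l i hli => by
        rw [← hr]
        exact hPst l i hli)
    · have := mul_le_mul_of_nonneg_left hNL hηf0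
      linarith
    · have : 0 ≤ 3 * (σ : ℝ) * (d + 1) := by positivity
      linarith
    · rw [← hr]
      rcases i with _ | i
      · rw [hn0, hP'n]
        constructor <;> linarith
      · rw [hng, hP's]
        have := a1 i
        have := a2 i
        constructor <;> linarith
  have okb := hokP bq (by rw [abs_le]; constructor <;> linarith)
  have okw := hokP wq (by rw [abs_le]; constructor <;> linarith)
  have okw' := hokP wq' (by rw [abs_le]; constructor <;> linarith)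
  have bA : A ≤ bq := by linarith
  have bB : (bq : ℝ) ≤ B := by linarith
  have wA : A ≤ wq := by linarith
  have wB : (wq : ℝ) ≤ B := by linarith
  have w'A : A ≤ wq' := by linarith
  have w'B : (wq' : ℝ) ≤ B := by linarith
  obtain ⟨q0, q1⟩ := hfr.win k hk
  have q0' : (0 : ℝ) ≤ qL C d k := by exact_mod_cast q0
  rw [hqr] at q1
  have g1 := hdrop P' wq wq' hAd (by linarith) hww (by linarith)
  -- the change of the charts
  have hch : ∀ v v' : ℚ, (bq : ℝ) ≤ v → v ≤ v' → (v' : ℝ) ≤ wq' →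
      Few S f (vg (((v' + qL C d k : ℚ) : ℝ) + sh)) y
        (qG m c d sn (pG ((v : ℝ) + sh)) (fun i => (P' (some i) : ℝ)))
        (qG m c d sn (pG ((v' : ℝ) + sh)) (fun i => (P' (some i) : ℝ))) ∧
      Few S f (vg (((v' + qL C d k : ℚ) : ℝ) + sh)) y
        (qG m c d sn (pG ((v' : ℝ) + sh)) (fun i => (P' (some i) : ℝ)))
        (qG m c d sn (pG ((v : ℝ) + sh)) (fun i => (P' (some i) : ℝ))) := by
    intro v v' e1 e2 e3
    exact FrT.chgs hpos hfr (by linarith) hk (x := bq) (z := wq') (N := P') bA w'B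
      (fun v c1 c2 => hokP v (by
        rw [abs_le]
        constructor <;> linarith)) v v' e1 e2 e3
  obtain ⟨g6, g7⟩ := hch wq wq' hbw' hww le_rfl
  obtain ⟨g6b, g7b⟩ := hch bq wq le_rfl hbw hww'
  -- the numbers
  have n1 := hθ k hk wq P' wA wB okw
  have n2 := hθ k hk wq' P' w'A w'B okw'
  have xb := hfr.exs k hk bq P' bA bB okb
  have xw := hfr.exs k hk wq P' wA wB okw
  have xw' := hfr.exs k hk wq' P' w'A w'B okw'
  rw [hPP] at n1 n2 xb xw xw' g6 g7 g6b g7b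
  have hid : ∀ (J : ℕ) (F : Fam m J), ∃ φ : α J F → α J F, ∀ ω, f J F ω = φ (f J F ω) :=
    fun J F => ⟨fun x => x, fun _ => rfl⟩
  have hid2 : ∀ (J : ℕ) (F : Fam m J), ∃ φ : γ J F → γ J F, ∀ ω, y J F ω = φ (y J F ω) :=
    fun J F => ⟨fun x => x, fun _ => rfl⟩
  -- the charts of the window `b`
  have rb1 : |b - ((bq : ℝ) + sh)| ≤ ((σ : ℝ) / 20 + 2 * (σ / 20)) * (1 / 2) ^ k := by
    rw [← hr, abs_le]
    constructor <;> linarith
  have rb2 : |pG ((bq : ℝ) + sh) - ((bq : ℝ) + sh)| ≤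
      ((σ : ℝ) / 20 + 2 * (σ / 20)) * (1 / 2) ^ k := by
    rw [abs_sub_comm]
    refine (hp.le (x := (bq : ℝ) + sh) hb).trans ?_
    rw [abs_sub_comm]
    exact rb1
  have s2 : (σ : ℝ) * (d + 1) ≤ 1 * (d + 1) := mul_le_mul_of_nonneg_right s1 (by positivity)
  have hM0 : 0 ≤ cN C d + 3 + 3 * (σ : ℝ) * (d + 1) := by positivity
  have hCC : (cN C d + 3 + 3 * (σ : ℝ) * (d + 1)) + 20 * (σ / 20) * (d + 1) + 4 * (σ / 20) ≤
      cL C d := by
    rw [hcNd, hcLd]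
    linarith
  have hbB : ((bq + qL C d k : ℚ) : ℝ) + sh ≤ 1 := by
    push_cast
    rw [hqr]
    linarith
  obtain ⟨s₁, hs₁⟩ : ∃ s₁ : ℕ → ℝ → ℝ, s₁ = fun i x => sn i x - (σ : ℝ) / 20 * r := ⟨_, rfl⟩
  have hs1 : ∀ l v, s₁ l v = sn l v - (σ : ℝ) / 20 * r := fun l v => by rw [hs₁]
  rw [← hs₁]
  have fb1 : Few S f (vg (((bq + qL C d k : ℚ) : ℝ) + sh)) y
      (qG m c d s₁ b (fun i => (P i : ℝ)))
      (qG m c d sn (pG ((bq : ℝ) + sh)) (fun i => (P i : ℝ))) := by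
    have h3 := few_pi hpos fun i => few_velOkS (s₁ := s₁)
      (p₂ := sn i (pG ((bq : ℝ) + sh))) (N₂ := (P' (some i) : ℝ)) htm hpos hW hp hf hy hM0
      (show 0 < (σ : ℝ) / 20 by linarith) (show 0 ≤ (σ : ℝ) / 20 by linarith) (by linarith) hCC
      le_rfl (qL_cast C d k) hb (hp.mem ((bq : ℝ) + sh)) rb1 rb2 hbB okb
      (fun l _ => by
        rw [hs1, ← hr]
        constructor <;> linarith) i (by
        rw [← hr]
        linarith) le_rfl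
    rw [hPP] at h3
    simp only [hP's] at h3
    exact h3
  have fb2 : Few S f (vg (((bq + qL C d k : ℚ) : ℝ) + sh)) y
      (qG m c d sn (pG ((bq : ℝ) + sh)) (fun i => (P i : ℝ)))
      (qG m c d s₁ b (fun i => (P i : ℝ))) := by
    have h3 := few_pi hpos fun i => few_velOkS (s₁ := sn) (p₂ := s₁ i b)
      (N₂ := (P' (some i) : ℝ)) htm hpos hW hp hf hy hM0
      (show 0 < (σ : ℝ) / 20 by linarith) (show 0 ≤ (σ : ℝ) / 20 by linarith) (by linarith) hCC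
      le_rfl (qL_cast C d k) (hp.mem ((bq : ℝ) + sh)) hb rb2 rb1 hbB okb
      (fun l _ => by
        rw [← hr]
        constructor <;> linarith) i (by
        rw [hs1, ← hr]) le_rfl
    rw [hPP] at h3
    simp only [hP's] at h3
    exact h3
  have ub : ∀ (J : ℕ) (F : Fam m J), ∃ φ : LnT F → LnT F, ∀ ω,
      vg (((bq + qL C d k : ℚ) : ℝ) + sh) J F ω =
        φ (vg (((wq + qL C d k : ℚ) : ℝ) + sh) J F ω) :=
    fun J F => vg_mono (by push_cast; linarith) (by push_cast; rw [hqr]; linarith) J F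
  have uw : ∀ (J : ℕ) (F : Fam m J), ∃ φ : LnT F → LnT F, ∀ ω,
      vg (((wq + qL C d k : ℚ) : ℝ) + sh) J F ω =
        φ (vg (((wq' + qL C d k : ℚ) : ℝ) + sh) J F ω) :=
    fun J F => vg_mono (by push_cast; linarith) (by push_cast; rw [hqr]; linarith) J F
  have c1 := Few.trans hpos xb (Few.up (f' := f) (y' := y) hpos hid ub hid2 fb1) g6b
  have c2 := Few.trans hpos xb g7b (Few.up (f' := f) (y' := y) hpos hid ub hid2 fb2)
  have N1 := NN.tr hpos n1 xw c2 c1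
  have c3 := Few.trans hpos xw (Few.up (f' := f) (y' := y) hpos hid uw hid2 c1) g6
  have c4 := Few.trans hpos xw g7 (Few.up (f' := f) (y' := y) hpos hid uw hid2 c2)
  have N2 := NN.tr hpos n2 xw' c4 c3
  -- the records
  obtain ⟨m1, hm1, e1, he1, H1⟩ := N1 (κ / 16 * r) (by positivity)
  obtain ⟨m2, hm2, e2, he2, H2⟩ := N2 (κ / 16 * r) (by positivity)
  obtain ⟨k₂, hk₂, l1, l2, l3⟩ : ∃ k₂ : ℝ, 0 < k₂ ∧ k₂ ≤ m1 ∧ k₂ ≤ m2 ∧ k₂ ≤ κ / 16 * r :=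
    ⟨min m1 (min m2 (κ / 16 * r)), by positivity, min_le_left _ _,
      (min_le_right _ _).trans (min_le_left _ _), (min_le_right _ _).trans (min_le_right _ _)⟩
  have X1 := mx_ex hpos (hη (wq + qL C d k) (by push_cast; linarith) (by
    push_cast; rw [hqr]; linarith)) k₂ hk₂
  have X2 := mx_ex hpos (hη (wq' + qL C d k) (by push_cast; linarith) (by
    push_cast; rw [hqr]; linarith)) k₂ hk₂
  refine ⟨k₂, hk₂, min e1 e2, lt_min he1 he2, fun Kp => ?_⟩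
  refine Bas.mono 0 (((H1 Kp).and (H2 Kp)).and ((X1.and X2).and (pos_bas hpos))) ?_
  rintro J - F A' ⟨⟨H1, H2⟩, ⟨⟨V₁, z₁, hz₁⟩, V₂, z₂, hz₂⟩, hA⟩ V z V' z' hz hz' u hu
  have hcl := isLaw_cond F.isLaw hA
  have hJ0 : (0 : ℝ) ≤ J := Nat.cast_nonneg J
  have q1 := (abs_le.1 (H1 V₁ z₁ (hz₁.le' l1) u
    ((qG m c d s₁ b (fun i => (P i : ℝ))).mono le_rfl (min_le_left _ _) hu))).2
  have q2 := (abs_le.1 (H2 V₂ z₂ (hz₂.le' l2) u
    ((qG m c d s₁ b (fun i => (P i : ℝ))).mono le_rfl (min_le_right _ _) hu))).1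
  have hw1 : w ≤ 1 := by linarith
  obtain ⟨φ₁, hφ₁⟩ := vg_mono (show ((wq + qL C d k : ℚ) : ℝ) + sh ≤ w by
    push_cast
    rw [hqr]
    linarith) hw1 J F
  obtain ⟨φ₂, hφ₂⟩ := vg_mono (show w' ≤ ((wq' + qL C d k : ℚ) : ℝ) + sh by
    push_cast
    rw [hqr]
    linarith) (by
    push_cast
    rw [hqr]
    linarith) J F
  have q3 := hz.2 V₁ z₁ (hz₁.1.mono ⟨fun x => x, fun _ _ => rfl⟩ ⟨φ₁, fun ω _ => hφ₁ ω⟩)
  have q4 := hz₂.2 V' z' (hz'.1.mono ⟨fun x => x, fun _ _ => rfl⟩ ⟨φ₂, fun ω _ => hφ₂ ω⟩)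
  have st : ∀ {κ₁ κ₂ : Type} (a : F.Ω → κ₁) (b : F.Ω → κ₂),
      CH (Pool.Agent.H49.Ent.cond F.p A' True) u (fun ω => (a ω, y J F ω)) ≤
        CH (Pool.Agent.H49.Ent.cond F.p A' True) b a +
          CH (Pool.Agent.H49.Ent.cond F.p A' True) u (fun ω => (b ω, y J F ω)) := by
    intro κ₁ κ₂ a b
    have e1 := CH_le_add hcl.nonneg u b (fun ω => (a ω, y J F ω))
    have e2 : CH (Pool.Agent.H49.Ent.cond F.p A' True) b (fun ω => (a ω, y J F ω)) ≤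
        CH (Pool.Agent.H49.Ent.cond F.p A' True) b a :=
      CH_mono_cond hcl.nonneg fun _ _ _ _ hh => (Prod.ext_iff.mp hh).1
    have e3 : CH (Pool.Agent.H49.Ent.cond F.p A' True) u (fun ω => (b ω, (a ω, y J F ω))) ≤
        CH (Pool.Agent.H49.Ent.cond F.p A' True) u (fun ω => (b ω, y J F ω)) := by
      refine CH_mono_cond hcl.nonneg fun ω ω' _ _ hh => ?_
      simp only [Prod.mk.injEq] at hh ⊢
      exact ⟨hh.1, hh.2.2⟩
    linarith
  have q5 := st z z₁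
  have q6 := st z₂ z'
  have q7 := mul_le_mul_of_nonneg_right g1 hJ0
  have q8 := mul_le_mul_of_nonneg_right l3 hJ0
  have q9 : 0 ≤ κ * r * J := by positivity
  linarith

/-- **The numbers for countably many instances**, different intervals. -/
theorem FrT.numsB {X ι : Type} [Countable X] [Fintype ι] (hS : S.Ne)
    (hpos : ∀ (τ : ℝ) (J : ℕ) (F : Fam m J) (A : F.Ω → Prop), S.St τ J F A → 0 < Pe F.p A)
    {Q : ℚ → (ι → ℚ) → Qt m U} {q : X → ℕ → ℚ} {rk : ι → ℕ} {N₀ : ι → ℝ → ℝ} {sh A c : ℝ}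
    {B M σ τ C₁ δ : X → ℝ} {k₁ : X → ℕ}
    (h : ∀ x, FrT S f (fun _ => y) (fun _ => Q) (q x) rk N₀ sh A (B x) (M x) (σ x) (τ x) (C₁ x)
      (δ x) c (k₁ x)) :
    ∃ S' : PCl m, S'.Ne ∧
      (∀ (τ : ℝ) (J : ℕ) (F : Fam m J) (A : F.Ω → Prop), S'.St τ J F A → S.St τ J F A) ∧
      ∃ θ : X → ℕ → ℚ → (ι → ℚ) → ℝ, ∀ x, ∀ k ≥ k₁ x, ∀ (w : ℚ) (N : ι → ℚ), A ≤ w →
        (w : ℝ) ≤ B x → Ok rk N₀ (M x) (σ x) (τ x) (C₁ x) k w N →
        NN S' f (vg (((w + q x k : ℚ) : ℝ) + sh)) y (Q w N) (θ x k w N) := by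
  classical
  obtain ⟨S', h1, h2, h3⟩ := nn_ext_ct hS hpos (ι := {a : X × ℕ × ℚ × (ι → ℚ) // k₁ a.1 ≤ a.2.1 ∧
      A ≤ a.2.2.1 ∧ (a.2.2.1 : ℝ) ≤ B a.1 ∧ Ok rk N₀ (M a.1) (σ a.1) (τ a.1) (C₁ a.1) a.2.1 a.2.2.1
        a.2.2.2}) (fun _ => U)
    (fun _ => α) (fun _ J F => LnT F) (fun _ => γ) (fun _ => f)
    (fun a => vg (((a.1.2.2.1 + q a.1.1 a.1.2.1 : ℚ) : ℝ) + sh)) (fun _ => y)
    (fun a => Q a.1.2.2.1 a.1.2.2.2)
    (fun a => (h a.1.1).exs _ a.2.1 _ _ a.2.2.1 a.2.2.2.1 a.2.2.2.2)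
    (fun a => (h a.1.1).dig _ a.2.1 _ _ _ a.2.2.1 a.2.2.2.1 a.2.2.2.2 a.2.2.2.2
      (fun _ => le_rfl))
  choose θ hθ using h3
  refine ⟨S', h1, h2, fun x k w N => if hx : k₁ x ≤ k ∧ A ≤ w ∧ (w : ℝ) ≤ B x ∧
    Ok rk N₀ (M x) (σ x) (τ x) (C₁ x) k w N then θ ⟨(x, k, w, N), hx⟩ else 0,
    fun x k hk w N a b r => ?_⟩
  have hx : k₁ x ≤ k ∧ A ≤ w ∧ (w : ℝ) ≤ B x ∧ Ok rk N₀ (M x) (σ x) (τ x) (C₁ x) k w N :=
    ⟨hk, a, b, r⟩
  beta_reduce
  rw [dif_pos hx]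
  exact hθ ⟨(x, k, w, N), hx⟩

/-- **The velocities over closed charts are free of the later records**, at almost every critical
point of a closed set of good windows, for ALL small scales. -/
theorem free_all {C₀ : ℝ} (hS : S.Ne)
    (hpos : ∀ (τ : ℝ) (J : ℕ) (F : Fam m J) (A : F.Ω → Prop), S.St τ J F A → 0 < Pe F.p A)
    (htm : TmC S C₀) {c : ℕ → Fin m} {d : ℕ} {sh A B : ℝ} {sn : ℕ → ℝ → ℝ} {G : Set ℝ}
    (hG : IsClosed G) (hW : ChG S c d sn G)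
    (hf : ∀ (J : ℕ) (F : Fam m J), ∃ φ : α J F → PtT F, ∀ ω, ptr F J ω = φ (f J F ω))
    (hy : Kn ((range 0).image c) 1 1 y) (hB : B ≤ 1) {η : ℚ → ℝ}
    (hη : ∀ w : ℚ, A ≤ (w : ℝ) + sh → (w : ℝ) + sh ≤ 1 → RNum S f (vg ((w : ℝ) + sh)) (η w)) :
    ∃ S' : PCl m, S'.Ne ∧
      (∀ (τ : ℝ) (J : ℕ) (F : Fam m J) (A : F.Ω → Prop), S'.St τ J F A → S.St τ J F A) ∧
      ∀ᵐ g : ℝ, g ∈ Set.Ioo A B → g ∈ G →
      (∀ i < d, HasDerivWithinAt (fun x => sn i x - x) 0 G g) →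
      ∀ (C : ℕ) (σ : ℚ), 0 < σ → σ ≤ 1 → ∀ κ : ℝ, 0 < κ → ∃ K : ℕ, ∀ k ≥ K,
        FreeAt S' f y c d sn G g C σ κ k := by
  classical
  rcases G.eq_empty_or_nonempty with rfl | hne
  · exact ⟨S, hS, fun _ _ _ _ h => h, Filter.Eventually.of_forall fun g _ hg =>
      absurd hg (Set.notMem_empty g)⟩
  obtain ⟨pG, hp⟩ := nrG_ex hG hne
  have hd0 : (0 : ℝ) ≤ d := Nat.cast_nonneg d
  have hcL : ∀ C : ℕ, 0 < cL C d := fun C => by unfold cL; positivity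
  have hcN : ∀ C : ℕ, 0 < cN C d := fun C => by unfold cN; positivity
  obtain ⟨Bj, hBj1, hBj2⟩ : ∃ Bj : ℕ → ℝ, (∀ j, Bj j < 1) ∧ ∀ g < B, ∃ j, g < Bj j := by
    refine ⟨fun j => B - 1 / ((j : ℝ) + 1), fun j => ?_, fun g hg => ?_⟩
    · have : (0 : ℝ) < 1 / ((j : ℝ) + 1) := by positivity
      linarith
    · obtain ⟨j, hj⟩ := exists_nat_one_div_lt (sub_pos.2 hg)
      exact ⟨j, by simp only; linarith⟩
  obtain ⟨k₁, hk₁⟩ : ∃ k₁ : ℕ → ℕ → ℕ, ∀ j C : ℕ, ∀ k ≥ k₁ j C,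
      (Bj j - sh) + cL C d * (1 / 2) ^ k + sh ≤ 1 := by
    have h1 : ∀ j C : ℕ, ∃ k₁ : ℕ, ∀ k ≥ k₁,
        (Bj j - sh) + cL C d * (1 / 2) ^ k + sh ≤ 1 := by
      intro j C
      obtain ⟨n, hn⟩ := exists_pow_lt_of_lt_one (show 0 < (1 - Bj j) / (cL C d) from
        div_pos (by linarith [hBj1 j]) (hcL C)) (show (1 / 2 : ℝ) < 1 by norm_num)
      refine ⟨n, fun k hk => ?_⟩
      have h2 : ((1 : ℝ) / 2) ^ k ≤ (1 / 2) ^ n :=
        pow_le_pow_of_le_one (by norm_num) (by norm_num) hk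
      have h3 := h2.trans_lt hn
      rw [lt_div_iff₀ (hcL C)] at h3
      linarith
    choose k₁ hk₁ using h1
    exact ⟨k₁, hk₁⟩
  have hfr : ∀ x : ℕ × ℕ × {σ : ℚ // 0 < σ ∧ σ ≤ 1}, FqG S f y c d sh sn G pG (A - sh)
      (Bj x.1 - sh) x.2.1 x.2.2.1 (k₁ x.1 x.2.1) := by
    rintro ⟨j, C, σ, hσ0, hσ1⟩
    have s0 : (0 : ℝ) < σ := by exact_mod_cast hσ0
    have s1 : (σ : ℝ) ≤ 1 := by exact_mod_cast hσ1
    have s2 : (σ : ℝ) * (d + 1) ≤ 1 * (d + 1) := mul_le_mul_of_nonneg_right s1 (by positivity)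
    have hCn0 := (hcN C).le
    refine frq_G htm hpos hW hp hf hy (C0 := cL C d) (by positivity)
      (by linarith) (by linarith) (by linarith) ?_ le_rfl (qL_cast C d) (hk₁ j C)
    unfold cN cL
    simp only
    linarith
  obtain ⟨S', h1, h2, θ, hθ'⟩ := FrT.numsB (X := ℕ × ℕ × {σ : ℚ // 0 < σ ∧ σ ≤ 1}) hS hpos
    (Q := fun w N => qG m c d sn (pG ((w : ℝ) + sh)) (fun i => (N (some i) : ℝ))) hfr
  have hθ : ∀ x : ℕ × ℕ × {σ : ℚ // 0 < σ ∧ σ ≤ 1}, NmG S' f y c d sh sn G pG (A - sh)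
      (Bj x.1 - sh) x.2.1 x.2.2.1 (k₁ x.1 x.2.1) (θ x) := hθ'
  have hpos' : ∀ (τ : ℝ) (J : ℕ) (F : Fam m J) (A : F.Ω → Prop), S'.St τ J F A → 0 < Pe F.p A :=
    fun τ J F A h => hpos τ J F A (h2 τ J F A h)
  have hη' : ∀ w : ℚ, A - sh ≤ w → (w : ℝ) + sh ≤ 1 → RNum S' f (vg ((w : ℝ) + sh)) (η w) :=
    fun w a b => (hη w (by linarith) b).sub h2
  have htm' : TmC S' C₀ := fun τ J F A hτ h => htm τ J F A hτ (h2 τ J F A h)
  have hW' : ChG S' c d sn G := hW.sub h2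
  have hfr' : ∀ x : ℕ × ℕ × {σ : ℚ // 0 < σ ∧ σ ≤ 1}, FqG S' f y c d sh sn G pG (A - sh)
      (Bj x.1 - sh) x.2.1 x.2.2.1 (k₁ x.1 x.2.1) := fun x => FrT.sub h2 (hfr x)
  refine ⟨S', h1, h2, ?_⟩
  have key : ∀ᵐ g : ℝ, ∀ x : ℕ × ℕ × {σ : ℚ // 0 < σ ∧ σ ≤ 1},
      g ∈ Set.Ioo (A - sh) (Bj x.1 - sh) →
      g + sh ∈ G → (∀ i, HasDerivAt (nG d sh sn G pG i) 0 g) → ∀ κ : ℝ, 0 < κ →
      ∃ K : ℕ, ∀ k ≥ K, ∀ (P : Option (Fin d) → ℚ) (w w' : ℚ),
      AdG d (nG d sh sn G pG) x.2.1 x.2.2.1 k g P → g - cN x.2.1 d * (1 / 2) ^ k ≤ w → w ≤ w' →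
      (w' : ℝ) ≤ g + cN x.2.1 d * (1 / 2) ^ k → θ x k w P - θ x k w' P ≤ κ * (1 / 2) ^ k := by
    rw [MeasureTheory.ae_all_iff]
    rintro ⟨j, C, σ, hσ0, hσ1⟩
    have s0 : (0 : ℝ) < σ := by exact_mod_cast hσ0
    have s1 : (σ : ℝ) ≤ 1 := by exact_mod_cast hσ1
    refine drop_all h1 hpos' htm' hG hne hW' hp hf hy hσ0 hσ1 hη' (hfr' (j, C, ⟨σ, hσ0, hσ1⟩))
      (hθ (j, C, ⟨σ, hσ0, hσ1⟩)) ?_
    exact free_freqT (D := d) h1 hpos' (fun i => by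
        rcases i with _ | i
        · exact Nat.zero_le _
        · exact i.2.le) (Real.log_nonneg one_le_two) (hcN C)
      (by linarith) s0 (by linarith) (by linarith)
      (by linarith) (hcL C).le le_rfl hη'
      (hfr' (j, C, ⟨σ, hσ0, hσ1⟩)) (hθ (j, C, ⟨σ, hσ0, hσ1⟩))
  -- the translation
  have key2 := (MeasureTheory.measurePreserving_sub_right MeasureTheory.volume
    sh).quasiMeasurePreserving.ae key
  filter_upwards [key2, ae_infDist G] with g hg hdist hgAB hgG hd C σ hσ0 hσ1 κ hκ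
  have s0 : (0 : ℝ) < σ := by exact_mod_cast hσ0
  have hd' : ∀ i : Option (Fin d), HasDerivAt (nG d sh sn G pG i) 0 (g - sh) := by
    intro i
    rcases i with _ | i
    · refine HasDerivAt.comp_add_const (f := fun x => Metric.infDist x G) (g - sh) sh ?_
      rw [sub_add_cancel]
      exact hdist hgG
    · refine HasDerivAt.comp_add_const (f := fun x => sn i (pG x) - pG x) (g - sh) sh ?_
      rw [sub_add_cancel]
      exact deriv_p hp (n := fun x => sn i x - x) hgG (hd i i.2)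
  obtain ⟨j, hgj⟩ := hBj2 g hgAB.2
  obtain ⟨K₁, hK₁⟩ := hg (j, C, ⟨σ, hσ0, hσ1⟩) ⟨by linarith [hgAB.1], by linarith⟩
    (by rw [sub_add_cancel]; exact hgG) hd' (κ / 2) (half_pos hκ)
  have hcLC := hcL C
  have hcNC := hcN C
  obtain ⟨n, hn⟩ := flat_of_crit (η := (σ : ℝ) / (100 * cL C d)) (by positivity) hd'
  obtain ⟨K₃, hK₃⟩ := exists_pow_lt_of_lt_one (show 0 < 1 / ((n : ℝ) + 1) / (4 * cL C d) by
    positivity) (show (1 / 2 : ℝ) < 1 by norm_num)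
  have hmn : 0 < min ((g - A) / (cN C d + 1)) ((Bj j - g) / (cN C d + 1)) :=
    lt_min (div_pos (by linarith [hgAB.1]) (by positivity))
      (div_pos (by linarith) (by positivity))
  obtain ⟨K₂, hK₂⟩ := exists_pow_lt_of_lt_one hmn (show (1 / 2 : ℝ) < 1 by norm_num)
  refine ⟨max (max K₁ (k₁ j C)) (max K₂ K₃), fun k hk => ?_⟩
  have hkK1 : K₁ ≤ k := ((le_max_left _ _).trans (le_max_left _ _)).trans hk
  have hkk1 : k₁ j C ≤ k := ((le_max_right _ _).trans (le_max_left _ _)).trans hk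
  have hkK2 : K₂ ≤ k := ((le_max_left _ _).trans (le_max_right _ _)).trans hk
  have hkK3 : K₃ ≤ k := ((le_max_right _ _).trans (le_max_right _ _)).trans hk
  have hrlt : ((1 : ℝ) / 2) ^ k < min ((g - A) / (cN C d + 1)) ((Bj j - g) / (cN C d + 1)) :=
    lt_of_le_of_lt (pow_le_pow_of_le_one (by norm_num) (by norm_num) hkK2) hK₂
  have h3 := hrlt.trans_le (min_le_left _ _)
  have h4 := hrlt.trans_le (min_le_right _ _)
  rw [lt_div_iff₀ (by positivity)] at h3 h4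
  have h5 : ((1 : ℝ) / 2) ^ k < 1 / ((n : ℝ) + 1) / (4 * cL C d) :=
    lt_of_le_of_lt (pow_le_pow_of_le_one (by norm_num) (by norm_num) hkK3) hK₃
  rw [lt_div_iff₀ (by positivity)] at h5
  exact free_k hpos' htm' hW' hp hf hy hσ0 hσ1 hη' (hfr' (j, C, ⟨σ, hσ0, hσ1⟩))
    (hθ (j, C, ⟨σ, hσ0, hσ1⟩)) hκ hkk1 hgG (by linarith) (by linarith) (hn.mono (by linarith))
    (hK₁ k hkK1)

end Pool.LA91
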