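import Pool.Agent.H91.FR.Hts

/-!
# Heights over the charts of earlier windows, for a set of good windows

`ChG`: the chain is full and has natural labels at all windows of the set `G`. `gseq`: a finite
sequence of windows of `G` with small gaps. `hts0G`: the heights over the charts of the window `w` to
the natural digits of the later window `o` are few bits given the record at the window `ow ≥ o`.
-/

set_option autoImplicit false

namespace Pool.LA91

open Finset Real MvPolynomial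
open Pool.Agent.H49.Ent Pool.Agent.H32.Dense Pool.STK Pool.KA Pool.KSAT Pool.K2S Pool.PB Pool.GEN
open Pool.S6C Pool.RCD
open Pool.GRD (LbP)

variable {m : ℕ} {U : Type} {α β γ : ∀ J : ℕ, Fam m J → Type}
  {f : ∀ (J : ℕ) (F : Fam m J), F.Ω → α J F} {g : ∀ (J : ℕ) (F : Fam m J), F.Ω → β J F}
  {y : ∀ (J : ℕ) (F : Fam m J), F.Ω → γ J F} {S : PCl m}

/-- **The chain at the windows of a set.** -/
structure ChG (S : PCl m) (c : ℕ → Fin m) (d : ℕ) (sn : ℕ → ℝ → ℝ) (G : Set ℝ) : Prop where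
  ch : ∀ w ∈ G, ∃ (u₁ : ℝ) (rd : ℕ → ℝ), (∀ i < d, 0 ≤ rd i) ∧
    Chn S c 0 d w w u₁ (fun i => sn i w) rd

theorem ChG.sub {S' : PCl m} (hs : ∀ (τ : ℝ) (J : ℕ) (F : Fam m J) (A : F.Ω → Prop),
    S'.St τ J F A → S.St τ J F A) {c : ℕ → Fin m} {d : ℕ} {sn : ℕ → ℝ → ℝ} {G : Set ℝ}
    (h : ChG S c d sn G) : ChG S' c d sn G := by
  refine ⟨fun q a => ?_⟩
  obtain ⟨u₁, rd, h1, h2⟩ := h.ch q a
  exact ⟨u₁, rd, h1, h2.sub hs⟩

theorem ChG.mono {c : ℕ → Fin m} {d : ℕ} {sn : ℕ → ℝ → ℝ} {G G' : Set ℝ}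
    (h : ChG S c d sn G) (hG : G' ⊆ G) : ChG S c d sn G' := ⟨fun w hw => h.ch w (hG hw)⟩

/-- **A sequence of windows** of a set with small gaps. -/
theorem gseq {G : Set ℝ} {w h ρ₀ : ℝ} (hw : w ∈ G) (hh : 2 * ρ₀ < h) (n : ℕ) :
    ∀ o ∈ G, w ≤ o → o - w ≤ n * (h - 2 * ρ₀) →
    (∀ x, w ≤ x → x ≤ o → ∃ v ∈ G, |v - x| ≤ ρ₀) →
    ∃ (N : ℕ) (b : ℕ → ℝ), b 0 = o ∧ b N = w ∧
      (∀ t ≤ N, b t ∈ G ∧ w ≤ b t ∧ b t ≤ o) ∧
      ∀ t < N, b (t + 1) ≤ b t ∧ b t ≤ b (t + 1) + h := by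
  induction n with
  | zero =>
    intro o ho hwo h1 _
    have h2 : o = w := by
      rw [Nat.cast_zero, zero_mul] at h1
      linarith
    exact ⟨0, fun _ => w, h2.symm, rfl, fun t _ => ⟨hw, le_rfl, hwo⟩, fun t ht => by omega⟩
  | succ n ih =>
    intro o ho hwo h1 hgap
    rcases le_or_gt (o - w) h with h2 | h2
    · refine ⟨1, fun t => if t = 0 then o else w, rfl, rfl, fun t _ => ?_, fun t ht => ?_⟩
      · by_cases h3 : t = 0
        · simp only [h3, if_true]
          exact ⟨ho, hwo, le_rfl⟩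
        · simp only [h3, if_false]
          exact ⟨hw, le_rfl, hwo⟩
      · have h3 : t = 0 := by omega
        subst h3
        simp only [zero_add, one_ne_zero, if_true, if_false]
        exact ⟨hwo, by linarith⟩
    · have hρ : 0 ≤ ρ₀ := by
        obtain ⟨v, -, hv⟩ := hgap w le_rfl hwo
        exact (abs_nonneg _).trans hv
      obtain ⟨v, hv, hv1⟩ := hgap (o - (h - ρ₀)) (by linarith) (by linarith)
      rw [abs_le] at hv1
      obtain ⟨N, b, b0, bN, hb, hs⟩ := ih v hv (by linarith) (by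
        push_cast at h1
        linarith) (fun x hx1 hx2 => hgap x hx1 (by linarith))
      refine ⟨N + 1, fun t => if t = 0 then o else b (t - 1), rfl, ?_, fun t ht => ?_,
        fun t ht => ?_⟩
      · simp only [Nat.add_eq_zero_iff, one_ne_zero, and_false, if_false, Nat.add_sub_cancel]
        exact bN
      · by_cases h3 : t = 0
        · simp only [h3, if_true]
          exact ⟨ho, hwo, le_rfl⟩
        · simp only [h3, if_false]
          obtain ⟨q1, q2, q3⟩ := hb (t - 1) (by omega)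
          exact ⟨q1, q2, by linarith⟩
      · by_cases h3 : t = 0
        · subst h3
          simp only [zero_add, one_ne_zero, if_true, if_false, Nat.sub_self]
          rw [b0]
          constructor <;> linarith
        · obtain ⟨q1, q2⟩ := hs (t - 1) (by omega)
          rw [show t - 1 + 1 = t by omega] at q1 q2
          simp only [h3, if_false, Nat.add_eq_zero_iff, one_ne_zero, and_false,
            Nat.add_sub_cancel]
          exact ⟨q1, q2⟩

theorem hts_coreG {C₀ : ℝ} (htm : TmC S C₀)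
    (hpos : ∀ (τ : ℝ) (J : ℕ) (F : Fam m J) (A : F.Ω → Prop), S.St τ J F A → 0 < Pe F.p A)
    {c : ℕ → Fin m} {d : ℕ} {sn : ℕ → ℝ → ℝ} {G : Set ℝ} (hW : ChG S c d sn G)
    (hf : ∀ (J : ℕ) (F : Fam m J), ∃ φ : α J F → PtT F, ∀ ω, ptr F J ω = φ (f J F ω))
    (hy : Kn ((range 0).image c) 1 1 y) {n : ℕ} {bw : ℕ → ℝ} {ow h φ σ₀ : ℝ} (hh : 0 ≤ h)
    (hG : ∀ t ≤ n, bw t ∈ G) (hst : ∀ t < n, bw (t + 1) ≤ bw t ∧ bw t ≤ bw (t + 1) + h)
    (how : bw 0 ≤ ow) (how1 : ow ≤ 1) (hφ : 0 ≤ φ) (hσ : 0 < σ₀)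
    (hfl : ∀ i < d, ∀ t ≤ n, |(sn i (bw t) - bw t) - (sn i (bw 0) - bw 0)| ≤ φ) (i : ℕ) :
    i < d → ∀ t ≤ n, ∀ N : ℝ, N ≤ sn i (bw 0) - (i + 1) * (h + 2 * φ + 3 * σ₀) →
      Few0 S f (vg ow) y (qJet m ((range i).image c) (c i) 0 (bw t) (sn i (bw t)) N) := by
  obtain ⟨κ, hκ⟩ : ∃ κ : ℝ, κ = h + 2 * φ + 3 * σ₀ := ⟨_, rfl⟩
  have hκ0 : 0 < κ := by rw [hκ]; positivity
  have hwin : ∀ t : ℕ, t ≤ n → bw t ≤ bw 0 := by
    intro t
    induction t with
    | zero => intro _; exact le_rfl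
    | succ t ih => intro ht; exact (hst t (by omega)).1.trans (ih (by omega))
  rw [← hκ]
  induction i using Nat.strong_induction_on with
  | _ i ihi =>
  intro hi t
  induction t with
  | zero =>
    intro _ N hN
    obtain ⟨u₁, rd, hrd, hch⟩ := hW.ch (bw 0) (hG 0 (Nat.zero_le _))
    refine few0_jet htm hch.w0 hch.u0 ?_ _ _ _
    have : (0 : ℝ) ≤ (i + 1) * κ := by positivity
    push_cast
    linarith
  | succ t iht =>
    intro ht N hN
    obtain ⟨o, ho⟩ : ∃ o : ℝ, o = bw 0 := ⟨_, rfl⟩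
    obtain ⟨b, hb⟩ : ∃ b : ℝ, b = bw t := ⟨_, rfl⟩
    obtain ⟨b', hb'⟩ : ∃ b' : ℝ, b' = bw (t + 1) := ⟨_, rfl⟩
    obtain ⟨hbb1, hbb2⟩ := hst t (by omega)
    have w2 := hwin t (by omega)
    have w4 := hwin (t + 1) ht
    have key0 := iht (by omega) N hN
    obtain ⟨u₁, rd, hrd, hch⟩ := hW.ch _ (hG t (by omega))
    obtain ⟨u₁', rd', hrd', hch'⟩ := hW.ch _ (hG (t + 1) ht)
    obtain ⟨u₂, rd₂, hrd₂, hch₂⟩ := hW.ch _ (hG 0 (Nat.zero_le _))
    have f1 : ∀ l < d, |(sn l (bw t) - bw t) - (sn l (bw 0) - bw 0)| ≤ φ := fun l hl =>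
      hfl l hl t (by omega)
    have f2 : ∀ l < d, |(sn l (bw (t + 1)) - bw (t + 1)) - (sn l (bw 0) - bw 0)| ≤ φ :=
      fun l hl => hfl l hl (t + 1) ht
    have ihi' : ∀ l < i, Few0 S f (vg ow) y (qJet m ((range l).image c) (c l) 0 (bw t)
        (sn l (bw t)) (sn l (bw 0) - (l + 1) * κ)) := fun l hl =>
      ihi l hl (by omega) t (by omega) _ le_rfl
    rw [← ho] at w2 w4 hN how f1 f2 ihi' hch₂
    rw [← hb] at hbb1 hbb2 w2 key0 hch f1 ihi'
    rw [← hb'] at hbb1 hbb2 w4 hch' f2 ⊢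
    have hi1 := abs_le.1 (f1 i hi)
    have hi2 := abs_le.1 (f2 i hi)
    have hb0 := hch.w0
    have hb1 := hch.u0
    have ho1 := hch₂.u0
    by_cases h1 : N ≤ sn i b'
    · refine few0_jet htm hch'.w0 hch'.u0 ?_ _ _ _
      push_cast
      linarith
    push Not at h1
    -- the numbers
    obtain ⟨Nv, hNv⟩ : ∃ Nv : ℕ → ℝ, Nv = fun l => sn l o - (l + 1) * κ := ⟨_, rfl⟩
    obtain ⟨lv, hlv⟩ : ∃ lv : ℕ → ℝ, lv = fun l => sn l o - (l + 1) * κ - sn l b - σ₀ :=
      ⟨_, rfl⟩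
    have hil : ∀ l l' : ℕ, l < l' → κ ≤ ((l' : ℝ) - l) * κ := by
      intro l l' hl
      have : (l : ℝ) + 1 ≤ l' := by exact_mod_cast hl
      nlinarith
    have hQs : Few0 S f (vg ow) y (qJets m c 0 i 0 (fun _ _ => b)
        (fun l _ => sn l b) (fun l _ => Nv l)) := by
      refine few_tQt hpos (few_qjets hpos fun l _ hl j' hj' => ?_)
      obtain rfl : j' = 0 := by omega
      refine Few0.few hpos ?_
      have := ihi' l hl
      rw [hNv]
      exact this
    have hxs : Exs S (qJets m c 0 i 0 (fun _ _ => b) (fun l _ => sn l b)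
        (fun l _ => Nv l)) := exs_qjets fun l _ hl j' _ =>
      exs_jet (hrd l (by omega)) (hch.att l (Nat.zero_le _) (by omega))
    have hx1 : Exs S (qJet m ((range i).image c) (c i) 0 b (sn i b) N) :=
      exs_jet (hrd i hi) (hch.att i (Nat.zero_le _) hi)
    have hup : ∀ (J : ℕ) (F : Fam m J), ∃ φ : LnT F → LnT F, ∀ ω,
        vg b J F ω = φ (vg ow J F ω) :=
      fun J F => vg_mono (by linarith) how1 J F
    have hmin : min (1 : ℝ) (1 - b) = 1 - b := min_eq_right (by linarith)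
    have key := few_jetN (f := f) (y := y) htm (hch.take (Nat.zero_le i) hi.le) (k := c i)
      (j := 0) (wv := fun _ _ => b) (pv := fun l _ => sn l b) (Nv := fun l _ => Nv l)
      (lv := lv) (w₁ := b) (w₂ := b') (p₁ := sn i b) (p₂ := sn i b')
      (N₁ := N) (N₂ := N) (p₀ := 1) (lam := 1) (σ₀ := σ₀) (fun _ _ _ _ _ => le_rfl) le_rfl
      (by linarith) hb1 le_rfl one_pos hσ (by
        intro l _ hl
        have l1 := abs_le.1 (f1 l (by omega))
        have l2 := hil l i hl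
        rw [hlv]
        simp only
        nlinarith) (by
        intro l _ hl j' hj'
        obtain rfl : j' = 0 := by omega
        rw [hlv, hNv]
        simp only
        push_cast
        linarith) (by
        intro l _ hl j' hj'
        rw [hlv, hmin, min_self]
        simp only
        have l1 := abs_le.1 (f1 l (by omega))
        have l2 : κ ≤ (l + 1) * κ := by nlinarith [Nat.cast_nonneg (α := ℝ) l]
        linarith) (by
        intro l _ hl j' hj' l' _ hl'
        rw [hlv, min_self]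
        simp only
        have l1 := abs_le.1 (f1 l (by omega))
        have l2 := abs_le.1 (f1 l' (by omega))
        have l3 := hil l' l hl'
        nlinarith) le_rfl (by
        rw [hmin]
        push_cast
        have l2 : κ ≤ (i + 1) * κ := by nlinarith [Nat.cast_nonneg (α := ℝ) i]
        rcases min_choice (sn i b) (sn i b') with h | h <;> rw [h] <;> linarith) (by
        intro l _ hl
        rw [hlv]
        simp only
        push_cast
        have l1 := abs_le.1 (f1 l (by omega))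
        have l3 := hil l i hl
        rcases min_choice (sn i b) (sn i b') with h | h <;> rw [h] <;> nlinarith) hf hy
    have key2 := Few.up (f' := f) (y' := y) hpos (fun J F => ⟨fun x => x, fun _ => rfl⟩) hup
      (fun J F => ⟨fun x => x, fun _ => rfl⟩) key
    refine Few0.trans hpos (Exs.prod hxs hx1) ?_ key2
    exact few_tQt hpos (Few.pair hpos (Few0.few hpos hQs) (Few0.few hpos key0))

/-- **The heights over the charts of an earlier window**, to the natural digits of the later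
window, are few bits given the record at the later window. -/
theorem hts0G {C₀ : ℝ} (htm : TmC S C₀)
    (hpos : ∀ (τ : ℝ) (J : ℕ) (F : Fam m J) (A : F.Ω → Prop), S.St τ J F A → 0 < Pe F.p A)
    {c : ℕ → Fin m} {d : ℕ} {sn : ℕ → ℝ → ℝ} {G : Set ℝ} (hW : ChG S c d sn G)
    (hf : ∀ (J : ℕ) (F : Fam m J), ∃ φ : α J F → PtT F, ∀ ω, ptr F J ω = φ (f J F ω))
    (hy : Kn ((range 0).image c) 1 1 y) {w o ow φ ρ₀ κ : ℝ} (hw : w ∈ G) (ho : o ∈ G)
    (hwo : w ≤ o) (how : o ≤ ow) (how1 : ow ≤ 1) (hφ : 0 ≤ φ) (hρ₀ : 0 ≤ ρ₀) (hκ : 0 < κ)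
    (hgap : ∀ x, w ≤ x → x ≤ o → ∃ v ∈ G, |v - x| ≤ ρ₀)
    (hfl : ∀ i < d, ∀ v ∈ G, w ≤ v → v ≤ o → |(sn i v - v) - (sn i o - o)| ≤ φ) {i : ℕ}
    (hi : i < d) {N : ℝ} (hN : N ≤ sn i o - (i + 1) * (2 * φ + 2 * ρ₀ + κ)) :
    Few0 S f (vg ow) y (qJet m ((range i).image c) (c i) 0 w (sn i w) N) := by
  obtain ⟨n, hn⟩ := exists_nat_ge ((o - w) / (κ / 4))
  obtain ⟨N', b, b0, bN, hb, hs⟩ := gseq (h := 2 * ρ₀ + κ / 4) hw (by linarith) n o ho hwo (by
    rw [div_le_iff₀ (by linarith)] at hn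
    linarith) hgap
  have key := hts_coreG htm hpos hW hf hy (n := N') (bw := b) (ow := ow) (h := 2 * ρ₀ + κ / 4)
    (φ := φ) (σ₀ := κ / 4) (by linarith) (fun t ht => (hb t ht).1) hs (by rw [b0]; exact how) how1
    hφ (by linarith) (fun i hi t ht => by
      rw [b0]
      exact hfl i hi _ (hb t ht).1 (hb t ht).2.1 (hb t ht).2.2) i hi N' le_rfl N (by
      rw [b0]
      have h1 : (i + 1 : ℝ) * (2 * ρ₀ + κ / 4 + 2 * φ + 3 * (κ / 4)) =
          (i + 1) * (2 * φ + 2 * ρ₀ + κ) := by ring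
      linarith)
  rw [bN] at key
  exact key

end Pool.LA91
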