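import Pool.Agent.H91.FR.SubA

/-!
# One subclass for the free velocities and the entropy fields

`rnum_ptr`: the numbers of the records at all rational windows. `fa_tl`: in one subclass, at almost
every critical point of a closed set of good windows, `FreeAt`, `FreeNx` and `TlAt` hold for all small
scales.
-/

set_option autoImplicit false

namespace Pool.LA91

open Finset Real MvPolynomial
open Pool.Agent.H49.Ent Pool.Agent.H32.Dense Pool.STK Pool.KA Pool.KSAT Pool.K2S Pool.PB Pool.GEN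
open Pool.S6C Pool.RCD

variable {m : ℕ}

/-- **The numbers of the records** at the rational windows. -/
theorem rnum_ptr {S : PCl m} (hS : S.Ne)
    (hpos : ∀ (τ : ℝ) (J : ℕ) (F : Fam m J) (A : F.Ω → Prop), S.St τ J F A → 0 < Pe F.p A)
    {M : ℝ} (hM : Bas S (fun J F A => (cnt F.p (ptr F J) A : ℝ) ≤ Real.exp (M * J))) :
    ∃ S' : PCl m, S'.Ne ∧
      (∀ (τ : ℝ) (J : ℕ) (F : Fam m J) (A : F.Ω → Prop), S'.St τ J F A → S.St τ J F A) ∧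
      ∃ η : ℚ → ℝ, ∀ w : ℚ, RNum S' (fun J F => ptr F J) (vg (w : ℝ)) (η w) := by
  classical
  obtain ⟨e, he⟩ := exists_surjective_nat ℚ
  obtain ⟨S', h1, h2, h3⟩ := ext_rec hS hpos (fun _ _ F => PtT F) (fun _ _ F => LnT F)
    (fun _ J F => ptr F J) (fun i => vg ((e i : ℚ) : ℝ)) (fun _ => M) (fun _ => hM)
  choose η hη using h3
  have key : ∀ w : ℚ, ∃ y : ℝ, RNum S' (fun J F => ptr F J) (vg (w : ℝ)) y := by
    intro w
    obtain ⟨i, hi⟩ := he w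
    refine ⟨η i, ?_⟩
    have := hη i
    rw [hi] at this
    exact this
  choose y hy using key
  exact ⟨S', h1, h2, y, hy⟩

/-- The line and the time. -/
theorem kn_W {c : ℕ → Fin m} : Kn ((range 0).image c) 1 1 (fun (J : ℕ) (F : Fam m J) => F.W) := by
  intro J F
  exact ⟨fun x => (x.1, fun _ => 0, fun _ => 0), fun ω => by simp [Fam.W]⟩

/-- **One subclass** for `FreeAt`, `FreeNx` and `TlAt`. -/
theorem fa_tl {S : PCl m} {C₀ M : ℝ} (hS : S.Ne)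
    (hpos : ∀ (τ : ℝ) (J : ℕ) (F : Fam m J) (A : F.Ω → Prop), S.St τ J F A → 0 < Pe F.p A)
    (htm : TmC S C₀)
    (hM : Bas S (fun J F A => (cnt F.p (ptr F J) A : ℝ) ≤ Real.exp (M * J)))
    {c : ℕ → Fin m} {d : ℕ} {A B : ℝ} {sn : ℕ → ℝ → ℝ} {G : Set ℝ} (hG : IsClosed G)
    (hW : ChG S c d sn G) (hB : B ≤ 1) :
    ∃ S' : PCl m, S'.Ne ∧
      (∀ (τ : ℝ) (J : ℕ) (F : Fam m J) (A : F.Ω → Prop), S'.St τ J F A → S.St τ J F A) ∧
      ∀ᵐ g : ℝ, g ∈ Set.Ioo A B → g ∈ G →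
      (∀ i < d, HasDerivWithinAt (fun x => sn i x - x) 0 G g) →
      ∀ (C : ℕ) (σ : ℚ), 0 < σ → σ ≤ 1 → ∀ κ : ℝ, 0 < κ → ∃ K : ℕ, ∀ k ≥ K,
        FreeAt S' (fun J F => ptr F J) (fun _ F => F.W) c d sn G g C σ κ k ∧
        FreeNx S' (fun J F => ptr F J) (fun _ F => F.W) c d sn G g C σ κ k ∧
        TlAt S' c d sn G g C σ κ k := by
  obtain ⟨S₁, a1, a2, η, hη⟩ := rnum_ptr hS hpos hM
  have hf : ∀ (J : ℕ) (F : Fam m J), ∃ φ : PtT F → PtT F, ∀ ω, ptr F J ω = φ (ptr F J ω) :=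
    fun J F => ⟨fun x => x, fun _ => rfl⟩
  have p1 : ∀ (τ : ℝ) (J : ℕ) (F : Fam m J) (A : F.Ω → Prop), S₁.St τ J F A → 0 < Pe F.p A :=
    fun τ J F A h => hpos τ J F A (a2 τ J F A h)
  have t1 : TmC S₁ C₀ := fun τ J F A hτ h => htm τ J F A hτ (a2 τ J F A h)
  have η1 : ∀ w : ℚ, A ≤ (w : ℝ) + 0 → (w : ℝ) + 0 ≤ 1 →
      RNum S₁ (fun J F => ptr F J) (vg ((w : ℝ) + 0)) (η w) := by
    intro w _ _
    rw [add_zero]
    exact hη w
  obtain ⟨S₂, b1, b2, b3⟩ := free_all a1 p1 t1 hG (hW.sub a2) hf (kn_W (c := c)) hB η1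
  have p2 : ∀ (τ : ℝ) (J : ℕ) (F : Fam m J) (A : F.Ω → Prop), S₂.St τ J F A → 0 < Pe F.p A :=
    fun τ J F A h => p1 τ J F A (b2 τ J F A h)
  have t2 : TmC S₂ C₀ := fun τ J F A hτ h => t1 τ J F A hτ (b2 τ J F A h)
  obtain ⟨S₃, c1, c2, c3⟩ := free_nx b1 p2 t2 hG ((hW.sub a2).sub b2) hf (kn_W (c := c)) hB
    (fun w x1 x2 => (η1 w x1 x2).sub b2)
  have p3 : ∀ (τ : ℝ) (J : ℕ) (F : Fam m J) (A : F.Ω → Prop), S₃.St τ J F A → 0 < Pe F.p A :=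
    fun τ J F A h => p2 τ J F A (c2 τ J F A h)
  have t3 : TmC S₃ C₀ := fun τ J F A hτ h => t2 τ J F A hτ (c2 τ J F A h)
  obtain ⟨S₄, d1, d2, d3⟩ := tl_all c1 p3 t3 hG (((hW.sub a2).sub b2).sub c2) hB
    (fun w x1 x2 => ((η1 w x1 x2).sub b2).sub c2)
  refine ⟨S₄, d1, fun τ J F A h => a2 τ J F A (b2 τ J F A (c2 τ J F A (d2 τ J F A h))), ?_⟩
  filter_upwards [b3, c3, d3] with g hb hc hd hAB hgG hder C σ hσ0 hσ1 κ hκ
  obtain ⟨K₁, hK₁⟩ := hb hAB hgG hder C σ hσ0 hσ1 κ hκ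
  obtain ⟨K₂, hK₂⟩ := hc hAB hgG hder C σ hσ0 hσ1 κ hκ
  obtain ⟨K₃, hK₃⟩ := hd hAB hgG hder C σ hσ0 hσ1 κ hκ
  refine ⟨max K₁ (max K₂ K₃), fun k hk => ⟨?_, ?_, ?_⟩⟩
  · exact (hK₁ k ((le_max_left _ _).trans hk)).sub fun τ J F A h =>
      c2 τ J F A (d2 τ J F A h)
  · exact (hK₂ k (((le_max_left _ _).trans (le_max_right _ _)).trans hk)).sub d2
  · exact hK₃ k (((le_max_right _ _).trans (le_max_right _ _)).trans hk)

end Pool.LA91
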