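import Pool.Agent.H3.D2G.RecJ
import Pool.Agent.H18.D2G.Gch
import Pool.Agent.H91.FR.AllG

/-!
# The free velocities and the entropy fields as a property of the windows

`fa_tl_le`: one subclass for `FreeAt`, `FreeNx` and `TlAt` for all lengths of the chain. `FaQ`: the
property of a window, for the joints of the class theorems; `aePG_fa`: it holds at almost every
window, in a subclass. `sumQ`, `aePG_sum`: two properties at once.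
-/

set_option autoImplicit false

namespace Pool.LA91

open Finset Real MvPolynomial
open Pool.Agent.H49.Ent Pool.Agent.H32.Dense Pool.STK Pool.KA Pool.KSAT Pool.K2S Pool.PB Pool.GEN
open Pool.S6C Pool.RCD Pool.PKG Pool.CHT Pool.GRW
open Pool.TOP (TopS)

/-- **One subclass** for `FreeAt`, `FreeNx` and `TlAt`, all lengths. -/
theorem fa_tl_le {m : ℕ} {S : PCl m} {C₀ M : ℝ} (hS : S.Ne)
    (hpos : ∀ (τ : ℝ) (J : ℕ) (F : Fam m J) (A : F.Ω → Prop), S.St τ J F A → 0 < Pe F.p A)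
    (htm : TmC S C₀)
    (hM : Bas S (fun J F A => (cnt F.p (ptr F J) A : ℝ) ≤ Real.exp (M * J)))
    {c : ℕ → Fin m} {A B : ℝ} {sn : ℕ → ℝ → ℝ} {G : Set ℝ} (hG : IsClosed G) (hB : B ≤ 1)
    (N : ℕ) (hW : ∀ d < N, ChG S c d sn G) :
    ∃ S' : PCl m, S'.Ne ∧
      (∀ (τ : ℝ) (J : ℕ) (F : Fam m J) (A : F.Ω → Prop), S'.St τ J F A → S.St τ J F A) ∧
      ∀ᵐ g : ℝ, g ∈ Set.Ioo A B → g ∈ G → ∀ d < N,
      (∀ i < d, HasDerivWithinAt (fun x => sn i x - x) 0 G g) →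
      ∀ (C : ℕ) (σ : ℚ), 0 < σ → σ ≤ 1 → ∀ κ : ℝ, 0 < κ → ∃ K : ℕ, ∀ k ≥ K,
        FreeAt S' (fun J F => ptr F J) (fun _ F => F.W) c d sn G g C σ κ k ∧
        FreeNx S' (fun J F => ptr F J) (fun _ F => F.W) c d sn G g C σ κ k ∧
        TlAt S' c d sn G g C σ κ k := by
  induction N with
  | zero => exact ⟨S, hS, fun _ _ _ _ h => h, Filter.Eventually.of_forall fun g _ _ d hd =>
      absurd hd (Nat.not_lt_zero d)⟩
  | succ N ih =>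
    obtain ⟨S₁, a1, a2, a3⟩ := ih fun d hd => hW d (by omega)
    obtain ⟨S₂, b1, b2, b3⟩ := fa_tl a1 (fun τ J F A h => hpos τ J F A (a2 τ J F A h))
      (fun τ J F A hτ h => htm τ J F A hτ (a2 τ J F A h)) (hM.sub a2) hG
      ((hW N (Nat.lt_succ_self N)).sub a2) hB (A := A)
    refine ⟨S₂, b1, fun τ J F A h => a2 τ J F A (b2 τ J F A h), ?_⟩
    filter_upwards [a3, b3] with g ha hb hAB hg d hd hder C σ hσ0 hσ1 κ hκ
    rcases Nat.lt_succ_iff_lt_or_eq.1 hd with h | rfl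
    · obtain ⟨K, hK⟩ := ha hAB hg d h hder C σ hσ0 hσ1 κ hκ
      exact ⟨K, fun k hk => ⟨(hK k hk).1.sub b2, (hK k hk).2.1.sub b2, (hK k hk).2.2.sub b2⟩⟩
    · exact hb hAB hg hder C σ hσ0 hσ1 κ hκ

/-- **The free velocities and the entropy fields** at a window `x`. The parameters: the length of
the chain, the constant of the windows, the step of the digits, the error. -/
structure FaQ {n : ℕ} (p : ℕ × ℕ × ℚ × ℚ) (k₀ : ℕ) (S : PCl n)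
    (P : List (Fin n) × Fin n → ℝ → ℝ → ℝ) (θ : ℝ) (c : ℕ → Fin n) (Pt : ℝ → ℝ → ℝ)
    (r : ℝ → ℝ) (L T : ℕ → ℝ → ℝ → ℝ) (κ : ℕ → Kg) (G : Set ℝ) (x : ℝ) : Prop where
  /-- The numbers of the records exist. -/
  rn : ∃ η : ℚ → ℝ, ∀ w : ℚ, RNum S (fun J F => ptr F J) (vg (w : ℝ)) (η w)
  /-- The chains at the windows of `G`. -/
  ch : ∀ d < n, ChG S c d (fun l w => L l w w) G
  free : p.1 < n → (∀ l < p.1, κ l = .one) → 0 < p.2.2.1 → p.2.2.1 ≤ 1 → 0 < p.2.2.2 →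
    ∀ k ≥ k₀, FreeAt S (fun J F => ptr F J) (fun _ F => F.W) c p.1 (fun l w => L l w w) G x
      p.2.1 p.2.2.1 p.2.2.2 k
  next : p.1 < n → (∀ l < p.1, κ l = .one) → 0 < p.2.2.1 → p.2.2.1 ≤ 1 → 0 < p.2.2.2 →
    ∀ k ≥ k₀, FreeNx S (fun J F => ptr F J) (fun _ F => F.W) c p.1 (fun l w => L l w w) G x
      p.2.1 p.2.2.1 p.2.2.2 k
  tl : p.1 < n → (∀ l < p.1, κ l = .one) → 0 < p.2.2.1 → p.2.2.1 ≤ 1 → 0 < p.2.2.2 →
    ∀ k ≥ k₀, TlAt S c p.1 (fun l w => L l w w) G x p.2.1 p.2.2.1 p.2.2.2 k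

/-- **The property `FaQ` holds at almost every window**, in a subclass. -/
theorem aePG_fa (n : ℕ) : AePG n (FaQ : PropG n (ℕ × ℕ × ℚ × ℚ)) := by
  intro hn S P r P' Λ PB PQ H hTop hF o G hG hGs
  obtain ⟨al, g₀, s, d', e', K₁, N₁, hal, hg₀, hC⟩ := H.cl
  have htm : TmC S 6 := Pool.GEN.N83.clx_tmc hC
  have hM : Bas S (fun J F A => (cnt F.p (ptr F J) A : ℝ) ≤ Real.exp ((4 * n + 1) * J)) :=
    Bas.mono 0 hC.cnt fun J _ F A h => h J le_rfl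
  have hW : ∀ d < n, ChG S (cc hn o.1.1) d (fun l w => LvL hn P P' o l w w) G :=
    fun d hd => gs_chG H.toPk hTop hF hGs (by omega)
  obtain ⟨S₁, a1, a2, η, hη⟩ := rnum_ptr hC.ne hC.pos hM
  obtain ⟨S₂, b1, b2, b3⟩ := fa_tl_le (A := 0) a1
    (fun τ J F A h => hC.pos τ J F A (a2 τ J F A h))
    (fun τ J F A hτ h => htm τ J F A hτ (a2 τ J F A h)) (hM.sub a2) hG le_rfl n
    fun d hd => (hW d hd).sub a2
  refine ⟨S₂, b1, fun τ J F A h => a2 τ J F A (b2 τ J F A h), ?_⟩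
  filter_upwards [b3, H.toPkT.dia_all H.pble hTop hF] with g h1 hdia hg κ hκ p
  have ho := hGs hg
  obtain ⟨α, Q, c', F⟩ := H.toPk.fac hTop hF ho
  have key : p.1 < n → (∀ l < p.1, κ l = .one) → 0 < p.2.2.1 → p.2.2.1 ≤ 1 → 0 < p.2.2.2 →
      ∃ K : ℕ, ∀ k ≥ K,
        FreeAt S₂ (fun J F => ptr F J) (fun _ F => F.W) (cc hn o.1.1) p.1
          (fun l w => LvL hn P P' o l w w) G g p.2.1 p.2.2.1 p.2.2.2 k ∧
        FreeNx S₂ (fun J F => ptr F J) (fun _ F => F.W) (cc hn o.1.1) p.1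
          (fun l w => LvL hn P P' o l w w) G g p.2.1 p.2.2.1 p.2.2.2 k ∧
        TlAt S₂ (cc hn o.1.1) p.1 (fun l w => LvL hn P P' o l w w) G g p.2.1 p.2.2.1
          p.2.2.2 k := by
    intro hp hone hσ0 hσ1 hκ0
    refine h1 ⟨F.g0, F.g1⟩ hg p.1 hp (fun i hi => ?_) p.2.1 p.2.2.1 hσ0 hσ1 p.2.2.2
      (by exact_mod_cast hκ0)
    have h2 := hκ i (by omega)
    rw [hone i hi] at h2
    have h3 : deriv (fun a => LvL hn P P' o i a a) g = 1 := h2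
    have h4 := (hdia o ho i (by omega)).1.hasDerivAt
    rw [h3] at h4
    have h5 := h4.sub (hasDerivAt_id g)
    rw [sub_self] at h5
    exact h5.hasDerivWithinAt
  by_cases hall : p.1 < n ∧ (∀ l < p.1, κ l = .one) ∧ 0 < p.2.2.1 ∧ p.2.2.1 ≤ 1 ∧ 0 < p.2.2.2
  · obtain ⟨K, hK⟩ := key hall.1 hall.2.1 hall.2.2.1 hall.2.2.2.1 hall.2.2.2.2
    exact ⟨K, ⟨η, fun w => (hη w).sub b2⟩, fun d hd => ((hW d hd).sub a2).sub b2,
      fun _ _ _ _ _ k hk => (hK k hk).1, fun _ _ _ _ _ k hk => (hK k hk).2.1,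
      fun _ _ _ _ _ k hk => (hK k hk).2.2⟩
  · exact ⟨0, ⟨η, fun w => (hη w).sub b2⟩, fun d hd => ((hW d hd).sub a2).sub b2,
      fun e1 e2 e3 e4 e5 => absurd ⟨e1, e2, e3, e4, e5⟩ hall,
      fun e1 e2 e3 e4 e5 => absurd ⟨e1, e2, e3, e4, e5⟩ hall,
      fun e1 e2 e3 e4 e5 => absurd ⟨e1, e2, e3, e4, e5⟩ hall⟩

/-- The property passes to subclasses. -/
theorem FaQ.sub {n : ℕ} {p : ℕ × ℕ × ℚ × ℚ} {k₀ : ℕ} {S S' : PCl n}
    {P : List (Fin n) × Fin n → ℝ → ℝ → ℝ} {θ : ℝ} {c : ℕ → Fin n} {Pt : ℝ → ℝ → ℝ}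
    {r : ℝ → ℝ} {L T : ℕ → ℝ → ℝ → ℝ} {κ : ℕ → Kg} {G : Set ℝ} {x : ℝ}
    (hs : ∀ (τ : ℝ) (J : ℕ) (F : Fam n J) (A : F.Ω → Prop), S'.St τ J F A → S.St τ J F A)
    (h : FaQ p k₀ S P θ c Pt r L T κ G x) : FaQ p k₀ S' P θ c Pt r L T κ G x where
  rn := by
    obtain ⟨η, hη⟩ := h.rn
    exact ⟨η, fun w => (hη w).sub hs⟩
  ch := fun d hd => (h.ch d hd).sub hs
  free := fun e1 e2 e3 e4 e5 k hk => (h.free e1 e2 e3 e4 e5 k hk).sub hs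
  next := fun e1 e2 e3 e4 e5 k hk => (h.next e1 e2 e3 e4 e5 k hk).sub hs
  tl := fun e1 e2 e3 e4 e5 k hk => (h.tl e1 e2 e3 e4 e5 k hk).sub hs

/-- **Two properties**: the parameters of the first or of the second one. -/
def sumQ {n : ℕ} {ι ι' : Type} (Q : PropG n ι) (Q' : PropG n ι') :
    PropG n (ι ⊕ ι') :=
  fun p => Sum.elim Q Q' p

/-- The property passes to subclasses. -/
def HerQ {n : ℕ} {ι : Type} (Q : PropG n ι) : Prop :=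
  ∀ (p : ι) (k₀ : ℕ) (S S' : PCl n) (P : List (Fin n) × Fin n → ℝ → ℝ → ℝ) (θ : ℝ)
    (c : ℕ → Fin n) (Pt : ℝ → ℝ → ℝ) (r : ℝ → ℝ) (L T : ℕ → ℝ → ℝ → ℝ) (κ : ℕ → Kg)
    (G : Set ℝ) (x : ℝ),
    (∀ (τ : ℝ) (J : ℕ) (F : Fam n J) (A : F.Ω → Prop), S'.St τ J F A → S.St τ J F A) →
    Q p k₀ S P θ c Pt r L T κ G x → Q p k₀ S' P θ c Pt r L T κ G x

theorem her_fa (n : ℕ) : HerQ (FaQ : PropG n (ℕ × ℕ × ℚ × ℚ)) :=
  fun _ _ _ _ _ _ _ _ _ _ _ _ _ _ hs h => h.sub hs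

/-- **Two properties at almost every window**, in one subclass. -/
theorem aePG_sum {n : ℕ} {ι ι' : Type} {Q : PropG n ι} {Q' : PropG n ι'} (h : AePG n Q)
    (hh : HerQ Q) (h' : AePG n Q') : AePG n (sumQ Q Q') := by
  intro hn S P r P' Λ PB PQ H hTop hF o G hG hGs
  obtain ⟨S₁, a1, a2, a3⟩ := h hn S P r P' Λ PB PQ H hTop hF o G hG hGs
  obtain ⟨S₂, b1, b2, b3⟩ := h' hn S₁ P r P' Λ PB PQ (H.sub a1 a2) hTop hF o G hG hGs
  refine ⟨S₂, b1, fun τ J F A h => a2 τ J F A (b2 τ J F A h), ?_⟩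
  filter_upwards [a3, b3] with g ha hb hg κ hκ p
  rcases p with p | p
  · obtain ⟨k₀, hk₀⟩ := ha hg κ hκ p
    exact ⟨k₀, hh _ _ _ _ _ _ _ _ _ _ _ _ _ _ b2 hk₀⟩
  · exact hb hg κ hκ p

/-- Both properties pass to subclasses. -/
theorem her_sum {n : ℕ} {ι ι' : Type} {Q : PropG n ι} {Q' : PropG n ι'} (h : HerQ Q)
    (h' : HerQ Q') : HerQ (sumQ Q Q') := by
  intro p k₀ S S' P θ c Pt r L T κ G x hs hQ
  rcases p with p | p
  · exact h _ _ _ _ _ _ _ _ _ _ _ _ _ _ hs hQ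
  · exact h' _ _ _ _ _ _ _ _ _ _ _ _ _ _ hs hQ

end Pool.LA91
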