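import Pool.Agent.H91.FR.FrE

/-!
# Records which contain the codes of labels

`Mx.lb`: a record together with a closed function is a record. `LbP.cl2`: the code of a label is a
closed function of every finer window.
-/

set_option autoImplicit false

namespace Pool.LA91

open Finset Real
open Pool.Agent.H49.Ent Pool.Agent.H32.Dense Pool.STK Pool.KA Pool.KSAT Pool.K2S Pool.PB Pool.GEN
open Pool.S6C Pool.RCD
open Pool.GRD (LbP)

variable {m : ℕ} {α β : ∀ J : ℕ, Fam m J → Type}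
  {f : ∀ (J : ℕ) (F : Fam m J), F.Ω → α J F} {g : ∀ (J : ℕ) (F : Fam m J), F.Ω → β J F}

/-- **A record with a closed function.** -/
theorem Mx.lb {k : ℝ} {J : ℕ} {F : Fam m J} {A : F.Ω → Prop} (hA : 0 < Pe F.p A) {V V₁ : Type}
    {z : F.Ω → V} {z₁ : F.Ω → V₁} (h : Mx f g k F A z) (h₁ : Cl2 (f J F) (g J F) A z₁) :
    Mx f g k F A (fun ω => (z ω, z₁ ω)) :=
  ⟨h.1.join h₁, fun V' z' hz' => (CH_mono_cond (isLaw_cond F.isLaw hA).nonneg
    fun _ _ _ _ hh => (Prod.ext_iff.mp hh).1).trans (h.2 V' z' hz')⟩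

/-- **A record with finitely many closed functions.** -/
theorem Mx.lbs {k : ℝ} {J : ℕ} {F : Fam m J} {A : F.Ω → Prop} (hA : 0 < Pe F.p A) {V : Type}
    {n : ℕ} {V₁ : Fin n → Type} {z : F.Ω → V} {z₁ : ∀ i, F.Ω → V₁ i} (h : Mx f g k F A z)
    (h₁ : ∀ i, Cl2 (f J F) (g J F) A (z₁ i)) :
    Mx f g k F A (fun ω => (z ω, fun i => z₁ i ω)) := by
  refine Mx.lb hA h ?_
  choose a b using fun i => (h₁ i).1
  choose a' b' using fun i => (h₁ i).2
  exact ⟨⟨fun x i => a i x, fun ω hω => funext fun i => b i ω hω⟩,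
    fun x i => a' i x, fun ω hω => funext fun i => b' i ω hω⟩

/-- The code of a label is closed at every finer window. -/
theorem lb_cl2 {w a : ℝ} {J : ℕ} {F : Fam m J} {A : F.Ω → Prop} {I : Finset (Fin m)} {k : Fin m}
    {K p : ℕ} {V : Type} {z : PtT F → V} {z' : LnT F → V}
    {G : V → MvPolynomial (Option (Fin m)) ℝ} (hwa : w ≤ a) (ha : a ≤ 1)
    (h : LbP F I k K J ⌊w * J⌋₊ p A z z' G)
    (hf : ∃ φ : α J F → PtT F, ∀ ω, ptr F J ω = φ (f J F ω)) :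
    Cl2 (f J F) (vg a J F) A (fun ω => z' (slam F ⌊w * J⌋₊ ω)) := by
  obtain ⟨φ, hφ⟩ := hf
  obtain ⟨ψ, hψ⟩ := vg_mono hwa ha J F
  refine ⟨⟨fun x => z (φ x), fun ω hω => ?_⟩, fun s => z' (ψ s), fun ω _ => ?_⟩
  · show z' (slam F ⌊w * J⌋₊ ω) = z (φ (f J F ω))
    rw [← hφ ω, h.cls ω hω]
  · show z' (slam F ⌊w * J⌋₊ ω) = z' (ψ (vg a J F ω))
    rw [← hψ ω]
    rfl

end Pool.LA91
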