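import Pool.Agent.H91.LA.TwoN

/-!
# Heights over the charts of earlier windows

`ChW`: the chain is full and has natural labels at all windows `q + sh`. `hts0`: the heights over
the charts of the window `w` to the natural digits of the later window `o` are few bits given the
record at the window `o`.
-/

set_option autoImplicit false

namespace Pool.LA91

open Finset Real MvPolynomial
open Pool.Agent.H49.Ent Pool.Agent.H32.Dense Pool.STK Pool.KA Pool.KSAT Pool.K2S Pool.PB Pool.GEN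
open Pool.S6C Pool.RCD
open Pool.GRD (LbP)

variable {m : ℕ} {U : Type} {α β γ : ∀ J : ℕ, Fam m J → Type}
  {f : ∀ (J : ℕ) (F : Fam m J), F.Ω → α J F} {g : ∀ (J : ℕ) (F : Fam m J), F.Ω → β J F}
  {y : ∀ (J : ℕ) (F : Fam m J), F.Ω → γ J F} {S : PCl m}

/-- The trivial quantity. -/
def tQt (m : ℕ) : Qt m Unit := Qt.fn (fun _ _ _ => ())

theorem exs_tQt : Exs S (tQt m) := by
  intro e _
  refine ⟨0, 0, ⟨1, one_pos, 0, fun J _ F A _ => ⟨fun _ => (), fun _ _ => rfl, ?_⟩⟩⟩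
  have h1 := cnt_one_le F.p () A
  rw [zero_mul, Real.exp_zero]
  exact_mod_cast h1

theorem few0_tQt
    (hpos : ∀ (τ : ℝ) (J : ℕ) (F : Fam m J) (A : F.Ω → Prop), S.St τ J F A → 0 < Pe F.p A) :
    Few0 S f g y (tQt m) := by
  intro c hc
  refine ⟨1, one_pos, fun K => Bas.mono 0 (pos_bas hpos) ?_⟩
  rintro J - F A hA u -
  have hcl := isLaw_cond F.isLaw hA
  refine ⟨Unit, fun _ => (), ⟨⟨fun _ => (), fun _ _ => rfl⟩, fun _ => (), fun _ _ => rfl⟩, ?_⟩
  rw [CH_eq_zero hcl.nonneg fun _ _ _ _ _ => rfl]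
  positivity

/-- Few bits given nothing. -/
theorem few_tQt
    (hpos : ∀ (τ : ℝ) (J : ℕ) (F : Fam m J) (A : F.Ω → Prop), S.St τ J F A → 0 < Pe F.p A)
    {Q : Qt m U} (h : Few S f g y (tQt m) Q) : Few0 S f g y Q :=
  Few0.trans hpos exs_tQt (few0_tQt hpos) h

/-- **The chain at all windows** `q + sh`, `q` rational. -/
structure ChW (S : PCl m) (c : ℕ → Fin m) (d : ℕ) (sh : ℝ) (sn : ℕ → ℝ → ℝ) (A B : ℝ) :
    Prop where
  ch : ∀ q : ℚ, A ≤ q → (q : ℝ) ≤ B → ∃ (u₁ : ℝ) (rd : ℕ → ℝ), (∀ i < d, 0 ≤ rd i) ∧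
    Chn S c 0 d ((q : ℝ) + sh) ((q : ℝ) + sh) u₁ (fun i => sn i q) rd

theorem ChW.sub {S' : PCl m} (hs : ∀ (τ : ℝ) (J : ℕ) (F : Fam m J) (A : F.Ω → Prop),
    S'.St τ J F A → S.St τ J F A) {c : ℕ → Fin m} {d : ℕ} {sh : ℝ} {sn : ℕ → ℝ → ℝ} {A B : ℝ}
    (h : ChW S c d sh sn A B) : ChW S' c d sh sn A B := by
  refine ⟨fun q a b => ?_⟩
  obtain ⟨u₁, rd, h1, h2⟩ := h.ch q a b
  exact ⟨u₁, rd, h1, h2.sub hs⟩

theorem hts_core {C₀ : ℝ} (htm : TmC S C₀)
    (hpos : ∀ (τ : ℝ) (J : ℕ) (F : Fam m J) (A : F.Ω → Prop), S.St τ J F A → 0 < Pe F.p A)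
    {c : ℕ → Fin m} {d : ℕ} {sh A B : ℝ} {sn : ℕ → ℝ → ℝ} (hW : ChW S c d sh sn A B)
    (hf : ∀ (J : ℕ) (F : Fam m J), ∃ φ : α J F → PtT F, ∀ ω, ptr F J ω = φ (f J F ω))
    (hy : Kn ((range 0).image c) 1 1 y) {o h : ℚ} {n : ℕ} {φ σ₀ : ℝ} (hh : 0 ≤ h)
    (hw : A ≤ ((o - n * h : ℚ) : ℝ)) (ho : (o : ℝ) ≤ B) (hφ : 0 ≤ φ) (hσ : 0 < σ₀)
    (hfl : ∀ i < d, ∀ v : ℝ, ((o - n * h : ℚ) : ℝ) ≤ v → v ≤ o →
      |(sn i v - v) - (sn i o - o)| ≤ φ) (i : ℕ) :
    i < d → ∀ t ≤ n, ∀ N : ℝ, N ≤ sn i o - (i + 1) * (h + 2 * φ + 3 * σ₀) →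
      Few0 S f (vg ((o : ℝ) + sh)) y (qJet m ((range i).image c) (c i) 0
        (((o - t * h : ℚ) : ℝ) + sh) (sn i ((o - t * h : ℚ) : ℝ)) N) := by
  have hh' : (0 : ℝ) ≤ h := by exact_mod_cast hh
  obtain ⟨κ, hκ⟩ : ∃ κ : ℝ, κ = h + 2 * φ + 3 * σ₀ := ⟨_, rfl⟩
  have hκ0 : 0 < κ := by rw [hκ]; positivity
  have hwin : ∀ t : ℕ, t ≤ n → ((o - n * h : ℚ) : ℝ) ≤ ((o - t * h : ℚ) : ℝ) ∧
      ((o - t * h : ℚ) : ℝ) ≤ o := by
    intro t ht
    have h1 : (t : ℝ) ≤ n := by exact_mod_cast ht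
    push_cast
    constructor
    · nlinarith
    · have : (0 : ℝ) ≤ t * h := by positivity
      linarith
  rw [← hκ]
  induction i using Nat.strong_induction_on with
  | _ i ihi =>
  intro hi t
  induction t with
  | zero =>
    intro _ N hN
    obtain ⟨u₁, rd, hrd, hch⟩ := hW.ch o (hw.trans (hwin n le_rfl).2) ho
    have e1 : (o - ((0 : ℕ) : ℚ) * h : ℚ) = o := by push_cast; ring
    rw [e1]
    refine few0_jet htm hch.w0 hch.u0 ?_ _ _ _
    have : (0 : ℝ) ≤ (i + 1) * κ := by positivity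
    push_cast
    linarith
  | succ t iht =>
    intro ht N hN
    obtain ⟨b, hb⟩ : ∃ b : ℚ, b = o - t * h := ⟨_, rfl⟩
    obtain ⟨b', hb'⟩ : ∃ b' : ℚ, b' = o - ((t + 1 : ℕ) : ℚ) * h := ⟨_, rfl⟩
    have hbb : (b' : ℝ) = b - h := by
      rw [hb, hb']
      push_cast
      ring
    obtain ⟨w1, w2⟩ := hwin t (by omega)
    obtain ⟨w3, w4⟩ := hwin (t + 1) ht
    have key0 := iht (by omega) N hN
    rw [← hb] at w1 w2 key0
    rw [← hb'] at w3 w4 ⊢
    obtain ⟨u₁, rd, hrd, hch⟩ := hW.ch b (hw.trans w1) (w2.trans ho)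
    obtain ⟨u₁', rd', hrd', hch'⟩ := hW.ch b' (hw.trans w3) (w4.trans ho)
    obtain ⟨u₂, rd₂, hrd₂, hch₂⟩ := hW.ch o (hw.trans (w1.trans w2)) ho
    have f1 : ∀ l < d, |(sn l b - b) - (sn l o - o)| ≤ φ := fun l hl => hfl l hl b w1 w2
    have f2 : ∀ l < d, |(sn l b' - b') - (sn l o - o)| ≤ φ := fun l hl => hfl l hl b' w3 w4
    have hi1 := abs_le.1 (f1 i hi)
    have hi2 := abs_le.1 (f2 i hi)
    have hb0 := hch.w0
    have hb1 := hch.u0
    have ho1 := hch₂.u0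
    by_cases h1 : N ≤ sn i b'
    · refine few0_jet htm hch'.w0 hch'.u0 ?_ _ _ _
      push_cast
      linarith
    push Not at h1
    -- the numbers
    obtain ⟨Nv, hNv⟩ : ∃ Nv : ℕ → ℝ, Nv = fun l => sn l o - (l + 1) * κ := ⟨_, rfl⟩
    obtain ⟨lv, hlv⟩ : ∃ lv : ℕ → ℝ, lv = fun l => sn l o - (l + 1) * κ - sn l b - σ₀ :=
      ⟨_, rfl⟩
    have hil : ∀ l l' : ℕ, l < l' → κ ≤ ((l' : ℝ) - l) * κ := by
      intro l l' hl
      have : (l : ℝ) + 1 ≤ l' := by exact_mod_cast hl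
      nlinarith
    have hQs : Few0 S f (vg ((o : ℝ) + sh)) y (qJets m c 0 i 0 (fun _ _ => (b : ℝ) + sh)
        (fun l _ => sn l b) (fun l _ => Nv l)) := by
      refine few_tQt hpos (few_qjets hpos fun l _ hl j' hj' => ?_)
      obtain rfl : j' = 0 := by omega
      refine Few0.few hpos ?_
      have := ihi l hl (by omega) t (by omega) (Nv l) (by rw [hNv])
      rw [← hb] at this
      exact this
    have hxs : Exs S (qJets m c 0 i 0 (fun _ _ => (b : ℝ) + sh) (fun l _ => sn l b)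
        (fun l _ => Nv l)) := exs_qjets fun l _ hl j' _ =>
      exs_jet (hrd l (by omega)) (hch.att l (Nat.zero_le _) (by omega))
    have hx1 : Exs S (qJet m ((range i).image c) (c i) 0 ((b : ℝ) + sh) (sn i b) N) :=
      exs_jet (hrd i hi) (hch.att i (Nat.zero_le _) hi)
    have hup : ∀ (J : ℕ) (F : Fam m J), ∃ φ : LnT F → LnT F, ∀ ω,
        vg ((b : ℝ) + sh) J F ω = φ (vg ((o : ℝ) + sh) J F ω) :=
      fun J F => vg_mono (by linarith) (by linarith) J F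
    have hmin : min (1 : ℝ) (1 - ((b : ℝ) + sh)) = 1 - ((b : ℝ) + sh) :=
      min_eq_right (by linarith)
    have key := few_jetN (f := f) (y := y) htm (hch.take (Nat.zero_le i) hi.le) (k := c i)
      (j := 0) (wv := fun _ _ => (b : ℝ) + sh) (pv := fun l _ => sn l b) (Nv := fun l _ => Nv l)
      (lv := lv) (w₁ := (b : ℝ) + sh) (w₂ := (b' : ℝ) + sh) (p₁ := sn i b) (p₂ := sn i b')
      (N₁ := N) (N₂ := N) (p₀ := 1) (lam := 1) (σ₀ := σ₀) (fun _ _ _ _ _ => le_rfl) le_rfl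
      (by linarith) hb1 le_rfl one_pos hσ (by
        intro l _ hl
        have l1 := abs_le.1 (f1 l (by omega))
        have l2 := hil l i hl
        rw [hlv]
        simp only
        nlinarith) (by
        intro l _ hl j' hj'
        obtain rfl : j' = 0 := by omega
        rw [hlv, hNv]
        simp only
        push_cast
        linarith) (by
        intro l _ hl j' hj'
        rw [hlv, hmin, min_self]
        simp only
        have l1 := abs_le.1 (f1 l (by omega))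
        have l2 : κ ≤ (l + 1) * κ := by nlinarith [Nat.cast_nonneg (α := ℝ) l]
        linarith) (by
        intro l _ hl j' hj' l' _ hl'
        rw [hlv, min_self]
        simp only
        have l1 := abs_le.1 (f1 l (by omega))
        have l2 := abs_le.1 (f1 l' (by omega))
        have l3 := hil l' l hl'
        nlinarith) le_rfl (by
        rw [hmin]
        push_cast
        have l2 : κ ≤ (i + 1) * κ := by nlinarith [Nat.cast_nonneg (α := ℝ) i]
        rcases min_choice (sn i b) (sn i b') with h | h <;> rw [h] <;> linarith) (by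
        intro l _ hl
        rw [hlv]
        simp only
        push_cast
        have l1 := abs_le.1 (f1 l (by omega))
        have l3 := hil l i hl
        rcases min_choice (sn i b) (sn i b') with h | h <;> rw [h] <;> nlinarith) hf hy
    have key2 := Few.up (f' := f) (y' := y) hpos (fun J F => ⟨fun x => x, fun _ => rfl⟩) hup
      (fun J F => ⟨fun x => x, fun _ => rfl⟩) key
    refine Few0.trans hpos (Exs.prod hxs hx1) ?_ key2
    exact few_tQt hpos (Few.pair hpos (Few0.few hpos hQs) (Few0.few hpos key0))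

/-- **The heights over the charts of an earlier window**, to the natural digits of the later
window, are few bits given the record at the later window. -/
theorem hts0 {C₀ : ℝ} (htm : TmC S C₀)
    (hpos : ∀ (τ : ℝ) (J : ℕ) (F : Fam m J) (A : F.Ω → Prop), S.St τ J F A → 0 < Pe F.p A)
    {c : ℕ → Fin m} {d : ℕ} {sh A B : ℝ} {sn : ℕ → ℝ → ℝ} (hW : ChW S c d sh sn A B)
    (hf : ∀ (J : ℕ) (F : Fam m J), ∃ φ : α J F → PtT F, ∀ ω, ptr F J ω = φ (f J F ω))
    (hy : Kn ((range 0).image c) 1 1 y) {w o : ℚ} {φ κ : ℝ} (hw : A ≤ w) (hwo : w ≤ o)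
    (ho : (o : ℝ) ≤ B) (hφ : 0 ≤ φ) (hκ : 0 < κ)
    (hfl : ∀ i < d, ∀ v : ℝ, (w : ℝ) ≤ v → v ≤ o → |(sn i v - v) - (sn i o - o)| ≤ φ) {i : ℕ}
    (hi : i < d) {N : ℝ} (hN : N ≤ sn i o - (i + 1) * (2 * φ + κ)) :
    Few0 S f (vg ((o : ℝ) + sh)) y (qJet m ((range i).image c) (c i) 0 ((w : ℝ) + sh)
      (sn i w) N) := by
  obtain ⟨n, hn⟩ := exists_nat_ge ((o - w : ℝ) / (κ / 4) + 1)
  have hwo' : (w : ℝ) ≤ o := by exact_mod_cast hwo
  have hn0 : (0 : ℝ) < n := by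
    have : 0 ≤ (o - w : ℝ) / (κ / 4) := div_nonneg (by linarith) (by linarith)
    linarith
  obtain ⟨h, hh⟩ : ∃ h : ℚ, h = (o - w) / n := ⟨_, rfl⟩
  have hh0 : 0 ≤ h := by
    rw [hh]
    exact div_nonneg (by linarith) (Nat.cast_nonneg n)
  have hnq : (n : ℚ) ≠ 0 := by
    intro h0
    have : (n : ℝ) = 0 := by exact_mod_cast h0
    linarith
  have e1 : (o - n * h : ℚ) = w := by
    rw [hh]
    field_simp
    ring
  have hh1 : (h : ℝ) ≤ κ / 4 := by
    rw [hh]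
    push_cast
    rw [div_le_iff₀ hn0]
    have : (o - w : ℝ) / (κ / 4) ≤ n := by linarith
    rw [div_le_iff₀ (by linarith)] at this
    linarith
  have key := hts_core htm hpos hW hf hy (o := o) (h := h) (n := n) (φ := φ) (σ₀ := κ / 4) hh0
    (by rw [e1]; exact hw) ho hφ (by linarith) (by rw [e1]; exact hfl) i hi n le_rfl N (by
      have h1 : (i + 1 : ℝ) * (h + 2 * φ + 3 * (κ / 4)) ≤ (i + 1) * (2 * φ + κ) :=
        mul_le_mul_of_nonneg_left (by linarith) (by positivity)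
      linarith)
  rw [e1] at key
  exact key

end Pool.LA91
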