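import Pool.Agent.H91.FR.Hts
import Pool.Agent.H91.FR.FrT
import Pool.Agent.H91.LA.Dg2

/-!
# The velocities over a chain of charts

`qE`: the velocities of the coordinates of a chain over the charts of a window. `few_vel`: the
velocity of a coordinate over the charts of another window. `frq_E`: the conditions `FrT`.
-/

set_option autoImplicit false

namespace Pool.LA91

open Finset Real MvPolynomial
open Pool.Agent.H49.Ent Pool.Agent.H32.Dense Pool.STK Pool.KA Pool.KSAT Pool.K2S Pool.PB Pool.GEN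
open Pool.S6C Pool.RCD
open Pool.GRD (LbP)

variable {m : ℕ} {U U' U₂ : Type} {α β γ : ∀ J : ℕ, Fam m J → Type}
  {f : ∀ (J : ℕ) (F : Fam m J), F.Ω → α J F} {g : ∀ (J : ℕ) (F : Fam m J), F.Ω → β J F}
  {y : ∀ (J : ℕ) (F : Fam m J), F.Ω → γ J F} {S : PCl m}

/-! ### Functions of quantities, finite products -/

/-- A function of the first quantity. -/
theorem Few.pre {Q : Qt m U} {Q₂ : Qt m U₂} {Q' : Qt m U'}
    (hpos : ∀ (τ : ℝ) (J : ℕ) (F : Fam m J) (A : F.Ω → Prop), S.St τ J F A → 0 < Pe F.p A)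
    (Φ : U → U₂) (hΦ : ∀ (K : ℕ) (e : ℝ) (J : ℕ) (F : Fam m J) (A : F.Ω → Prop) (u : F.Ω → U),
      Q.P K e J F A u → Q₂.P K e J F A (fun ω => Φ (u ω))) (h : Few S f g y Q₂ Q') :
    Few S f g y Q Q' := by
  intro c hc
  obtain ⟨e, he, H⟩ := h c hc
  refine ⟨e, he, fun K => Bas.mono 0 ((H K).and (pos_bas hpos)) ?_⟩
  rintro J - F A ⟨H, hA⟩ u u' hu hu'
  obtain ⟨V, z, hz, h1⟩ := H _ u' (hΦ K e J F A u hu) hu'
  refine ⟨V, z, hz, le_trans (CH_mono_cond (isLaw_cond F.isLaw hA).nonneg ?_) h1⟩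
  intro ω ω' _ _ hh
  simp only [Prod.mk.injEq] at hh ⊢
  exact ⟨by rw [hh.1], hh.2⟩

/-- **The joint quantity** of finitely many integers. -/
def Qt.pi {d : ℕ} (Q : Fin d → Qt m ℤ) : Qt m (Fin d → ℤ) where
  P K e J F A u := ∀ i, (Q i).P K e J F A (fun ω => u ω i)
  sub hB h := fun i => (Q i).sub hB (h i)
  mono hK he h := fun i => (Q i).mono hK he (h i)

theorem FewC.few {Q : Qt m U} {Q' : Qt m U'} (h : FewC S f g y Q Q' 0) : Few S f g y Q Q' := by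
  intro c hc
  obtain ⟨e, he, H⟩ := h c hc
  refine ⟨e, he, fun K => Bas.mono 0 (H K) ?_⟩
  rintro J - F A H u u' hu hu'
  obtain ⟨V, z, hz, h1⟩ := H u u' hu hu'
  exact ⟨V, z, hz, by rw [zero_add] at h1; exact h1⟩

theorem fewC_pi
    (hpos : ∀ (τ : ℝ) (J : ℕ) (F : Fam m J) (A : F.Ω → Prop), S.St τ J F A → 0 < Pe F.p A)
    {Q : Qt m U} {d : ℕ} {Q' : Fin d → Qt m ℤ} {c : Fin d → ℝ}
    (h : ∀ i, FewC S f g y Q (Q' i) (c i)) : FewC S f g y Q (Qt.pi Q') (∑ i, c i) := by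
  induction d with
  | zero =>
    intro a ha
    refine ⟨1, one_pos, fun K => Bas.mono 0 (pos_bas hpos) ?_⟩
    rintro J - F A hA u u' - -
    have hcl := isLaw_cond F.isLaw hA
    refine ⟨Unit, fun _ => (), ⟨⟨fun _ => (), fun _ _ => rfl⟩, fun _ => (), fun _ _ => rfl⟩, ?_⟩
    rw [CH_eq_zero hcl.nonneg fun ω ω' _ _ _ => funext fun i => i.elim0]
    simp only [univ_eq_empty, sum_empty, zero_add]
    positivity
  | succ d ih =>
    intro a ha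
    obtain ⟨e₁, he₁, H₁⟩ := ih (fun i => h i.castSucc) (a / 2) (half_pos ha)
    obtain ⟨e₂, he₂, H₂⟩ := h (Fin.last d) (a / 2) (half_pos ha)
    refine ⟨min e₁ e₂, lt_min he₁ he₂, fun K => Bas.mono 0 (((H₁ K).and (H₂ K)).and
      (pos_bas hpos)) ?_⟩
    rintro J - F A ⟨⟨H₁, H₂⟩, hA⟩ u u' hu hu'
    have hcl := isLaw_cond F.isLaw hA
    obtain ⟨V₁, z₁, hz₁, h1⟩ := H₁ u (fun ω i => u' ω i.castSucc)
      (Q.mono le_rfl (min_le_left _ _) hu)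
      (fun i => (Q' i.castSucc).mono le_rfl (min_le_left _ _) (hu' i.castSucc))
    obtain ⟨V₂, z₂, hz₂, h2⟩ := H₂ u (fun ω => u' ω (Fin.last d))
      (Q.mono le_rfl (min_le_right _ _) hu)
      ((Q' (Fin.last d)).mono le_rfl (min_le_right _ _) (hu' (Fin.last d)))
    refine ⟨V₁ × V₂, fun ω => (z₁ ω, z₂ ω), hz₁.join hz₂, ?_⟩
    have h3 : CH (Pool.Agent.H49.Ent.cond F.p A True) u'
        (fun ω => (u ω, ((z₁ ω, z₂ ω), y J F ω))) ≤ CH (Pool.Agent.H49.Ent.cond F.p A True)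
        (fun ω => (u' ω (Fin.last d), fun i : Fin d => u' ω i.castSucc))
        (fun ω => (u ω, ((z₁ ω, z₂ ω), y J F ω))) := by
      refine CH_mono_left hcl.nonneg fun ω ω' _ _ hh => ?_
      have h4 := (Prod.ext_iff.mp hh).1
      refine funext fun i => ?_
      refine Fin.lastCases (Prod.ext_iff.mp h4).1 (fun i => ?_) i
      exact congrFun (Prod.ext_iff.mp h4).2 i
    have h4 := CH_chain hcl.nonneg (fun ω => u' ω (Fin.last d))
      (fun ω (i : Fin d) => u' ω i.castSucc) (fun ω => (u ω, ((z₁ ω, z₂ ω), y J F ω)))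
    have h5 : CH (Pool.Agent.H49.Ent.cond F.p A True) (fun ω (i : Fin d) => u' ω i.castSucc)
        (fun ω => (u ω, ((z₁ ω, z₂ ω), y J F ω))) ≤ CH (Pool.Agent.H49.Ent.cond F.p A True)
        (fun ω (i : Fin d) => u' ω i.castSucc) (fun ω => (u ω, (z₁ ω, y J F ω))) := by
      refine CH_mono_cond hcl.nonneg fun ω ω' _ _ hh => ?_
      simp only [Prod.mk.injEq] at hh ⊢
      exact ⟨hh.1, hh.2.1.1, hh.2.2⟩
    have h6 : CH (Pool.Agent.H49.Ent.cond F.p A True) (fun ω => u' ω (Fin.last d))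
        (fun ω => ((fun i : Fin d => u' ω i.castSucc), (u ω, ((z₁ ω, z₂ ω), y J F ω)))) ≤
        CH (Pool.Agent.H49.Ent.cond F.p A True) (fun ω => u' ω (Fin.last d))
          (fun ω => (u ω, (z₂ ω, y J F ω))) := by
      refine CH_mono_cond hcl.nonneg fun ω ω' _ _ hh => ?_
      simp only [Prod.mk.injEq] at hh ⊢
      exact ⟨hh.2.1, hh.2.2.1.2, hh.2.2.2⟩
    rw [Fin.sum_univ_castSucc]
    linarith

theorem few_pi
    (hpos : ∀ (τ : ℝ) (J : ℕ) (F : Fam m J) (A : F.Ω → Prop), S.St τ J F A → 0 < Pe F.p A)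
    {Q : Qt m U} {d : ℕ} {Q' : Fin d → Qt m ℤ} (h : ∀ i, Few S f g y Q (Q' i)) :
    Few S f g y Q (Qt.pi Q') := by
  have h1 := fewC_pi hpos (c := fun _ => 0) fun i => (h i).fewC
  rw [Finset.sum_const_zero] at h1
  exact h1.few

theorem exs_pi {d : ℕ} {Q' : Fin d → Qt m ℤ} (h : ∀ i, Exs S (Q' i)) : Exs S (Qt.pi Q') := by
  intro e he
  obtain ⟨Q'', hQ''⟩ : ∃ Q'' : ℕ → Qt m ℤ, ∀ i : Fin d, Q'' i = Q' i :=
    ⟨fun n => if h : n < d then Q' ⟨n, h⟩ else Qt.fn (fun _ _ _ => 0), fun i => dif_pos i.2⟩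
  obtain ⟨K, M, H⟩ := exs_fin (Q' := Q'') (n := d) (fun i hi => by
    have h1 := hQ'' ⟨i, hi⟩
    simp only at h1
    rw [h1]
    exact h _) e he
  refine ⟨K, M, Bas.mono 0 H ?_⟩
  rintro J - F A ⟨X, hX, hc⟩
  exact ⟨fun ω i => X i ω, fun i => by rw [← hQ'' i]; exact hX i i.2, hc⟩

/-! ### More digits -/

/-- Fewer digits of a function have not many more values. -/
theorem cnt_dig {Ω : Type} [Fintype Ω] {p : Ω → ℝ} {A : Ω → Prop} {u' : Ω → ℤ} (X : Ω → ℝ)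
    {a a' : ℝ} (ha : a ≤ a') (hu : ∀ ω, A ω → u' ω = ⌊(2 : ℝ) ^ a' * X ω⌋) :
    (cnt p (fun ω => ⌊(2 : ℝ) ^ a * X ω⌋) A : ℝ) ≤ cnt p u' A * 5 := by
  obtain ⟨c, hc⟩ : ∃ c : ℝ, c = 2 ^ (a - a') := ⟨_, rfl⟩
  have hc0 : 0 < c := by rw [hc]; exact Real.rpow_pos_of_pos (by norm_num) _
  have hc1 : c ≤ 1 := by
    rw [hc]
    exact Real.rpow_le_one_of_one_le_of_nonpos (by norm_num) (by linarith)
  have hcc : (2 : ℝ) ^ a = c * 2 ^ a' := by
    rw [hc, ← Real.rpow_add (by norm_num)]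
    congr 1
    ring
  obtain ⟨b, hb⟩ : ∃ b : Ω → ℤ, b = fun ω => ⌊(2 : ℝ) ^ a * X ω⌋ - ⌊c * u' ω⌋ := ⟨_, rfl⟩
  have h1 := cnt_le_of_abs (p := p) (u := b) (A := A) (B := 2) (by norm_num) (by
    intro ω hω
    rw [hb]
    simp only
    push_cast
    have e1 := Int.floor_le ((2 : ℝ) ^ a * X ω)
    have e2 := Int.lt_floor_add_one ((2 : ℝ) ^ a * X ω)
    have e3 := Int.floor_le (c * u' ω)
    have e4 := Int.lt_floor_add_one (c * u' ω)
    have e5 := Int.floor_le ((2 : ℝ) ^ a' * X ω)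
    have e6 := Int.lt_floor_add_one ((2 : ℝ) ^ a' * X ω)
    rw [← hu ω hω] at e5 e6
    have e7 : c * u' ω ≤ 2 ^ a * X ω := by
      rw [hcc, mul_assoc]
      exact mul_le_mul_of_nonneg_left e5 hc0.le
    have e8 : (2 : ℝ) ^ a * X ω ≤ c * u' ω + 1 := by
      rw [hcc, mul_assoc]
      have := mul_le_mul_of_nonneg_left e6.le hc0.le
      linarith
    rw [abs_le]
    constructor <;> linarith)
  have h2 := cnt_comp_le p (fun ω => (u' ω, b ω)) (fun ω => ⌊(2 : ℝ) ^ a * X ω⌋) (A := A)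
    (fun q : ℤ × ℤ => q.2 + ⌊c * q.1⌋) (fun ω _ _ => by rw [hb]; simp)
  have h3 := cnt_pair p u' b A
  have h4 : (cnt p (fun ω => ⌊(2 : ℝ) ^ a * X ω⌋) A : ℝ) ≤ cnt p u' A * cnt p b A := by
    exact_mod_cast h2.trans h3
  refine h4.trans (mul_le_mul_of_nonneg_left ?_ (Nat.cast_nonneg _))
  linarith

/-- **More digits** of a jet. -/
theorem few_more
    (hpos : ∀ (τ : ℝ) (J : ℕ) (F : Fam m J) (A : F.Ω → Prop), S.St τ J F A → 0 < Pe F.p A)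
    {Q : Qt m U} {I : Finset (Fin m)} {k : Fin m} {j : ℕ} {w p N N' : ℝ} (hN : N ≤ N')
    (h : Few S f g y Q (qJet m I k j w p N)) :
    FewC S f g y Q (qJet m I k j w p N') (Real.log 2 * (N' - N)) := by
  intro a ha
  obtain ⟨e, he, H⟩ := h (a / 2) (half_pos ha)
  obtain ⟨J₁, hJ₁⟩ := exists_nat_ge (Real.log 5 / (a / 2))
  obtain ⟨J₂, hJ₂⟩ := exists_nat_ge (Real.log 5)
  refine ⟨e, he, fun K => Bas.mono (max J₁ J₂) ((H (K + 1)).and (pos_bas hpos)) ?_⟩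
  rintro J hJ F A ⟨H, hA⟩ u u' hu ⟨hc, V, z, z', G, hlb, hu'⟩
  have hcl := isLaw_cond F.isLaw hA
  have hJ0 : (0 : ℝ) ≤ J := Nat.cast_nonneg J
  have j1 : (J₁ : ℝ) ≤ J := by exact_mod_cast (le_max_left _ _).trans hJ
  have j2 : (J₂ : ℝ) ≤ J := by exact_mod_cast (le_max_right _ _).trans hJ
  obtain ⟨X, hX⟩ : ∃ X : F.Ω → ℝ, X = fun ω => ojet F k j (G (z' (slam F ⌊w * J⌋₊ ω))) ω :=
    ⟨_, rfl⟩
  have hu1 : ∀ ω, A ω → u' ω = ⌊(2 : ℝ) ^ (N' * J) * X ω⌋ := by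
    rw [hX]
    exact hu'
  have c1 := cnt_dig (p := F.p) X (mul_le_mul_of_nonneg_right hN hJ0) hu1
  have c2 : (cnt F.p (fun ω => ⌊(2 : ℝ) ^ (N * J) * X ω⌋) A : ℝ) ≤
      Real.exp ((K + 1 : ℕ) * J) := by
    refine c1.trans ((mul_le_mul_of_nonneg_right hc (by norm_num)).trans ?_)
    calc Real.exp (K * J) * 5 = Real.exp (K * J) * Real.exp (Real.log 5) := by
          rw [Real.exp_log (by norm_num)]
      _ = Real.exp (K * J + Real.log 5) := (Real.exp_add _ _).symm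
      _ ≤ Real.exp ((K + 1 : ℕ) * J) := by
          refine Real.exp_le_exp.2 ?_
          push_cast
          linarith [hJ₂.trans j2]
  obtain ⟨V₁, z₁, hz₁, h1⟩ := H u (fun ω => ⌊(2 : ℝ) ^ (N * J) * X ω⌋)
    (Q.mono (Nat.le_succ K) le_rfl hu) ⟨c2, V, z, z', G,
      hlb.mono (Finset.Subset.refl _) (Nat.le_succ K) le_rfl, fun ω _ => by rw [hX]⟩
  refine ⟨V₁, z₁, hz₁, ?_⟩
  have h2 := CH_le_add hcl.nonneg u' (fun ω => ⌊(2 : ℝ) ^ (N * J) * X ω⌋)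
    (fun ω => (u ω, (z₁ ω, y J F ω)))
  have h3 : CH (Pool.Agent.H49.Ent.cond F.p A True) u'
      (fun ω => (⌊(2 : ℝ) ^ (N * J) * X ω⌋, (u ω, (z₁ ω, y J F ω)))) ≤
      CH (Pool.Agent.H49.Ent.cond F.p A True) u' (fun ω => ⌊(2 : ℝ) ^ (N * J) * X ω⌋) :=
    CH_mono_cond hcl.nonneg fun _ _ _ _ h => (Prod.ext_iff.mp h).1
  have h4 := dig_CH hcl X (mul_le_mul_of_nonneg_right hN hJ0)
  have h5 : CH (Pool.Agent.H49.Ent.cond F.p A True) u'
      (fun ω => ⌊(2 : ℝ) ^ (N * J) * X ω⌋) ≤ CH (Pool.Agent.H49.Ent.cond F.p A True)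
      (fun ω => ⌊(2 : ℝ) ^ (N' * J) * X ω⌋) (fun ω => ⌊(2 : ℝ) ^ (N * J) * X ω⌋) := by
    refine CH_mono_left hcl.nonneg fun ω ω' hω hω' hh => ?_
    rw [hu1 ω (of_cond_pos hω), hu1 ω' (of_cond_pos hω')]
    exact (Prod.ext_iff.mp hh).1
  have h6 : Real.log 5 ≤ a / 2 * J := by
    have := hJ₁.trans j1
    rw [div_le_iff₀ (half_pos ha)] at this
    linarith
  nlinarith

/-! ### One coordinate -/

/-- **The velocities of the chain** over the charts of the window `w + sh`. -/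
noncomputable def qE (m : ℕ) (c : ℕ → Fin m) (d : ℕ) (sh : ℝ) (sn : ℕ → ℝ → ℝ) (w : ℝ)
    (N : Fin d → ℝ) : Qt m (Fin d → ℤ) :=
  Qt.pi fun i : Fin d => qJet m ((range (i : ℕ)).image c) (c i) 1 (w + sh) (sn i w) (N i)

/-- **The velocity of a coordinate** over the charts of another window. -/
theorem few_vel {C₀ : ℝ} (htm : TmC S C₀)
    (hpos : ∀ (τ : ℝ) (J : ℕ) (F : Fam m J) (A : F.Ω → Prop), S.St τ J F A → 0 < Pe F.p A)
    {c : ℕ → Fin m} {d : ℕ} {sh A B : ℝ} {sn : ℕ → ℝ → ℝ} (hW : ChW S c d sh sn A B)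
    (hf : ∀ (J : ℕ) (F : Fam m J), ∃ φ : α J F → PtT F, ∀ ω, ptr F J ω = φ (f J F ω))
    (hy : Kn ((range 0).image c) 1 1 y) {w₁ w₂ W o : ℚ} {φ κ σ₀ ρ : ℝ} (a1 : A ≤ w₁)
    (a2 : A ≤ w₂) (b1 : w₁ ≤ W) (b2 : w₂ ≤ W) (hWo : W ≤ o) (ho : (o : ℝ) ≤ B) (hφ : 0 ≤ φ)
    (hκ : 0 < κ) (hσ : 0 < σ₀) (r1 : (W : ℝ) - ρ ≤ w₁) (r2 : (W : ℝ) - ρ ≤ w₂)
    (hfl : ∀ i < d, ∀ v : ℝ, (W : ℝ) - ρ ≤ v → v ≤ o → |(sn i v - v) - (sn i o - o)| ≤ φ)
    {i : ℕ} (hi : i < d) {N : ℕ → ℝ} {N₂ : ℝ} (hN : N₂ ≤ N i)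
    (hts : ∀ l < i, N l + (W + sh) ≤ sn l o - (l + 1) * (2 * φ + κ))
    (hex : sn i w₂ - (w₂ + sh) < N₂ →
      (∀ l < i, N₂ - (sn i W - (W + sh)) + 2 * φ + ρ + 2 * σ₀ ≤ N l - (sn l W - (W + sh))) ∧
      (∀ l' l, l' < l → l < i → N l - (sn l W - (W + sh)) + 2 * φ + ρ + σ₀ ≤
        N l' - (sn l' W - (W + sh))) ∧
      (∀ l < i, N l - (sn l W - (W + sh)) + 2 * φ + ρ ≤ 1 - (W + sh)) ∧
      (∀ l < i, σ₀ < N l - (sn l W - (W + sh))) ∧
      N₂ - (sn i W - (W + sh)) + 2 * φ + ρ + σ₀ ≤ 1 - (W + sh)) :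
    Few S f (vg ((o : ℝ) + sh)) y (qE m c d sh sn w₁ (fun l => N l))
      (qJet m ((range i).image c) (c i) 1 ((w₂ : ℝ) + sh) (sn i w₂) N₂) := by
  have b1' : (w₁ : ℝ) ≤ W := by exact_mod_cast b1
  have b2' : (w₂ : ℝ) ≤ W := by exact_mod_cast b2
  have hWo' : (W : ℝ) ≤ o := by exact_mod_cast hWo
  obtain ⟨u₁, rd, hrd, hch⟩ := hW.ch W (a1.trans b1') (hWo'.trans ho)
  obtain ⟨u₂, rd₂, hrd₂, hch₂⟩ := hW.ch w₂ a2 (b2'.trans (hWo'.trans ho))
  obtain ⟨u₃, rd₃, hrd₃, hch₃⟩ := hW.ch w₁ a1 (b1'.trans (hWo'.trans ho))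
  obtain ⟨u₄, rd₄, hrd₄, hch₄⟩ := hW.ch o (a1.trans (b1'.trans hWo')) ho
  have hW0 := hch.w0
  have hW1 := hch.u0
  have ho1 := hch₄.u0
  by_cases h1 : sn i w₂ - (w₂ + sh) < N₂
  swap
  · refine Few0.few hpos (few0_jet htm hch₂.w0 hch₂.u0 ?_ _ _ _)
    push_cast
    linarith
  obtain ⟨h3, h4, h5, h6, h7⟩ := hex h1
  have hρ : 0 ≤ ρ := by linarith
  have f1 : ∀ l < d, sn l W - sn l w₁ ≤ ρ + 2 * φ ∧ sn l W - sn l w₂ ≤ ρ + 2 * φ ∧
      |(sn l w₁ - w₁) - (sn l o - o)| ≤ φ := by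
    intro l hl
    have e1 := hfl l hl w₁ r1 (b1'.trans hWo')
    have e2 := abs_le.1 (hfl l hl w₂ r2 (b2'.trans hWo'))
    have e3 := abs_le.1 (hfl l hl W (by linarith) hWo')
    have e4 := abs_le.1 e1
    exact ⟨by linarith, by linarith, e1⟩
  -- the heights
  obtain ⟨Nv, hNv⟩ : ∃ Nv : ℕ → ℕ → ℝ, Nv = fun l j' => if j' = 0 then N l + (W + sh) else N l :=
    ⟨_, rfl⟩
  obtain ⟨lv, hlv⟩ : ∃ lv : ℕ → ℝ, lv = fun l => N l - (sn l W - (W + sh)) - σ₀ := ⟨_, rfl⟩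
  have hQs : Few0 S f (vg ((o : ℝ) + sh)) y (qJets m c 0 i 0 (fun _ _ => (w₁ : ℝ) + sh)
      (fun l _ => sn l w₁) Nv) := by
    refine few_tQt hpos (few_qjets hpos fun l _ hl j' hj' => ?_)
    obtain rfl : j' = 0 := by omega
    refine Few0.few hpos ?_
    refine hts0 htm hpos hW hf hy (w := w₁) (o := o) (φ := φ) (κ := κ) a1 (b1.trans hWo) ho hφ hκ
      (fun i hi v e1 e2 => hfl i hi v (r1.trans e1) e2) (by omega) ?_
    rw [hNv]
    simp only [if_pos]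
    exact hts l hl
  have hxs : Exs S (qJets m c 0 i 0 (fun _ _ => (w₁ : ℝ) + sh) (fun l _ => sn l w₁) Nv) :=
    exs_qjets fun l _ hl j' _ => exs_jet (hrd₃ l (by omega)) (hch₃.att l (Nat.zero_le _) (by omega))
  have hup : ∀ (J : ℕ) (F : Fam m J), ∃ φ : LnT F → LnT F, ∀ ω,
      vg ((W : ℝ) + sh) J F ω = φ (vg ((o : ℝ) + sh) J F ω) :=
    fun J F => vg_mono (by linarith) (by linarith) J F
  have hmin : min (1 : ℝ) (1 - ((W : ℝ) + sh)) = 1 - ((W : ℝ) + sh) := min_eq_right (by linarith)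
  have key := few_jetN (f := f) (y := y) htm (hch.take (Nat.zero_le i) hi.le) (k := c i)
    (j := 1) (wv := fun _ _ => (w₁ : ℝ) + sh) (pv := fun l _ => sn l w₁) (Nv := Nv)
    (lv := lv) (w₁ := (w₁ : ℝ) + sh) (w₂ := (w₂ : ℝ) + sh) (p₁ := sn i w₁) (p₂ := sn i w₂)
    (N₁ := N i) (N₂ := N₂) (p₀ := 1) (lam := 1) (σ₀ := σ₀) (fun _ _ _ _ _ => by linarith)
    (by linarith) (by linarith) hW1 le_rfl one_pos hσ (by
      intro l _ hl
      rw [hlv]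
      simp only
      linarith [h6 l hl]) (by
      intro l _ hl j' hj'
      rw [hlv, hNv]
      simp only
      rcases Nat.eq_zero_or_pos j' with rfl | hj
      · simp only [if_pos]
        push_cast
        linarith
      · obtain rfl : j' = 1 := by omega
        simp only [one_ne_zero, if_false]
        push_cast
        linarith) (by
      intro l _ hl j' hj'
      rw [hlv, hmin]
      simp only
      have l1 := (f1 l (by omega)).1
      have l2 := h5 l hl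
      rcases min_choice (sn l w₁) (sn l W) with h | h <;> rw [h] <;> linarith) (by
      intro l _ hl j' hj' l' _ hl'
      rw [hlv]
      simp only
      have l1 := (f1 l (by omega)).1
      have l2 := h4 l' l hl' hl
      rcases min_choice (sn l w₁) (sn l W) with h | h <;> rw [h] <;> linarith) hN (by
      rw [hmin]
      push_cast
      obtain ⟨l1, l2, -⟩ := f1 i hi
      rcases min_choice (sn i w₁) (sn i w₂) with h | h <;> rw [h] <;> linarith) (by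
      intro l _ hl
      rw [hlv]
      simp only
      push_cast
      obtain ⟨l1, l2, -⟩ := f1 i hi
      have l3 := h3 l hl
      rcases min_choice (sn i w₁) (sn i w₂) with h | h <;> rw [h] <;> linarith) hf hy
  have key2 := Few.up (f' := f) (y' := y) hpos (fun J F => ⟨fun x => x, fun _ => rfl⟩) hup
    (fun J F => ⟨fun x => x, fun _ => rfl⟩) key
  refine few0_cut hpos hxs hQs (Few.pre hpos (fun q => ((fun l j' => if hl : l < i ∧ j' ≤ 1 then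
    (if j' = 0 then q.2 l 0 else q.1 ⟨l, hl.1.trans hi⟩) else 0), q.1 ⟨i, hi⟩)) ?_ key2)
  rintro K e J F A u ⟨hu1, hu2⟩
  refine ⟨⟨fun l _ hl j' hj' => ?_, fun ω _ l j' hn => ?_⟩, hu1 ⟨i, hi⟩⟩
  · have hlj : l < i ∧ j' ≤ 1 := ⟨hl, hj'⟩
    simp only [dif_pos hlj]
    rcases Nat.eq_zero_or_pos j' with rfl | hj
    · simp only [if_pos]
      exact hu2.1 l (Nat.zero_le _) hl 0 le_rfl
    · obtain rfl : j' = 1 := by omega
      simp only [one_ne_zero, if_false]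
      rw [hNv]
      simp only [one_ne_zero, if_false]
      exact hu1 ⟨l, hl.trans hi⟩
  · exact dif_neg fun h => hn ⟨Nat.zero_le _, h.1, h.2⟩

/-! ### The conditions `FrT` -/

/-- The natural digits of the velocities. -/
def nE (d : ℕ) (sh : ℝ) (sn : ℕ → ℝ → ℝ) (i : Fin d) (x : ℝ) : ℝ := sn i x - (x + sh)

/-- The velocity of a coordinate, digits in a staircase. -/
theorem few_velOk {C₀ : ℝ} (htm : TmC S C₀)
    (hpos : ∀ (τ : ℝ) (J : ℕ) (F : Fam m J) (A : F.Ω → Prop), S.St τ J F A → 0 < Pe F.p A)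
    {c : ℕ → Fin m} {d : ℕ} {sh A B : ℝ} {sn : ℕ → ℝ → ℝ} (hW : ChW S c d sh sn A B)
    (hf : ∀ (J : ℕ) (F : Fam m J), ∃ φ : α J F → PtT F, ∀ ω, ptr F J ω = φ (f J F ω))
    (hy : Kn ((range 0).image c) 1 1 y) {M σ τ C₁ δ C0 : ℝ} (hM : 0 ≤ M) (hτ : 0 < τ)
    (hδ : 0 ≤ δ) (hσ : 6 * τ + δ ≤ σ) (hC0 : M + 5 * τ * (d + 1) + δ ≤ C0) (hC₁ : C0 ≤ C₁)
    {k : ℕ} {w₁ w₂ W q : ℚ} (hq : (q : ℝ) = C0 * (1 / 2) ^ k) (a1 : A ≤ w₁) (a2 : A ≤ w₂)
    (b1 : w₁ ≤ W) (b2 : w₂ ≤ W) (r1 : (W : ℝ) ≤ w₁ + δ * (1 / 2) ^ k)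
    (r2 : (W : ℝ) ≤ w₂ + δ * (1 / 2) ^ k) (ho : ((W + q : ℚ) : ℝ) ≤ B) {N : Fin d → ℚ}
    (hok : Ok (fun i : Fin d => (i : ℕ)) (nE d sh sn) M σ τ C₁ k W N) (i : Fin d) {N₂ : ℝ}
    (hN : N₂ ≤ N i) :
    Few S f (vg (((W + q : ℚ) : ℝ) + sh)) y (qE m c d sh sn w₁ (fun l => (N l : ℝ)))
      (qJet m ((range (i : ℕ)).image c) (c i) 1 ((w₂ : ℝ) + sh) (sn i w₂) N₂) := by
  obtain ⟨r, hr⟩ : ∃ r : ℝ, r = (1 / 2) ^ k := ⟨_, rfl⟩
  have hr0 : 0 < r := by rw [hr]; positivity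
  obtain ⟨k1, k2, k3⟩ := hok
  rw [← hr] at k1 k2 k3 hq r1 r2
  have b1' : (w₁ : ℝ) ≤ W := by exact_mod_cast b1
  have b2' : (w₂ : ℝ) ≤ W := by exact_mod_cast b2
  have hd0 : (0 : ℝ) ≤ d := Nat.cast_nonneg d
  have hC00 : 0 ≤ C0 := le_trans (by positivity) hC0
  have hoo : ((W + q : ℚ) : ℝ) = W + C0 * r := by
    push_cast
    rw [hq]
  have hCr : 0 ≤ C0 * r := by positivity
  have hqq : (0 : ℚ) ≤ q := by
    have : (0 : ℝ) ≤ q := by rw [hq]; exact hCr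
    exact_mod_cast this
  obtain ⟨u₄, rd₄, hrd₄, hch₄⟩ := hW.ch (W + q) (by rw [hoo]; linarith) ho
  have ho1 := hch₄.u0
  rw [hoo] at ho1
  have hτr : 0 < τ * r := mul_pos hτ hr0
  have hδr : 0 ≤ δ * r := mul_nonneg hδ hr0.le
  have hM1 : M * r + 5 * τ * r * (d + 1) + δ * r ≤ C0 * r := by
    have := mul_le_mul_of_nonneg_right hC0 hr0.le
    linarith
  have hσr : 6 * (τ * r) + δ * r ≤ σ * r := by
    have := mul_le_mul_of_nonneg_right hσ hr0.le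
    linarith
  have hCC : C0 * r ≤ C₁ * r := mul_le_mul_of_nonneg_right hC₁ hr0.le
  have hdr : 0 ≤ τ * r * d := by positivity
  have hMr : 0 ≤ M * r := by positivity
  -- flatness
  have hflat : ∀ l : Fin d, ∀ v : ℝ, (W : ℝ) - δ * r ≤ v → v ≤ ((W + q : ℚ) : ℝ) →
      |nE d sh sn l v - nE d sh sn l W| ≤ τ * r := by
    intro l v c1 c2
    rw [hoo] at c2
    refine k3 l v ?_
    rw [abs_le]
    constructor <;> linarith
  have hfl : ∀ l < d, ∀ v : ℝ, (W : ℝ) - δ * r ≤ v → v ≤ ((W + q : ℚ) : ℝ) →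
      |(sn l v - v) - (sn l ((W + q : ℚ) : ℝ) - ((W + q : ℚ) : ℝ))| ≤ 2 * (τ * r) := by
    intro l hl v c1 c2
    have e1 := abs_le.1 (hflat ⟨l, hl⟩ v c1 c2)
    have e2 := abs_le.1 (hflat ⟨l, hl⟩ ((W + q : ℚ) : ℝ) (by rw [hoo]; linarith) le_rfl)
    unfold nE at e1 e2
    simp only at e1 e2
    rw [abs_le]
    constructor <;> linarith [e1.1, e1.2, e2.1, e2.2]
  obtain ⟨N', hN'⟩ : ∃ N' : ℕ → ℝ, ∀ l : Fin d, N' l = N l :=
    ⟨fun l => if h : l < d then (N ⟨l, h⟩ : ℝ) else 0, fun l => dif_pos l.2⟩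
  have e0 : (fun l : Fin d => (N l : ℝ)) = fun l : Fin d => N' l := funext fun l => (hN' l).symm
  rw [e0]
  refine few_vel htm hpos hW hf hy (W := W) (φ := 2 * (τ * r)) (κ := τ * r) (σ₀ := τ * r)
    (ρ := δ * r) a1 a2 b1 b2 (by linarith) ho (by positivity) hτr hτr (by linarith) (by linarith)
    hfl i.2 (by rw [hN' i]; exact hN) (fun l hl => ?_) (fun hex => ⟨fun l hl => ?_,
      fun l' l hl' hl => ?_, fun l hl => ?_, fun l hl => ?_, ?_⟩)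
  · have hld : l < d := hl.trans i.2
    have e1 := (k1 ⟨l, hld⟩).2
    rw [← hN' ⟨l, hld⟩] at e1
    have e2 := abs_le.1 (hflat ⟨l, hld⟩ ((W + q : ℚ) : ℝ) (by rw [hoo]; linarith) le_rfl)
    unfold nE at e1 e2
    simp only at e1 e2
    rw [hoo] at e2 ⊢
    have e3 : (l : ℝ) + 1 ≤ d := by exact_mod_cast hld
    have e4 : ((l : ℝ) + 1) * (2 * (2 * (τ * r)) + τ * r) ≤ 5 * τ * r * d := by
      have := mul_le_mul_of_nonneg_right e3 hτr.le
      linarith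
    linarith [e2.1]
  · have hld : l < d := hl.trans i.2
    have e1 := k2 ⟨l, hld⟩ i hl
    rw [← hN' ⟨l, hld⟩] at e1
    unfold nE at e1
    simp only at e1
    linarith
  · have hld : l < d := hl.trans i.2
    have e1 := k2 ⟨l', hl'.trans hld⟩ ⟨l, hld⟩ hl'
    rw [← hN' ⟨l', hl'.trans hld⟩, ← hN' ⟨l, hld⟩] at e1
    unfold nE at e1
    simp only at e1
    linarith
  · have hld : l < d := hl.trans i.2
    have e1 := (k1 ⟨l, hld⟩).2
    rw [← hN' ⟨l, hld⟩] at e1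
    unfold nE at e1
    simp only at e1
    linarith
  · have hld : l < d := hl.trans i.2
    have e1 := k2 ⟨l, hld⟩ i hl
    rw [← hN' ⟨l, hld⟩] at e1
    have e2 := abs_le.1 (hflat i w₂ (by linarith) (by rw [hoo]; linarith))
    unfold nE at e1 e2
    simp only at e1 e2
    linarith [e2.1]
  · have e1 := (k1 i).2
    unfold nE at e1
    linarith

/-- **The velocities over a chain of charts satisfy the conditions `FrT`.** -/
theorem frq_E {C₀ : ℝ} (htm : TmC S C₀)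
    (hpos : ∀ (τ : ℝ) (J : ℕ) (F : Fam m J) (A : F.Ω → Prop), S.St τ J F A → 0 < Pe F.p A)
    {c : ℕ → Fin m} {d : ℕ} {sh A B B' : ℝ} {sn : ℕ → ℝ → ℝ} (hW : ChW S c d sh sn A B')
    (hf : ∀ (J : ℕ) (F : Fam m J), ∃ φ : α J F → PtT F, ∀ ω, ptr F J ω = φ (f J F ω))
    (hy : Kn ((range 0).image c) 1 1 y) {M σ τ C₁ δ C0 : ℝ} (hM : 0 ≤ M) (hτ : 0 < τ)
    (hδ : 0 ≤ δ) (hσ : 6 * τ + δ ≤ σ) (hC0 : M + 5 * τ * (d + 1) + δ ≤ C0) (hC₁ : C0 ≤ C₁)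
    (hBB : B ≤ B') (hB' : B' + sh ≤ 1) {q : ℕ → ℚ} (hq : ∀ k, (q k : ℝ) = C0 * (1 / 2) ^ k)
    {k₁ : ℕ} (hk₁ : ∀ k ≥ k₁, B + C0 * (1 / 2) ^ k ≤ B') :
    FrT S f (fun _ => y) (fun _ w N => qE m c d sh sn w (fun i => (N i : ℝ))) q
      (fun i : Fin d => (i : ℕ)) (nE d sh sn) sh A B M σ τ C₁ δ (Real.log 2) k₁ where
  win k hk := by
    have hC00 : 0 ≤ C0 := le_trans (by positivity) hC0
    have h1 : (0 : ℝ) ≤ q k := by
      rw [hq]
      positivity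
    refine ⟨by exact_mod_cast h1, ?_⟩
    rw [hq]
    linarith [hk₁ k hk]
  exs k _ w N a b _ := by
    obtain ⟨u₁, rd, hrd, hch⟩ := hW.ch w a (b.trans hBB)
    exact exs_pi fun i => exs_jet (hrd i i.2) (hch.att i (Nat.zero_le _) i.2)
  dig k hk w N N' a b _ r' hNN := by
    have hδr : 0 ≤ δ * (1 / 2 : ℝ) ^ k := by positivity
    exact few_pi hpos fun i => few_velOk htm hpos hW hf hy hM hτ hδ hσ hC0 hC₁ (hq k) a a le_rfl
      le_rfl (by linarith) (by linarith) (by push_cast; rw [hq]; linarith [hk₁ k hk]) r' i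
      (show (N i : ℝ) ≤ N' i from by exact_mod_cast hNN i)
  inc k hk w N N' a b r _ hNN := by
    have hδr : 0 ≤ δ * (1 / 2 : ℝ) ^ k := by positivity
    rw [Finset.mul_sum]
    exact fewC_pi hpos fun i => few_more hpos (show (N i : ℝ) ≤ N' i from by
      exact_mod_cast hNN i)
      (few_velOk htm hpos hW hf hy hM hτ hδ hσ hC0 hC₁ (hq k) a a le_rfl le_rfl (by linarith)
        (by linarith) (by push_cast; rw [hq]; linarith [hk₁ k hk]) r i le_rfl)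
  chg k hk w w' N a hww b hd _ r' := by
    have hδr : 0 ≤ δ * (1 / 2 : ℝ) ^ k := by positivity
    have hww' : (w : ℝ) ≤ w' := by exact_mod_cast hww
    exact ⟨few_pi hpos fun i => few_velOk htm hpos hW hf hy hM hτ hδ hσ hC0 hC₁ (hq k) a
        (a.trans hww') hww le_rfl hd (by linarith) (by push_cast; rw [hq]; linarith [hk₁ k hk])
        r' i le_rfl,
      few_pi hpos fun i => few_velOk htm hpos hW hf hy hM hτ hδ hσ hC0 hC₁ (hq k)
        (a.trans hww') a le_rfl hww (by linarith) hd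
        (by push_cast; rw [hq]; linarith [hk₁ k hk]) r' i le_rfl⟩

end Pool.LA91
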