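import Pool.Agent.H91.FR.HtG
import Pool.Agent.H91.FR.QE
import Mathlib.Topology.MetricSpace.HausdorffDistance

/-!
# The velocities over a chain of charts, for a set of good windows

`qG`: the velocities of the coordinates of a chain over the charts of a window. `few_velG`: the
velocity of a coordinate over the charts of another window of `G`. `frq_G`: the conditions `FrT` for
the charts at the point of `G` nearest to a rational window.
-/

set_option autoImplicit false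

namespace Pool.LA91

open Finset Real MvPolynomial
open Pool.Agent.H49.Ent Pool.Agent.H32.Dense Pool.STK Pool.KA Pool.KSAT Pool.K2S Pool.PB Pool.GEN
open Pool.S6C Pool.RCD
open Pool.GRD (LbP)

variable {m : ℕ} {U U' U₂ : Type} {α β γ : ∀ J : ℕ, Fam m J → Type}
  {f : ∀ (J : ℕ) (F : Fam m J), F.Ω → α J F} {g : ∀ (J : ℕ) (F : Fam m J), F.Ω → β J F}
  {y : ∀ (J : ℕ) (F : Fam m J), F.Ω → γ J F} {S : PCl m}

/-- **The velocities of the chain** over the charts of the window `w`. -/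
noncomputable def qG (m : ℕ) (c : ℕ → Fin m) (d : ℕ) (sn : ℕ → ℝ → ℝ) (w : ℝ)
    (N : Fin d → ℝ) : Qt m (Fin d → ℤ) :=
  Qt.pi fun i : Fin d => qJet m ((range (i : ℕ)).image c) (c i) 1 w (sn i w) (N i)

/-- **The velocity of a coordinate** over the charts of another window. -/
theorem few_velG {C₀ : ℝ} (htm : TmC S C₀)
    (hpos : ∀ (τ : ℝ) (J : ℕ) (F : Fam m J) (A : F.Ω → Prop), S.St τ J F A → 0 < Pe F.p A)
    {c : ℕ → Fin m} {d : ℕ} {sn : ℕ → ℝ → ℝ} {G : Set ℝ} (hW : ChG S c d sn G)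
    (hf : ∀ (J : ℕ) (F : Fam m J), ∃ φ : α J F → PtT F, ∀ ω, ptr F J ω = φ (f J F ω))
    (hy : Kn ((range 0).image c) 1 1 y) {w₁ w₂ W o ow : ℝ} {φ κ σ₀ ρ ρ₀ : ℝ} (a1 : w₁ ∈ G)
    (a2 : w₂ ∈ G) (aW : W ∈ G) (ao : o ∈ G) (b1 : w₁ ≤ W) (b2 : w₂ ≤ W) (hWo : W ≤ o)
    (how : o ≤ ow) (how1 : ow ≤ 1) (hφ : 0 ≤ φ) (hρ₀ : 0 ≤ ρ₀)
    (hκ : 0 < κ) (hσ : 0 < σ₀) (r1 : W - ρ ≤ w₁) (r2 : W - ρ ≤ w₂)
    (hgap : ∀ x, w₁ ≤ x → x ≤ o → ∃ v ∈ G, |v - x| ≤ ρ₀)
    (hfl : ∀ i < d, ∀ v ∈ G, W - ρ ≤ v → v ≤ o → |(sn i v - v) - (sn i o - o)| ≤ φ)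
    {i : ℕ} (hi : i < d) {N : ℕ → ℝ} {N₂ : ℝ} (hN : N₂ ≤ N i)
    (hts : ∀ l < i, N l + W ≤ sn l o - (l + 1) * (2 * φ + 2 * ρ₀ + κ))
    (hex : sn i w₂ - w₂ < N₂ →
      (∀ l < i, N₂ - (sn i W - W) + 2 * φ + ρ + 2 * σ₀ ≤ N l - (sn l W - W)) ∧
      (∀ l' l, l' < l → l < i → N l - (sn l W - W) + 2 * φ + ρ + σ₀ ≤
        N l' - (sn l' W - W)) ∧
      (∀ l < i, N l - (sn l W - W) + 2 * φ + ρ ≤ 1 - W) ∧
      (∀ l < i, σ₀ < N l - (sn l W - W)) ∧
      N₂ - (sn i W - W) + 2 * φ + ρ + σ₀ ≤ 1 - W) :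
    Few S f (vg ow) y (qG m c d sn w₁ (fun l => N l))
      (qJet m ((range i).image c) (c i) 1 w₂ (sn i w₂) N₂) := by
  obtain ⟨u₁, rd, hrd, hch⟩ := hW.ch W aW
  obtain ⟨u₂, rd₂, hrd₂, hch₂⟩ := hW.ch w₂ a2
  obtain ⟨u₃, rd₃, hrd₃, hch₃⟩ := hW.ch w₁ a1
  obtain ⟨u₄, rd₄, hrd₄, hch₄⟩ := hW.ch o ao
  have hW0 := hch.w0
  have hW1 := hch.u0
  have ho1 := hch₄.u0
  by_cases h1 : sn i w₂ - w₂ < N₂
  swap
  · refine Few0.few hpos (few0_jet htm hch₂.w0 hch₂.u0 ?_ _ _ _)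
    push_cast
    linarith
  obtain ⟨h3, h4, h5, h6, h7⟩ := hex h1
  have hρ : 0 ≤ ρ := by linarith
  have f1 : ∀ l < d, sn l W - sn l w₁ ≤ ρ + 2 * φ ∧ sn l W - sn l w₂ ≤ ρ + 2 * φ ∧
      |(sn l w₁ - w₁) - (sn l o - o)| ≤ φ := by
    intro l hl
    have e1 := hfl l hl w₁ a1 r1 (b1.trans hWo)
    have e2 := abs_le.1 (hfl l hl w₂ a2 r2 (b2.trans hWo))
    have e3 := abs_le.1 (hfl l hl W aW (by linarith) hWo)
    have e4 := abs_le.1 e1
    exact ⟨by linarith, by linarith, e1⟩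
  -- the heights
  obtain ⟨Nv, hNv⟩ : ∃ Nv : ℕ → ℕ → ℝ, Nv = fun l j' => if j' = 0 then N l + W else N l :=
    ⟨_, rfl⟩
  obtain ⟨lv, hlv⟩ : ∃ lv : ℕ → ℝ, lv = fun l => N l - (sn l W - W) - σ₀ := ⟨_, rfl⟩
  have hQs : Few0 S f (vg ow) y (qJets m c 0 i 0 (fun _ _ => w₁)
      (fun l _ => sn l w₁) Nv) := by
    refine few_tQt hpos (few_qjets hpos fun l _ hl j' hj' => ?_)
    obtain rfl : j' = 0 := by omega
    refine Few0.few hpos ?_
    refine hts0G htm hpos hW hf hy (w := w₁) (o := o) (φ := φ) (κ := κ) (ρ₀ := ρ₀) a1 ao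
      (b1.trans hWo) how how1 hφ hρ₀ hκ hgap
      (fun i hi v hv e1 e2 => hfl i hi v hv (r1.trans e1) e2) (by omega) ?_
    rw [hNv]
    simp only [if_pos]
    exact hts l hl
  have hxs : Exs S (qJets m c 0 i 0 (fun _ _ => w₁) (fun l _ => sn l w₁) Nv) :=
    exs_qjets fun l _ hl j' _ => exs_jet (hrd₃ l (by omega)) (hch₃.att l (Nat.zero_le _) (by omega))
  have hup : ∀ (J : ℕ) (F : Fam m J), ∃ φ : LnT F → LnT F, ∀ ω,
      vg W J F ω = φ (vg ow J F ω) :=
    fun J F => vg_mono (by linarith) how1 J F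
  have hmin : min (1 : ℝ) (1 - W) = 1 - W := min_eq_right (by linarith)
  have key := few_jetN (f := f) (y := y) htm (hch.take (Nat.zero_le i) hi.le) (k := c i)
    (j := 1) (wv := fun _ _ => w₁) (pv := fun l _ => sn l w₁) (Nv := Nv)
    (lv := lv) (w₁ := w₁) (w₂ := w₂) (p₁ := sn i w₁) (p₂ := sn i w₂)
    (N₁ := N i) (N₂ := N₂) (p₀ := 1) (lam := 1) (σ₀ := σ₀) (fun _ _ _ _ _ => b1)
    b1 b2 hW1 le_rfl one_pos hσ (by
      intro l _ hl
      rw [hlv]
      simp only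
      linarith [h6 l hl]) (by
      intro l _ hl j' hj'
      rw [hlv, hNv]
      simp only
      rcases Nat.eq_zero_or_pos j' with rfl | hj
      · simp only [if_pos]
        push_cast
        linarith
      · obtain rfl : j' = 1 := by omega
        simp only [one_ne_zero, if_false]
        push_cast
        linarith) (by
      intro l _ hl j' hj'
      rw [hlv, hmin]
      simp only
      have l1 := (f1 l (by omega)).1
      have l2 := h5 l hl
      rcases min_choice (sn l w₁) (sn l W) with h | h <;> rw [h] <;> linarith) (by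
      intro l _ hl j' hj' l' _ hl'
      rw [hlv]
      simp only
      have l1 := (f1 l (by omega)).1
      have l2 := h4 l' l hl' hl
      rcases min_choice (sn l w₁) (sn l W) with h | h <;> rw [h] <;> linarith) hN (by
      rw [hmin]
      push_cast
      obtain ⟨l1, l2, -⟩ := f1 i hi
      rcases min_choice (sn i w₁) (sn i w₂) with h | h <;> rw [h] <;> linarith) (by
      intro l _ hl
      rw [hlv]
      simp only
      push_cast
      obtain ⟨l1, l2, -⟩ := f1 i hi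
      have l3 := h3 l hl
      rcases min_choice (sn i w₁) (sn i w₂) with h | h <;> rw [h] <;> linarith) hf hy
  have key2 := Few.up (f' := f) (y' := y) hpos (fun J F => ⟨fun x => x, fun _ => rfl⟩) hup
    (fun J F => ⟨fun x => x, fun _ => rfl⟩) key
  refine few0_cut hpos hxs hQs (Few.pre hpos (fun q => ((fun l j' => if hl : l < i ∧ j' ≤ 1 then
    (if j' = 0 then q.2 l 0 else q.1 ⟨l, hl.1.trans hi⟩) else 0), q.1 ⟨i, hi⟩)) ?_ key2)
  rintro K e J F A u ⟨hu1, hu2⟩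
  refine ⟨⟨fun l _ hl j' hj' => ?_, fun ω _ l j' hn => ?_⟩, hu1 ⟨i, hi⟩⟩
  · have hlj : l < i ∧ j' ≤ 1 := ⟨hl, hj'⟩
    simp only [dif_pos hlj]
    rcases Nat.eq_zero_or_pos j' with rfl | hj
    · simp only [if_pos]
      exact hu2.1 l (Nat.zero_le _) hl 0 le_rfl
    · obtain rfl : j' = 1 := by omega
      simp only [one_ne_zero, if_false]
      rw [hNv]
      simp only [one_ne_zero, if_false]
      exact hu1 ⟨l, hl.trans hi⟩
  · exact dif_neg fun h => hn ⟨Nat.zero_le _, h.1, h.2⟩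

/-! ### The nearest good window -/

/-- **A nearest point** of the closed set `G`. -/
structure NrG (G : Set ℝ) (pG : ℝ → ℝ) : Prop where
  mem : ∀ x, pG x ∈ G
  dst : ∀ x, |x - pG x| = Metric.infDist x G

theorem nrG_ex {G : Set ℝ} (hG : IsClosed G) (hne : G.Nonempty) : ∃ pG : ℝ → ℝ, NrG G pG := by
  have h1 : ∀ x : ℝ, ∃ y ∈ G, Metric.infDist x G = dist x y := fun x =>
    hG.exists_infDist_eq_dist hne x
  choose p hp1 hp2 using h1
  exact ⟨p, hp1, fun x => by rw [hp2 x, Real.dist_eq]⟩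

theorem NrG.of_mem {G : Set ℝ} {pG : ℝ → ℝ} (h : NrG G pG) {x : ℝ} (hx : x ∈ G) : pG x = x := by
  have h1 := h.dst x
  rw [Metric.infDist_zero_of_mem hx, abs_eq_zero] at h1
  linarith

theorem NrG.le {G : Set ℝ} {pG : ℝ → ℝ} (h : NrG G pG) {x v : ℝ} (hv : v ∈ G) :
    |x - pG x| ≤ |x - v| := by
  rw [h.dst, ← Real.dist_eq]
  exact Metric.infDist_le_dist_of_mem hv

/-- The natural functions: the distance to `G`, the natural digits of the velocities. -/
noncomputable def nG (d : ℕ) (sh : ℝ) (sn : ℕ → ℝ → ℝ) (G : Set ℝ) (pG : ℝ → ℝ) :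
    Option (Fin d) → ℝ → ℝ := fun i x =>
  match i with
  | none => Metric.infDist (x + sh) G
  | some i => sn i (pG (x + sh)) - pG (x + sh)

/-- The ranks. -/
def rkG (d : ℕ) : Option (Fin d) → ℕ := fun i =>
  match i with
  | none => 0
  | some i => i

/-- If the distance to `G` is flat then the set `G` has small gaps. -/
theorem gap_of {G : Set ℝ} {pG : ℝ → ℝ} (hp : NrG G pG) {w X T : ℝ} (hX : 0 ≤ X) (hTX : T < X)
    (hfl : ∀ v : ℝ, |v - w| ≤ X → |Metric.infDist v G - Metric.infDist w G| ≤ T) :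
    ∀ v : ℝ, |v - w| ≤ X → |v - pG v| ≤ 2 * T := by
  have hD := hp.dst w
  have h0 : Metric.infDist w G ≤ T := by
    rcases le_or_gt (Metric.infDist w G) X with h1 | h1
    · have h2 := hfl (pG w) (by rw [abs_sub_comm, hD]; exact h1)
      rw [Metric.infDist_zero_of_mem (hp.mem w)] at h2
      have h3 := (abs_le.1 h2).1
      linarith
    · exfalso
      rcases le_total w (pG w) with h2 | h2
      · have h3 : pG w - w = Metric.infDist w G := by
          rw [← hD, abs_sub_comm, abs_of_nonneg (by linarith)]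
        have h4 := hfl (w + X) (by rw [add_sub_cancel_left, abs_of_nonneg hX])
        have h5 : Metric.infDist (w + X) G ≤ |w + X - pG w| := by
          rw [← Real.dist_eq]
          exact Metric.infDist_le_dist_of_mem (hp.mem w)
        rw [abs_sub_comm, abs_of_nonneg (by linarith)] at h5
        have h6 := (abs_le.1 h4).1
        linarith
      · have h3 : w - pG w = Metric.infDist w G := by
          rw [← hD, abs_of_nonneg (by linarith)]
        have h4 := hfl (w - X) (by rw [sub_sub_cancel_left, abs_neg, abs_of_nonneg hX])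
        have h5 : Metric.infDist (w - X) G ≤ |w - X - pG w| := by
          rw [← Real.dist_eq]
          exact Metric.infDist_le_dist_of_mem (hp.mem w)
        rw [abs_of_nonneg (by linarith)] at h5
        have h6 := (abs_le.1 h4).1
        linarith
  intro v hv
  rw [hp.dst v]
  have h1 := (abs_le.1 (hfl v hv)).2
  linarith

/-- The velocity of a coordinate, digits in a staircase. -/
theorem few_velOkG {C₀ : ℝ} (htm : TmC S C₀)
    (hpos : ∀ (τ : ℝ) (J : ℕ) (F : Fam m J) (A : F.Ω → Prop), S.St τ J F A → 0 < Pe F.p A)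
    {c : ℕ → Fin m} {d : ℕ} {sh : ℝ} {sn : ℕ → ℝ → ℝ} {G : Set ℝ} (hW : ChG S c d sn G)
    {pG : ℝ → ℝ} (hp : NrG G pG)
    (hf : ∀ (J : ℕ) (F : Fam m J), ∃ φ : α J F → PtT F, ∀ ω, ptr F J ω = φ (f J F ω))
    (hy : Kn ((range 0).image c) 1 1 y) {M σ τ C₁ δ C0 : ℝ} (hM : 0 ≤ M) (hτ : 0 < τ)
    (hδ : 0 ≤ δ) (hσ : 12 * τ + 2 * δ ≤ σ) (hC0 : M + 20 * τ * (d + 1) + 4 * δ ≤ C0)
    (hC₁ : C0 ≤ C₁)
    {k : ℕ} {W q : ℚ} (hq : (q : ℝ) = C0 * (1 / 2) ^ k) {w₁ w₂ : ℝ} (a1 : w₁ ∈ G) (a2 : w₂ ∈ G)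
    (r1 : |w₁ - (W + sh)| ≤ (δ + 2 * τ) * (1 / 2) ^ k)
    (r2 : |w₂ - (W + sh)| ≤ (δ + 2 * τ) * (1 / 2) ^ k) (ho : ((W + q : ℚ) : ℝ) + sh ≤ 1)
    {N : Option (Fin d) → ℚ}
    (hok : Ok (rkG d) (nG d sh sn G pG) M σ τ C₁ k W N) (i : Fin d) {N₂ : ℝ}
    (hN : N₂ ≤ N (some i)) :
    Few S f (vg (((W + q : ℚ) : ℝ) + sh)) y (qG m c d sn w₁ (fun l => (N (some l) : ℝ)))
      (qJet m ((range (i : ℕ)).image c) (c i) 1 w₂ (sn i w₂) N₂) := by
  obtain ⟨r, hr⟩ : ∃ r : ℝ, r = (1 / 2) ^ k := ⟨_, rfl⟩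
  have hr0 : 0 < r := by rw [hr]; positivity
  obtain ⟨k1, k2, k3⟩ := hok
  rw [← hr] at k1 k2 k3 hq r1 r2
  obtain ⟨x, hx⟩ : ∃ x : ℝ, x = W + sh := ⟨_, rfl⟩
  have how : ((W + q : ℚ) : ℝ) + sh = x + C0 * r := by
    push_cast
    rw [hq, hx]
    ring
  rw [how] at ho ⊢
  rw [← hx] at r1 r2
  have hd0 : (0 : ℝ) ≤ d := Nat.cast_nonneg d
  have hτr : 0 < τ * r := mul_pos hτ hr0
  have hδr : 0 ≤ δ * r := mul_nonneg hδ hr0.le
  have hMr : 0 ≤ M * r := mul_nonneg hM hr0.le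
  have hτdr : 0 ≤ τ * r * d := by positivity
  have hC0r : M * r + 20 * (τ * r) * (d + 1) + 4 * (δ * r) ≤ C0 * r := by
    have := mul_le_mul_of_nonneg_right hC0 hr0.le
    linarith
  have hCC : C0 * r ≤ C₁ * r := mul_le_mul_of_nonneg_right hC₁ hr0.le
  have hσr : 12 * (τ * r) + 2 * (δ * r) ≤ σ * r := by
    have := mul_le_mul_of_nonneg_right hσ hr0.le
    linarith
  rw [show (δ + 2 * τ) * r = δ * r + 2 * (τ * r) by ring, abs_le] at r1 r2
  -- the gaps
  have hgap : ∀ v : ℝ, |v - x| ≤ C₁ * r → |v - pG v| ≤ 2 * (τ * r) := by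
    refine gap_of hp (by linarith) (by linarith) fun v hv => ?_
    have h1 := k3 none (v - sh) (by
      rw [show v - sh - W = v - x by rw [hx]; ring]
      exact hv)
    unfold nG at h1
    simp only at h1
    rw [sub_add_cancel, ← hx] at h1
    exact h1
  -- flatness
  obtain ⟨nl, hnl⟩ : ∃ nl : Fin d → ℝ, nl = fun l => nG d sh sn G pG (some l) W := ⟨_, rfl⟩
  have hflat : ∀ l : Fin d, ∀ v ∈ G, |v - x| ≤ C₁ * r → |(sn l v - v) - nl l| ≤ τ * r := by
    intro l v hv h1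
    have h2 := k3 (some l) (v - sh) (by
      rw [show v - sh - W = v - x by rw [hx]; ring]
      exact h1)
    rw [hnl]
    simp only
    refine le_trans (le_of_eq ?_) h2
    congr 2
    unfold nG
    simp only
    rw [sub_add_cancel, hp.of_mem hv]
  have k1' : ∀ l : Fin d, (N (some l) : ℝ) ≤ nl l + M * r := fun l => by
    rw [hnl]
    exact (k1 (some l)).2
  have k2' : ∀ l l' : Fin d, (l : ℕ) < l' →
      (N (some l') : ℝ) - nl l' + σ * r ≤ N (some l) - nl l := fun l l' h => by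
    rw [hnl]
    exact k2 (some l) (some l') h
  -- the windows
  obtain ⟨w, hw⟩ : ∃ w : ℝ, w = max w₁ w₂ := ⟨_, rfl⟩
  have hwG : w ∈ G := by
    rw [hw]
    rcases max_choice w₁ w₂ with h | h <;> rw [h] <;> assumption
  have hw1 : w₁ ≤ w := by rw [hw]; exact le_max_left _ _
  have hw2 : w₂ ≤ w := by rw [hw]; exact le_max_right _ _
  have hwx : w ≤ x + (δ * r + 2 * (τ * r)) := by
    rw [hw]
    exact max_le (by linarith [r1.2]) (by linarith [r2.2])
  obtain ⟨o, hoo⟩ : ∃ o : ℝ, o = pG (x + (C0 * r - 2 * (τ * r))) := ⟨_, rfl⟩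
  have hoG : o ∈ G := by rw [hoo]; exact hp.mem _
  have ho2 : |x + (C0 * r - 2 * (τ * r)) - o| ≤ 2 * (τ * r) := by
    rw [hoo]
    refine hgap _ ?_
    rw [add_sub_cancel_left, abs_le]
    constructor <;> linarith
  rw [abs_le] at ho2
  obtain ⟨u₄, rd₄, hrd₄, hch₄⟩ := hW.ch o hoG
  have ho1 := hch₄.u0
  have hin : ∀ v : ℝ, x - 3 * (δ * r + 2 * (τ * r)) ≤ v → v ≤ o → |v - x| ≤ C₁ * r := by
    intro v c1 c2
    rw [abs_le]
    constructor <;> linarith [ho2.1]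
  have hfl : ∀ l < d, ∀ v ∈ G, w - 2 * (δ * r + 2 * (τ * r)) ≤ v → v ≤ o →
      |(sn l v - v) - (sn l o - o)| ≤ 2 * (τ * r) := by
    intro l hl v hv c1 c2
    have e1 := abs_le.1 (hflat ⟨l, hl⟩ v hv (hin v (by linarith [r1.1]) c2))
    have e2 := abs_le.1 (hflat ⟨l, hl⟩ o hoG (hin o (by linarith [r1.1, ho2.2]) le_rfl))
    simp only at e1 e2
    rw [abs_le]
    constructor <;> linarith [e1.1, e1.2, e2.1, e2.2]
  obtain ⟨N', hN'⟩ : ∃ N' : ℕ → ℝ, ∀ l : Fin d, N' l = N (some l) :=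
    ⟨fun l => if h : l < d then (N (some ⟨l, h⟩) : ℝ) else 0, fun l => dif_pos l.2⟩
  have e0 : (fun l : Fin d => (N (some l) : ℝ)) = fun l : Fin d => N' l :=
    funext fun l => (hN' l).symm
  rw [e0]
  have hwin : |w - x| ≤ C₁ * r := hin w (by linarith [r1.1]) (by linarith [ho2.2])
  refine few_velG htm hpos hW hf hy (W := w) (o := o) (φ := 2 * (τ * r)) (κ := τ * r)
    (σ₀ := τ * r) (ρ := 2 * (δ * r + 2 * (τ * r))) (ρ₀ := 2 * (τ * r)) a1 a2 hwG hoG hw1 hw2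
    (by linarith [ho2.2]) (by linarith [ho2.1]) ho (by positivity) (by positivity) hτr hτr
    (by linarith [r1.1]) (by linarith [r2.1])
    (fun v c1 c2 => ⟨pG v, hp.mem v, by
      rw [abs_sub_comm]
      exact hgap v (hin v (by linarith [r1.1]) c2)⟩)
    hfl i.2 (by rw [hN' i]; exact hN) (fun l hl => ?_) (fun hex => ⟨fun l hl => ?_,
      fun l' l hl' hl => ?_, fun l hl => ?_, fun l hl => ?_, ?_⟩)
  · have hld : l < d := hl.trans i.2
    have e1 := k1' ⟨l, hld⟩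
    rw [← hN' ⟨l, hld⟩] at e1
    have e2 := abs_le.1 (hflat ⟨l, hld⟩ o hoG (hin o (by linarith [r1.1, ho2.2]) le_rfl))
    simp only at e1 e2
    have e3 : (l : ℝ) + 1 ≤ d := by exact_mod_cast hld
    have e4 : ((l : ℝ) + 1) * (2 * (2 * (τ * r)) + 2 * (2 * (τ * r)) + τ * r) ≤
        9 * (τ * r) * d := by
      have := mul_le_mul_of_nonneg_right e3 hτr.le
      linarith
    linarith [e2.1, ho2.2]
  · have hld : l < d := hl.trans i.2
    have e1 := k2' ⟨l, hld⟩ i hl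
    rw [← hN' ⟨l, hld⟩] at e1
    have e2 := abs_le.1 (hflat ⟨l, hld⟩ w hwG hwin)
    have e3 := abs_le.1 (hflat i w hwG hwin)
    simp only at e1 e2
    linarith [e2.2, e3.1]
  · have hld : l < d := hl.trans i.2
    have e1 := k2' ⟨l', hl'.trans hld⟩ ⟨l, hld⟩ hl'
    rw [← hN' ⟨l', hl'.trans hld⟩, ← hN' ⟨l, hld⟩] at e1
    have e2 := abs_le.1 (hflat ⟨l', hl'.trans hld⟩ w hwG hwin)
    have e3 := abs_le.1 (hflat ⟨l, hld⟩ w hwG hwin)
    simp only at e1 e2 e3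
    linarith [e2.2, e3.1]
  · have hld : l < d := hl.trans i.2
    have e1 := k1' ⟨l, hld⟩
    rw [← hN' ⟨l, hld⟩] at e1
    have e2 := abs_le.1 (hflat ⟨l, hld⟩ w hwG hwin)
    simp only at e1 e2
    linarith [e2.1, ho2.2]
  · have hld : l < d := hl.trans i.2
    have e1 := k2' ⟨l, hld⟩ i hl
    rw [← hN' ⟨l, hld⟩] at e1
    have e2 := abs_le.1 (hflat ⟨l, hld⟩ w hwG hwin)
    have e3 := abs_le.1 (hflat i w₂ a2 (hin w₂ (by linarith [r2.1]) (by linarith [ho2.2])))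
    simp only at e1 e2
    linarith [e2.2, e3.1]
  · have e1 := k1' i
    have e2 := abs_le.1 (hflat i w hwG hwin)
    linarith [e2.1, ho2.2]

/-- **The velocities over a chain of charts satisfy the conditions `FrT`.** -/
theorem frq_G {C₀ : ℝ} (htm : TmC S C₀)
    (hpos : ∀ (τ : ℝ) (J : ℕ) (F : Fam m J) (A : F.Ω → Prop), S.St τ J F A → 0 < Pe F.p A)
    {c : ℕ → Fin m} {d : ℕ} {sh A B : ℝ} {sn : ℕ → ℝ → ℝ} {G : Set ℝ} (hW : ChG S c d sn G)
    {pG : ℝ → ℝ} (hp : NrG G pG)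
    (hf : ∀ (J : ℕ) (F : Fam m J), ∃ φ : α J F → PtT F, ∀ ω, ptr F J ω = φ (f J F ω))
    (hy : Kn ((range 0).image c) 1 1 y) {M σ τ C₁ δ C0 : ℝ} (hM : 0 ≤ M) (hτ : 0 < τ)
    (hδ : 0 ≤ δ) (hσ : 12 * τ + 2 * δ ≤ σ) (hC0 : M + 20 * τ * (d + 1) + 4 * δ ≤ C0)
    (hC₁ : C0 ≤ C₁) {q : ℕ → ℚ} (hq : ∀ k, (q k : ℝ) = C0 * (1 / 2) ^ k)
    {k₁ : ℕ} (hk₁ : ∀ k ≥ k₁, B + C0 * (1 / 2) ^ k + sh ≤ 1) :
    FrT S f (fun _ => y) (fun _ w N => qG m c d sn (pG ((w : ℝ) + sh))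
      (fun i => (N (some i) : ℝ))) q (rkG d) (nG d sh sn G pG) sh A B M σ τ C₁ δ
      (Real.log 2) k₁ := by
  have hC00 : 0 ≤ C0 := le_trans (by positivity) hC0
  have hwin : ∀ k ≥ k₁, 0 ≤ q k ∧ B + q k + sh ≤ 1 := by
    intro k hk
    have h1 : (0 : ℝ) ≤ q k := by
      rw [hq]
      positivity
    refine ⟨by exact_mod_cast h1, ?_⟩
    rw [hq]
    exact hk₁ k hk
  -- the nearest window
  have hnear : ∀ (k : ℕ) (w v : ℚ) (N : Option (Fin d) → ℚ),
      Ok (rkG d) (nG d sh sn G pG) M σ τ C₁ k w N → |(v : ℝ) - w| ≤ δ * (1 / 2) ^ k →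
      |pG ((v : ℝ) + sh) - (w + sh)| ≤ (δ + 2 * τ) * (1 / 2) ^ k := by
    intro k w v N hok hv
    obtain ⟨r, hr⟩ : ∃ r : ℝ, r = (1 / 2) ^ k := ⟨_, rfl⟩
    have hr0 : 0 < r := by rw [hr]; positivity
    have k3 := hok.2.2
    rw [← hr] at k3 hv ⊢
    have hτr : 0 < τ * r := mul_pos hτ hr0
    have hδr : 0 ≤ δ * r := mul_nonneg hδ hr0.le
    have hMr : 0 ≤ M * r := mul_nonneg hM hr0.le
    have hτdr : 0 ≤ τ * r * d := by positivity
    have hCr : M * r + 20 * (τ * r) * (d + 1) + 4 * (δ * r) ≤ C₁ * r := by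
      have := mul_le_mul_of_nonneg_right (hC0.trans hC₁) hr0.le
      linarith
    have hgap := gap_of hp (w := (w : ℝ) + sh) (X := C₁ * r) (T := τ * r) (by linarith)
      (by linarith) (fun v' hv' => by
        have h1 := k3 none (v' - sh) (by
          rw [show v' - sh - w = v' - (w + sh) by ring]
          exact hv')
        unfold nG at h1
        simp only at h1
        rw [sub_add_cancel] at h1
        exact h1) ((v : ℝ) + sh) (by
        rw [show (v : ℝ) + sh - (w + sh) = v - w by ring]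
        linarith)
    rw [abs_le] at hgap hv ⊢
    constructor <;> linarith [hgap.1, hgap.2, hv.1, hv.2]
  refine ⟨hwin, ?_, ?_, ?_, ?_⟩
  · intro k _ w N _ _ _
    obtain ⟨u₁, rd, hrd, hch⟩ := hW.ch _ (hp.mem ((w : ℝ) + sh))
    exact exs_pi fun i => exs_jet (hrd i i.2) (hch.att i (Nat.zero_le _) i.2)
  · intro k hk w N N' _ b _ r' hNN
    have hδr : 0 ≤ δ * (1 / 2 : ℝ) ^ k := by positivity
    have h1 := hnear k w w N' r' (by rw [sub_self, abs_zero]; exact hδr)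
    exact few_pi hpos fun i => few_velOkG htm hpos hW hp hf hy hM hτ hδ hσ hC0 hC₁ (hq k)
      (hp.mem _) (hp.mem _) h1 h1 (by push_cast; linarith [(hwin k hk).2]) r' i
      (show (N (some i) : ℝ) ≤ N' (some i) from by exact_mod_cast hNN (some i))
  · intro k hk w N N' _ b r _ hNN
    have hδr : 0 ≤ δ * (1 / 2 : ℝ) ^ k := by positivity
    have h1 := hnear k w w N r (by rw [sub_self, abs_zero]; exact hδr)
    have h2 : FewC S f (vg (((w + q k : ℚ) : ℝ) + sh)) y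
        (qG m c d sn (pG ((w : ℝ) + sh)) (fun i => (N (some i) : ℝ)))
        (qG m c d sn (pG ((w : ℝ) + sh)) (fun i => (N' (some i) : ℝ)))
        (∑ i : Fin d, Real.log 2 * ((N' (some i) : ℝ) - N (some i))) :=
      fewC_pi hpos fun i => few_more hpos (show (N (some i) : ℝ) ≤ N' (some i) from by
        exact_mod_cast hNN (some i))
        (few_velOkG htm hpos hW hp hf hy hM hτ hδ hσ hC0 hC₁ (hq k) (hp.mem _) (hp.mem _) h1 h1
          (by push_cast; linarith [(hwin k hk).2]) r i le_rfl)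
    refine FewC.mono ?_ h2
    rw [Fintype.sum_option, mul_add, Finset.mul_sum]
    have h3 : (0 : ℝ) ≤ Real.log 2 * ((N' none : ℝ) - N none) := by
      refine mul_nonneg (Real.log_nonneg one_le_two) ?_
      have : (N none : ℝ) ≤ N' none := by exact_mod_cast hNN none
      linarith
    linarith
  · intro k hk w w' N _ hww b hd _ r'
    have hδr : 0 ≤ δ * (1 / 2 : ℝ) ^ k := by positivity
    have hww' : (w : ℝ) ≤ w' := by exact_mod_cast hww
    have h1 := hnear k w' w' N r' (by rw [sub_self, abs_zero]; exact hδr)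
    have h2 := hnear k w' w N r' (by
      rw [abs_le]
      constructor <;> linarith)
    exact ⟨few_pi hpos fun i => few_velOkG htm hpos hW hp hf hy hM hτ hδ hσ hC0 hC₁ (hq k)
        (hp.mem _) (hp.mem _) h2 h1 (by push_cast; linarith [(hwin k hk).2]) r' i le_rfl,
      few_pi hpos fun i => few_velOkG htm hpos hW hp hf hy hM hτ hδ hσ hC0 hC₁ (hq k)
        (hp.mem _) (hp.mem _) h1 h2 (by push_cast; linarith [(hwin k hk).2]) r' i le_rfl⟩

end Pool.LA91
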