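import Pool.Agent.H91.FR.FrE

/-!
# Free of the next record, by a pigeonhole over the windows

`pig_law`: a chain of records, `E` free of the last one, `G` with `M` nats: for one of the `n` steps
all functions of `(E, G)` are free of the next record, up to `M / n`. `free_EG`: the class form.
-/

set_option autoImplicit false

namespace Pool.LA91

open Finset Real
open Pool.Agent.H49.Ent Pool.Agent.H32.Dense Pool.STK Pool.KA Pool.KSAT Pool.K2S Pool.PB Pool.GEN
open Pool.S6C Pool.RCD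

/-- **Symmetry of the information.** -/
theorem inf_symm {Ω α β γ : Type} [Fintype Ω] {p : Ω → ℝ} (hp : ∀ ω, 0 ≤ p ω) (u : Ω → α)
    (v : Ω → β) (c : Ω → γ) : CH p u c - CH p u (fun ω => (v ω, c ω)) =
      CH p v c - CH p v (fun ω => (u ω, c ω)) := by
  have h1 := CH_chain hp u v c
  have h2 := CH_chain hp v u c
  have h3 : CH p (fun ω => (u ω, v ω)) c = CH p (fun ω => (v ω, u ω)) c := by
    refine CH_congr hp ?_ ?_ (fun _ _ _ _ h => h) (fun _ _ _ _ h => h) <;>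
    · intro ω ω' _ _ hh
      simp only [Prod.mk.injEq] at hh ⊢
      tauto
  linarith

/-- **Functions have less information.** -/
theorem inf_fn {Ω α β γ δ : Type} [Fintype Ω] {p : Ω → ℝ} (hp : ∀ ω, 0 ≤ p ω) (X : Ω → α)
    {e : Ω → δ} (he : Det p X e) (v : Ω → β) (c : Ω → γ) :
    CH p e c - CH p e (fun ω => (v ω, c ω)) ≤ CH p X c - CH p X (fun ω => (v ω, c ω)) := by
  have key : ∀ {κ : Type} (c : Ω → κ), CH p X c = CH p e c + CH p X (fun ω => (e ω, c ω)) := by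
    intro κ c
    have h1 := CH_chain hp X e c
    have h2 : CH p (fun ω => (X ω, e ω)) c = CH p X c := by
      refine le_antisymm (CH_mono_left hp fun ω ω' hω hω' hh => ?_)
        (CH_mono_left hp fun ω ω' _ _ hh => ?_)
      · have h3 := (Prod.ext_iff.mp hh).1
        exact Prod.ext h3 (he ω ω' hω hω' h3)
      · exact (Prod.ext_iff.mp (Prod.ext_iff.mp hh).1).1
    linarith
  rw [key c, key (fun ω => (v ω, c ω))]
  have h3 : CH p X (fun ω => (e ω, (v ω, c ω))) ≤ CH p X (fun ω => (e ω, c ω)) := by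
    refine CH_mono_cond hp fun ω ω' _ _ hh => ?_
    simp only [Prod.mk.injEq] at hh ⊢
    exact ⟨hh.1, hh.2.2⟩
  linarith

/-- **The pigeonhole**: one of the steps of the chain of records is free. -/
theorem pig_law {Ω Y α Γ : Type} [Fintype Ω] {p : Ω → ℝ} (hp : ∀ ω, 0 ≤ p ω) {n : ℕ}
    (hn : 0 < n) {V : ℕ → Type} (z : ∀ i, Ω → V i) (y : Ω → Y) (E : Ω → α) (G : Ω → Γ)
    {k eE M : ℝ} (hz : ∀ i < n, CH p (z i) (z (i + 1)) ≤ k)
    (hE : CH p E (fun ω => (z 0 ω, y ω)) ≤ CH p E (fun ω => (z n ω, y ω)) + eE)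
    (hG : CH p G (fun ω => (E ω, (z 0 ω, y ω))) ≤ M) :
    ∃ i < n, ∀ (E' : Type) (e : Ω → E'), Det p (fun ω => (E ω, G ω)) e →
      CH p e (fun ω => (z i ω, y ω)) ≤ CH p e (fun ω => (z (i + 1) ω, y ω)) +
        (eE + M / n + n * k) := by
  have hk : 0 ≤ k := (CH_nonneg hp _ _).trans (hz 0 hn)
  have hn' : (0 : ℝ) < n := by exact_mod_cast hn
  -- the chain
  have step : ∀ {κ κ' : Type} (X : Ω → κ) (c : Ω → κ') (i : ℕ), i < n →
      CH p X (fun ω => (c ω, (z (i + 1) ω, y ω))) ≤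
        CH p X (fun ω => (z (i + 1) ω, (c ω, (z i ω, y ω)))) + k := by
    intro κ κ' X c i hi
    have h1 := CH_le_add hp X (z i) (fun ω => (c ω, (z (i + 1) ω, y ω)))
    have h2 : CH p (z i) (fun ω => (c ω, (z (i + 1) ω, y ω))) ≤ CH p (z i) (z (i + 1)) := by
      refine CH_mono_cond hp fun ω ω' _ _ hh => ?_
      simp only [Prod.mk.injEq] at hh ⊢
      exact hh.2.1
    have h3 : CH p X (fun ω => (z i ω, (c ω, (z (i + 1) ω, y ω)))) ≤
        CH p X (fun ω => (z (i + 1) ω, (c ω, (z i ω, y ω)))) := by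
      refine CH_mono_cond hp fun ω ω' _ _ hh => ?_
      simp only [Prod.mk.injEq] at hh ⊢
      exact ⟨hh.2.2.1, hh.2.1, hh.1, hh.2.2.2⟩
    linarith [hz i hi]
  obtain ⟨a, ha⟩ : ∃ a : ℕ → ℝ, a = fun i => CH p E (fun ω => (z i ω, y ω)) := ⟨_, rfl⟩
  obtain ⟨b, hb⟩ : ∃ b : ℕ → ℝ, b = fun i => CH p G (fun ω => (E ω, (z i ω, y ω))) := ⟨_, rfl⟩
  have a1 : ∀ i < n, a (i + 1) ≤ a i + k := by
    intro i hi
    rw [ha]
    simp only
    have h1 := step E (fun _ => ()) i hi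
    have h2 : CH p E (fun ω => (z (i + 1) ω, y ω)) ≤
        CH p E (fun ω => ((), (z (i + 1) ω, y ω))) :=
      CH_mono_cond hp fun ω ω' _ _ hh => congrArg (Prod.mk ()) hh
    have h3 : CH p E (fun ω => (z (i + 1) ω, ((), (z i ω, y ω)))) ≤
        CH p E (fun ω => (z i ω, y ω)) := by
      refine CH_mono_cond hp fun ω ω' _ _ hh => ?_
      exact (Prod.ext_iff.mp (Prod.ext_iff.mp hh).2).2
    linarith
  have a2 : ∀ i ≤ n, a i ≤ a 0 + i * k := by
    intro i
    induction i with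
    | zero => intro _; simp
    | succ i ih =>
      intro hi
      have h1 := a1 i (by omega)
      have h2 := ih (by omega)
      push_cast
      linarith
  have a3 : ∀ j, ∀ i, i + j = n → a n ≤ a i + j * k := by
    intro j
    induction j with
    | zero => intro i hi; simp at hi; rw [hi]; simp
    | succ j ih =>
      intro i hi
      have h1 := a1 i (by omega)
      have h2 := ih (i + 1) (by omega)
      push_cast
      linarith
  have hE' : a 0 ≤ a n + eE := by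
    rw [ha]
    exact hE
  have hbn : 0 ≤ b n := by
    rw [hb]
    exact CH_nonneg hp _ _
  -- the pigeonhole
  obtain ⟨i, hi, hbi⟩ : ∃ i < n, b i - b (i + 1) ≤ M / n := by
    by_contra hcon
    push Not at hcon
    have h1 : ∀ j ≤ n, (j : ℝ) * (M / n) ≤ b 0 - b j := by
      intro j
      induction j with
      | zero => intro _; simp
      | succ j ih =>
        intro hj
        have h1 := hcon j (by omega)
        have h2 := ih (by omega)
        push_cast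
        linarith
    have h2 := h1 (n - 1) (by omega)
    have h3 := hcon (n - 1) (by omega)
    rw [show n - 1 + 1 = n by omega] at h3
    have h4 : ((n - 1 : ℕ) : ℝ) = n - 1 := by
      rw [Nat.cast_sub (by omega)]
      simp
    rw [h4] at h2
    have h5 : b 0 ≤ M := by
      rw [hb]
      exact hG
    have h6 : (n : ℝ) * (M / n) = M := by field_simp
    linarith
  refine ⟨i, hi, fun E' e he => ?_⟩
  -- the joint quantity
  have c1 : ∀ j, CH p (fun ω => (E ω, G ω)) (fun ω => (z j ω, y ω)) = a j + b j := by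
    intro j
    have h1 := CH_chain hp G E (fun ω => (z j ω, y ω))
    have h2 : CH p (fun ω => (G ω, E ω)) (fun ω => (z j ω, y ω)) =
        CH p (fun ω => (E ω, G ω)) (fun ω => (z j ω, y ω)) := by
      refine CH_congr hp ?_ ?_ (fun _ _ _ _ h => h) (fun _ _ _ _ h => h) <;>
      · intro ω ω' _ _ hh
        simp only [Prod.mk.injEq] at hh ⊢
        tauto
    rw [ha, hb]
    simp only
    linarith
  have d1 := inf_fn hp (fun ω => (E ω, G ω)) he (z (i + 1)) (fun ω => (z i ω, y ω))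
  have d2 := step (fun ω => (E ω, G ω)) (fun _ => ()) i hi
  have d3 : CH p (fun ω => (E ω, G ω)) (fun ω => (z (i + 1) ω, y ω)) ≤
      CH p (fun ω => (E ω, G ω)) (fun ω => ((), (z (i + 1) ω, y ω))) :=
    CH_mono_cond hp fun ω ω' _ _ hh => congrArg (Prod.mk ()) hh
  have d4 : CH p (fun ω => (E ω, G ω)) (fun ω => (z (i + 1) ω, ((), (z i ω, y ω)))) ≤
      CH p (fun ω => (E ω, G ω)) (fun ω => (z (i + 1) ω, (z i ω, y ω))) := by
    refine CH_mono_cond hp fun ω ω' _ _ hh => ?_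
    simp only [Prod.mk.injEq] at hh ⊢
    exact ⟨hh.1, hh.2.2⟩
  have d5 : CH p e (fun ω => (z (i + 1) ω, (z i ω, y ω))) ≤
      CH p e (fun ω => (z (i + 1) ω, y ω)) := by
    refine CH_mono_cond hp fun ω ω' _ _ hh => ?_
    simp only [Prod.mk.injEq] at hh ⊢
    exact ⟨hh.1, hh.2.2⟩
  rw [c1 i] at d1
  rw [c1 (i + 1)] at d3
  have f1 := a2 i hi.le
  have f2 := a3 (n - (i + 1)) (i + 1) (by omega)
  have f3 : ((n - (i + 1) : ℕ) : ℝ) = n - (i + 1) := by
    rw [Nat.cast_sub (by omega)]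
    push_cast
    ring
  rw [f3] at f2
  have f4 : (i : ℝ) * k + (n - (i + 1)) * k + k = n * k := by ring
  linarith

/-- **Free of the next record**, class form: for one of the windows all functions of the velocities
and of `G` are free of the next record. -/
theorem free_EG {m : ℕ} {α γ : ∀ J : ℕ, Fam m J → Type}
    {f : ∀ (J : ℕ) (F : Fam m J), F.Ω → α J F} {y : ∀ (J : ℕ) (F : Fam m J), F.Ω → γ J F}
    {S : PCl m} {C₀ : ℝ} (hS : S.Ne)
    (hpos : ∀ (τ : ℝ) (J : ℕ) (F : Fam m J) (A : F.Ω → Prop), S.St τ J F A → 0 < Pe F.p A)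
    (htm : TmC S C₀) {c : ℕ → Fin m} {d : ℕ} {sh A B B' : ℝ} {sn : ℕ → ℝ → ℝ}
    (hW : ChW S c d sh sn A B')
    (hf : ∀ (J : ℕ) (F : Fam m J), ∃ φ : α J F → PtT F, ∀ ω, ptr F J ω = φ (f J F ω))
    (hy : Kn ((range 0).image c) 1 1 y) (hBB : B < B') (hB' : B' + sh ≤ 1) {η : ℚ → ℝ}
    (hη : ∀ w : ℚ, A ≤ w → (w : ℝ) + sh ≤ 1 → RNum S f (vg ((w : ℝ) + sh)) (η w)) :
    ∃ S' : PCl m, S'.Ne ∧
      (∀ (τ : ℝ) (J : ℕ) (F : Fam m J) (A : F.Ω → Prop), S'.St τ J F A → S.St τ J F A) ∧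
      ∀ᵐ g : ℝ, g ∈ Set.Ioo A B → (∀ i < d, HasDerivAt (fun x => sn i x - x) 0 g) →
      ∀ (C : ℕ) (σ : ℚ), 0 < σ → σ ≤ 1 → ∀ κ : ℝ, 0 < κ → ∀ K : ℕ, ∃ k ≥ K,
      ∀ (P : Fin d → ℚ) (b : ℚ) (n : ℕ) (a : ℕ → ℚ), 0 < n → (∀ i, nE d sh sn i g ≤ P i) →
      (∀ i, (P i : ℝ) ≤ nE d sh sn i g + C * (1 / 2) ^ k) →
      (∀ l i : Fin d, l < i →
        (P i : ℝ) - nE d sh sn i g + 2 * σ * (1 / 2) ^ k ≤ P l - nE d sh sn l g) →
      g - C * (1 / 2) ^ k ≤ b → b ≤ a 0 → (∀ i < n, a i ≤ a (i + 1)) →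
      (a n : ℝ) ≤ g + C * (1 / 2) ^ k →
      ∃ k₂ : ℝ, 0 < k₂ ∧ ∃ e₀ : ℝ, 0 < e₀ ∧ ∀ K : ℕ, Bas S' (fun J F A =>
        ∀ (V : ℕ → Type) (z : ∀ i, F.Ω → V i),
        (∀ i ≤ n, Mx f (vg (((a i + lagE C d k : ℚ) : ℝ) + sh)) k₂ F A (z i)) →
        ∀ u, (qE m c d sh sn b (fun i => (P i : ℝ))).P K e₀ J F A u →
        ∀ (Γ : Type) (G : F.Ω → Γ) (M : ℝ),
        CH (Pool.Agent.H49.Ent.cond F.p A True) G (fun ω => (u ω, (z 0 ω, y J F ω))) ≤ M * J →
        ∃ i < n, ∀ (E' : Type) (e : F.Ω → E'),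
          Det (Pool.Agent.H49.Ent.cond F.p A True) (fun ω => (u ω, G ω)) e →
          CH (Pool.Agent.H49.Ent.cond F.p A True) e (fun ω => (z i ω, y J F ω)) ≤
            CH (Pool.Agent.H49.Ent.cond F.p A True) e (fun ω => (z (i + 1) ω, y J F ω)) +
              (κ * (1 / 2) ^ k + M / n) * J) := by
  obtain ⟨S', h1, h2, h3⟩ := free_E hS hpos htm hW hf hy hBB hB' hη
  have hpos' : ∀ (τ : ℝ) (J : ℕ) (F : Fam m J) (A : F.Ω → Prop), S'.St τ J F A → 0 < Pe F.p A :=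
    fun τ J F A h => hpos τ J F A (h2 τ J F A h)
  refine ⟨S', h1, h2, ?_⟩
  filter_upwards [h3] with g hg hgAB hd C σ hσ0 hσ1 κ hκ K
  have hc1 : (0 : ℝ) < C + 1 := by positivity
  have hc2 : (0 : ℝ) < C + 7 * d + 10 := by positivity
  have hmn : 0 < min ((B - g) / (C + 1)) ((B' - B) / (C + 7 * d + 10)) :=
    lt_min (div_pos (by linarith [hgAB.2]) hc1) (div_pos (by linarith) hc2)
  obtain ⟨K₁, hK₁⟩ := exists_pow_lt_of_lt_one hmn (show (1 / 2 : ℝ) < 1 by norm_num)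
  obtain ⟨k, hk, H⟩ := hg hgAB hd C σ hσ0 hσ1 (κ / 2) (half_pos hκ) (max K K₁)
  refine ⟨k, (le_max_left _ _).trans hk, fun P b n a hn p1 p2 p3 b1 b2 b3 b4 => ?_⟩
  have hmono : ∀ j, ∀ i ≤ j, j ≤ n → a i ≤ a j := by
    intro j
    induction j with
    | zero => intro i hi _; rw [Nat.le_zero.1 hi]
    | succ j ih =>
      intro i hi hj
      rcases Nat.le_succ_iff.1 hi with h | h
      · exact (ih i h (by omega)).trans (b3 j (by omega))
      · rw [h]
  obtain ⟨k₂, hk₂, e₀, he₀, H⟩ := H P b (a 0) (a n) p1 p2 p3 b1 b2 (hmono n 0 (Nat.zero_le _)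
    le_rfl) b4
  obtain ⟨r, hr⟩ : ∃ r : ℝ, r = (1 / 2) ^ k := ⟨_, rfl⟩
  have hr0 : 0 < r := by rw [hr]; positivity
  have hn' : (0 : ℝ) < n := by exact_mod_cast hn
  have hrlt : r < min ((B - g) / (C + 1)) ((B' - B) / (C + 7 * d + 10)) := by
    rw [hr]
    exact lt_of_le_of_lt (pow_le_pow_of_le_one (by norm_num) (by norm_num)
      ((le_max_right _ _).trans hk)) hK₁
  have hr1 : (C + 1) * r < B - g := by
    have h3 := hrlt.trans_le (min_le_left _ _)
    rw [lt_div_iff₀ hc1] at h3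
    linarith
  have hr2 : (C + 7 * d + 10) * r < B' - B := by
    have h3 := hrlt.trans_le (min_le_right _ _)
    rw [lt_div_iff₀ hc2] at h3
    linarith
  have hlag : (lagE C d k : ℝ) = ((C : ℝ) + 7 * d + 10) * r := by
    rw [hr]
    unfold lagE
    push_cast
    rfl
  rw [← hr] at H b4 ⊢
  have hup : ∀ i < n, ∀ (J : ℕ) (F : Fam m J), ∃ φ : LnT F → LnT F, ∀ ω,
      vg (((a i + lagE C d k : ℚ) : ℝ) + sh) J F ω =
        φ (vg (((a (i + 1) + lagE C d k : ℚ) : ℝ) + sh) J F ω) := by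
    intro i hi J F
    have e1 : (a i : ℝ) ≤ a (i + 1) := by exact_mod_cast b3 i hi
    have e2 : (a (i + 1) : ℝ) ≤ a n := by exact_mod_cast hmono n (i + 1) hi le_rfl
    refine vg_mono (by push_cast; linarith) ?_ J F
    push_cast
    rw [hlag]
    linarith
  refine ⟨min k₂ (κ * r / 2 / n), lt_min hk₂ (by positivity), e₀, he₀, fun K' =>
    Bas.mono 0 ((H K').and (pos_bas hpos')) ?_⟩
  rintro J - F A ⟨H, hA⟩ V z hz u hu Γ G M hM
  have hcl := isLaw_cond F.isLaw hA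
  have hJ0 : (0 : ℝ) ≤ J := Nat.cast_nonneg J
  have hzz : ∀ i < n, CH (Pool.Agent.H49.Ent.cond F.p A True) (z i) (z (i + 1)) ≤
      κ * r / 2 / n * J := by
    intro i hi
    obtain ⟨φ, hφ⟩ := hup i hi J F
    have e1 := (hz i hi.le).1
    have e2 := (hz (i + 1) hi).2 _ (z i) (e1.mono ⟨fun x => x, fun _ _ => rfl⟩
      ⟨φ, fun ω _ => hφ ω⟩)
    exact e2.trans (mul_le_mul_of_nonneg_right (min_le_right _ _) hJ0)
  have hE : CH (Pool.Agent.H49.Ent.cond F.p A True) u (fun ω => (z 0 ω, y J F ω)) ≤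
      CH (Pool.Agent.H49.Ent.cond F.p A True) u (fun ω => (z n ω, y J F ω)) +
        κ / 2 * r * J := by
    have e1 := H (V 0) (z 0) (V n) (z n) ((hz 0 (Nat.zero_le _)).le' (min_le_left _ _))
      ((hz n le_rfl).le' (min_le_left _ _)) u hu (V n) Unit (z n) (fun _ => ())
      (fun ω ω' _ _ hh => (Prod.ext_iff.mp (Prod.ext_iff.mp hh).1).2) (fun _ _ _ _ _ => rfl)
    have e2 := inf_symm hcl.nonneg u (z n) (fun ω => (z 0 ω, y J F ω))
    have e3 : CH (Pool.Agent.H49.Ent.cond F.p A True) (z n) (fun ω => (z 0 ω, y J F ω)) ≤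
        CH (Pool.Agent.H49.Ent.cond F.p A True) (z n) (fun ω => ((), (z 0 ω, y J F ω))) :=
      CH_mono_cond hcl.nonneg fun ω ω' _ _ hh => congrArg (Prod.mk ()) hh
    have e4 : CH (Pool.Agent.H49.Ent.cond F.p A True) (z n)
        (fun ω => (u ω, ((), (z 0 ω, y J F ω)))) ≤ CH (Pool.Agent.H49.Ent.cond F.p A True) (z n)
        (fun ω => (u ω, (z 0 ω, y J F ω))) := by
      refine CH_mono_cond hcl.nonneg fun ω ω' _ _ hh => ?_
      simp only [Prod.mk.injEq] at hh ⊢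
      exact ⟨hh.1, hh.2.2⟩
    have e5 : CH (Pool.Agent.H49.Ent.cond F.p A True) u
        (fun ω => (z n ω, (z 0 ω, y J F ω))) ≤ CH (Pool.Agent.H49.Ent.cond F.p A True) u
        (fun ω => (z n ω, y J F ω)) := by
      refine CH_mono_cond hcl.nonneg fun ω ω' _ _ hh => ?_
      simp only [Prod.mk.injEq] at hh ⊢
      exact ⟨hh.1, hh.2.2⟩
    linarith
  obtain ⟨i, hi, hI⟩ := pig_law hcl.nonneg hn z (y J F) u G hzz hE hM
  refine ⟨i, hi, fun E' e he => (hI E' e he).trans (le_of_eq ?_)⟩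
  have e1 : (n : ℝ) * (κ * r / 2 / n * J) = κ * r / 2 * J := by field_simp
  have e2 : M * J / n = M / n * J := by ring
  rw [e1, e2]
  ring

end Pool.LA91
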