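import Pool.Agent.H91.FR.Hts
import Pool.Agent.H91.LA.Chp

/-!
# Shifted rational windows

`exists_sh`: a shift of the rational numbers which avoids a countable set. `chw_vs`: a greedy order
which is exact at all shifted rational windows is a chain at all of them (`ChW`).
-/

set_option autoImplicit false

namespace Pool.LA91

open Finset Real MvPolynomial
open Pool.Agent.H49.Ent Pool.Agent.H32.Dense Pool.STK Pool.KA Pool.KSAT Pool.K2S Pool.PB Pool.GEN
open Pool.S6C Pool.RCD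
open Pool.GRW (VExa)

variable {m n : ℕ}

/-- **A shift of the rational numbers** which avoids a countable set. -/
theorem exists_sh {Bd : Set ℝ} (hB : Bd.Countable) {a b : ℝ} (hab : a < b) :
    ∃ sh : ℝ, a < sh ∧ sh < b ∧ ∀ q : ℚ, (q : ℝ) + sh ∉ Bd := by
  have h1 : (⋃ q : ℚ, (fun x : ℝ => x - q) '' Bd).Countable :=
    Set.countable_iUnion fun q => hB.image _
  by_contra hcon
  push Not at hcon
  have h2 : (Set.Ioo a b).Countable := by
    refine h1.mono fun sh hsh => ?_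
    obtain ⟨q, hq⟩ := hcon sh hsh.1 hsh.2
    exact Set.mem_iUnion.2 ⟨q, (q : ℝ) + sh, hq, by simp⟩
  have h3 := Cardinal.mk_Ioo_real hab
  have h4 := Set.countable_coe_iff.2 h2
  have h5 := Cardinal.mk_le_aleph0 (α := Set.Ioo a b)
  rw [h3] at h5
  exact absurd h5 (not_le.2 Cardinal.aleph0_lt_continuum)

/-- **A greedy order exact at all shifted rational windows.** -/
theorem chw_vs {S : PCl m} {C₀ : ℝ} (htm : TmC S C₀)
    {L : Finset (Fin m) → Fin m → ℝ → ℝ → ℝ} (hL : LamW S L) {ε : Fin n → Fin m}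
    (hinj : Function.Injective ε) {c : ℕ → Fin m} (hcε : ∀ i : Fin n, c i = ε i) {d : ℕ}
    (hd : d ≤ n) {sh A B : ℝ} (h : ∀ q : ℚ, A ≤ q → (q : ℝ) ≤ B →
      (q : ℝ) + sh ∈ Wv L ε ∧ VExa S L ε ((q : ℝ) + sh) ∧ vs L ε ((q : ℝ) + sh) d < 1) :
    ChW S c d sh (fun i x => vs L ε (x + sh) (i + 1)) A B := by
  refine ⟨fun q a b => ?_⟩
  obtain ⟨h1, h2, h3⟩ := h q a b
  have h4 : vs L ε ((q : ℝ) + sh) 0 = (q : ℝ) + sh := rfl
  have hs0 : ∀ l, (q : ℝ) + sh ≤ vs L ε ((q : ℝ) + sh) l := le_vs hL ε h1.2.1.le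
  refine ⟨_, _, fun i _ => h1.1.le.trans (hs0 i), chn_vs htm hL hinj hcε h1 h2 (Nat.zero_le d) hd
    h4.le (lt_of_le_of_lt (hs0 d) h3) h3⟩

end Pool.LA91
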