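import Pool.Agent.H91.FR.PigA
import Pool.Agent.H91.FR.Chw
import Pool.Agent.H91.D2.TlcA

/-!
# Subclasses

`FreeAt.sub`, `FreeNx.sub`, `TlAt.sub`: the properties pass to subclasses. `FreeAt.le`: a larger
error. `chg_vs`: a greedy order which is exact at the windows of a set is a chain there (`ChG`).
-/

set_option autoImplicit false

namespace Pool.LA91

open Finset Real MvPolynomial
open Pool.Agent.H49.Ent Pool.Agent.H32.Dense Pool.STK Pool.KA Pool.KSAT Pool.K2S Pool.PB Pool.GEN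
open Pool.S6C Pool.RCD
open Pool.GRW (VExa)

variable {m n : ℕ} {α γ : ∀ J : ℕ, Fam m J → Type}
  {f : ∀ (J : ℕ) (F : Fam m J), F.Ω → α J F} {y : ∀ (J : ℕ) (F : Fam m J), F.Ω → γ J F}
  {S S' : PCl m} {c : ℕ → Fin m} {d : ℕ} {sn : ℕ → ℝ → ℝ} {G : Set ℝ} {g : ℝ} {C : ℕ} {σ : ℚ}
  {κ κ' : ℝ} {k : ℕ}

theorem FreeAt.sub (hs : ∀ (τ : ℝ) (J : ℕ) (F : Fam m J) (A : F.Ω → Prop),
    S'.St τ J F A → S.St τ J F A) (h : FreeAt S f y c d sn G g C σ κ k) :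
    FreeAt S' f y c d sn G g C σ κ k := by
  intro P b w w' a1 a2 a3 a4 a5 a6
  obtain ⟨k₂, hk₂, e₀, he₀, h1⟩ := h P b w w' a1 a2 a3 a4 a5 a6
  exact ⟨k₂, hk₂, e₀, he₀, fun K => (h1 K).sub hs⟩

theorem FreeNx.sub (hs : ∀ (τ : ℝ) (J : ℕ) (F : Fam m J) (A : F.Ω → Prop),
    S'.St τ J F A → S.St τ J F A) (h : FreeNx S f y c d sn G g C σ κ k) :
    FreeNx S' f y c d sn G g C σ κ k := by
  intro P b n a a0 a1 a2 a3 a4 a5 a6
  obtain ⟨k₂, hk₂, e₀, he₀, h1⟩ := h P b n a a0 a1 a2 a3 a4 a5 a6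
  exact ⟨k₂, hk₂, e₀, he₀, fun K => (h1 K).sub hs⟩

theorem TlAt.sub (hs : ∀ (τ : ℝ) (J : ℕ) (F : Fam m J) (A : F.Ω → Prop),
    S'.St τ J F A → S.St τ J F A) (h : TlAt S c d sn G g C σ κ k) :
    TlAt S' c d sn G g C σ κ k := by
  intro P₁ P₂ b w a o a0 a1 a2 a3 a4 a5 a6 a7
  obtain ⟨k₂, hk₂, h1⟩ := h P₁ P₂ b w a o a0 a1 a2 a3 a4 a5 a6 a7
  refine ⟨k₂, hk₂, fun D => ?_⟩
  obtain ⟨C₁, h2⟩ := h1 D
  exact ⟨C₁, h2.sub hs⟩

/-- A larger error. -/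
theorem FreeAt.le (hκ : κ ≤ κ') (h : FreeAt S f y c d sn G g C σ κ k) :
    FreeAt S f y c d sn G g C σ κ' k := by
  intro P b w w' a1 a2 a3 a4 a5 a6
  obtain ⟨k₂, hk₂, e₀, he₀, h1⟩ := h P b w w' a1 a2 a3 a4 a5 a6
  refine ⟨k₂, hk₂, e₀, he₀, fun K => Bas.mono 0 (h1 K) ?_⟩
  intro J _ F A H V z V' z' hz hz' u hu
  have h3 : κ * (1 / 2) ^ k * J ≤ κ' * (1 / 2) ^ k * J :=
    mul_le_mul_of_nonneg_right (mul_le_mul_of_nonneg_right hκ (by positivity))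
      (Nat.cast_nonneg J)
  linarith [H V z V' z' hz hz' u hu]

/-- A smaller set of windows. -/
theorem FreeAt.set {G' : Set ℝ} (hG : G' ⊆ G) (h : FreeAt S f y c d sn G g C σ κ k) :
    FreeAt S f y c d sn G' g C σ κ k := fun P b w w' a1 a2 a3 a4 a5 a6 =>
  h P b w w' a1 (hG a2) a3 a4 a5 a6

/-- A smaller set of windows. -/
theorem TlAt.set {G' : Set ℝ} (hG : G' ⊆ G) (h : TlAt S c d sn G g C σ κ k) :
    TlAt S c d sn G' g C σ κ k := fun P₁ P₂ b w a o a0 a1 a2 a3 a4 a5 a6 a7 =>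
  h P₁ P₂ b w a o a0 a1 (hG a2) a3 a4 a5 a6 a7

/-- **Labels of a larger precision.** -/
theorem qG_low {s₁ : ℕ → ℝ → ℝ} {w : ℝ} {N : Fin d → ℝ} (hs : ∀ i < d, s₁ i w ≤ sn i w) {K : ℕ}
    {e : ℝ} {J : ℕ} {F : Fam m J} {A : F.Ω → Prop} {u : F.Ω → Fin d → ℤ}
    (h : (qG m c d sn w N).P K e J F A u) : (qG m c d s₁ w N).P K e J F A u := by
  intro i
  obtain ⟨h1, V, z, z', g, h2, h3⟩ := h i
  exact ⟨h1, V, z, z', g, h2.mono (Finset.Subset.refl _) le_rfl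
    (Nat.floor_le_floor (mul_le_mul_of_nonneg_right (by linarith [hs i i.2])
      (Nat.cast_nonneg J))), h3⟩

/-- **A greedy order exact at the windows of a set.** -/
theorem chg_vs {C₀ : ℝ} (htm : TmC S C₀)
    {L : Finset (Fin m) → Fin m → ℝ → ℝ → ℝ} (hL : LamW S L) {ε : Fin n → Fin m}
    (hinj : Function.Injective ε) (hcε : ∀ i : Fin n, c i = ε i) (hd : d ≤ n)
    (h : ∀ w ∈ G, w ∈ Wv L ε ∧ VExa S L ε w ∧ vs L ε w d < 1) :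
    ChG S c d (fun i x => vs L ε x (i + 1)) G := by
  refine ⟨fun w hw => ?_⟩
  obtain ⟨h1, h2, h3⟩ := h w hw
  have h4 : vs L ε w 0 = w := rfl
  have hs0 : ∀ l, w ≤ vs L ε w l := le_vs hL ε h1.2.1.le
  exact ⟨_, _, fun i _ => h1.1.le.trans (hs0 i), chn_vs htm hL hinj hcε h1 h2 (Nat.zero_le d) hd
    h4.le (lt_of_le_of_lt (hs0 d) h3) h3⟩

end Pool.LA91
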