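import Pool.Agent.H91.FR.QEG
import Pool.Agent.H91.FR.Pig
import Mathlib.Analysis.Calculus.Rademacher

/-!
# The velocities over a chain of charts are free of the later records, for a set of good windows

`free_G`: `G` a closed set of good windows. At almost every critical point of `G` the velocities over
the charts of a window of `G`, to the natural digits and a staircase, have little information on the
records at later windows, for infinitely many scales. The windows of the records are real numbers.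
-/

set_option autoImplicit false

namespace Pool.LA91

open Finset Real
open Pool.Agent.H49.Ent Pool.Agent.H32.Dense Pool.STK Pool.KA Pool.KSAT Pool.K2S Pool.PB Pool.GEN
open Pool.S6C Pool.RCD

variable {m : ℕ} {U U' : Type} {α β γ : ∀ J : ℕ, Fam m J → Type}
  {f : ∀ (J : ℕ) (F : Fam m J), F.Ω → α J F} {g : ∀ (J : ℕ) (F : Fam m J), F.Ω → β J F}
  {y : ∀ (J : ℕ) (F : Fam m J), F.Ω → γ J F} {S : PCl m}

/-- A function of the nearest point of `G`. -/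
theorem deriv_p {G : Set ℝ} {pG : ℝ → ℝ} (hp : NrG G pG) {n : ℝ → ℝ} {g : ℝ} (hg : g ∈ G)
    (h : HasDerivWithinAt n 0 G g) : HasDerivAt (fun x => n (pG x)) 0 g := by
  rw [hasDerivAt_iff_isLittleO]
  rw [hasDerivWithinAt_iff_isLittleO] at h
  rw [Asymptotics.isLittleO_iff] at h ⊢
  intro e he
  have h1 := h (show 0 < e / 2 by positivity)
  rw [eventually_nhdsWithin_iff, Metric.eventually_nhds_iff] at h1
  obtain ⟨δ, hδ, h1⟩ := h1
  rw [Metric.eventually_nhds_iff]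
  refine ⟨δ / 2, by positivity, fun x hx => ?_⟩
  rw [Real.dist_eq] at hx
  have h2 : |pG x - g| ≤ 2 * |x - g| := by
    have h3 := hp.le (x := x) hg
    have h4 : |pG x - g| ≤ |pG x - x| + |x - g| := abs_sub_le _ _ _
    rw [abs_sub_comm (pG x) x] at h4
    linarith
  have h3 := h1 (y := pG x) (by
    rw [Real.dist_eq]
    linarith) (hp.mem x)
  rw [hp.of_mem hg]
  simp only [smul_zero, sub_zero, Real.norm_eq_abs] at h3 ⊢
  have h4 := mul_le_mul_of_nonneg_left h2 (show 0 ≤ e / 2 by positivity)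
  linarith

/-- The distance to a closed set has derivative zero at almost every point of the set. -/
theorem ae_infDist (G : Set ℝ) : ∀ᵐ g : ℝ, g ∈ G → HasDerivAt (fun x => Metric.infDist x G) 0 g := by
  have h1 : ∀ᵐ g : ℝ, DifferentiableAt ℝ (fun x : ℝ => Metric.infDist x G) g :=
    (Metric.lipschitz_infDist_pt G).ae_differentiableAt
  filter_upwards [h1] with g hg hgG
  have h2 := hg.hasDerivAt
  have h3 : IsLocalMin (fun x : ℝ => Metric.infDist x G) g := by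
    refine Filter.Eventually.of_forall fun x => ?_
    show Metric.infDist g G ≤ Metric.infDist x G
    rw [Metric.infDist_zero_of_mem hgG]
    exact Metric.infDist_nonneg
  rw [h3.hasDerivAt_eq_zero h2] at h2
  exact h2

/-- **The staircase** of the digits of the velocities, natural digits at the window `g`. -/
def StG (d : ℕ) (sn : ℕ → ℝ → ℝ) (g : ℝ) (C : ℕ) (σ : ℚ) (k : ℕ) (P : Fin d → ℚ) : Prop :=
  (∀ i : Fin d, sn i g - g ≤ P i) ∧ (∀ i : Fin d, (P i : ℝ) ≤ sn i g - g + C * (1 / 2) ^ k) ∧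
    ∀ l i : Fin d, l < i →
      (P i : ℝ) - (sn i g - g) + 2 * σ * (1 / 2) ^ k ≤ P l - (sn l g - g)

/-- The distance from the window of the charts to the window of the record. -/
noncomputable def lagG (C d k : ℕ) : ℝ := (C + 7 * d + 13) * (1 / 2) ^ k

/-- The last window of the records. -/
noncomputable def lstG (C d k : ℕ) : ℝ := (2 * C + 7 * d + 12) * (1 / 2) ^ k

/-- **The velocities over closed charts are free of the later records**, at almost every critical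
point of a closed set of good windows, for infinitely many scales. -/
theorem free_G {C₀ : ℝ} (hS : S.Ne)
    (hpos : ∀ (τ : ℝ) (J : ℕ) (F : Fam m J) (A : F.Ω → Prop), S.St τ J F A → 0 < Pe F.p A)
    (htm : TmC S C₀) {c : ℕ → Fin m} {d : ℕ} {sh A B : ℝ} {sn : ℕ → ℝ → ℝ} {G : Set ℝ}
    (hG : IsClosed G) (hW : ChG S c d sn G)
    (hf : ∀ (J : ℕ) (F : Fam m J), ∃ φ : α J F → PtT F, ∀ ω, ptr F J ω = φ (f J F ω))
    (hy : Kn ((range 0).image c) 1 1 y) (hB : B < 1) {η : ℚ → ℝ}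
    (hη : ∀ w : ℚ, A ≤ (w : ℝ) + sh → (w : ℝ) + sh ≤ 1 → RNum S f (vg ((w : ℝ) + sh)) (η w)) :
    ∃ S' : PCl m, S'.Ne ∧
      (∀ (τ : ℝ) (J : ℕ) (F : Fam m J) (A : F.Ω → Prop), S'.St τ J F A → S.St τ J F A) ∧
      ∀ᵐ g : ℝ, g ∈ Set.Ioo A B → g ∈ G →
      (∀ i < d, HasDerivWithinAt (fun x => sn i x - x) 0 G g) →
      ∀ (C : ℕ) (σ : ℚ), 0 < σ → σ ≤ 1 → ∀ κ : ℝ, 0 < κ → ∀ K : ℕ, ∃ k ≥ K,
      ∀ (P : Fin d → ℚ) (b w w' : ℝ), StG d sn g C σ k P → b ∈ G → g - C * (1 / 2) ^ k ≤ b →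
      b + lagG C d k ≤ w → w ≤ w' → w' ≤ g + lstG C d k →
      ∃ k₂ : ℝ, 0 < k₂ ∧ ∃ e₀ : ℝ, 0 < e₀ ∧ ∀ K : ℕ, Bas S' (fun J F A =>
        ∀ (V : Type) (z : F.Ω → V) (V' : Type) (z' : F.Ω → V'),
        Mx f (vg w) k₂ F A z → Mx f (vg w') k₂ F A z' →
        ∀ u, (qG m c d sn b (fun i => (P i : ℝ))).P K e₀ J F A u →
        CH (Pool.Agent.H49.Ent.cond F.p A True) u (fun ω => (z ω, y J F ω)) ≤
          CH (Pool.Agent.H49.Ent.cond F.p A True) u (fun ω => (z' ω, y J F ω)) +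
            κ * (1 / 2) ^ k * J) := by
  classical
  rcases G.eq_empty_or_nonempty with rfl | hne
  · exact ⟨S, hS, fun _ _ _ _ h => h, Filter.Eventually.of_forall fun g _ hg =>
      absurd hg (Set.notMem_empty g)⟩
  obtain ⟨pG, hp⟩ := nrG_ex hG hne
  -- the constants
  have hd0 : (0 : ℝ) ≤ d := Nat.cast_nonneg d
  obtain ⟨Cn, hCn⟩ : ∃ Cn : ℕ → ℝ, Cn = fun C : ℕ => (C : ℝ) + 3 * d + 4 := ⟨_, rfl⟩
  obtain ⟨C0, hC0⟩ : ∃ C0 : ℕ → ℝ, C0 = fun C : ℕ => (C : ℝ) + 7 * d + 12 := ⟨_, rfl⟩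
  obtain ⟨q, hq'⟩ : ∃ q : ℕ → ℕ → ℚ, q = fun C k : ℕ => ((C : ℚ) + 7 * d + 12) * (1 / 2) ^ k :=
    ⟨_, rfl⟩
  have hq : ∀ C k : ℕ, (q C k : ℝ) = C0 C * (1 / 2) ^ k := by
    intro C k
    rw [hq', hC0]
    push_cast
    rfl
  obtain ⟨k₁, hk₁⟩ : ∃ k₁ : ℕ → ℕ, ∀ C : ℕ, ∀ k ≥ k₁ C,
      (B - sh) + C0 C * (1 / 2) ^ k + sh ≤ 1 := by
    have h1 : ∀ C : ℕ, ∃ k₁ : ℕ, ∀ k ≥ k₁, (B - sh) + C0 C * (1 / 2) ^ k + sh ≤ 1 := by
      intro C
      have hc : 0 < C0 C := by rw [hC0]; positivity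
      obtain ⟨n, hn⟩ := exists_pow_lt_of_lt_one (show 0 < (1 - B) / (C0 C) from
        div_pos (by linarith) hc) (show (1 / 2 : ℝ) < 1 by norm_num)
      refine ⟨n, fun k hk => ?_⟩
      have h2 : ((1 : ℝ) / 2) ^ k ≤ (1 / 2) ^ n :=
        pow_le_pow_of_le_one (by norm_num) (by norm_num) hk
      have h3 := h2.trans_lt hn
      rw [lt_div_iff₀ hc] at h3
      linarith
    choose k₁ hk₁ using h1
    exact ⟨k₁, hk₁⟩
  have hfr : ∀ x : ℕ × {σ : ℚ // 0 < σ ∧ σ ≤ 1}, FrT S f (fun _ => y)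
      (fun _ w N => qG m c d sn (pG ((w : ℝ) + sh)) (fun i => (N (some i) : ℝ))) (q x.1)
      (rkG d) (nG d sh sn G pG) sh (A - sh) (B - sh) (Cn x.1 + 3 + 3 * (x.2.1 : ℝ) * (d + 1))
      (x.2.1 : ℝ) ((x.2.1 : ℝ) / 20) (C0 x.1) ((x.2.1 : ℝ) / 20) (Real.log 2)
      (k₁ x.1) := by
    rintro ⟨C, σ, hσ0, hσ1⟩
    have s0 : (0 : ℝ) < σ := by exact_mod_cast hσ0
    have s1 : (σ : ℝ) ≤ 1 := by exact_mod_cast hσ1
    have s2 : (σ : ℝ) * (d + 1) ≤ 1 * (d + 1) := mul_le_mul_of_nonneg_right s1 (by positivity)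
    have hCn0 : 0 ≤ Cn C := by rw [hCn]; positivity
    refine frq_G htm hpos hW hp hf hy (C0 := C0 C) (by simp only; positivity)
      (by simp only; linarith) (by simp only; linarith) (by simp only; linarith) ?_ le_rfl
      (hq C) (hk₁ C)
    simp only
    rw [hCn, hC0]
    simp only
    linarith
  obtain ⟨S', h1, h2, θ, hθ⟩ := FrT.nums (X := ℕ × {σ : ℚ // 0 < σ ∧ σ ≤ 1}) hS hpos
    (Q := fun w N => qG m c d sn (pG ((w : ℝ) + sh)) (fun i => (N (some i) : ℝ))) hfr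
  have hpos' : ∀ (τ : ℝ) (J : ℕ) (F : Fam m J) (A : F.Ω → Prop), S'.St τ J F A → 0 < Pe F.p A :=
    fun τ J F A h => hpos τ J F A (h2 τ J F A h)
  have hη' : ∀ w : ℚ, A - sh ≤ w → (w : ℝ) + sh ≤ 1 → RNum S' f (vg ((w : ℝ) + sh)) (η w) :=
    fun w a b => (hη w (by linarith) b).sub h2
  have htm' : TmC S' C₀ := fun τ J F A hτ h => htm τ J F A hτ (h2 τ J F A h)
  have hW' : ChG S' c d sn G := hW.sub h2
  have hfr' : ∀ x : ℕ × {σ : ℚ // 0 < σ ∧ σ ≤ 1}, FrT S' f (fun _ => y)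
      (fun _ w N => qG m c d sn (pG ((w : ℝ) + sh)) (fun i => (N (some i) : ℝ))) (q x.1)
      (rkG d) (nG d sh sn G pG) sh (A - sh) (B - sh) (Cn x.1 + 3 + 3 * (x.2.1 : ℝ) * (d + 1))
      (x.2.1 : ℝ) ((x.2.1 : ℝ) / 20) (C0 x.1) ((x.2.1 : ℝ) / 20) (Real.log 2)
      (k₁ x.1) := fun x => (hfr x).sub h2
  refine ⟨S', h1, h2, ?_⟩
  have key : ∀ᵐ g : ℝ, ∀ x : ℕ × {σ : ℚ // 0 < σ ∧ σ ≤ 1}, g ∈ Set.Ioo (A - sh) (B - sh) →
      (∀ i, HasDerivAt (nG d sh sn G pG i) 0 g) → ∀ κ : ℝ, 0 < κ → ∀ K : ℕ,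
      ∃ k ≥ K, ∀ (P P' : Option (Fin d) → ℚ) (w w' : ℚ),
      (∀ i, nG d sh sn G pG i g - Cn x.1 * (1 / 2) ^ k ≤ P i) →
      (∀ i, P i ≤ P' i) → (∀ i, (P' i : ℝ) ≤ nG d sh sn G pG i g + Cn x.1 * (1 / 2) ^ k) →
      (∀ l i, rkG d l < rkG d i →
        (P i : ℝ) - nG d sh sn G pG i g + 2 * (x.2.1 : ℝ) * (1 / 2) ^ k ≤
          P l - nG d sh sn G pG l g) →
      (∀ l i, rkG d l < rkG d i →
        (P' i : ℝ) - nG d sh sn G pG i g + 2 * (x.2.1 : ℝ) * (1 / 2) ^ k ≤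
          P' l - nG d sh sn G pG l g) →
      g - Cn x.1 * (1 / 2) ^ k ≤ w → w ≤ w' → (w' : ℝ) ≤ g + Cn x.1 * (1 / 2) ^ k →
      (θ x k w P' - θ x k w P) - (θ x k w' P' - θ x k w' P) ≤ κ * (1 / 2) ^ k ∧
      Ok (rkG d) (nG d sh sn G pG) (Cn x.1 + 3 + 3 * (x.2.1 : ℝ) * (d + 1))
        (x.2.1 : ℝ) ((x.2.1 : ℝ) / 20) (C0 x.1) k w P ∧
      Ok (rkG d) (nG d sh sn G pG) (Cn x.1 + 3 + 3 * (x.2.1 : ℝ) * (d + 1))
        (x.2.1 : ℝ) ((x.2.1 : ℝ) / 20) (C0 x.1) k w' P ∧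
      Ok (rkG d) (nG d sh sn G pG) (Cn x.1 + 3 + 3 * (x.2.1 : ℝ) * (d + 1))
        (x.2.1 : ℝ) ((x.2.1 : ℝ) / 20) (C0 x.1) k w P' ∧
      Ok (rkG d) (nG d sh sn G pG) (Cn x.1 + 3 + 3 * (x.2.1 : ℝ) * (d + 1))
        (x.2.1 : ℝ) ((x.2.1 : ℝ) / 20) (C0 x.1) k w' P' ∧
      Few S' f (vg (((w' + q x.1 k : ℚ) : ℝ) + sh)) y
        (qG m c d sn (pG ((w : ℝ) + sh)) (fun i => (P' (some i) : ℝ)))
        (qG m c d sn (pG ((w' : ℝ) + sh)) (fun i => (P' (some i) : ℝ))) ∧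
      Few S' f (vg (((w' + q x.1 k : ℚ) : ℝ) + sh)) y
        (qG m c d sn (pG ((w' : ℝ) + sh)) (fun i => (P' (some i) : ℝ)))
        (qG m c d sn (pG ((w : ℝ) + sh)) (fun i => (P' (some i) : ℝ))) := by
    rw [MeasureTheory.ae_all_iff]
    rintro ⟨C, σ, hσ0, hσ1⟩
    have s0 : (0 : ℝ) < σ := by exact_mod_cast hσ0
    have s1 : (σ : ℝ) ≤ 1 := by exact_mod_cast hσ1
    have hCn0 : 0 < Cn C := by rw [hCn]; positivity
    exact free_freqT (D := d) h1 hpos' (fun i => by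
        rcases i with _ | i
        · exact Nat.zero_le _
        · exact i.2.le) (Real.log_nonneg one_le_two) hCn0
      (by simp only; linarith) s0 (by simp only; linarith) (by simp only; linarith)
      (by simp only; linarith) (by simp only [hC0]; positivity) le_rfl hη'
      (hfr' (C, ⟨σ, hσ0, hσ1⟩)) (hθ (C, ⟨σ, hσ0, hσ1⟩))
  -- the translation
  have key2 := (MeasureTheory.measurePreserving_sub_right MeasureTheory.volume
    sh).quasiMeasurePreserving.ae key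
  filter_upwards [key2, ae_infDist G] with g hg hdist hgAB hgG hd C σ hσ0 hσ1 κ hκ K
  have s0 : (0 : ℝ) < σ := by exact_mod_cast hσ0
  have s1 : (σ : ℝ) ≤ 1 := by exact_mod_cast hσ1
  have hd' : ∀ i : Option (Fin d), HasDerivAt (nG d sh sn G pG i) 0 (g - sh) := by
    intro i
    rcases i with _ | i
    · refine HasDerivAt.comp_add_const (f := fun x => Metric.infDist x G) (g - sh) sh ?_
      rw [sub_add_cancel]
      exact hdist hgG
    · refine HasDerivAt.comp_add_const (f := fun x => sn i (pG x) - pG x) (g - sh) sh ?_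
      rw [sub_add_cancel]
      exact deriv_p hp (n := fun x => sn i x - x) hgG (hd i i.2)
  have hn0 : nG d sh sn G pG none (g - sh) = 0 := by
    unfold nG
    simp only
    rw [sub_add_cancel, Metric.infDist_zero_of_mem hgG]
  have hns : ∀ i : Fin d, nG d sh sn G pG (some i) (g - sh) = sn i g - g := by
    intro i
    unfold nG
    simp only
    rw [sub_add_cancel, hp.of_mem hgG]
  have hCn1 : 0 < Cn C + 1 := by rw [hCn]; positivity
  have hmn : 0 < min ((g - A) / (Cn C + 1)) ((B - g) / (Cn C + 1)) :=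
    lt_min (div_pos (by linarith [hgAB.1]) hCn1) (div_pos (by linarith [hgAB.2]) hCn1)
  obtain ⟨K₂, hK₂⟩ := exists_pow_lt_of_lt_one hmn (show (1 / 2 : ℝ) < 1 by norm_num)
  obtain ⟨k, hk, hgood⟩ := hg (C, ⟨σ, hσ0, hσ1⟩) ⟨by linarith [hgAB.1], by linarith [hgAB.2]⟩
    hd' (κ / 2) (half_pos hκ) (max K (max K₂ (k₁ C)))
  have hk0 : K ≤ k := (le_max_left _ _).trans hk
  have hk2 : K₂ ≤ k := ((le_max_left _ _).trans (le_max_right _ _)).trans hk
  have hk1 : k₁ C ≤ k := ((le_max_right _ _).trans (le_max_right _ _)).trans hk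
  simp only at hgood
  obtain ⟨r, hr⟩ : ∃ r : ℝ, r = (1 / 2) ^ k := ⟨_, rfl⟩
  have hr0 : 0 < r := by rw [hr]; positivity
  have hrlt : r < min ((g - A) / (Cn C + 1)) ((B - g) / (Cn C + 1)) := by
    rw [hr]
    exact lt_of_le_of_lt (pow_le_pow_of_le_one (by norm_num) (by norm_num) hk2) hK₂
  have hCA : (Cn C + 1) * r < g - A := by
    have h3 := hrlt.trans_le (min_le_left _ _)
    rw [lt_div_iff₀ hCn1] at h3
    linarith
  have hCB : (Cn C + 1) * r < B - g := by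
    have h3 := hrlt.trans_le (min_le_right _ _)
    rw [lt_div_iff₀ hCn1] at h3
    linarith
  have hsr : 0 < (σ : ℝ) * r := mul_pos s0 hr0
  have hsr1 : (σ : ℝ) * r ≤ r := by nlinarith
  have hCr : (0 : ℝ) ≤ C * r := by positivity
  have hdr : (0 : ℝ) ≤ d * r := by positivity
  have hCnr : Cn C * r = C * r + 3 * (d * r) + 4 * r := by
    rw [hCn]
    ring
  have hC0r : C0 C * r = C * r + 7 * (d * r) + 12 * r := by
    rw [hC0]
    ring
  refine ⟨k, hk0, fun P b w w' hP hb a4 a5 a6 a7 => ?_⟩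
  obtain ⟨a1, a2, a3⟩ := hP
  unfold lagG at a5
  unfold lstG at a7
  rw [← hr] at a2 a3 a4 a5 a7 hgood
  rw [← hr]
  have hqr : (q C k : ℝ) = C * r + 7 * (d * r) + 12 * r := by rw [hq, ← hr, hC0r]
  -- the rational windows
  obtain ⟨bq, bq1, bq2⟩ : ∃ x : ℚ, b - sh < x ∧ (x : ℝ) < b - sh + σ * r / 20 :=
    exists_rat_btwn (by linarith)
  obtain ⟨wq, wq1, wq2⟩ : ∃ x : ℚ, w - sh - q C k - r / 2 < x ∧ (x : ℝ) < w - sh - q C k :=
    exists_rat_btwn (by linarith)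
  obtain ⟨wq', wq1', wq2'⟩ : ∃ x : ℚ, w' - sh - q C k < x ∧ (x : ℝ) < w' - sh - q C k + r :=
    exists_rat_btwn (by linarith)
  rw [hqr] at wq1 wq2 wq1' wq2'
  have hbw : bq ≤ wq := by
    have : (bq : ℝ) ≤ wq := by linarith
    exact_mod_cast this
  have hww : wq ≤ wq' := by
    have : (wq : ℝ) ≤ wq' := by linarith
    exact_mod_cast this
  -- the digits
  obtain ⟨pn, pn1, pn2⟩ : ∃ x : ℚ, C * r + 2 * r < (x : ℝ) ∧ (x : ℝ) < C * r + 3 * r :=
    exists_rat_btwn (by linarith)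
  obtain ⟨P', hP'n, hP's⟩ : ∃ P' : Option (Fin d) → ℚ, P' none = pn ∧ ∀ i, P' (some i) = P i :=
    ⟨fun i => i.elim pn P, rfl, fun _ => rfl⟩
  have hPP : (fun i : Fin d => (P' (some i) : ℝ)) = fun i => (P i : ℝ) := by
    funext i
    rw [hP's]
  have hlow : ∀ i : Fin d, ∃ p : ℚ, (sn i g - g) - 3 * (σ * r) * ((i : ℕ) + 1) < p ∧
      (p : ℝ) < (sn i g - g) - 3 * (σ * r) * ((i : ℕ) + 1) + σ * r / 2 :=
    fun i => exists_rat_btwn (by linarith)
  choose L₀ hL1 hL2 using hlow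
  obtain ⟨L, hLn, hLs⟩ : ∃ L : Option (Fin d) → ℚ, L none = pn ∧ ∀ i, L (some i) = L₀ i :=
    ⟨fun i => i.elim pn L₀, rfl, fun _ => rfl⟩
  have hLP : ∀ i, L i ≤ P' i := by
    intro i
    rcases i with _ | i
    · rw [hLn, hP'n]
    · rw [hLs, hP's]
      have e1 : (L₀ i : ℝ) ≤ P i := by
        have e2 : 0 ≤ 3 * (σ * r) * ((i : ℕ) : ℝ) := by positivity
        linarith [hL2 i, a1 i]
      exact_mod_cast e1
  have hLb : ∀ i, nG d sh sn G pG i (g - sh) - Cn C * r ≤ L i := by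
    intro i
    rcases i with _ | i
    · rw [hn0, hLn]
      linarith
    · rw [hns, hLs]
      have e1 : ((i : ℕ) : ℝ) + 1 ≤ d := by exact_mod_cast i.2
      have e2 : 3 * ((σ : ℝ) * r) * (((i : ℕ) : ℝ) + 1) ≤ 3 * r * d := by
        have := mul_le_mul hsr1 e1 (by positivity) hr0.le
        linarith
      linarith [hL1 i]
  have hPb : ∀ i, (P' i : ℝ) ≤ nG d sh sn G pG i (g - sh) + Cn C * r := by
    intro i
    rcases i with _ | i
    · rw [hn0, hP'n]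
      linarith
    · rw [hns, hP's]
      linarith [a2 i]
  have hPs : ∀ l i, rkG d l < rkG d i →
      (P' i : ℝ) - nG d sh sn G pG i (g - sh) + 2 * (σ : ℝ) * r ≤
        P' l - nG d sh sn G pG l (g - sh) := by
    intro l i hli
    rcases i with _ | i
    · exact absurd hli (Nat.not_lt_zero _)
    · rcases l with _ | l
      · rw [hn0, hP'n, hns, hP's]
        linarith [a2 i]
      · rw [hns, hP's, hns, hP's]
        exact a3 l i hli
  have hLst : ∀ l i, rkG d l < rkG d i →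
      (L i : ℝ) - nG d sh sn G pG i (g - sh) + 2 * (σ : ℝ) * r ≤
        L l - nG d sh sn G pG l (g - sh) := by
    intro l i hli
    rcases i with _ | i
    · exact absurd hli (Nat.not_lt_zero _)
    · rcases l with _ | l
      · rw [hn0, hLn, hns, hLs]
        have e2 : 0 ≤ 3 * ((σ : ℝ) * r) * ((i : ℕ) : ℝ) := by positivity
        linarith [hL2 i]
      · rw [hns, hLs, hns, hLs]
        have e1 : (((l : Fin d) : ℕ) : ℝ) + 1 ≤ ((i : ℕ) : ℝ) := by exact_mod_cast hli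
        have e2 := mul_le_mul_of_nonneg_left e1 (by positivity : 0 ≤ 3 * ((σ : ℝ) * r))
        linarith [hL1 l, hL2 i]
  obtain ⟨g1, g2, g3, g4, g5, g6, g7⟩ := hgood L P' wq wq' hLb hLP hPb hLst hPs (by linarith) hww
    (by linarith)
  obtain ⟨-, -, -, g4b, -, g6b, g7b⟩ := hgood L P' bq wq hLb hLP hPb hLst hPs (by linarith) hbw
    (by linarith)
  rw [hPP] at g6 g7 g6b g7b
  have hbw' : (bq : ℝ) ≤ wq := by exact_mod_cast hbw
  have hww' : (wq : ℝ) ≤ wq' := by exact_mod_cast hww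
  have wA : A - sh ≤ wq := by linarith
  have wB : (wq : ℝ) ≤ B - sh := by linarith
  have w'A : A - sh ≤ wq' := by linarith
  have w'B : (wq' : ℝ) ≤ B - sh := by linarith
  have hlag := hk₁ C k hk1
  rw [← hr, hC0r] at hlag
  have hq0 : 0 ≤ (q C k : ℝ) := by rw [hqr]; positivity
  have hM0 : 0 ≤ Cn C + 3 + 3 * (σ : ℝ) * (d + 1) := by rw [hCn]; positivity
  -- the numbers of the low digits
  have hz : ∀ v : ℚ, A - sh ≤ v → (v : ℝ) ≤ B - sh →
      |(g - sh) - v| ≤ C0 C * r →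
      Ok (rkG d) (nG d sh sn G pG) (Cn C + 3 + 3 * (σ : ℝ) * (d + 1))
        (σ : ℝ) ((σ : ℝ) / 20) (C0 C) k v L →
      θ (C, ⟨σ, hσ0, hσ1⟩) k v L = 0 := by
    intro v c1 c2 c3 c4
    obtain ⟨u₁, rd, hrd, hch⟩ := hW.ch _ (hp.mem ((v : ℝ) + sh))
    have c5 := c4.2.2
    rw [← hr] at c5
    refine NN.zero h1 hpos' (hη' (v + q C k) (by push_cast; linarith) (by
      push_cast; rw [hqr]; linarith)) (hθ (C, ⟨σ, hσ0, hσ1⟩) k hk1 v L c1 c2 c4)
      ((hfr' (C, ⟨σ, hσ0, hσ1⟩)).exs k hk1 v L c1 c2 c4) ?_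
    refine few_tQt hpos' (few_pi hpos' fun i => Few0.few hpos' (few0_jet htm' hch.w0 hch.u0 ?_
      _ _ _))
    have c6 := abs_le.1 (c5 (some i) (g - sh) c3)
    rw [hns] at c6
    have c7 := hL2 i
    have c8 : 0 ≤ 3 * ((σ : ℝ) * r) * ((i : ℕ) : ℝ) := by positivity
    unfold nG at c6
    simp only at c6
    simp only [hLs]
    push_cast
    linarith [c6.1, c6.2]
  have z1 := hz wq wA wB (by
    rw [abs_le, hC0r]
    constructor <;> linarith) g2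
  have z2 := hz wq' w'A w'B (by
    rw [abs_le, hC0r]
    constructor <;> linarith) g3
  rw [z1, z2, sub_zero, sub_zero] at g1
  -- the numbers of the high digits
  have n1 := hθ (C, ⟨σ, hσ0, hσ1⟩) k hk1 wq P' wA wB g4
  have n2 := hθ (C, ⟨σ, hσ0, hσ1⟩) k hk1 wq' P' w'A w'B g5
  have xb := (hfr' (C, ⟨σ, hσ0, hσ1⟩)).exs k hk1 bq P' (by linarith) (by linarith) g4b
  have xw := (hfr' (C, ⟨σ, hσ0, hσ1⟩)).exs k hk1 wq P' wA wB g4
  have xw' := (hfr' (C, ⟨σ, hσ0, hσ1⟩)).exs k hk1 wq' P' w'A w'B g5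
  simp only at n1 n2 xb xw xw'
  rw [hPP] at n1 n2 xb xw xw'
  have hid : ∀ (J : ℕ) (F : Fam m J), ∃ φ : α J F → α J F, ∀ ω, f J F ω = φ (f J F ω) :=
    fun J F => ⟨fun x => x, fun _ => rfl⟩
  have hid2 : ∀ (J : ℕ) (F : Fam m J), ∃ φ : γ J F → γ J F, ∀ ω, y J F ω = φ (y J F ω) :=
    fun J F => ⟨fun x => x, fun _ => rfl⟩
  -- the charts of the window `b`
  have rb1 : |b - ((bq : ℝ) + sh)| ≤ ((σ : ℝ) / 20 + 2 * (σ / 20)) * (1 / 2) ^ k := by
    rw [← hr, abs_le]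
    constructor <;> linarith
  have rb2 : |pG ((bq : ℝ) + sh) - ((bq : ℝ) + sh)| ≤
      ((σ : ℝ) / 20 + 2 * (σ / 20)) * (1 / 2) ^ k := by
    rw [abs_sub_comm]
    refine (hp.le (x := (bq : ℝ) + sh) hb).trans ?_
    rw [abs_sub_comm]
    exact rb1
  have s2 : (σ : ℝ) * (d + 1) ≤ 1 * (d + 1) := mul_le_mul_of_nonneg_right s1 (by positivity)
  have hCC : (Cn C + 3 + 3 * (σ : ℝ) * (d + 1)) + 20 * (σ / 20) * (d + 1) + 4 * (σ / 20) ≤
      C0 C := by
    rw [hCn, hC0]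
    simp only
    linarith
  have hbB : ((bq + q C k : ℚ) : ℝ) + sh ≤ 1 := by
    push_cast
    rw [hqr]
    linarith
  have fb1 : Few S' f (vg (((bq + q C k : ℚ) : ℝ) + sh)) y
      (qG m c d sn b (fun i => (P i : ℝ)))
      (qG m c d sn (pG ((bq : ℝ) + sh)) (fun i => (P i : ℝ))) := by
    have h3 := few_pi hpos' fun i => few_velOkG (N₂ := (P' (some i) : ℝ)) htm' hpos' hW' hp hf hy hM0
      (show 0 < (σ : ℝ) / 20 by linarith) (show 0 ≤ (σ : ℝ) / 20 by linarith) (by linarith) hCC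
      le_rfl (hq C k) hb (hp.mem ((bq : ℝ) + sh)) rb1 rb2 hbB g4b i le_rfl
    rw [hPP] at h3
    simp only [hP's] at h3
    exact h3
  have fb2 : Few S' f (vg (((bq + q C k : ℚ) : ℝ) + sh)) y
      (qG m c d sn (pG ((bq : ℝ) + sh)) (fun i => (P i : ℝ)))
      (qG m c d sn b (fun i => (P i : ℝ))) := by
    have h3 := few_pi hpos' fun i => few_velOkG (N₂ := (P' (some i) : ℝ)) htm' hpos' hW' hp hf hy hM0
      (show 0 < (σ : ℝ) / 20 by linarith) (show 0 ≤ (σ : ℝ) / 20 by linarith) (by linarith) hCC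
      le_rfl (hq C k) (hp.mem ((bq : ℝ) + sh)) hb rb2 rb1 hbB g4b i le_rfl
    rw [hPP] at h3
    simp only [hP's] at h3
    exact h3
  have ub : ∀ (J : ℕ) (F : Fam m J), ∃ φ : LnT F → LnT F, ∀ ω,
      vg (((bq + q C k : ℚ) : ℝ) + sh) J F ω =
        φ (vg (((wq + q C k : ℚ) : ℝ) + sh) J F ω) :=
    fun J F => vg_mono (by push_cast; linarith) (by push_cast; rw [hqr]; linarith) J F
  have uw : ∀ (J : ℕ) (F : Fam m J), ∃ φ : LnT F → LnT F, ∀ ω,
      vg (((wq + q C k : ℚ) : ℝ) + sh) J F ω =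
        φ (vg (((wq' + q C k : ℚ) : ℝ) + sh) J F ω) :=
    fun J F => vg_mono (by push_cast; linarith) (by push_cast; rw [hqr]; linarith) J F
  have c1 := Few.trans hpos' xb (Few.up (f' := f) (y' := y) hpos' hid ub hid2 fb1) g6b
  have c2 := Few.trans hpos' xb g7b (Few.up (f' := f) (y' := y) hpos' hid ub hid2 fb2)
  have N1 := NN.tr hpos' n1 xw c2 c1
  have c3 := Few.trans hpos' xw (Few.up (f' := f) (y' := y) hpos' hid uw hid2 c1) g6
  have c4 := Few.trans hpos' xw g7 (Few.up (f' := f) (y' := y) hpos' hid uw hid2 c2)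
  have N2 := NN.tr hpos' n2 xw' c4 c3
  -- the records
  obtain ⟨m1, hm1, e1, he1, H1⟩ := N1 (κ / 16 * r) (by positivity)
  obtain ⟨m2, hm2, e2, he2, H2⟩ := N2 (κ / 16 * r) (by positivity)
  obtain ⟨k₂, hk₂, l1, l2, l3⟩ : ∃ k₂ : ℝ, 0 < k₂ ∧ k₂ ≤ m1 ∧ k₂ ≤ m2 ∧ k₂ ≤ κ / 16 * r :=
    ⟨min m1 (min m2 (κ / 16 * r)), by positivity, min_le_left _ _,
      (min_le_right _ _).trans (min_le_left _ _), (min_le_right _ _).trans (min_le_right _ _)⟩
  have X1 := mx_ex hpos' (hη' (wq + q C k) (by push_cast; linarith) (by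
    push_cast; rw [hqr]; linarith)) k₂ hk₂
  have X2 := mx_ex hpos' (hη' (wq' + q C k) (by push_cast; linarith) (by
    push_cast; rw [hqr]; linarith)) k₂ hk₂
  refine ⟨k₂, hk₂, min e1 e2, lt_min he1 he2, fun Kp => ?_⟩
  refine Bas.mono 0 (((H1 Kp).and (H2 Kp)).and ((X1.and X2).and (pos_bas hpos'))) ?_
  rintro J - F A' ⟨⟨H1, H2⟩, ⟨⟨V₁, z₁, hz₁⟩, V₂, z₂, hz₂⟩, hA⟩ V z V' z' hz hz' u hu
  have hcl := isLaw_cond F.isLaw hA
  have hJ0 : (0 : ℝ) ≤ J := Nat.cast_nonneg J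
  have q1 := (abs_le.1 (H1 V₁ z₁ (hz₁.le' l1) u
    ((qG m c d sn b (fun i => (P i : ℝ))).mono le_rfl (min_le_left _ _) hu))).2
  have q2 := (abs_le.1 (H2 V₂ z₂ (hz₂.le' l2) u
    ((qG m c d sn b (fun i => (P i : ℝ))).mono le_rfl (min_le_right _ _) hu))).1
  have hw1 : w ≤ 1 := by linarith
  obtain ⟨φ₁, hφ₁⟩ := vg_mono (show ((wq + q C k : ℚ) : ℝ) + sh ≤ w by
    push_cast
    rw [hqr]
    linarith) hw1 J F
  obtain ⟨φ₂, hφ₂⟩ := vg_mono (show w' ≤ ((wq' + q C k : ℚ) : ℝ) + sh by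
    push_cast
    rw [hqr]
    linarith) (by
    push_cast
    rw [hqr]
    linarith) J F
  have q3 := hz.2 V₁ z₁ (hz₁.1.mono ⟨fun x => x, fun _ _ => rfl⟩ ⟨φ₁, fun ω _ => hφ₁ ω⟩)
  have q4 := hz₂.2 V' z' (hz'.1.mono ⟨fun x => x, fun _ _ => rfl⟩ ⟨φ₂, fun ω _ => hφ₂ ω⟩)
  have st : ∀ {κ₁ κ₂ : Type} (a : F.Ω → κ₁) (b : F.Ω → κ₂),
      CH (Pool.Agent.H49.Ent.cond F.p A' True) u (fun ω => (a ω, y J F ω)) ≤
        CH (Pool.Agent.H49.Ent.cond F.p A' True) b a +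
          CH (Pool.Agent.H49.Ent.cond F.p A' True) u (fun ω => (b ω, y J F ω)) := by
    intro κ₁ κ₂ a b
    have e1 := CH_le_add hcl.nonneg u b (fun ω => (a ω, y J F ω))
    have e2 : CH (Pool.Agent.H49.Ent.cond F.p A' True) b (fun ω => (a ω, y J F ω)) ≤
        CH (Pool.Agent.H49.Ent.cond F.p A' True) b a :=
      CH_mono_cond hcl.nonneg fun _ _ _ _ hh => (Prod.ext_iff.mp hh).1
    have e3 : CH (Pool.Agent.H49.Ent.cond F.p A' True) u (fun ω => (b ω, (a ω, y J F ω))) ≤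
        CH (Pool.Agent.H49.Ent.cond F.p A' True) u (fun ω => (b ω, y J F ω)) := by
      refine CH_mono_cond hcl.nonneg fun ω ω' _ _ hh => ?_
      simp only [Prod.mk.injEq] at hh ⊢
      exact ⟨hh.1, hh.2.2⟩
    linarith
  have q5 := st z z₁
  have q6 := st z₂ z'
  have q7 := mul_le_mul_of_nonneg_right g1 hJ0
  have q8 := mul_le_mul_of_nonneg_right l3 hJ0
  have q9 : 0 ≤ κ * r * J := by positivity
  linarith

/-- **Functions of the two records.** -/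
theorem free_det {Ω Y Y₁ Y₂ V V' T : Type} [Fintype Ω] {p : Ω → ℝ} (hp : ∀ ω, 0 ≤ p ω)
    (u : Ω → T) (z : Ω → V) (z' : Ω → V') (y : Ω → Y) {e k : ℝ}
    (h : CH p u (fun ω => (z ω, y ω)) ≤ CH p u (fun ω => (z' ω, y ω)) + e)
    (hk : CH p z z' ≤ k) (v : Ω → Y₁) (v' : Ω → Y₂)
    (hv : Det p (fun ω => ((z ω, z' ω), y ω)) v) (hv' : Det p (fun ω => ((z ω, z' ω), y ω)) v') :
    CH p v (fun ω => (v' ω, (z ω, y ω))) ≤
      CH p v (fun ω => (u ω, (v' ω, (z ω, y ω)))) + (e + k) := by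
  have h1 := inf_symm hp v u (fun ω => (v' ω, (z ω, y ω)))
  have h2 : CH p u (fun ω => (v' ω, (z ω, y ω))) ≤ CH p u (fun ω => (z ω, y ω)) :=
    CH_mono_cond hp fun _ _ _ _ hh => (Prod.ext_iff.mp hh).2
  have h3 : CH p u (fun ω => ((z ω, z' ω), y ω)) ≤
      CH p u (fun ω => (v ω, (v' ω, (z ω, y ω)))) := by
    refine CH_mono_cond hp fun ω ω' hω hω' hh => ?_
    have k1 := hv ω ω' hω hω' hh
    have k2 := hv' ω ω' hω hω' hh
    simp only [Prod.mk.injEq] at hh ⊢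
    exact ⟨k1, k2, hh.1.1, hh.2⟩
  have h4 := CH_le_add hp u z (fun ω => (z' ω, y ω))
  have h5 : CH p z (fun ω => (z' ω, y ω)) ≤ CH p z z' :=
    CH_mono_cond hp fun _ _ _ _ hh => (Prod.ext_iff.mp hh).1
  have h6 : CH p u (fun ω => (z ω, (z' ω, y ω))) ≤ CH p u (fun ω => ((z ω, z' ω), y ω)) := by
    refine CH_mono_cond hp fun ω ω' _ _ hh => ?_
    simp only [Prod.mk.injEq] at hh ⊢
    exact ⟨⟨hh.1, hh.2.1⟩, hh.2.2⟩
  linarith

end Pool.LA91
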