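import Pool.Agent.H91.FR.FrG

/-!
# Free of the next record, for a set of good windows

`free_GP`: the pigeonhole over the windows of the records, class form, for a closed set of good
windows.
-/

set_option autoImplicit false

namespace Pool.LA91

open Finset Real
open Pool.Agent.H49.Ent Pool.Agent.H32.Dense Pool.STK Pool.KA Pool.KSAT Pool.K2S Pool.PB Pool.GEN
open Pool.S6C Pool.RCD

/-- **Free of the next record**, class form: for one of the windows all functions of the velocities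
and of `Γ` are free of the next record. -/
theorem free_GP {m : ℕ} {α γ : ∀ J : ℕ, Fam m J → Type}
    {f : ∀ (J : ℕ) (F : Fam m J), F.Ω → α J F} {y : ∀ (J : ℕ) (F : Fam m J), F.Ω → γ J F}
    {S : PCl m} {C₀ : ℝ} (hS : S.Ne)
    (hpos : ∀ (τ : ℝ) (J : ℕ) (F : Fam m J) (A : F.Ω → Prop), S.St τ J F A → 0 < Pe F.p A)
    (htm : TmC S C₀) {c : ℕ → Fin m} {d : ℕ} {sh A B : ℝ} {sn : ℕ → ℝ → ℝ} {G : Set ℝ}
    (hG : IsClosed G) (hW : ChG S c d sn G)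
    (hf : ∀ (J : ℕ) (F : Fam m J), ∃ φ : α J F → PtT F, ∀ ω, ptr F J ω = φ (f J F ω))
    (hy : Kn ((range 0).image c) 1 1 y) (hB : B < 1) {η : ℚ → ℝ}
    (hη : ∀ w : ℚ, A ≤ (w : ℝ) + sh → (w : ℝ) + sh ≤ 1 → RNum S f (vg ((w : ℝ) + sh)) (η w)) :
    ∃ S' : PCl m, S'.Ne ∧
      (∀ (τ : ℝ) (J : ℕ) (F : Fam m J) (A : F.Ω → Prop), S'.St τ J F A → S.St τ J F A) ∧
      ∀ᵐ g : ℝ, g ∈ Set.Ioo A B → g ∈ G →
      (∀ i < d, HasDerivWithinAt (fun x => sn i x - x) 0 G g) →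
      ∀ (C : ℕ) (σ : ℚ), 0 < σ → σ ≤ 1 → ∀ κ : ℝ, 0 < κ → ∀ K : ℕ, ∃ k ≥ K,
      ∀ (P : Fin d → ℚ) (b : ℝ) (n : ℕ) (a : ℕ → ℝ), 0 < n → StG d sn g C σ k P → b ∈ G →
      g - C * (1 / 2) ^ k ≤ b → b + lagG C d k ≤ a 0 → (∀ i < n, a i ≤ a (i + 1)) →
      a n ≤ g + lstG C d k →
      ∃ k₂ : ℝ, 0 < k₂ ∧ ∃ e₀ : ℝ, 0 < e₀ ∧ ∀ K : ℕ, Bas S' (fun J F A =>
        ∀ (V : ℕ → Type) (z : ∀ i, F.Ω → V i),
        (∀ i ≤ n, Mx f (vg (a i)) k₂ F A (z i)) →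
        ∀ u, (qG m c d sn b (fun i => (P i : ℝ))).P K e₀ J F A u →
        ∀ (Γ : Type) (G : F.Ω → Γ) (M : ℝ),
        CH (Pool.Agent.H49.Ent.cond F.p A True) G (fun ω => (u ω, (z 0 ω, y J F ω))) ≤ M * J →
        ∃ i < n, ∀ (E' : Type) (e : F.Ω → E'),
          Det (Pool.Agent.H49.Ent.cond F.p A True) (fun ω => (u ω, G ω)) e →
          CH (Pool.Agent.H49.Ent.cond F.p A True) e (fun ω => (z i ω, y J F ω)) ≤
            CH (Pool.Agent.H49.Ent.cond F.p A True) e (fun ω => (z (i + 1) ω, y J F ω)) +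
              (κ * (1 / 2) ^ k + M / n) * J) := by
  obtain ⟨S', h1, h2, h3⟩ := free_G hS hpos htm hG hW hf hy hB hη
  have hpos' : ∀ (τ : ℝ) (J : ℕ) (F : Fam m J) (A : F.Ω → Prop), S'.St τ J F A → 0 < Pe F.p A :=
    fun τ J F A h => hpos τ J F A (h2 τ J F A h)
  refine ⟨S', h1, h2, ?_⟩
  filter_upwards [h3] with g hg hgAB hgG hd C σ hσ0 hσ1 κ hκ K
  have hc2 : (0 : ℝ) < 2 * C + 7 * d + 12 := by positivity
  obtain ⟨K₁, hK₁⟩ := exists_pow_lt_of_lt_one (show 0 < (1 - g) / (2 * C + 7 * d + 12) from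
    div_pos (by linarith [hgAB.2]) hc2) (show (1 / 2 : ℝ) < 1 by norm_num)
  obtain ⟨k, hk, H⟩ := hg hgAB hgG hd C σ hσ0 hσ1 (κ / 2) (half_pos hκ) (max K K₁)
  refine ⟨k, (le_max_left _ _).trans hk, fun P b n a hn hP hb b1 b2 b3 b4 => ?_⟩
  have hmono : ∀ j, ∀ i ≤ j, j ≤ n → a i ≤ a j := by
    intro j
    induction j with
    | zero => intro i hi _; rw [Nat.le_zero.1 hi]
    | succ j ih =>
      intro i hi hj
      rcases Nat.le_succ_iff.1 hi with h | h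
      · exact (ih i h (by omega)).trans (b3 j (by omega))
      · rw [h]
  obtain ⟨k₂, hk₂, e₀, he₀, H⟩ := H P b (a 0) (a n) hP hb b1 b2 (hmono n 0 (Nat.zero_le _)
    le_rfl) b4
  obtain ⟨r, hr⟩ : ∃ r : ℝ, r = (1 / 2) ^ k := ⟨_, rfl⟩
  have hr0 : 0 < r := by rw [hr]; positivity
  have hn' : (0 : ℝ) < n := by exact_mod_cast hn
  have hrlt : r < (1 - g) / (2 * C + 7 * d + 12) := by
    rw [hr]
    exact lt_of_le_of_lt (pow_le_pow_of_le_one (by norm_num) (by norm_num)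
      ((le_max_right _ _).trans hk)) hK₁
  rw [lt_div_iff₀ hc2] at hrlt
  have ha1 : a n ≤ 1 := by
    unfold lstG at b4
    rw [← hr] at b4
    linarith
  rw [← hr] at H ⊢
  have hup : ∀ i < n, ∀ (J : ℕ) (F : Fam m J), ∃ φ : LnT F → LnT F, ∀ ω,
      vg (a i) J F ω = φ (vg (a (i + 1)) J F ω) := fun i hi J F =>
    vg_mono (b3 i hi) ((hmono n (i + 1) hi le_rfl).trans ha1) J F
  refine ⟨min k₂ (κ * r / 2 / n), lt_min hk₂ (by positivity), e₀, he₀, fun K' =>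
    Bas.mono 0 ((H K').and (pos_bas hpos')) ?_⟩
  rintro J - F A ⟨H, hA⟩ V z hz u hu Γ G M hM
  have hcl := isLaw_cond F.isLaw hA
  have hJ0 : (0 : ℝ) ≤ J := Nat.cast_nonneg J
  have hzz : ∀ i < n, CH (Pool.Agent.H49.Ent.cond F.p A True) (z i) (z (i + 1)) ≤
      κ * r / 2 / n * J := by
    intro i hi
    obtain ⟨φ, hφ⟩ := hup i hi J F
    have e1 := (hz i hi.le).1
    have e2 := (hz (i + 1) hi).2 _ (z i) (e1.mono ⟨fun x => x, fun _ _ => rfl⟩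
      ⟨φ, fun ω _ => hφ ω⟩)
    exact e2.trans (mul_le_mul_of_nonneg_right (min_le_right _ _) hJ0)
  have hE := H (V 0) (z 0) (V n) (z n) ((hz 0 (Nat.zero_le _)).le' (min_le_left _ _))
    ((hz n le_rfl).le' (min_le_left _ _)) u hu
  obtain ⟨i, hi, hI⟩ := pig_law hcl.nonneg hn z (y J F) u G hzz hE hM
  refine ⟨i, hi, fun E' e he => (hI E' e he).trans (le_of_eq ?_)⟩
  have e1 : (n : ℝ) * (κ * r / 2 / n * J) = κ * r / 2 * J := by field_simp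
  have e2 : M * J / n = M / n * J := by ring
  rw [e1, e2]
  ring

end Pool.LA91
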