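import Pool.Agent.H92.D2.CritV

/-!
# Critical points, exponents in a staircase

`crit_freqS`: the theorem `crit_freq` for the vectors `N` whose differences from `N₀ w` decrease
with the rank of the index (`Ok`), at the windows at which `N₀` is nearly constant.
-/

set_option autoImplicit false

namespace Pool.RCD

open MeasureTheory Set Filter Topology

section freqS

variable {ι : Type} [Fintype ι] {rk : ι → ℕ} {D : ℕ} {t : ℕ → ℚ → (ι → ℚ) → ℝ}
  {N₀ : ι → ℝ → ℝ} {c A B C M δ σ τ C₁ : ℝ}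

/-- **The digits are near the natural ones, in a staircase**, and the natural ones are nearly
constant near `w`. -/
def Ok (rk : ι → ℕ) (N₀ : ι → ℝ → ℝ) (M σ τ C₁ : ℝ) (k : ℕ) (w : ℝ) (N : ι → ℚ) : Prop :=
  (∀ i, N₀ i w - M * (1 / 2) ^ k ≤ N i ∧ (N i : ℝ) ≤ N₀ i w + M * (1 / 2) ^ k) ∧
  (∀ l i, rk l < rk i → (N i : ℝ) - N₀ i w + σ * (1 / 2) ^ k ≤ N l - N₀ l w) ∧
  ∀ i (v : ℝ), |v - w| ≤ C₁ * (1 / 2) ^ k → |N₀ i v - N₀ i w| ≤ τ * (1 / 2) ^ k

/-- The mixed increments on the box of size `C 2 ^ (-k)` are at most `κ 2 ^ (-k)`, and the vectors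
are admissible on the box. -/
def GoodS (rk : ι → ℕ) (t : ℕ → ℚ → (ι → ℚ) → ℝ) (N₀ : ι → ℝ → ℝ) (C M σ τ C₁ κ : ℝ) (k : ℕ)
    (g : ℝ) : Prop :=
  (∀ (N : ι → ℚ) (w : ℚ), (∀ i, N₀ i g - C * (1 / 2) ^ k ≤ N i) →
    (∀ i, (N i : ℝ) ≤ N₀ i g + C * (1 / 2) ^ k) →
    (∀ l i, rk l < rk i → (N i : ℝ) - N₀ i g + 2 * σ * (1 / 2) ^ k ≤ N l - N₀ l g) →
    g - C * (1 / 2) ^ k ≤ w → (w : ℝ) ≤ g + C * (1 / 2) ^ k → Ok rk N₀ M σ τ C₁ k w N) ∧
  ∀ (N N' : ι → ℚ) (w w' : ℚ), (∀ i, N₀ i g - C * (1 / 2) ^ k ≤ N i) → (∀ i, N i ≤ N' i) →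
    (∀ i, (N' i : ℝ) ≤ N₀ i g + C * (1 / 2) ^ k) →
    (∀ l i, rk l < rk i → (N i : ℝ) - N₀ i g + 2 * σ * (1 / 2) ^ k ≤ N l - N₀ l g) →
    (∀ l i, rk l < rk i → (N' i : ℝ) - N₀ i g + 2 * σ * (1 / 2) ^ k ≤ N' l - N₀ l g) →
    g - C * (1 / 2) ^ k ≤ w → w ≤ w' → (w' : ℝ) ≤ g + C * (1 / 2) ^ k →
    (t k w N' - t k w N) - (t k w' N' - t k w' N) ≤ κ * (1 / 2) ^ k

/-- **Critical points, staircase vectors, for infinitely many scales**, one constant. -/
theorem crit_freqS_one (hrk : ∀ i, rk i ≤ D) (hc : 0 ≤ c) (hC : 0 < C) (hδ : 0 < δ) (hσ : 0 < σ)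
    (hτ : 0 < τ) (hτσ : 2 * τ ≤ σ) (hτ1 : τ ≤ 1) (hC₁ : 0 ≤ C₁)
    (hM : C + 3 + 3 * σ * (D + 1) ≤ M)
    (h1 : ∀ (k : ℕ) (w : ℚ) (N N' : ι → ℚ), A ≤ w → (w : ℝ) ≤ B → (∀ i, N i ≤ N' i) →
      Ok rk N₀ M σ τ C₁ k w N → Ok rk N₀ M σ τ C₁ k w N' →
      0 ≤ t k w N' - t k w N ∧ t k w N' - t k w N ≤ c * ∑ i, ((N' i : ℝ) - N i))
    (h2 : ∀ (k : ℕ) (w w' : ℚ) (N N' : ι → ℚ), A ≤ w → w ≤ w' → (w' : ℝ) ≤ B →
      (w' : ℝ) ≤ w + δ * (1 / 2) ^ k → (∀ i, N i ≤ N' i) →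
      Ok rk N₀ M σ τ C₁ k w N → Ok rk N₀ M σ τ C₁ k w N' →
      Ok rk N₀ M σ τ C₁ k w' N → Ok rk N₀ M σ τ C₁ k w' N' →
      t k w' N' - t k w' N ≤ t k w N' - t k w N) {κ : ℝ} (hκ : 0 < κ) :
    ∀ᵐ g : ℝ, g ∈ Ioo A B → (∀ i, HasDerivAt (N₀ i) 0 g) → ∀ K : ℕ, ∃ k ≥ K,
      GoodS rk t N₀ C M σ τ C₁ κ k g := by
  rw [ae_iff]
  obtain ⟨Bd, hBd⟩ : ∃ Bd : Set ℝ, Bd = {g : ℝ | ¬ (g ∈ Ioo A B →
    (∀ i, HasDerivAt (N₀ i) 0 g) → ∀ K : ℕ, ∃ k ≥ K, GoodS rk t N₀ C M σ τ C₁ κ k g)} :=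
    ⟨_, rfl⟩
  rw [← hBd]
  have hBAB : ∀ g ∈ Bd, g ∈ Ioo A B := by
    intro g hg
    rw [hBd] at hg
    by_contra hcon
    exact hg fun h => absurd h hcon
  rcases lt_or_ge A B with hAB | hAB
  swap
  · have : Bd = ∅ := by
      rw [eq_empty_iff_forall_notMem]
      intro g hg
      exact absurd ((hBAB g hg).1.trans (hBAB g hg).2) (not_lt.2 hAB)
    rw [this, measure_empty]
  refine le_antisymm (ENNReal.le_of_forall_pos_le_add fun e he _ => ?_) bot_le
  rw [zero_add]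
  have he' : (0 : ℝ) < e := NNReal.coe_pos.2 he
  have hD0 : (0 : ℝ) ≤ D := Nat.cast_nonneg D
  have hrk' : ∀ i, (rk i : ℝ) ≤ D := fun i => by exact_mod_cast hrk i
  have hrk0 : ∀ i, (0 : ℝ) ≤ rk i := fun i => Nat.cast_nonneg _
  have hM0 : 0 < M := by nlinarith [mul_nonneg hσ.le hD0]
  -- the constants
  obtain ⟨n₁, hn₁⟩ : ∃ n₁ : ℝ, n₁ = (Fintype.card ι : ℝ) := ⟨_, rfl⟩
  have hn0 : 0 ≤ n₁ := by rw [hn₁]; positivity
  obtain ⟨K₀, hK₀⟩ : ∃ K₀ : ℝ, K₀ = 2 * C + 4 * C * M * c * n₁ / κ := ⟨_, rfl⟩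
  have hK0 : 0 < K₀ := by
    rw [hK₀]
    positivity
  have hD : 0 < B - A + 1 := by linarith
  obtain ⟨η, hη⟩ : ∃ η : ℝ, η = min (e / ((B - A + 1) * K₀)) (1 / (C₁ + 1)) := ⟨_, rfl⟩
  have hη0 : 0 < η := by rw [hη]; exact lt_min (by positivity) (by positivity)
  have hηe : (B - A + 1) * (K₀ * η) ≤ e := by
    have h3 : η ≤ e / ((B - A + 1) * K₀) := by rw [hη]; exact min_le_left _ _
    rw [le_div_iff₀ (by positivity)] at h3
    linarith
  have hηC : (C₁ + 1) * η ≤ 1 := by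
    have h3 : η ≤ 1 / (C₁ + 1) := by rw [hη]; exact min_le_right _ _
    rw [le_div_iff₀ (by positivity)] at h3
    linarith
  -- the sets
  obtain ⟨Z, hZ⟩ : ∃ Z : ℕ → Set ℝ, Z = fun (n : ℕ) => {g : ℝ | g ∈ Bd ∧
    (∀ i, ∀ w' : ℝ, |w' - g| ≤ 1 / ((n : ℝ) + 1) → |N₀ i w' - N₀ i g| ≤
      τ / 4 * η * |w' - g|) ∧
    (A + 1 / ((n : ℝ) + 1) ≤ g ∧ g ≤ B - 1 / ((n : ℝ) + 1)) ∧
    ∀ k ≥ n, ¬ GoodS rk t N₀ C M σ τ C₁ κ k g} := ⟨_, rfl⟩
  have hcov : Bd ⊆ ⋃ n : ℕ, Z n := by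
    intro g hg
    have hgAB := hBAB g hg
    have hg' := hg
    rw [hBd] at hg'
    simp only [mem_ofPred_eq, not_forall] at hg'
    obtain ⟨-, hd, K, hK⟩ := hg'
    have hex : ∀ i, ∃ n : ℕ, ∀ w' : ℝ, |w' - g| ≤ 1 / ((n : ℝ) + 1) →
        |N₀ i w' - N₀ i g| ≤ τ / 4 * η * |w' - g| := by
      intro i
      have hdi := hd i
      rw [hasDerivAt_iff_isLittleO] at hdi
      have h3 := hdi.def (show 0 < τ / 4 * η by positivity)
      rw [Metric.eventually_nhds_iff] at h3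
      obtain ⟨δ', hδ', h3⟩ := h3
      obtain ⟨n, hn⟩ := exists_nat_one_div_lt hδ'
      refine ⟨n, fun w' hw' => ?_⟩
      have h4 := h3 (y := w') (by rw [Real.dist_eq]; exact hw'.trans_lt hn)
      simpa using h4
    choose n hn using hex
    obtain ⟨n₂, hn₂⟩ := exists_nat_one_div_lt (show 0 < min (g - A) (B - g) by
      exact lt_min (by linarith [hgAB.1]) (by linarith [hgAB.2]))
    obtain ⟨n', hn'⟩ : ∃ n' : ℕ, n' = max (Finset.univ.sup n) (max n₂ K) := ⟨_, rfl⟩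
    have q1 : ∀ i, n i ≤ n' := fun i => by
      rw [hn']
      exact (Finset.le_sup (f := n) (Finset.mem_univ i)).trans (le_max_left _ _)
    have q2 : n₂ ≤ n' := by rw [hn']; exact (le_max_left _ _).trans (le_max_right _ _)
    have q3 : K ≤ n' := by rw [hn']; exact (le_max_right _ _).trans (le_max_right _ _)
    have q4 : ∀ a : ℕ, a ≤ n' → 1 / ((n' : ℝ) + 1) ≤ 1 / ((a : ℝ) + 1) := fun a ha => by
      have : (a : ℝ) ≤ n' := by exact_mod_cast ha
      exact one_div_le_one_div_of_le (by positivity) (by linarith)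
    refine mem_iUnion.2 ⟨n', ?_⟩
    rw [hZ]
    have q5 := (q4 n₂ q2).trans hn₂.le
    refine ⟨hg, fun i w' hw' => hn i w' (hw'.trans (q4 _ (q1 i))), ⟨?_, ?_⟩, fun k hk hgood => ?_⟩
    · have := q5.trans (min_le_left _ _)
      linarith
    · have := q5.trans (min_le_right _ _)
      linarith
    · exact hK ⟨k, q3.trans hk, hgood⟩
  have hmonZ : Monotone Z := by
    intro n n' hn g hg
    rw [hZ] at hg ⊢
    obtain ⟨g1, g2, g3, g4⟩ := hg
    have : (n : ℝ) ≤ n' := by exact_mod_cast hn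
    have h3 : 1 / ((n' : ℝ) + 1) ≤ 1 / ((n : ℝ) + 1) :=
      one_div_le_one_div_of_le (by positivity) (by linarith)
    exact ⟨g1, fun i w' hw' => g2 i w' (hw'.trans h3), ⟨by linarith [g3.1], by linarith [g3.2]⟩,
      fun k hk => g4 k (hn.trans hk)⟩
  have hZe : ∀ n, volume (Z n) ≤ e := by
    intro n
    obtain ⟨h₀, hh₀⟩ : ∃ h₀ : ℝ, h₀ = 1 / ((n : ℝ) + 1) := ⟨_, rfl⟩
    have hh00 : 0 < h₀ := by rw [hh₀]; positivity
    have hh01 : h₀ ≤ 1 := by
      rw [hh₀, div_le_one (by positivity)]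
      linarith [(Nat.cast_nonneg n : (0 : ℝ) ≤ n)]
    obtain ⟨k₁, hk₁⟩ := exists_pow_lt_of_lt_one (show 0 < min (h₀ / 2 * η) (h₀ / C) by
      exact lt_min (mul_pos (half_pos hh00) hη0) (div_pos hh00 hC))
      (show (1 / 2 : ℝ) < 1 by norm_num)
    obtain ⟨k, hk⟩ : ∃ k, k = max n k₁ := ⟨_, rfl⟩
    obtain ⟨r, hr⟩ : ∃ r : ℝ, r = (1 / 2) ^ k := ⟨_, rfl⟩
    have hr0 : 0 < r := by rw [hr]; positivity
    have hrk'' : r < min (h₀ / 2 * η) (h₀ / C) := by
      rw [hr]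
      refine lt_of_le_of_lt ?_ hk₁
      exact pow_le_pow_of_le_one (by norm_num) (by norm_num) (by rw [hk]; exact le_max_right _ _)
    have hr1 : r < h₀ / 2 * η := hrk''.trans_le (min_le_left _ _)
    have hr2 : r < h₀ / C := hrk''.trans_le (min_le_right _ _)
    have hr2' : C * r < h₀ := by
      rw [lt_div_iff₀ hC] at hr2
      linarith
    obtain ⟨h, hh⟩ : ∃ h : ℝ, h = r / η := ⟨_, rfl⟩
    have hh0 : 0 < h := by rw [hh]; positivity
    have hhη : η * h = r := by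
      rw [hh]
      field_simp
    have hh1 : h < h₀ / 2 := by
      rw [hh, div_lt_iff₀ hη0]
      exact hr1
    have hC1r : C₁ * r ≤ h := by
      rw [hh, le_div_iff₀ hη0]
      have : C₁ * η ≤ 1 := by linarith
      calc C₁ * r * η = C₁ * η * r := by ring
        _ ≤ 1 * r := mul_le_mul_of_nonneg_right this hr0.le
        _ = r := one_mul r
    have hpiece : ∀ x, volume (Z n ∩ Icc x (x + h)) ≤ ENNReal.ofReal (K₀ * η * h) := by
      intro x
      by_cases hne : (Z n ∩ Icc x (x + h)).Nonempty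
      swap
      · rw [not_nonempty_iff_eq_empty.1 hne, measure_empty]
        exact bot_le
      obtain ⟨v, hvZ, hv⟩ := hne
      have hvs : ∀ i, ∀ w : ℝ, |w - v| ≤ 2 * h → |N₀ i w - N₀ i v| ≤ τ / 2 * r := by
        intro i w hvw
        rw [hZ] at hvZ
        have e1 := hvZ.2.1 i w (by rw [← hh₀]; linarith)
        have e2 : τ / 4 * η * |w - v| ≤ τ / 4 * η * (2 * h) :=
          mul_le_mul_of_nonneg_left hvw (by positivity)
        have e3 : τ / 4 * η * (2 * h) = τ / 2 * (η * h) := by ring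
        rw [e3, hhη] at e2
        exact e1.trans e2
      have hvI : ∀ w : ℝ, w ∈ Icc x (x + h) → |w - v| ≤ h := by
        intro w hw
        rw [abs_le]
        constructor <;> linarith [hv.1, hv.2, hw.1, hw.2]
      have hvs' : ∀ i, ∀ w : ℝ, w ∈ Icc x (x + h) → |N₀ i w - N₀ i v| ≤ τ / 2 * r :=
        fun i w hw => hvs i w ((hvI w hw).trans (by linarith))
      have hCr : 0 < C * r := mul_pos hC hr0
      have hσr : 0 < σ * r := mul_pos hσ hr0
      have hea : ∀ i, ∃ a : ℚ, N₀ i v - (C + 1) * r - 2 * (rk i + 1) * (σ * r) - σ * r / 4 < a ∧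
          (a : ℝ) < N₀ i v - (C + 1) * r - 2 * (rk i + 1) * (σ * r) :=
        fun i => exists_rat_btwn (by linarith)
      have heb : ∀ i, ∃ b : ℚ, N₀ i v + (C + 1) * r + 2 * (D + 1 - rk i) * (σ * r) < b ∧
          (b : ℝ) < N₀ i v + (C + 1) * r + 2 * (D + 1 - rk i) * (σ * r) + σ * r / 4 :=
        fun i => exists_rat_btwn (by linarith)
      choose a ha1 ha2 using hea
      choose b hb1 hb2 using heb
      have hMr : (C + 3 + 3 * σ * (D + 1)) * r ≤ M * r := mul_le_mul_of_nonneg_right hM hr0.le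
      have hDσ : ∀ i, 2 * ((rk i : ℝ) + 1) * (σ * r) ≤ 2 * (D + 1) * (σ * r) ∧
          2 * ((D : ℝ) + 1 - rk i) * (σ * r) ≤ 2 * (D + 1) * (σ * r) ∧
          0 ≤ 2 * ((D : ℝ) + 1 - rk i) * (σ * r) ∧ 0 ≤ 2 * ((rk i : ℝ) + 1) * (σ * r) := by
        intro i
        have := hrk' i
        have := hrk0 i
        refine ⟨?_, ?_, ?_, ?_⟩
        · exact mul_le_mul_of_nonneg_right (by linarith) hσr.le
        · exact mul_le_mul_of_nonneg_right (by linarith) hσr.le
        · exact mul_nonneg (by linarith) hσr.le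
        · exact mul_nonneg (by linarith) hσr.le
      have hDr : 0 ≤ (D : ℝ) * (σ * r) := mul_nonneg hD0 hσr.le
      have hMr' : (C + 3) * r + 3 * (D * (σ * r)) + 3 * (σ * r) ≤ M * r := by
        refine le_trans (le_of_eq ?_) hMr
        ring
      have hτr : τ * r ≤ r := by
        have := mul_le_mul_of_nonneg_right hτ1 hr0.le
        linarith
      have hτσr : 2 * (τ * r) ≤ σ * r := by
        have := mul_le_mul_of_nonneg_right hτσ hr0.le
        linarith
      have hab : ∀ i, a i ≤ b i := by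
        intro i
        have h5 := hDσ i
        have : (a i : ℝ) < b i := by
          have h3 := ha2 i
          have h4 := hb1 i
          nlinarith [h5.2.2.1, h5.2.2.2]
        exact_mod_cast this.le
      have hba : ∀ i, (b i : ℝ) - a i ≤ 2 * M * r := by
        intro i
        have h3 := ha1 i
        have h4 := hb2 i
        have h5 := hDσ i
        nlinarith [h5.1, h5.2.1]
      -- admissible vectors
      have hflat : ∀ w : ℝ, w ∈ Icc x (x + h) → ∀ i (u : ℝ), |u - w| ≤ C₁ * (1 / 2) ^ k →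
          |N₀ i u - N₀ i w| ≤ τ * (1 / 2) ^ k := by
        intro w hw i u hu
        rw [← hr] at hu ⊢
        have e1 := hvI w hw
        have e2 : |u - v| ≤ 2 * h := by
          have : u - v = (u - w) + (w - v) := by ring
          rw [this]
          exact (abs_add_le _ _).trans (by linarith)
        have e3 := hvs i u e2
        have e4 := hvs' i w hw
        have e5 : N₀ i u - N₀ i w = (N₀ i u - N₀ i v) - (N₀ i w - N₀ i v) := by ring
        rw [e5]
        exact (abs_sub _ _).trans (by linarith)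
      have hok : ∀ (N : ι → ℚ) (w : ℝ), w ∈ Icc x (x + h) → (∀ i, a i ≤ N i) →
          (∀ i, N i ≤ b i) →
          (∀ l i, rk l < rk i → (N i : ℝ) - N₀ i v + 3 / 2 * (σ * r) ≤ N l - N₀ l v) →
          Ok rk N₀ M σ τ C₁ k w N := by
        intro N w hw hN1 hN2 hst
        have hN1' : ∀ i, (a i : ℝ) ≤ N i := fun i => by exact_mod_cast hN1 i
        have hN2' : ∀ i, (N i : ℝ) ≤ b i := fun i => by exact_mod_cast hN2 i
        refine ⟨fun i => ?_, fun l i hli => ?_, hflat w hw⟩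
        · have h3 := abs_le.1 (hvs' i w hw)
          have h4 := ha1 i
          have h5 := hb2 i
          have h6 := hDσ i
          rw [← hr]
          constructor <;> nlinarith [h3.1, h3.2, hN1' i, hN2' i, h6.1, h6.2.1]
        · have h3 := abs_le.1 (hvs' i w hw)
          have h4 := abs_le.1 (hvs' l w hw)
          have h5 := hst l i hli
          rw [← hr]
          linarith [h3.1, h3.2, h4.1, h4.2]
      have hsta : ∀ l i, rk l < rk i → (a i : ℝ) - N₀ i v + 3 / 2 * (σ * r) ≤ a l - N₀ l v := by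
        intro l i hli
        have h3 := ha1 l
        have h4 := ha2 i
        have h5 : (rk l : ℝ) + 1 ≤ rk i := by exact_mod_cast hli
        have h6 := mul_le_mul_of_nonneg_right h5 hσr.le
        nlinarith
      have hstb : ∀ l i, rk l < rk i → (b i : ℝ) - N₀ i v + 3 / 2 * (σ * r) ≤ b l - N₀ l v := by
        intro l i hli
        have h3 := hb1 l
        have h4 := hb2 i
        have h5 : (rk l : ℝ) + 1 ≤ rk i := by exact_mod_cast hli
        have h6 := mul_le_mul_of_nonneg_right h5 hσr.le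
        nlinarith
      obtain ⟨I, hI⟩ : ∃ I : Set ℝ, I = Icc (max x A) (min (x + h) B) := ⟨_, rfl⟩
      have hIm : ∀ w : ℝ, w ∈ I ↔ w ∈ Icc x (x + h) ∧ w ∈ Icc A B := by
        intro w
        rw [hI]
        simp only [mem_Icc, sup_le_iff, le_inf_iff]
        tauto
      -- all pairs of vectors between `a` and `b`
      have hanti : ∀ P P' : ι → ℚ, (∀ i, a i ≤ P i) → (∀ i, P i ≤ P' i) → (∀ i, P' i ≤ b i) →
          (∀ l i, rk l < rk i → (P i : ℝ) - N₀ i v + 3 / 2 * (σ * r) ≤ P l - N₀ l v) →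
          (∀ l i, rk l < rk i → (P' i : ℝ) - N₀ i v + 3 / 2 * (σ * r) ≤ P' l - N₀ l v) →
          ∀ w w' : ℚ, (w : ℝ) ∈ I → (w' : ℝ) ∈ I → w ≤ w' →
          t k w' P' - t k w' P ≤ t k w P' - t k w P := by
        intro P P' hP hPP hP' hs hs' w w' hw hw' hww
        rw [hI] at hw hw'
        refine anti_steps (f := fun w => t k w P' - t k w P) (x := max x A) (y := min (x + h) B)
          (d := δ * r) (mul_pos hδ hr0) ?_ w w' hw.1 hww hw'.2
        intro u u' hu huu hu' hud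
        have huu' : (u : ℝ) ≤ u' := by exact_mod_cast huu
        have m1 : (u : ℝ) ∈ I := by
          rw [hI]
          exact ⟨hu, huu'.trans hu'⟩
        have m2 : (u' : ℝ) ∈ I := by
          rw [hI]
          exact ⟨hu.trans huu', hu'⟩
        rw [hIm] at m1 m2
        rw [hr] at hud
        exact h2 k u u' P P' m1.2.1 huu m2.2.2 hud hPP
          (hok P u m1.1 hP (fun i => (hPP i).trans (hP' i)) hs)
          (hok P' u m1.1 (fun i => (hP i).trans (hPP i)) hP' hs')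
          (hok P u' m2.1 hP (fun i => (hPP i).trans (hP' i)) hs)
          (hok P' u' m2.1 (fun i => (hP i).trans (hPP i)) hP' hs')
      obtain ⟨Mf, hMf⟩ : ∃ Mf : ℝ, Mf = c * (n₁ * (2 * M * r)) := ⟨_, rfl⟩
      have hMf0 : 0 ≤ Mf := by rw [hMf]; positivity
      have hf0 : ∀ w : ℚ, (w : ℝ) ∈ I → 0 ≤ t k w b - t k w a ∧ t k w b - t k w a ≤ Mf := by
        intro w hw
        rw [hIm] at hw
        have e1 := h1 k w a b hw.2.1 hw.2.2 hab (hok a w hw.1 (fun _ => le_rfl) hab hsta)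
          (hok b w hw.1 hab (fun _ => le_rfl) hstb)
        refine ⟨e1.1, e1.2.trans ?_⟩
        rw [hMf, hn₁]
        refine mul_le_mul_of_nonneg_left ?_ hc
        calc ∑ i, ((b i : ℝ) - a i) ≤ ∑ _i : ι, (2 * M * r) :=
              Finset.sum_le_sum fun i _ => hba i
          _ = Fintype.card ι * (2 * M * r) := by
              rw [Finset.sum_const, nsmul_eq_mul, Finset.card_univ]
      obtain ⟨H, hHm, hHb, hHe⟩ := ext_anti (f := fun w => t k w b - t k w a) (I := I) hMf0 hf0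
        (fun w w' hw hw' hww => hanti a b (fun _ => le_rfl) hab (fun _ => le_rfl) hsta hstb w w'
          hw hw' hww)
      have hsub : Z n ∩ Icc x (x + h) ⊆ (Icc x (x + C * r) ∪ Icc (x + h - C * r) (x + h)) ∪
          {g : ℝ | g ∈ Icc (x + C * r) (x + h - C * r) ∧ κ * r ≤ H (g + C * r) - H (g - C * r)} := by
        rintro g ⟨hgZ, hg⟩
        rcases lt_or_ge g (x + C * r) with k1 | k1
        · exact Or.inl (Or.inl ⟨hg.1, k1.le⟩)
        rcases lt_or_ge (x + h - C * r) g with k2 | k2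
        · exact Or.inl (Or.inr ⟨k2.le, hg.2⟩)
        refine Or.inr ⟨⟨k1, k2⟩, ?_⟩
        have hgs := fun i => abs_le.1 (hvs' i g hg)
        rw [hZ] at hgZ
        obtain ⟨-, -, ⟨g3, g4⟩, g5⟩ := hgZ
        have hbad := g5 k (by rw [hk]; exact le_max_left _ _)
        -- the vectors near `g` lie between `a` and `b`
        have l1 : ∀ N : ι → ℚ, (∀ i, N₀ i g - C * (1 / 2) ^ k ≤ N i) → ∀ i, a i ≤ N i := by
          intro N hN i
          have h3 := hN i
          rw [← hr] at h3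
          have h4 := ha2 i
          have h5 := (hgs i).1
          have h6 := (hDσ i).2.2.2
          have : (a i : ℝ) ≤ N i := by nlinarith
          exact_mod_cast this
        have l2 : ∀ N : ι → ℚ, (∀ i, (N i : ℝ) ≤ N₀ i g + C * (1 / 2) ^ k) → ∀ i, N i ≤ b i := by
          intro N hN i
          have h3 := hN i
          rw [← hr] at h3
          have h4 := hb1 i
          have h5 := (hgs i).2
          have h6 := (hDσ i).2.2.1
          have : (N i : ℝ) ≤ b i := by nlinarith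
          exact_mod_cast this
        have l3 : ∀ N : ι → ℚ,
            (∀ l i, rk l < rk i → (N i : ℝ) - N₀ i g + 2 * σ * (1 / 2) ^ k ≤ N l - N₀ l g) →
            ∀ l i, rk l < rk i → (N i : ℝ) - N₀ i v + 3 / 2 * (σ * r) ≤ N l - N₀ l v := by
          intro N hN l i hli
          have h3 := hN l i hli
          rw [← hr] at h3
          have h4 := hgs i
          have h5 := hgs l
          linarith [h4.1, h4.2, h5.1, h5.2]
        have lw : ∀ w : ℝ, g - C * (1 / 2) ^ k ≤ w → w ≤ g + C * (1 / 2) ^ k → w ∈ I := by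
          intro w c4 c6
          rw [hIm]
          rw [← hr] at c4 c6
          rw [← hh₀] at g3 g4
          exact ⟨⟨by linarith, by linarith⟩, ⟨by linarith, by linarith⟩⟩
        unfold GoodS at hbad
        rw [not_and] at hbad
        have hbad := hbad (fun N w c1 c2 c3 c4 c5 => by
          have m1 := lw w c4 c5
          rw [hIm] at m1
          exact hok N w m1.1 (l1 N c1) (l2 N c2) (l3 N c3))
        push Not at hbad
        obtain ⟨N, N', w, w', c1, c2, c3, c8, c9, c4, c5, c6, c7⟩ := hbad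
        rw [← hr] at c7
        have c5' : (w : ℝ) ≤ w' := by exact_mod_cast c5
        have m1 : (w : ℝ) ∈ I := lw w c4 (c5'.trans c6)
        have m2 : (w' : ℝ) ∈ I := lw w' (c4.trans c5') c6
        have q1 := l1 N c1
        have q2 := l2 N' c3
        have n1 := hanti a N (fun _ => le_rfl) q1 (fun i => (c2 i).trans (q2 i)) hsta (l3 N c8)
          w w' m1 m2 c5
        have n2 := hanti N' b (fun i => (q1 i).trans (c2 i)) q2 (fun _ => le_rfl) (l3 N' c9) hstb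
          w w' m1 m2 c5
        have n3 := hHe w m1
        have n4 := hHe w' m2
        have n5 : H (g - C * r) ≤ H w := hHm (by rw [hr]; exact c4)
        have n6 : H w' ≤ H (g + C * r) := hHm (by rw [hr]; exact c6)
        rw [n3] at n5
        rw [n4] at n6
        linarith
      have hv1 := vol_incr hHm (u := x + C * r) (v := x + h - C * r) hCr (mul_pos hκ hr0) hHb
      calc volume (Z n ∩ Icc x (x + h))
          ≤ volume ((Icc x (x + C * r) ∪ Icc (x + h - C * r) (x + h)) ∪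
          {g : ℝ | g ∈ Icc (x + C * r) (x + h - C * r) ∧
            κ * r ≤ H (g + C * r) - H (g - C * r)}) := measure_mono hsub
        _ ≤ volume (Icc x (x + C * r) ∪ Icc (x + h - C * r) (x + h)) +
          volume {g : ℝ | g ∈ Icc (x + C * r) (x + h - C * r) ∧
            κ * r ≤ H (g + C * r) - H (g - C * r)} := measure_union_le _ _
        _ ≤ (volume (Icc x (x + C * r)) + volume (Icc (x + h - C * r) (x + h))) +
          ENNReal.ofReal (2 * (C * r) * Mf / (κ * r)) := add_le_add (measure_union_le _ _) hv1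
        _ = (ENNReal.ofReal (C * r) + ENNReal.ofReal (C * r)) +
          ENNReal.ofReal (2 * (C * r) * Mf / (κ * r)) := by
            rw [Real.volume_Icc, Real.volume_Icc]
            congr 3 <;> ring_nf
        _ = ENNReal.ofReal (C * r + C * r + 2 * (C * r) * Mf / (κ * r)) := by
            rw [← ENNReal.ofReal_add hCr.le hCr.le, ← ENNReal.ofReal_add (by positivity)
              (by positivity)]
        _ = ENNReal.ofReal (K₀ * η * h) := by
            congr 1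
            rw [mul_assoc K₀, hhη, hK₀, hMf]
            field_simp
            ring
    have hvol := vol_pieces (Bd := Z n) (A := A) (B := B) (h := h) (M := K₀ * η)
      (fun g hg => hBAB g (by rw [hZ] at hg; exact hg.1)) hAB hh0 (by positivity) hpiece
    refine hvol.trans ?_
    rw [← ENNReal.ofReal_coe_nnreal]
    refine ENNReal.ofReal_le_ofReal ?_
    refine le_trans ?_ hηe
    exact mul_le_mul_of_nonneg_right (by linarith) (by positivity)
  calc volume Bd ≤ volume (⋃ n, Z n) := measure_mono hcov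
    _ = ⨆ n, volume (Z n) := hmonZ.measure_iUnion
    _ ≤ e := iSup_le hZe

/-- **Critical points, staircase vectors, for infinitely many scales.** -/
theorem crit_freqS (hrk : ∀ i, rk i ≤ D) (hc : 0 ≤ c) (hC : 0 < C) (hδ : 0 < δ) (hσ : 0 < σ)
    (hτ : 0 < τ) (hτσ : 2 * τ ≤ σ) (hτ1 : τ ≤ 1) (hC₁ : 0 ≤ C₁)
    (hM : C + 3 + 3 * σ * (D + 1) ≤ M)
    (h1 : ∀ (k : ℕ) (w : ℚ) (N N' : ι → ℚ), A ≤ w → (w : ℝ) ≤ B → (∀ i, N i ≤ N' i) →
      Ok rk N₀ M σ τ C₁ k w N → Ok rk N₀ M σ τ C₁ k w N' →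
      0 ≤ t k w N' - t k w N ∧ t k w N' - t k w N ≤ c * ∑ i, ((N' i : ℝ) - N i))
    (h2 : ∀ (k : ℕ) (w w' : ℚ) (N N' : ι → ℚ), A ≤ w → w ≤ w' → (w' : ℝ) ≤ B →
      (w' : ℝ) ≤ w + δ * (1 / 2) ^ k → (∀ i, N i ≤ N' i) →
      Ok rk N₀ M σ τ C₁ k w N → Ok rk N₀ M σ τ C₁ k w N' →
      Ok rk N₀ M σ τ C₁ k w' N → Ok rk N₀ M σ τ C₁ k w' N' →
      t k w' N' - t k w' N ≤ t k w N' - t k w N) :
    ∀ᵐ g : ℝ, g ∈ Ioo A B → (∀ i, HasDerivAt (N₀ i) 0 g) → ∀ κ : ℝ, 0 < κ → ∀ K : ℕ, ∃ k ≥ K,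
      GoodS rk t N₀ C M σ τ C₁ κ k g := by
  have key : ∀ᵐ g : ℝ, ∀ j : ℕ, g ∈ Ioo A B → (∀ i, HasDerivAt (N₀ i) 0 g) → ∀ K : ℕ, ∃ k ≥ K,
      GoodS rk t N₀ C M σ τ C₁ (1 / ((j : ℝ) + 1)) k g :=
    ae_all_iff.2 fun j => crit_freqS_one hrk hc hC hδ hσ hτ hτσ hτ1 hC₁ hM h1 h2 (by positivity)
  filter_upwards [key] with g hg hgAB hd κ hκ K
  obtain ⟨j, hj⟩ := exists_nat_one_div_lt hκ
  obtain ⟨k, hk, hgood⟩ := hg j hgAB hd K
  refine ⟨k, hk, hgood.1, fun N N' w w' a1 a2 a3 a7 a8 a4 a5 a6 => ?_⟩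
  refine (hgood.2 N N' w w' a1 a2 a3 a7 a8 a4 a5 a6).trans ?_
  exact mul_le_mul_of_nonneg_right hj.le (by positivity)

end freqS

end Pool.RCD
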