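import Pool.Agent.H91.FR.SupG
import Pool.Agent.H92.D2.CritA

/-!
# The numbers of the velocities at all small scales

`ok_flat`: the digits are admissible near flat points. `FrT.chgs`: the change of the charts.
`drop_all`: at almost every critical point, for ALL small scales, the numbers of the velocities are
nearly constant in the window of the record.
-/

set_option autoImplicit false

namespace Pool.LA91

open Finset Real MvPolynomial
open Pool.Agent.H49.Ent Pool.Agent.H32.Dense Pool.STK Pool.KA Pool.KSAT Pool.K2S Pool.PB Pool.GEN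
open Pool.S6C Pool.RCD

variable {m : ℕ} {U U' U₂ : Type} {α β γ α' β' γ' : ∀ J : ℕ, Fam m J → Type}
  {f : ∀ (J : ℕ) (F : Fam m J), F.Ω → α J F} {g : ∀ (J : ℕ) (F : Fam m J), F.Ω → β J F}
  {f' : ∀ (J : ℕ) (F : Fam m J), F.Ω → α' J F} {g' : ∀ (J : ℕ) (F : Fam m J), F.Ω → β' J F}
  {y : ∀ (J : ℕ) (F : Fam m J), F.Ω → γ J F} {y' : ∀ (J : ℕ) (F : Fam m J), F.Ω → γ' J F}
  {S : PCl m}

/-- **The digits are admissible near a flat point.** -/
theorem ok_flat {ι : Type} {rk : ι → ℕ} {N₀ : ι → ℝ → ℝ} {M σ τ C₁ η C x g : ℝ} {k : ℕ}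
    (hη0 : 0 ≤ η) (hC : 0 ≤ C) (hC₁ : 0 ≤ C₁) (hη : η * (C₁ + 2 * C) ≤ τ) (hτσ : 2 * τ ≤ σ)
    (hM : C + τ ≤ M) (hfl : FlatAt N₀ η x g) (hx : (C₁ + C) * (1 / 2) ^ k ≤ x) {w : ℝ}
    {N : ι → ℚ} (hw : |w - g| ≤ C * (1 / 2) ^ k)
    (hN : ∀ i, N₀ i g - C * (1 / 2) ^ k ≤ N i ∧ (N i : ℝ) ≤ N₀ i g + C * (1 / 2) ^ k)
    (hst : ∀ l i, rk l < rk i → (N i : ℝ) - N₀ i g + 2 * σ * (1 / 2) ^ k ≤ N l - N₀ l g) :
    Ok rk N₀ M σ τ C₁ k w N := by
  obtain ⟨r, hr⟩ : ∃ r : ℝ, r = (1 / 2) ^ k := ⟨_, rfl⟩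
  have hr0 : 0 < r := by rw [hr]; positivity
  unfold Ok
  rw [← hr] at hx hw hN hst ⊢
  have hCr : 0 ≤ C * r := mul_nonneg hC hr0.le
  have hC₁r : 0 ≤ C₁ * r := mul_nonneg hC₁ hr0.le
  have e1 : η * (C₁ * r) + 2 * (η * (C * r)) ≤ τ * r := by
    have := mul_le_mul_of_nonneg_right hη hr0.le
    linarith
  have e2 : 0 ≤ η * (C₁ * r) := mul_nonneg hη0 hC₁r
  have e3 : 0 ≤ η * (C * r) := mul_nonneg hη0 hCr
  have e4 : 2 * (τ * r) ≤ σ * r := by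
    have := mul_le_mul_of_nonneg_right hτσ hr0.le
    linarith
  have e5 : C * r + τ * r ≤ M * r := by
    have := mul_le_mul_of_nonneg_right hM hr0.le
    linarith
  have hw' : ∀ i, |N₀ i w - N₀ i g| ≤ η * (C * r) := fun i =>
    (hfl i w (by linarith)).trans (mul_le_mul_of_nonneg_left hw hη0)
  refine ⟨fun i => ?_, fun l i hli => ?_, fun i v hv => ?_⟩
  · have h1 := abs_le.1 (hw' i)
    obtain ⟨h2, h3⟩ := hN i
    constructor <;> linarith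
  · have h1 := abs_le.1 (hw' i)
    have h2 := abs_le.1 (hw' l)
    have h3 := hst l i hli
    linarith
  · have h1 := abs_le.1 (hw' i)
    have h0 : |v - g| ≤ C₁ * r + C * r := (abs_sub_le v w g).trans (by linarith)
    have h2 := abs_le.1 ((hfl i v (by linarith)).trans (mul_le_mul_of_nonneg_left h0 hη0))
    rw [abs_le]
    constructor <;> linarith

/-- **The change of the charts** in the scale. -/
theorem FrT.chgs {ι : Type} [Fintype ι] {γ₁ : ℕ → ∀ J : ℕ, Fam m J → Type}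
    {yk : ∀ (k J : ℕ) (F : Fam m J), F.Ω → γ₁ k J F} {Q : ℕ → ℚ → (ι → ℚ) → Qt m U} {q : ℕ → ℚ}
    {rk : ι → ℕ} {N₀ : ι → ℝ → ℝ} {sh A B M σ τ C₁ δ c : ℝ} {k₁ : ℕ}
    (hpos : ∀ (τ : ℝ) (J : ℕ) (F : Fam m J) (A : F.Ω → Prop), S.St τ J F A → 0 < Pe F.p A)
    (h : FrT S f yk Q q rk N₀ sh A B M σ τ C₁ δ c k₁) (hδ : 0 < δ) {k : ℕ} (hk : k₁ ≤ k)
    {x z : ℝ} (hx : A ≤ x) (hz : z ≤ B) {N : ι → ℚ}
    (hok : ∀ v : ℚ, x ≤ v → (v : ℝ) ≤ z → Ok rk N₀ M σ τ C₁ k v N) :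
    ∀ w w' : ℚ, x ≤ w → w ≤ w' → (w' : ℝ) ≤ z →
      Few S f (vg (((w' + q k : ℚ) : ℝ) + sh)) (yk k) (Q k w N) (Q k w' N) ∧
      Few S f (vg (((w' + q k : ℚ) : ℝ) + sh)) (yk k) (Q k w' N) (Q k w N) := by
  refine rel_steps (R := fun w w' => Few S f (vg (((w' + q k : ℚ) : ℝ) + sh)) (yk k) (Q k w N)
      (Q k w' N) ∧ Few S f (vg (((w' + q k : ℚ) : ℝ) + sh)) (yk k) (Q k w' N) (Q k w N))
    (x := x) (z := z) (d := δ * (1 / 2) ^ k) (by positivity) ?_ ?_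
  · intro u u' b1 b2 b3 b4
    have b2' : (u : ℝ) ≤ u' := by exact_mod_cast b2
    have a1 : A ≤ (u : ℝ) := hx.trans b1
    have a2 : (u' : ℝ) ≤ B := b3.trans hz
    exact h.chg k hk u u' N (by exact_mod_cast a1) b2 a2 b4
      (hok u b1 (b2'.trans b3)) (hok u' (b1.trans b2') b3)
  · intro u v u' b1 b2 b3 b4 h1 h2
    have b2' : (u : ℝ) ≤ v := by exact_mod_cast b2
    have b3' : (v : ℝ) ≤ u' := by exact_mod_cast b3
    obtain ⟨q0, q1⟩ := h.win k hk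
    have q0' : (0 : ℝ) ≤ q k := by exact_mod_cast q0
    have hup : ∀ (J : ℕ) (F : Fam m J), ∃ φ : LnT F → LnT F, ∀ ω,
        vg (((v + q k : ℚ) : ℝ) + sh) J F ω = φ (vg (((u' + q k : ℚ) : ℝ) + sh) J F ω) :=
      fun J F => vg_mono (by push_cast; linarith) (by push_cast; linarith) J F
    have a1 : A ≤ (v : ℝ) := hx.trans (b1.trans b2')
    have xv : Exs S (Q k v N) := h.exs k hk v N (by exact_mod_cast a1)
      (b3'.trans (b4.trans hz)) (hok v (b1.trans b2') (b3'.trans b4))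
    have f1 := Few.up (f' := f) (y' := yk k) hpos (fun J F => ⟨fun x => x, fun _ => rfl⟩) hup
      (fun J F => ⟨fun x => x, fun _ => rfl⟩) h1.1
    have f2 := Few.up (f' := f) (y' := yk k) hpos (fun J F => ⟨fun x => x, fun _ => rfl⟩) hup
      (fun J F => ⟨fun x => x, fun _ => rfl⟩) h1.2
    exact ⟨Few.trans hpos xv f1 h2.1, Few.trans hpos xv h2.2 f2⟩

end Pool.LA91
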