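import Pool.Agent.H91.FR.QE

/-!
# The velocities over a chain of charts are free of the later records

`NN.tr`: quantities which are few bits given each other have the same number. `FrT.nums`: the
numbers for countably many instances of `FrT`. `free_E`: at almost every critical point the
velocities over closed charts, to the natural digits and a staircase, have little information on
the record at a later window, for infinitely many scales.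
-/

set_option autoImplicit false

namespace Pool.LA91

open Finset Real
open Pool.Agent.H49.Ent Pool.Agent.H32.Dense Pool.STK Pool.KA Pool.KSAT Pool.K2S Pool.PB Pool.GEN
open Pool.S6C Pool.RCD

variable {m : ℕ} {U U' : Type} {α β γ : ∀ J : ℕ, Fam m J → Type}
  {f : ∀ (J : ℕ) (F : Fam m J), F.Ω → α J F} {g : ∀ (J : ℕ) (F : Fam m J), F.Ω → β J F}
  {y : ∀ (J : ℕ) (F : Fam m J), F.Ω → γ J F} {S : PCl m}

/-- **The same number.** -/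
theorem NN.tr
    (hpos : ∀ (τ : ℝ) (J : ℕ) (F : Fam m J) (A : F.Ω → Prop), S.St τ J F A → 0 < Pe F.p A)
    {Q : Qt m U} {Q' : Qt m U'} {θ : ℝ} (N : NN S f g y Q θ) (x : Exs S Q)
    (a : Few S f g y Q Q') (b : Few S f g y Q' Q) : NN S f g y Q' θ := by
  intro h hh
  obtain ⟨k1, hk1, e1, he1, H1⟩ := N (h / 2) (half_pos hh)
  obtain ⟨e2, he2, H2⟩ := a.mx hpos (h / 2) (half_pos hh)
  obtain ⟨e3, he3, H3⟩ := b.mx hpos (h / 2) (half_pos hh)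
  obtain ⟨e₀, he₀, l1, l2, l3⟩ : ∃ e₀ : ℝ, 0 < e₀ ∧ e₀ ≤ e1 ∧ e₀ ≤ e2 ∧ e₀ ≤ e3 :=
    ⟨min e1 (min e2 e3), by positivity, min_le_left _ _,
      (min_le_right _ _).trans (min_le_left _ _), (min_le_right _ _).trans (min_le_right _ _)⟩
  obtain ⟨K₀, M₀, hx⟩ := x e₀ he₀
  refine ⟨min k1 (h / 2 / 2), lt_min hk1 (by positivity), e₀, he₀, fun K => ?_⟩
  refine Bas.mono 0 ((((H1 (max K K₀)).and (H2 (max K K₀))).and (H3 (max K K₀))).and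
    (hx.and (pos_bas hpos))) ?_
  rintro J - F A ⟨⟨⟨H1, H2⟩, H3⟩, ⟨u, hu, -⟩, hA⟩ V z hz u' hu'
  have hcl := isLaw_cond F.isLaw hA
  have z1 := hz.le' (min_le_left k1 (h / 2 / 2))
  have z2 := hz.le' (min_le_right k1 (h / 2 / 2))
  have a1 := abs_le.1 (H1 V z z1 u (Q.mono (le_max_right _ _) l1 hu))
  have a2 := H2 V z z2 u u' (Q.mono (le_max_right _ _) l2 hu) (Q'.mono (le_max_left _ _) l2 hu')
  have a3 := H3 V z z2 u' u (Q'.mono (le_max_left _ _) l3 hu') (Q.mono (le_max_right _ _) l3 hu)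
  have s1 := CH_le_add hcl.nonneg u' u (fun ω => (z ω, y J F ω))
  have s2 := CH_le_add hcl.nonneg u u' (fun ω => (z ω, y J F ω))
  rw [abs_le]
  constructor <;> linarith [a1.1, a1.2]

/-- **The numbers for countably many instances.** -/
theorem FrT.nums {X ι : Type} [Countable X] [Fintype ι] (hS : S.Ne)
    (hpos : ∀ (τ : ℝ) (J : ℕ) (F : Fam m J) (A : F.Ω → Prop), S.St τ J F A → 0 < Pe F.p A)
    {Q : ℚ → (ι → ℚ) → Qt m U} {q : X → ℕ → ℚ} {rk : ι → ℕ} {N₀ : ι → ℝ → ℝ} {sh A B c : ℝ}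
    {M σ τ C₁ δ : X → ℝ} {k₁ : X → ℕ}
    (h : ∀ x, FrT S f (fun _ => y) (fun _ => Q) (q x) rk N₀ sh A B (M x) (σ x) (τ x) (C₁ x)
      (δ x) c (k₁ x)) :
    ∃ S' : PCl m, S'.Ne ∧
      (∀ (τ : ℝ) (J : ℕ) (F : Fam m J) (A : F.Ω → Prop), S'.St τ J F A → S.St τ J F A) ∧
      ∃ θ : X → ℕ → ℚ → (ι → ℚ) → ℝ, ∀ x, ∀ k ≥ k₁ x, ∀ (w : ℚ) (N : ι → ℚ), A ≤ w →
        (w : ℝ) ≤ B → Ok rk N₀ (M x) (σ x) (τ x) (C₁ x) k w N →
        NN S' f (vg (((w + q x k : ℚ) : ℝ) + sh)) y (Q w N) (θ x k w N) := by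
  classical
  obtain ⟨S', h1, h2, h3⟩ := nn_ext_ct hS hpos (ι := {a : X × ℕ × ℚ × (ι → ℚ) // k₁ a.1 ≤ a.2.1 ∧
      A ≤ a.2.2.1 ∧ (a.2.2.1 : ℝ) ≤ B ∧ Ok rk N₀ (M a.1) (σ a.1) (τ a.1) (C₁ a.1) a.2.1 a.2.2.1
        a.2.2.2}) (fun _ => U)
    (fun _ => α) (fun _ J F => LnT F) (fun _ => γ) (fun _ => f)
    (fun a => vg (((a.1.2.2.1 + q a.1.1 a.1.2.1 : ℚ) : ℝ) + sh)) (fun _ => y)
    (fun a => Q a.1.2.2.1 a.1.2.2.2)
    (fun a => (h a.1.1).exs _ a.2.1 _ _ a.2.2.1 a.2.2.2.1 a.2.2.2.2)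
    (fun a => (h a.1.1).dig _ a.2.1 _ _ _ a.2.2.1 a.2.2.2.1 a.2.2.2.2 a.2.2.2.2
      (fun _ => le_rfl))
  choose θ hθ using h3
  refine ⟨S', h1, h2, fun x k w N => if hx : k₁ x ≤ k ∧ A ≤ w ∧ (w : ℝ) ≤ B ∧
    Ok rk N₀ (M x) (σ x) (τ x) (C₁ x) k w N then θ ⟨(x, k, w, N), hx⟩ else 0,
    fun x k hk w N a b r => ?_⟩
  have hx : k₁ x ≤ k ∧ A ≤ w ∧ (w : ℝ) ≤ B ∧ Ok rk N₀ (M x) (σ x) (τ x) (C₁ x) k w N :=
    ⟨hk, a, b, r⟩
  beta_reduce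
  rw [dif_pos hx]
  exact hθ ⟨(x, k, w, N), hx⟩

/-- The distance from the window of the charts to the window of the record. -/
def lagE (C d k : ℕ) : ℚ := (C + 7 * d + 10) * (1 / 2) ^ k

/-- **The velocities over closed charts are free of the later records**, at almost every critical
point, for infinitely many scales. -/
theorem free_E {C₀ : ℝ} (hS : S.Ne)
    (hpos : ∀ (τ : ℝ) (J : ℕ) (F : Fam m J) (A : F.Ω → Prop), S.St τ J F A → 0 < Pe F.p A)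
    (htm : TmC S C₀) {c : ℕ → Fin m} {d : ℕ} {sh A B B' : ℝ} {sn : ℕ → ℝ → ℝ}
    (hW : ChW S c d sh sn A B')
    (hf : ∀ (J : ℕ) (F : Fam m J), ∃ φ : α J F → PtT F, ∀ ω, ptr F J ω = φ (f J F ω))
    (hy : Kn ((range 0).image c) 1 1 y) (hBB : B < B') (hB' : B' + sh ≤ 1) {η : ℚ → ℝ}
    (hη : ∀ w : ℚ, A ≤ w → (w : ℝ) + sh ≤ 1 → RNum S f (vg ((w : ℝ) + sh)) (η w)) :
    ∃ S' : PCl m, S'.Ne ∧
      (∀ (τ : ℝ) (J : ℕ) (F : Fam m J) (A : F.Ω → Prop), S'.St τ J F A → S.St τ J F A) ∧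
      ∀ᵐ g : ℝ, g ∈ Set.Ioo A B → (∀ i < d, HasDerivAt (fun x => sn i x - x) 0 g) →
      ∀ (C : ℕ) (σ : ℚ), 0 < σ → σ ≤ 1 → ∀ κ : ℝ, 0 < κ → ∀ K : ℕ, ∃ k ≥ K,
      ∀ (P : Fin d → ℚ) (b w w' : ℚ), (∀ i, nE d sh sn i g ≤ P i) →
      (∀ i, (P i : ℝ) ≤ nE d sh sn i g + C * (1 / 2) ^ k) →
      (∀ l i : Fin d, l < i →
        (P i : ℝ) - nE d sh sn i g + 2 * σ * (1 / 2) ^ k ≤ P l - nE d sh sn l g) →
      g - C * (1 / 2) ^ k ≤ b → b ≤ w → w ≤ w' → (w' : ℝ) ≤ g + C * (1 / 2) ^ k →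
      ∃ k₂ : ℝ, 0 < k₂ ∧ ∃ e₀ : ℝ, 0 < e₀ ∧ ∀ K : ℕ, Bas S' (fun J F A =>
        ∀ (V : Type) (z : F.Ω → V) (V' : Type) (z' : F.Ω → V'),
        Mx f (vg (((w + lagE C d k : ℚ) : ℝ) + sh)) k₂ F A z →
        Mx f (vg (((w' + lagE C d k : ℚ) : ℝ) + sh)) k₂ F A z' →
        ∀ u, (qE m c d sh sn b (fun i => (P i : ℝ))).P K e₀ J F A u →
        ∀ (Y Y' : Type) (v : F.Ω → Y) (v' : F.Ω → Y'),
        Det (Pool.Agent.H49.Ent.cond F.p A True) (fun ω => ((z ω, z' ω), y J F ω)) v →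
        Det (Pool.Agent.H49.Ent.cond F.p A True) (fun ω => ((z ω, z' ω), y J F ω)) v' →
        CH (Pool.Agent.H49.Ent.cond F.p A True) v (fun ω => (v' ω, (z ω, y J F ω))) ≤
          CH (Pool.Agent.H49.Ent.cond F.p A True) v (fun ω => (u ω, (v' ω, (z ω, y J F ω)))) +
            κ * (1 / 2) ^ k * J) := by
  classical
  -- the constants
  have hd0 : (0 : ℝ) ≤ d := Nat.cast_nonneg d
  obtain ⟨Cn, hCn⟩ : ∃ Cn : ℕ → ℝ, Cn = fun C : ℕ => (C : ℝ) + 3 * d + 3 := ⟨_, rfl⟩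
  obtain ⟨k₁, hk₁⟩ : ∃ k₁ : ℕ → ℕ, ∀ C : ℕ, ∀ k ≥ k₁ C,
      B + ((C : ℝ) + 7 * d + 10) * (1 / 2) ^ k ≤ B' := by
    have h1 : ∀ C : ℕ, ∃ k₁ : ℕ, ∀ k ≥ k₁, B + ((C : ℝ) + 7 * d + 10) * (1 / 2) ^ k ≤ B' := by
      intro C
      have hc : 0 < (C : ℝ) + 7 * d + 10 := by positivity
      obtain ⟨n, hn⟩ := exists_pow_lt_of_lt_one (show 0 < (B' - B) / ((C : ℝ) + 7 * d + 10) from
        div_pos (by linarith) hc) (show (1 / 2 : ℝ) < 1 by norm_num)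
      refine ⟨n, fun k hk => ?_⟩
      have h2 : ((1 : ℝ) / 2) ^ k ≤ (1 / 2) ^ n :=
        pow_le_pow_of_le_one (by norm_num) (by norm_num) hk
      have h3 := h2.trans_lt hn
      rw [lt_div_iff₀ hc] at h3
      linarith
    choose k₁ hk₁ using h1
    exact ⟨k₁, hk₁⟩
  have hq : ∀ C k : ℕ, (lagE C d k : ℝ) = ((C : ℝ) + 7 * d + 10) * (1 / 2) ^ k := by
    intro C k
    unfold lagE
    push_cast
    rfl
  have hfr : ∀ x : ℕ × {σ : ℚ // 0 < σ ∧ σ ≤ 1}, FrT S f (fun _ => y)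
      (fun _ w N => qE m c d sh sn w (fun i => (N i : ℝ))) (lagE x.1 d)
      (fun i : Fin d => (i : ℕ)) (nE d sh sn) sh A B (Cn x.1 + 3 + 3 * (x.2.1 : ℝ) * (d + 1))
      (x.2.1 : ℝ) ((x.2.1 : ℝ) / 8) ((x.1 : ℝ) + 7 * d + 10) ((x.2.1 : ℝ) / 8) (Real.log 2)
      (k₁ x.1) := by
    rintro ⟨C, σ, hσ0, hσ1⟩
    have s0 : (0 : ℝ) < σ := by exact_mod_cast hσ0
    have s1 : (σ : ℝ) ≤ 1 := by exact_mod_cast hσ1
    have s2 : (σ : ℝ) * (d + 1) ≤ 1 * (d + 1) := mul_le_mul_of_nonneg_right s1 (by positivity)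
    have s3 : (σ : ℝ) * 1 ≤ σ * (d + 1) := mul_le_mul_of_nonneg_left (by linarith) s0.le
    have hCn0 : 0 ≤ Cn C := by rw [hCn]; positivity
    refine frq_E (C0 := (C : ℝ) + 7 * d + 10) htm hpos hW hf hy (by simp only; positivity)
      (by simp only; linarith) (by simp only; linarith) (by simp only; linarith) ?_ le_rfl hBB.le
      hB' (hq C) (hk₁ C)
    simp only
    rw [hCn]
    simp only
    linarith
  obtain ⟨S', h1, h2, θ, hθ⟩ := FrT.nums (X := ℕ × {σ : ℚ // 0 < σ ∧ σ ≤ 1}) hS hpos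
    (Q := fun w N => qE m c d sh sn w (fun i => (N i : ℝ))) hfr
  have hpos' : ∀ (τ : ℝ) (J : ℕ) (F : Fam m J) (A : F.Ω → Prop), S'.St τ J F A → 0 < Pe F.p A :=
    fun τ J F A h => hpos τ J F A (h2 τ J F A h)
  have hη' : ∀ w : ℚ, A ≤ w → (w : ℝ) + sh ≤ 1 → RNum S' f (vg ((w : ℝ) + sh)) (η w) :=
    fun w a b => (hη w a b).sub h2
  have htm' : TmC S' C₀ := fun τ J F A hτ h => htm τ J F A hτ (h2 τ J F A h)
  refine ⟨S', h1, h2, ?_⟩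
  have key : ∀ᵐ g : ℝ, ∀ x : ℕ × {σ : ℚ // 0 < σ ∧ σ ≤ 1}, g ∈ Set.Ioo A B →
      (∀ i, HasDerivAt (nE d sh sn i) 0 g) → ∀ κ : ℝ, 0 < κ → ∀ K : ℕ,
      ∃ k ≥ K, ∀ (P P' : Fin d → ℚ) (w w' : ℚ),
      (∀ i, nE d sh sn i g - Cn x.1 * (1 / 2) ^ k ≤ P i) →
      (∀ i, P i ≤ P' i) → (∀ i, (P' i : ℝ) ≤ nE d sh sn i g + Cn x.1 * (1 / 2) ^ k) →
      (∀ l i : Fin d, (l : ℕ) < (i : ℕ) →
        (P i : ℝ) - nE d sh sn i g + 2 * (x.2.1 : ℝ) * (1 / 2) ^ k ≤ P l - nE d sh sn l g) →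
      (∀ l i : Fin d, (l : ℕ) < (i : ℕ) →
        (P' i : ℝ) - nE d sh sn i g + 2 * (x.2.1 : ℝ) * (1 / 2) ^ k ≤ P' l - nE d sh sn l g) →
      g - Cn x.1 * (1 / 2) ^ k ≤ w → w ≤ w' → (w' : ℝ) ≤ g + Cn x.1 * (1 / 2) ^ k →
      (θ x k w P' - θ x k w P) - (θ x k w' P' - θ x k w' P) ≤ κ * (1 / 2) ^ k ∧
      Ok (fun i : Fin d => (i : ℕ)) (nE d sh sn) (Cn x.1 + 3 + 3 * (x.2.1 : ℝ) * (d + 1))
        (x.2.1 : ℝ) ((x.2.1 : ℝ) / 8) ((x.1 : ℝ) + 7 * d + 10) k w P ∧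
      Ok (fun i : Fin d => (i : ℕ)) (nE d sh sn) (Cn x.1 + 3 + 3 * (x.2.1 : ℝ) * (d + 1))
        (x.2.1 : ℝ) ((x.2.1 : ℝ) / 8) ((x.1 : ℝ) + 7 * d + 10) k w' P ∧
      Ok (fun i : Fin d => (i : ℕ)) (nE d sh sn) (Cn x.1 + 3 + 3 * (x.2.1 : ℝ) * (d + 1))
        (x.2.1 : ℝ) ((x.2.1 : ℝ) / 8) ((x.1 : ℝ) + 7 * d + 10) k w P' ∧
      Ok (fun i : Fin d => (i : ℕ)) (nE d sh sn) (Cn x.1 + 3 + 3 * (x.2.1 : ℝ) * (d + 1))
        (x.2.1 : ℝ) ((x.2.1 : ℝ) / 8) ((x.1 : ℝ) + 7 * d + 10) k w' P' ∧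
      Few S' f (vg (((w' + lagE x.1 d k : ℚ) : ℝ) + sh)) y
        (qE m c d sh sn w (fun i => (P' i : ℝ))) (qE m c d sh sn w' (fun i => (P' i : ℝ))) ∧
      Few S' f (vg (((w' + lagE x.1 d k : ℚ) : ℝ) + sh)) y
        (qE m c d sh sn w' (fun i => (P' i : ℝ))) (qE m c d sh sn w (fun i => (P' i : ℝ))) := by
    rw [MeasureTheory.ae_all_iff]
    rintro ⟨C, σ, hσ0, hσ1⟩
    have s0 : (0 : ℝ) < σ := by exact_mod_cast hσ0
    have s1 : (σ : ℝ) ≤ 1 := by exact_mod_cast hσ1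
    have hCn0 : 0 < Cn C := by rw [hCn]; positivity
    exact free_freqT (D := d) h1 hpos' (fun i => i.2.le) (Real.log_nonneg one_le_two) hCn0
      (by simp only; linarith) s0 (by simp only; linarith) (by simp only; linarith)
      (by simp only; linarith) (by simp only; positivity) le_rfl hη'
      ((hfr (C, ⟨σ, hσ0, hσ1⟩)).sub h2) (hθ (C, ⟨σ, hσ0, hσ1⟩))
  filter_upwards [key] with g hg hgAB hd C σ hσ0 hσ1 κ hκ K
  have s0 : (0 : ℝ) < σ := by exact_mod_cast hσ0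
  have s1 : (σ : ℝ) ≤ 1 := by exact_mod_cast hσ1
  have hd' : ∀ i : Fin d, HasDerivAt (nE d sh sn i) 0 g := by
    intro i
    have e1 := (hd i i.2).sub_const sh
    refine e1.congr_of_eventuallyEq (Filter.Eventually.of_forall fun x => ?_)
    unfold nE
    simp only
    ring
  have hC1 : (0 : ℝ) < C + 1 := by positivity
  have hmn : 0 < min ((g - A) / (C + 1)) ((B - g) / (C + 1)) :=
    lt_min (div_pos (by linarith [hgAB.1]) hC1) (div_pos (by linarith [hgAB.2]) hC1)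
  obtain ⟨K₂, hK₂⟩ := exists_pow_lt_of_lt_one hmn (show (1 / 2 : ℝ) < 1 by norm_num)
  obtain ⟨k, hk, hgood⟩ := hg (C, ⟨σ, hσ0, hσ1⟩) hgAB hd' (κ / 2) (half_pos hκ)
    (max K (max K₂ (k₁ C)))
  have hk0 : K ≤ k := (le_max_left _ _).trans hk
  have hk2 : K₂ ≤ k := ((le_max_left _ _).trans (le_max_right _ _)).trans hk
  have hk1 : k₁ C ≤ k := ((le_max_right _ _).trans (le_max_right _ _)).trans hk
  simp only at hgood
  obtain ⟨r, hr⟩ : ∃ r : ℝ, r = (1 / 2) ^ k := ⟨_, rfl⟩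
  have hr0 : 0 < r := by rw [hr]; positivity
  have hrlt : r < min ((g - A) / (C + 1)) ((B - g) / (C + 1)) := by
    rw [hr]
    exact lt_of_le_of_lt (pow_le_pow_of_le_one (by norm_num) (by norm_num) hk2) hK₂
  have hCA : (C + 1) * r < g - A := by
    have h3 := hrlt.trans_le (min_le_left _ _)
    rw [lt_div_iff₀ hC1] at h3
    linarith
  have hCB : (C + 1) * r < B - g := by
    have h3 := hrlt.trans_le (min_le_right _ _)
    rw [lt_div_iff₀ hC1] at h3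
    linarith
  have hsr : 0 < (σ : ℝ) * r := mul_pos s0 hr0
  have hsr1 : (σ : ℝ) * r ≤ r := by nlinarith
  have hCr : (0 : ℝ) ≤ C * r := by positivity
  have hdr : (0 : ℝ) ≤ d * r := by positivity
  have hCnr : Cn C * r = C * r + 3 * (d * r) + 3 * r := by
    rw [hCn]
    ring
  refine ⟨k, hk0, fun P b w w' a1 a2 a3 a4 a5 a6 a7 => ?_⟩
  rw [← hr] at a2 a3 a4 a7 hgood
  rw [← hr]
  have a5' : (b : ℝ) ≤ w := by exact_mod_cast a5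
  have a6' : (w : ℝ) ≤ w' := by exact_mod_cast a6
  -- the low digits
  have hlow : ∀ i : Fin d, ∃ p : ℚ, nE d sh sn i g - 3 * (σ * r) * ((i : ℕ) + 1) < p ∧
      (p : ℝ) < nE d sh sn i g - 3 * (σ * r) * ((i : ℕ) + 1) + σ * r / 2 :=
    fun i => exists_rat_btwn (by linarith)
  choose L hL1 hL2 using hlow
  have hLP : ∀ i, L i ≤ P i := by
    intro i
    have e1 : (L i : ℝ) ≤ P i := by
      have e2 : 0 ≤ 3 * (σ * r) * ((i : ℕ) : ℝ) := by positivity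
      linarith [hL2 i, a1 i]
    exact_mod_cast e1
  have hLb : ∀ i, nE d sh sn i g - Cn C * r ≤ L i := by
    intro i
    have e1 : ((i : ℕ) : ℝ) + 1 ≤ d := by exact_mod_cast i.2
    have e2 : 3 * ((σ : ℝ) * r) * (((i : ℕ) : ℝ) + 1) ≤ 3 * r * d := by
      have := mul_le_mul hsr1 e1 (by positivity) hr0.le
      linarith
    linarith [hL1 i]
  have hPb : ∀ i, (P i : ℝ) ≤ nE d sh sn i g + Cn C * r := fun i => by linarith [a2 i]
  have hLs : ∀ l i : Fin d, (l : ℕ) < (i : ℕ) →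
      (L i : ℝ) - nE d sh sn i g + 2 * (σ : ℝ) * r ≤ L l - nE d sh sn l g := by
    intro l i hli
    have e1 : ((l : ℕ) : ℝ) + 1 ≤ ((i : ℕ) : ℝ) := by exact_mod_cast hli
    have e2 := mul_le_mul_of_nonneg_left e1 (by positivity : 0 ≤ 3 * ((σ : ℝ) * r))
    linarith [hL1 l, hL2 i]
  have hPs : ∀ l i : Fin d, (l : ℕ) < (i : ℕ) →
      (P i : ℝ) - nE d sh sn i g + 2 * (σ : ℝ) * r ≤ P l - nE d sh sn l g :=
    fun l i hli => a3 l i hli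
  obtain ⟨g1, g2, g3, g4, g5, g6, g7⟩ := hgood L P w w' hLb hLP hPb hLs hPs (by linarith) a6
    (by linarith)
  obtain ⟨-, -, -, g4b, -, g6b, g7b⟩ := hgood L P b w hLb hLP hPb hLs hPs (by linarith) a5
    (by linarith)
  have wA : A ≤ w := by linarith
  have wB : (w : ℝ) ≤ B := by linarith
  have w'A : A ≤ w' := by linarith
  have w'B : (w' : ℝ) ≤ B := by linarith
  have bA : A ≤ b := by linarith
  have bB : (b : ℝ) ≤ B := by linarith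
  have hlag := hk₁ C k hk1
  rw [← hr] at hlag
  have hqr : (lagE C d k : ℝ) = ((C : ℝ) + 7 * d + 10) * r := by rw [hq, hr]
  have hq0 : 0 ≤ (lagE C d k : ℝ) := by rw [hqr]; positivity
  -- the numbers of the low digits
  have hz : ∀ v : ℚ, A ≤ v → (v : ℝ) ≤ B → |g - v| ≤ ((C : ℝ) + 7 * d + 10) * r →
      Ok (fun i : Fin d => (i : ℕ)) (nE d sh sn) (Cn C + 3 + 3 * (σ : ℝ) * (d + 1))
        (σ : ℝ) ((σ : ℝ) / 8) ((C : ℝ) + 7 * d + 10) k v L →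
      θ (C, ⟨σ, hσ0, hσ1⟩) k v L = 0 := by
    intro v c1 c2 c3 c4
    obtain ⟨u₁, rd, hrd, hch⟩ := hW.ch v c1 (c2.trans hBB.le)
    have c5 := c4.2.2
    rw [← hr] at c5
    refine NN.zero h1 hpos' (hη' (v + lagE C d k) (by push_cast; linarith) (by
      push_cast; rw [hqr]; linarith)) (hθ (C, ⟨σ, hσ0, hσ1⟩) k hk1 v L c1 c2 c4)
      ((hfr (C, ⟨σ, hσ0, hσ1⟩)).exs k hk1 v L c1 c2 c4 |>.sub h2) ?_
    refine few_tQt hpos' (few_pi hpos' fun i => Few0.few hpos' (few0_jet htm' hch.w0 hch.u0 ?_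
      _ _ _))
    have c6 := abs_le.1 (c5 i g c3)
    have c7 := hL2 i
    have c8 : 0 ≤ 3 * ((σ : ℝ) * r) * ((i : ℕ) : ℝ) := by positivity
    unfold nE at c6 c7
    push_cast
    linarith [c6.1, c6.2]
  have z1 := hz w wA wB (by
    rw [abs_le]
    constructor <;> linarith) g2
  have z2 := hz w' w'A w'B (by
    rw [abs_le]
    constructor <;> linarith) g3
  rw [z1, z2, sub_zero, sub_zero] at g1
  -- the numbers of the high digits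
  have n1 := hθ (C, ⟨σ, hσ0, hσ1⟩) k hk1 w P wA wB g4
  have n2 := hθ (C, ⟨σ, hσ0, hσ1⟩) k hk1 w' P w'A w'B g5
  have xw := (hfr (C, ⟨σ, hσ0, hσ1⟩)).exs k hk1 w P wA wB g4 |>.sub h2
  have xw' := (hfr (C, ⟨σ, hσ0, hσ1⟩)).exs k hk1 w' P w'A w'B g5 |>.sub h2
  have n3 := NN.tr hpos' n1 xw g7b g6b
  have hup : ∀ (J : ℕ) (F : Fam m J), ∃ φ : LnT F → LnT F, ∀ ω,
      vg (((w + lagE C d k : ℚ) : ℝ) + sh) J F ω =
        φ (vg (((w' + lagE C d k : ℚ) : ℝ) + sh) J F ω) :=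
    fun J F => vg_mono (by push_cast; linarith) (by push_cast; rw [hqr]; linarith) J F
  have f1 := Few.up (f' := f) (y' := y) hpos' (fun J F => ⟨fun x => x, fun _ => rfl⟩) hup
    (fun J F => ⟨fun x => x, fun _ => rfl⟩) g6b
  have f2 := Few.trans hpos' xw f1 g6
  obtain ⟨k₂, hk₂, e₀, he₀, H⟩ := NN.free hpos' (fun J F => ⟨fun x => x, fun _ => rfl⟩) hup
    (fun J F => ⟨fun x => x, fun _ => rfl⟩) n3 n2 xw' f2 (κ / 2 * r) (by positivity)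
  refine ⟨k₂, hk₂, e₀, he₀, fun K => Bas.mono 0 (H K) ?_⟩
  rintro J - F A H V z V' z' hz hz' u hu Y Y' v v' hv hv'
  refine (H V z V' z' hz hz' u hu Y Y' v v' hv hv').trans ?_
  have hJ0 : (0 : ℝ) ≤ J := Nat.cast_nonneg J
  have e1 := mul_le_mul_of_nonneg_right (show θ (C, ⟨σ, hσ0, hσ1⟩) k w P -
    θ (C, ⟨σ, hσ0, hσ1⟩) k w' P + κ / 2 * r ≤ κ * r by linarith) hJ0
  linarith

end Pool.LA91
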