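import Pool.Agent.H91.FR.CritS
import Pool.Agent.H92.D2.FreeN

/-!
# First digits behind the natural ones are free: digits in a staircase

`FrS`: the conditions `FrQ` for the digits in a staircase (`Ok`). `free_freqS`: the mixed increments
of the numbers on the boxes are `o (2 ^ (-k))` for infinitely many `k`.
-/

set_option autoImplicit false

namespace Pool.LA91

open Finset Real
open Pool.Agent.H49.Ent Pool.Agent.H32.Dense Pool.STK Pool.KA Pool.KSAT Pool.K2S Pool.PB Pool.S6C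
  Pool.GEN Pool.RCD

variable {m : ℕ} {U : Type} {α : ∀ J : ℕ, Fam m J → Type}
  {f : ∀ (J : ℕ) (F : Fam m J), F.Ω → α J F} {S : PCl m} {ι : Type}

/-- **Quantities `Q k w N`** over the charts of the window `w`, at the scale `2 ^ (-k)`, to `N`
digits, `N` in a staircase; the record is taken at the window `w + q k`. -/
structure FrS [Fintype ι] (S : PCl m) (f : ∀ (J : ℕ) (F : Fam m J), F.Ω → α J F)
    {γ : ℕ → ∀ J : ℕ, Fam m J → Type} (y : ∀ (k J : ℕ) (F : Fam m J), F.Ω → γ k J F)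
    (Q : ℕ → ℚ → (ι → ℚ) → Qt m U) (q : ℕ → ℚ) (rk : ι → ℕ) (N₀ : ι → ℝ → ℝ)
    (A B M σ τ C₁ δ c : ℝ) (k₁ : ℕ) : Prop where
  win : ∀ k ≥ k₁, 0 ≤ q k ∧ B + q k ≤ 1
  exs : ∀ k ≥ k₁, ∀ (w : ℚ) (N : ι → ℚ), A ≤ w → (w : ℝ) ≤ B → Ok rk N₀ M σ τ C₁ k w N →
    Exs S (Q k w N)
  dig : ∀ k ≥ k₁, ∀ (w : ℚ) (N N' : ι → ℚ), A ≤ w → (w : ℝ) ≤ B → Ok rk N₀ M σ τ C₁ k w N →
    Ok rk N₀ M σ τ C₁ k w N' → (∀ i, N i ≤ N' i) →
    Few S f (vg ((w + q k : ℚ) : ℝ)) (y k) (Q k w N') (Q k w N)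
  inc : ∀ k ≥ k₁, ∀ (w : ℚ) (N N' : ι → ℚ), A ≤ w → (w : ℝ) ≤ B → Ok rk N₀ M σ τ C₁ k w N →
    Ok rk N₀ M σ τ C₁ k w N' → (∀ i, N i ≤ N' i) →
    FewC S f (vg ((w + q k : ℚ) : ℝ)) (y k) (Q k w N) (Q k w N') (c * ∑ i, ((N' i : ℝ) - N i))
  chg : ∀ k ≥ k₁, ∀ (w w' : ℚ) (N : ι → ℚ), A ≤ w → w ≤ w' → (w' : ℝ) ≤ B →
    (w' : ℝ) ≤ w + δ * (1 / 2) ^ k → Ok rk N₀ M σ τ C₁ k w N → Ok rk N₀ M σ τ C₁ k w' N →
    Few S f (vg ((w' + q k : ℚ) : ℝ)) (y k) (Q k w N) (Q k w' N) ∧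
    Few S f (vg ((w' + q k : ℚ) : ℝ)) (y k) (Q k w' N) (Q k w N)

variable [Fintype ι] {γ₁ : ℕ → ∀ J : ℕ, Fam m J → Type}
  {yk : ∀ (k J : ℕ) (F : Fam m J), F.Ω → γ₁ k J F} {Q : ℕ → ℚ → (ι → ℚ) → Qt m U} {q : ℕ → ℚ}
  {rk : ι → ℕ} {D : ℕ} {N₀ : ι → ℝ → ℝ} {A B M σ τ C₁ δ c : ℝ} {k₁ : ℕ}

theorem FrS.sub {S' : PCl m} (hs : ∀ (τ : ℝ) (J : ℕ) (F : Fam m J) (A : F.Ω → Prop),
    S'.St τ J F A → S.St τ J F A) (h : FrS S f yk Q q rk N₀ A B M σ τ C₁ δ c k₁) :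
    FrS S' f yk Q q rk N₀ A B M σ τ C₁ δ c k₁ where
  win := h.win
  exs k hk w N a b r := (h.exs k hk w N a b r).sub hs
  dig k hk w N N' a b r r' l := (h.dig k hk w N N' a b r r' l).sub hs
  inc k hk w N N' a b r r' l := (h.inc k hk w N N' a b r r' l).sub hs
  chg k hk w w' N a b d e r r' :=
    ⟨(h.chg k hk w w' N a b d e r r').1.sub hs, (h.chg k hk w w' N a b d e r r').2.sub hs⟩

/-- **The numbers exist in a subclass.** -/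
theorem FrS.num (hS : S.Ne)
    (hpos : ∀ (τ : ℝ) (J : ℕ) (F : Fam m J) (A : F.Ω → Prop), S.St τ J F A → 0 < Pe F.p A)
    (h : FrS S f yk Q q rk N₀ A B M σ τ C₁ δ c k₁) :
    ∃ S' : PCl m, S'.Ne ∧
      (∀ (τ : ℝ) (J : ℕ) (F : Fam m J) (A : F.Ω → Prop), S'.St τ J F A → S.St τ J F A) ∧
      ∃ θ : ℕ → ℚ → (ι → ℚ) → ℝ, ∀ k ≥ k₁, ∀ (w : ℚ) (N : ι → ℚ), A ≤ w → (w : ℝ) ≤ B →
        Ok rk N₀ M σ τ C₁ k w N →
        NN S' f (vg ((w + q k : ℚ) : ℝ)) (yk k) (Q k w N) (θ k w N) := by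
  classical
  obtain ⟨S', h1, h2, h3⟩ := nn_ext_ct hS hpos (ι := {x : ℕ × ℚ × (ι → ℚ) // k₁ ≤ x.1 ∧
      A ≤ x.2.1 ∧ (x.2.1 : ℝ) ≤ B ∧ Ok rk N₀ M σ τ C₁ x.1 x.2.1 x.2.2}) (fun _ => U)
    (fun _ => α) (fun _ J F => LnT F) (fun x => γ₁ x.1.1) (fun _ => f)
    (fun x => vg ((x.1.2.1 + q x.1.1 : ℚ) : ℝ)) (fun x => yk x.1.1)
    (fun x => Q x.1.1 x.1.2.1 x.1.2.2)
    (fun x => h.exs _ x.2.1 _ _ x.2.2.1 x.2.2.2.1 x.2.2.2.2)
    (fun x => h.dig _ x.2.1 _ _ _ x.2.2.1 x.2.2.2.1 x.2.2.2.2 x.2.2.2.2 (fun _ => le_rfl))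
  choose θ hθ using h3
  refine ⟨S', h1, h2, fun k w N => if hx : k₁ ≤ k ∧ A ≤ w ∧ (w : ℝ) ≤ B ∧
    Ok rk N₀ M σ τ C₁ k w N then θ ⟨(k, w, N), hx⟩ else 0, fun k hk w N a b r => ?_⟩
  have hx : k₁ ≤ k ∧ A ≤ w ∧ (w : ℝ) ≤ B ∧ Ok rk N₀ M σ τ C₁ k w N := ⟨hk, a, b, r⟩
  beta_reduce
  rw [dif_pos hx]
  exact hθ ⟨(k, w, N), hx⟩

/-- **First digits behind the natural ones are free, for infinitely many scales**, digits in a
staircase. -/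
theorem free_freqS (hS : S.Ne)
    (hpos : ∀ (τ : ℝ) (J : ℕ) (F : Fam m J) (A : F.Ω → Prop), S.St τ J F A → 0 < Pe F.p A)
    {C : ℝ} (hrk : ∀ i, rk i ≤ D) (hc : 0 ≤ c) (hC : 0 < C) (hδ : 0 < δ) (hσ : 0 < σ)
    (hτ : 0 < τ) (hτσ : 2 * τ ≤ σ) (hτ1 : τ ≤ 1) (hC₁ : 0 ≤ C₁)
    (hM : C + 3 + 3 * σ * (D + 1) ≤ M) {η : ℚ → ℝ}
    (hη : ∀ w : ℚ, A ≤ w → (w : ℝ) ≤ 1 → RNum S f (vg (w : ℝ)) (η w))
    (h : FrS S f yk Q q rk N₀ A B M σ τ C₁ δ c k₁) {θ : ℕ → ℚ → (ι → ℚ) → ℝ}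
    (N : ∀ k ≥ k₁, ∀ (w : ℚ) (N : ι → ℚ), A ≤ w → (w : ℝ) ≤ B →
        Ok rk N₀ M σ τ C₁ k w N →
        NN S f (vg ((w + q k : ℚ) : ℝ)) (yk k) (Q k w N) (θ k w N)) :
    ∀ᵐ g : ℝ, g ∈ Set.Ioo A B → (∀ i, HasDerivAt (N₀ i) 0 g) → ∀ κ : ℝ, 0 < κ → ∀ K : ℕ,
      ∃ k ≥ K, ∀ (P P' : ι → ℚ) (w w' : ℚ), (∀ i, N₀ i g - C * (1 / 2) ^ k ≤ P i) →
      (∀ i, P i ≤ P' i) → (∀ i, (P' i : ℝ) ≤ N₀ i g + C * (1 / 2) ^ k) →
      (∀ l i, rk l < rk i → (P i : ℝ) - N₀ i g + 2 * σ * (1 / 2) ^ k ≤ P l - N₀ l g) →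
      (∀ l i, rk l < rk i → (P' i : ℝ) - N₀ i g + 2 * σ * (1 / 2) ^ k ≤ P' l - N₀ l g) →
      g - C * (1 / 2) ^ k ≤ w → w ≤ w' → (w' : ℝ) ≤ g + C * (1 / 2) ^ k →
      (θ k w P' - θ k w P) - (θ k w' P' - θ k w' P) ≤ κ * (1 / 2) ^ k ∧
      Ok rk N₀ M σ τ C₁ k w P ∧ Ok rk N₀ M σ τ C₁ k w' P ∧ Ok rk N₀ M σ τ C₁ k w P' ∧
      Ok rk N₀ M σ τ C₁ k w' P' ∧
      Few S f (vg ((w' + q k : ℚ) : ℝ)) (yk k) (Q k w P') (Q k w' P') ∧
      Few S f (vg ((w' + q k : ℚ) : ℝ)) (yk k) (Q k w' P') (Q k w P') := by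
  classical
  obtain ⟨t, ht⟩ : ∃ t : ℕ → ℚ → (ι → ℚ) → ℝ, t = fun k w P => if k₁ ≤ k then θ k w P else 0 :=
    ⟨_, rfl⟩
  have hη' : ∀ k ≥ k₁, ∀ w : ℚ, A ≤ w → (w : ℝ) ≤ B →
      RNum S f (vg ((w + q k : ℚ) : ℝ)) (η (w + q k)) := by
    intro k hk w a b
    obtain ⟨q0, q1⟩ := h.win k hk
    have q0' : (0 : ℝ) ≤ q k := by exact_mod_cast q0
    exact hη (w + q k) (by push_cast; linarith) (by push_cast; linarith)
  have hvg : ∀ k ≥ k₁, ∀ w w' : ℚ, w ≤ w' → (w' : ℝ) ≤ B → ∀ (J : ℕ) (F : Fam m J),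
      ∃ φ : LnT F → LnT F, ∀ ω, vg ((w + q k : ℚ) : ℝ) J F ω =
        φ (vg ((w' + q k : ℚ) : ℝ) J F ω) := by
    intro k hk w w' hww b J F
    obtain ⟨q0, q1⟩ := h.win k hk
    have hww' : (w : ℝ) ≤ w' := by exact_mod_cast hww
    exact vg_mono (by push_cast; linarith) (by push_cast; linarith) J F
  have key := crit_freqS (ι := ι) (rk := rk) (D := D) (t := t) (N₀ := N₀) (c := c) (A := A)
    (B := B) (C := C) (M := M) (δ := δ) (σ := σ) (τ := τ) (C₁ := C₁) hrk hc hC hδ hσ hτ hτσ hτ1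
    hC₁ hM (by
      intro k w P P' a b hPP r1 r2
      rw [ht]
      simp only
      by_cases hk : k₁ ≤ k
      · rw [if_pos hk, if_pos hk]
        have e1 := NN.inc hS hpos (hη' k hk w a b) (N k hk w P' a b r2) (N k hk w P a b r1)
          (h.exs k hk w P' a b r2) (h.exs k hk w P a b r1) (h.dig k hk w P P' a b r1 r2 hPP).fewC
        have e2 := NN.inc hS hpos (hη' k hk w a b) (N k hk w P a b r1) (N k hk w P' a b r2)
          (h.exs k hk w P a b r1) (h.exs k hk w P' a b r2) (h.inc k hk w P P' a b r1 r2 hPP)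
        constructor <;> linarith
      · rw [if_neg hk, if_neg hk, sub_zero]
        refine ⟨le_rfl, mul_nonneg hc (Finset.sum_nonneg fun i _ => ?_)⟩
        have : (P i : ℝ) ≤ P' i := by exact_mod_cast hPP i
        linarith) (by
      intro k w w' P P' a hww b hd hPP r1 r2 r3 r4
      have hww' : (w : ℝ) ≤ w' := by exact_mod_cast hww
      rw [ht]
      simp only
      by_cases hk : k₁ ≤ k
      · rw [if_pos hk, if_pos hk, if_pos hk, if_pos hk]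
        exact NN.mixed hS hpos (fun J F => ⟨fun x => x, fun _ => rfl⟩)
          (hvg k hk w w' hww b) (fun J F => ⟨fun x => x, fun _ => rfl⟩)
          (hη' k hk w a (by linarith)) (hη' k hk w' (by linarith) b)
          (N k hk w P a (by linarith) r1) (N k hk w P' a (by linarith) r2)
          (N k hk w' P (by linarith) b r3) (N k hk w' P' (by linarith) b r4)
          (h.exs k hk w P a (by linarith) r1) (h.exs k hk w P' a (by linarith) r2)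
          (h.exs k hk w' P (by linarith) b r3) (h.exs k hk w' P' (by linarith) b r4)
          (h.dig k hk w P P' a (by linarith) r1 r2 hPP)
          (h.chg k hk w w' P' a hww b hd r2 r4).1 (h.chg k hk w w' P a hww b hd r1 r3).2
      · rw [if_neg hk, if_neg hk, if_neg hk, if_neg hk])
  filter_upwards [key] with g hg hgAB hd κ hκ K
  obtain ⟨K₂, hK₂⟩ := exists_pow_lt_of_lt_one (show 0 < min ((g - A) / C) ((B - g) / C) by
    exact lt_min (div_pos (by linarith [hgAB.1]) hC) (div_pos (by linarith [hgAB.2]) hC))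
    (show (1 / 2 : ℝ) < 1 by norm_num)
  obtain ⟨k, hk, hok, hgood⟩ := hg hgAB hd κ hκ (max K (max K₂ k₁))
  have hk0 : K ≤ k := (le_max_left _ _).trans hk
  have hk2 : K₂ ≤ k := ((le_max_left _ _).trans (le_max_right _ _)).trans hk
  have hk1 : k₁ ≤ k := ((le_max_right _ _).trans (le_max_right _ _)).trans hk
  obtain ⟨r, hr⟩ : ∃ r : ℝ, r = (1 / 2) ^ k := ⟨_, rfl⟩
  have hr0 : 0 < r := by rw [hr]; positivity
  have hrlt : r < min ((g - A) / C) ((B - g) / C) := by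
    rw [hr]
    exact lt_of_le_of_lt (pow_le_pow_of_le_one (by norm_num) (by norm_num) hk2) hK₂
  have hCA : C * r < g - A := by
    have h3 := hrlt.trans_le (min_le_left _ _)
    rw [lt_div_iff₀ hC] at h3
    linarith
  have hCB : C * r < B - g := by
    have h3 := hrlt.trans_le (min_le_right _ _)
    rw [lt_div_iff₀ hC] at h3
    linarith
  refine ⟨k, hk0, fun P P' w w' a1 a2 a3 s1 s2 a4 a5 a6 => ?_⟩
  have g1 := hgood P P' w w' a1 a2 a3 s1 s2 a4 a5 a6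
  rw [ht] at g1
  simp only [if_pos hk1] at g1
  have a5' : (w : ℝ) ≤ w' := by exact_mod_cast a5
  have hPP' : ∀ i, (P i : ℝ) ≤ P' i := fun i => by exact_mod_cast a2 i
  have hP : ∀ v : ℚ, g - C * (1 / 2) ^ k ≤ v → (v : ℝ) ≤ g + C * (1 / 2) ^ k →
      Ok rk N₀ M σ τ C₁ k v P := fun v b1 b2 =>
    hok P v a1 (fun i => (hPP' i).trans (a3 i)) s1 b1 b2
  have hP' : ∀ v : ℚ, g - C * (1 / 2) ^ k ≤ v → (v : ℝ) ≤ g + C * (1 / 2) ^ k →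
      Ok rk N₀ M σ τ C₁ k v P' := fun v b1 b2 =>
    hok P' v (fun i => (a1 i).trans (hPP' i)) a3 s2 b1 b2
  have hlo : ∀ v : ℚ, g - C * (1 / 2) ^ k ≤ v → A ≤ v := fun v hv => by
    rw [← hr] at hv
    linarith
  have hhi : ∀ v : ℚ, (v : ℝ) ≤ g + C * (1 / 2) ^ k → (v : ℝ) ≤ B := fun v hv => by
    rw [← hr] at hv
    linarith
  refine ⟨g1, hP w a4 (a5'.trans a6), hP w' (a4.trans a5') a6, hP' w a4 (a5'.trans a6),
    hP' w' (a4.trans a5') a6, ?_⟩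
  -- the change of charts
  refine rel_steps (R := fun w w' => Few S f (vg ((w' + q k : ℚ) : ℝ)) (yk k) (Q k w P')
      (Q k w' P') ∧ Few S f (vg ((w' + q k : ℚ) : ℝ)) (yk k) (Q k w' P') (Q k w P'))
    (x := g - C * (1 / 2) ^ k) (z := g + C * (1 / 2) ^ k) (d := δ * (1 / 2) ^ k)
    (by positivity) ?_ ?_ w w' a4 a5 a6
  · intro u u' b1 b2 b3 b4
    have b2' : (u : ℝ) ≤ u' := by exact_mod_cast b2
    exact h.chg k hk1 u u' P' (hlo u b1) b2 (hhi u' b3) b4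
      (hP' u b1 (b2'.trans b3)) (hP' u' (b1.trans b2') b3)
  · intro u v u' b1 b2 b3 b4 h1 h2
    have b2' : (u : ℝ) ≤ v := by exact_mod_cast b2
    have b3' : (v : ℝ) ≤ u' := by exact_mod_cast b3
    have hup := hvg k hk1 v u' b3 (hhi u' b4)
    have xv : Exs S (Q k v P') := h.exs k hk1 v P' (hlo v (b1.trans b2'))
      (hhi v (b3'.trans b4)) (hP' v (b1.trans b2') (b3'.trans b4))
    have f1 := Few.up (f' := f) (y' := yk k) hpos (fun J F => ⟨fun x => x, fun _ => rfl⟩) hup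
      (fun J F => ⟨fun x => x, fun _ => rfl⟩) h1.1
    have f2 := Few.up (f' := f) (y' := yk k) hpos (fun J F => ⟨fun x => x, fun _ => rfl⟩) hup
      (fun J F => ⟨fun x => x, fun _ => rfl⟩) h1.2
    exact ⟨Few.trans hpos xv f1 h2.1, Few.trans hpos xv h2.2 f2⟩

end Pool.LA91
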