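import Pool.Agent.H92.D2.Cel
import Pool.Agent.H91.FR.QpG

/-!
# The entropy fields as a property of the windows

`aePG_qtl`: the property `QTl` holds at almost every window, in a subclass.
-/

set_option autoImplicit false

namespace Pool.LA91

open Pool.PKG

/-- **The property `QTl` holds at almost every window**, in a subclass. -/
theorem aePG_qtl (n : ℕ) : AePG n (QTl n) := by
  intro hn S P r P' Λ PB PQ H hTop hF o G hG hGs
  obtain ⟨S₁, a1, a2, a3⟩ := aePG_fa n hn S P r P' Λ PB PQ H hTop hF o G hG hGs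
  refine ⟨S₁, a1, a2, ?_⟩
  filter_upwards [a3] with g ha hg κ hκ p
  obtain ⟨k₀, hk₀⟩ := ha hg κ hκ (n - 1, p.1, p.2.1, p.2.2)
  exact ⟨k₀, fun h1 h2 h3 h4 => ⟨hk₀.ch (n - 1) (by omega),
    hk₀.tl (show n - 1 < n by omega) h4 h1 h2 h3⟩⟩

end Pool.LA91
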