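import Pool.Agent.H91.FR.FrG

/-!
# The velocities at a small scale are few bits given the velocities at a big scale

`sup_step`: one step; `sup_chain`: the charts at the distance `s₀` from the window `v` of the record,
digits `n + (a + b (d - l)) s₀`, give the charts at the distance `s' ≤ s₀`, digits
`n + (a + b (d - l)) s'`, if the natural digits are nearly constant at all distances between.
-/

set_option autoImplicit false

namespace Pool.LA91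

open Finset Real MvPolynomial
open Pool.Agent.H49.Ent Pool.Agent.H32.Dense Pool.STK Pool.KA Pool.KSAT Pool.K2S Pool.PB Pool.GEN
open Pool.S6C Pool.RCD
open Pool.GRD (LbP)

variable {m : ℕ} {U U' U₂ : Type} {α β γ : ∀ J : ℕ, Fam m J → Type}
  {f : ∀ (J : ℕ) (F : Fam m J), F.Ω → α J F} {g : ∀ (J : ℕ) (F : Fam m J), F.Ω → β J F}
  {y : ∀ (J : ℕ) (F : Fam m J), F.Ω → γ J F} {S : PCl m}

/-- **The set `G` has small gaps and the natural digits are nearly constant** at the distance `s`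
before the window `v`. -/
def Flt (d : ℕ) (sn : ℕ → ℝ → ℝ) (G : Set ℝ) (n : ℕ → ℝ) (ε v s : ℝ) : Prop :=
  (∀ x, v - 2 * s ≤ x → x ≤ v → ∃ v' ∈ G, |v' - x| ≤ ε * s) ∧
    ∀ l < d, ∀ v' ∈ G, v - 2 * s ≤ v' → v' ≤ v → |(sn l v' - v') - n l| ≤ ε * s

/-- **One step.** -/
theorem sup_step {C₀ : ℝ} (htm : TmC S C₀)
    (hpos : ∀ (τ : ℝ) (J : ℕ) (F : Fam m J) (A : F.Ω → Prop), S.St τ J F A → 0 < Pe F.p A)
    {c : ℕ → Fin m} {d : ℕ} {sn : ℕ → ℝ → ℝ} {G : Set ℝ} (hW : ChG S c d sn G)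
    (hf : ∀ (J : ℕ) (F : Fam m J), ∃ φ : α J F → PtT F, ∀ ω, ptr F J ω = φ (f J F ω))
    (hy : Kn ((range 0).image c) 1 1 y) {a b e θ ε : ℝ} (ha : 0 ≤ a) (he : 0 ≤ e) (hθ : 0 ≤ θ)
    (hε : 0 < ε) (hb : θ + 20 * ε + e ≤ b) (hab : a + b * d + e + 2 * θ + 20 * (d + 1) * ε ≤ 1)
    {v s₁ s₂ x₁ x₂ : ℝ} {n N : ℕ → ℝ} (hv : v ≤ 1) (hs : 0 < s₁) (hs2 : (1 - θ) * s₁ ≤ s₂)
    (hs21 : s₂ ≤ s₁) (a1 : x₁ ∈ G) (a2 : x₂ ∈ G) (hx1 : |x₁ - (v - s₁)| ≤ ε * s₁)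
    (hx2 : |x₂ - (v - s₂)| ≤ ε * s₁) (hfl : Flt d sn G n ε v s₁)
    (hN : ∀ l < d, (a + b * ((d : ℝ) - l)) * s₁ ≤ N l - n l ∧
      N l - n l ≤ (a + b * ((d : ℝ) - l)) * s₁ + e * s₁)
    {i : ℕ} (hi : i < d) {N₂ : ℝ} (hN₂ : N₂ - n i ≤ (a + b * ((d : ℝ) - i)) * s₂) :
    Few S f (vg v) y (qG m c d sn x₁ (fun l => N l))
      (qJet m ((range i).image c) (c i) 1 x₂ (sn i x₂) N₂) := by
  obtain ⟨hgap, hflt⟩ := hfl
  have hd0 : (0 : ℝ) ≤ d := Nat.cast_nonneg d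
  have hεs : 0 < ε * s₁ := mul_pos hε hs
  have hθs : 0 ≤ θ * s₁ := mul_nonneg hθ hs.le
  have hes : 0 ≤ e * s₁ := mul_nonneg he hs.le
  have has : 0 ≤ a * s₁ := mul_nonneg ha hs.le
  have hb0 : 0 < b := by linarith
  have hbs : θ * s₁ + 20 * (ε * s₁) + e * s₁ ≤ b * s₁ := by
    have := mul_le_mul_of_nonneg_right hb hs.le
    linarith
  have habs : a * s₁ + b * s₁ * d + e * s₁ + 2 * (θ * s₁) + 20 * (ε * s₁) * (d + 1) ≤ s₁ := by
    have := mul_le_mul_of_nonneg_right hab hs.le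
    linarith
  have hεd : 0 ≤ ε * s₁ * d := by positivity
  have hbd : 0 ≤ b * s₁ * d := by positivity
  -- the staircase
  obtain ⟨t, ht⟩ : ∃ t : ℕ → ℝ, t = fun l : ℕ => a * s₁ + b * s₁ * ((d : ℝ) - l) := ⟨_, rfl⟩
  have ht1 : ∀ l < d, t l ≤ N l - n l ∧ N l - n l ≤ t l + e * s₁ := by
    intro l hl
    obtain ⟨h1, h2⟩ := hN l hl
    rw [ht]
    simp only
    constructor <;> linarith
  have ht2 : ∀ l, t l ≤ a * s₁ + b * s₁ * d := by
    intro l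
    have h1 : 0 ≤ b * s₁ * (l : ℝ) := by positivity
    rw [ht]
    simp only
    linarith
  have ht3 : ∀ l < d, b * s₁ ≤ t l := by
    intro l hl
    have h1 : (l : ℝ) + 1 ≤ d := by exact_mod_cast hl
    have h2 := mul_le_mul_of_nonneg_left h1 (mul_pos hb0 hs).le
    rw [ht]
    simp only
    linarith
  have ht4 : ∀ l l' : ℕ, l < l' → t l' + b * s₁ ≤ t l := by
    intro l l' hl
    have h1 : (l : ℝ) + 1 ≤ l' := by exact_mod_cast hl
    have h2 := mul_le_mul_of_nonneg_left h1 (mul_pos hb0 hs).le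
    rw [ht]
    simp only
    linarith
  have ht5 : N₂ - n i ≤ t i := by
    have h1 : (i : ℝ) + 1 ≤ d := by exact_mod_cast hi
    have h2 : 0 ≤ a + b * ((d : ℝ) - i) := by
      have : 0 ≤ b * ((d : ℝ) - i) := mul_nonneg hb0.le (by linarith)
      linarith
    have h3 := mul_le_mul_of_nonneg_left hs21 h2
    rw [ht]
    simp only
    linarith
  -- the windows
  rw [abs_le] at hx1 hx2
  obtain ⟨W, hWd⟩ : ∃ W : ℝ, W = max x₁ x₂ := ⟨_, rfl⟩
  have hWG : W ∈ G := by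
    rw [hWd]
    rcases max_choice x₁ x₂ with h | h <;> rw [h] <;> assumption
  have hw1 : x₁ ≤ W := by rw [hWd]; exact le_max_left _ _
  have hw2 : x₂ ≤ W := by rw [hWd]; exact le_max_right _ _
  have hWv : W ≤ v - s₁ + θ * s₁ + ε * s₁ := by
    rw [hWd]
    exact max_le (by linarith) (by linarith)
  obtain ⟨o, ho, ho1⟩ := hgap (v - ε * s₁) (by linarith) (by linarith)
  rw [abs_le] at ho1
  have hflo : ∀ l < d, |(sn l o - o) - n l| ≤ ε * s₁ := fun l hl =>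
    hflt l hl o ho (by linarith) (by linarith)
  have hflW : ∀ l < d, |(sn l W - W) - n l| ≤ ε * s₁ := fun l hl =>
    hflt l hl W hWG (by linarith) (by linarith)
  have hiW := abs_le.1 (hflW i hi)
  refine few_velG htm hpos hW hf hy (W := W) (o := o) (φ := 2 * (ε * s₁)) (κ := ε * s₁)
    (σ₀ := ε * s₁) (ρ := θ * s₁ + 2 * (ε * s₁)) (ρ₀ := ε * s₁) a1 a2 hWG ho hw1 hw2
    (by linarith) (by linarith) hv (by positivity) (by positivity) hεs hεs
    (by linarith) (by linarith)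
    (fun v' c1 c2 => hgap v' (by linarith) (by linarith))
    (fun l hl v' hv' c1 c2 => ?_)
    hi (by linarith [(ht1 i hi).1]) (fun l hl => ?_) (fun _ => ⟨fun l hl => ?_,
      fun l' l hl' hl => ?_, fun l hl => ?_, fun l hl => ?_, ?_⟩)
  · have e1 := abs_le.1 (hflt l hl v' hv' (by linarith) (by linarith))
    have e2 := abs_le.1 (hflo l hl)
    rw [abs_le]
    constructor <;> linarith
  · have hld : l < d := hl.trans hi
    have e1 := (ht1 l hld).2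
    have e2 := abs_le.1 (hflo l hld)
    have e3 := ht2 l
    have e4 : (l : ℝ) + 1 ≤ d := by exact_mod_cast hld
    have e5 := mul_le_mul_of_nonneg_left e4 hεs.le
    linarith
  · have hld : l < d := hl.trans hi
    have e1 := (ht1 l hld).1
    have e2 := abs_le.1 (hflW l hld)
    have e3 := ht4 l i hl
    linarith
  · have hld : l < d := hl.trans hi
    have hld' : l' < d := hl'.trans hld
    have e1 := (ht1 l hld).2
    have e1' := (ht1 l' hld').1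
    have e2 := abs_le.1 (hflW l hld)
    have e2' := abs_le.1 (hflW l' hld')
    have e3 := ht4 l' l hl'
    linarith
  · have hld : l < d := hl.trans hi
    have e1 := (ht1 l hld).2
    have e2 := abs_le.1 (hflW l hld)
    have e3 := ht2 l
    linarith
  · have hld : l < d := hl.trans hi
    have e1 := (ht1 l hld).1
    have e2 := abs_le.1 (hflW l hld)
    have e3 := ht3 l hld
    linarith
  · have e3 := ht2 i
    linarith

/-- **The velocities at a small scale from those at a big scale.** -/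
theorem sup_chain {C₀ : ℝ} (htm : TmC S C₀)
    (hpos : ∀ (τ : ℝ) (J : ℕ) (F : Fam m J) (A : F.Ω → Prop), S.St τ J F A → 0 < Pe F.p A)
    {c : ℕ → Fin m} {d : ℕ} {sn : ℕ → ℝ → ℝ} {G : Set ℝ} (hW : ChG S c d sn G)
    (hf : ∀ (J : ℕ) (F : Fam m J), ∃ φ : α J F → PtT F, ∀ ω, ptr F J ω = φ (f J F ω))
    (hy : Kn ((range 0).image c) 1 1 y) {a b e θ ε : ℝ} (ha : 0 ≤ a) (he : 0 ≤ e) (hθ : 0 ≤ θ)
    (hε : 0 < ε) (hb : θ + 20 * ε + e ≤ b) (hab : a + b * d + e + 2 * θ + 20 * (d + 1) * ε ≤ 1)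
    {v s' x' : ℝ} {n : ℕ → ℝ} (hv : v ≤ 1) (hs' : 0 < s') (hx'G : x' ∈ G)
    (hx' : |x' - (v - s')| ≤ ε * s') {i : ℕ} (hi : i < d) {N₂ : ℝ}
    (hN₂ : N₂ - n i ≤ (a + b * ((d : ℝ) - i)) * s') (k : ℕ) :
    ∀ (s₀ x₀ : ℝ) (N : ℕ → ℝ), s' ≤ s₀ → (1 - θ) ^ k * s₀ ≤ s' →
    (∀ s, s' ≤ s → s ≤ s₀ → Flt d sn G n ε v s) → x₀ ∈ G → |x₀ - (v - s₀)| ≤ ε * s₀ →
    (∀ l < d, (a + b * ((d : ℝ) - l)) * s₀ ≤ N l - n l ∧
      N l - n l ≤ (a + b * ((d : ℝ) - l)) * s₀ + e * s₀) →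
    Few S f (vg v) y (qG m c d sn x₀ (fun l => N l))
      (qJet m ((range i).image c) (c i) 1 x' (sn i x') N₂) := by
  have hd0 : (0 : ℝ) ≤ d := Nat.cast_nonneg d
  have hb0 : 0 < b := by linarith
  have hθ1 : θ < 1 := by
    have : 0 ≤ b * d := by positivity
    have : 0 < 20 * ((d : ℝ) + 1) * ε := by positivity
    linarith
  have one : ∀ (s₀ x₀ : ℝ) (N : ℕ → ℝ), s' ≤ s₀ → (1 - θ) * s₀ ≤ s' →
      (∀ s, s' ≤ s → s ≤ s₀ → Flt d sn G n ε v s) → x₀ ∈ G → |x₀ - (v - s₀)| ≤ ε * s₀ →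
      (∀ l < d, (a + b * ((d : ℝ) - l)) * s₀ ≤ N l - n l ∧
        N l - n l ≤ (a + b * ((d : ℝ) - l)) * s₀ + e * s₀) →
      Few S f (vg v) y (qG m c d sn x₀ (fun l => N l))
        (qJet m ((range i).image c) (c i) 1 x' (sn i x') N₂) := by
    intro s₀ x₀ N h1 h2 h3 h4 h5 h6
    exact sup_step htm hpos hW hf hy ha he hθ hε hb hab hv (hs'.trans_le h1) h2 h1 h4 hx'G h5
      (hx'.trans (mul_le_mul_of_nonneg_left h1 hε.le)) (h3 s₀ h1 le_rfl) h6 hi hN₂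
  induction k with
  | zero =>
    intro s₀ x₀ N h1 h2 h3 h4 h5 h6
    rw [pow_zero, one_mul] at h2
    have h7 : 0 ≤ θ * s₀ := mul_nonneg hθ (hs'.trans_le h1).le
    exact one s₀ x₀ N h1 (by linarith) h3 h4 h5 h6
  | succ k ih =>
    intro s₀ x₀ N h1 h2 h3 h4 h5 h6
    rcases le_or_gt ((1 - θ) * s₀) s' with h7 | h7
    · exact one s₀ x₀ N h1 h7 h3 h4 h5 h6
    have hs0 : 0 < s₀ := hs'.trans_le h1
    have h7a : 0 ≤ θ * s₀ := mul_nonneg hθ hs0.le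
    obtain ⟨s₁, hs₁⟩ : ∃ s₁ : ℝ, s₁ = (1 - θ) * s₀ := ⟨_, rfl⟩
    rw [← hs₁] at h7
    have h8 : s₁ ≤ s₀ := by rw [hs₁]; linarith
    have hs10 : 0 < s₁ := hs'.trans h7
    obtain ⟨x₁, hx1, hx1'⟩ := (h3 s₁ h7.le h8).1 (v - s₁) (by linarith) (by linarith)
    obtain ⟨N₁, hN₁⟩ : ∃ N₁ : ℕ → ℝ, N₁ = fun l : ℕ => n l + (a + b * ((d : ℝ) - l)) * s₁ :=
      ⟨_, rfl⟩
    have hmid : Exs S (qG m c d sn x₁ (fun l => N₁ l)) := by
      obtain ⟨u₁, rd, hrd, hch⟩ := hW.ch x₁ hx1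
      exact exs_pi fun i => exs_jet (hrd i i.2) (hch.att i (Nat.zero_le _) i.2)
    refine Few.trans hpos hmid (few_pi hpos fun l => ?_) (ih s₁ x₁ N₁ h7.le ?_
      (fun s c1 c2 => h3 s c1 (c2.trans h8)) hx1 hx1' fun l hl => ?_)
    · refine sup_step htm hpos hW hf hy ha he hθ hε hb hab hv hs0 (by rw [hs₁]) h8 h4 hx1 h5
        (hx1'.trans (mul_le_mul_of_nonneg_left h8 hε.le)) (h3 s₀ h1 le_rfl) h6 l.2 ?_
      rw [hN₁]
      simp only
      linarith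
    · rw [hs₁, ← mul_assoc, ← pow_succ]
      exact h2
    · rw [hN₁]
      simp only
      have h9 : 0 ≤ e * s₁ := mul_nonneg he hs10.le
      constructor <;> linarith

end Pool.LA91
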